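import Pool.Agent.Ruler.Boundary

open Set MeasureTheory Metric
namespace Pool.Agent.Ruler

/-- The disc of diameter one. -/
def disc : Set ℂ := closedBall (0:ℂ) (1/2)

theorem disc_convex : Convex ℝ disc := convex_closedBall _ _

theorem disc_isCase : IsCase disc := by
  have h := isCase_iUnion (ι := Unit) (K := fun _ => disc) (Z := 0) (r := 1/2) (by norm_num)
    (fun _ => disc_convex) (fun _ => Subset.rfl)
    (by rw [iUnion_const]; exact isCompact_closedBall _ _)
  rwa [iUnion_const] at h

theorem disc_diam : diam disc = 1 := by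
  rw [disc, Metric.diam_closedBall_eq (0:ℂ) (by norm_num)]
  norm_num

theorem disc_universal : Universal disc := by
  have hG : ∀ t : ℝ, ‖(1/2 : ℂ) * Complex.exp (t * Complex.I)‖ = 1/2 := by
    intro t
    rw [norm_mul, Complex.norm_exp_ofReal_mul_I]
    norm_num
  refine universal_of_path (a := 0) (b := 2 * Real.pi) (by positivity)
    (G := fun t => (1/2 : ℂ) * Complex.exp (t * Complex.I)) (by fun_prop) ?_
  have key : ∀ s s' : ℝ, (s' = s + Real.pi ∨ s' = s - Real.pi) →
      dist ((1/2 : ℂ) * Complex.exp (s * Complex.I)) ((1/2 : ℂ) * Complex.exp (s' * Complex.I))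
        = 1 := by
    intro s s' h
    have : Complex.exp (s' * Complex.I) = - Complex.exp (s * Complex.I) := by
      rcases h with rfl | rfl
      · push_cast
        rw [add_mul, Complex.exp_add, Complex.exp_pi_mul_I]; ring
      · push_cast
        rw [sub_mul, Complex.exp_sub, Complex.exp_pi_mul_I]; ring
    rw [this, dist_eq_norm]
    have : (1/2 : ℂ) * Complex.exp (s * Complex.I) - 1/2 * -Complex.exp (s * Complex.I)
      = Complex.exp (s * Complex.I) := by ring
    rw [this, Complex.norm_exp_ofReal_mul_I]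
  intro s hs
  have hpi := Real.pi_pos
  obtain ⟨s', hs', h⟩ : ∃ s' ∈ Icc (0:ℝ) (2 * Real.pi), (s' = s + Real.pi ∨ s' = s - Real.pi) := by
    rcases le_total s Real.pi with h | h
    · exact ⟨s + Real.pi, ⟨by linarith [hs.1], by linarith⟩, Or.inl rfl⟩
    · exact ⟨s - Real.pi, ⟨by linarith, by linarith [hs.2]⟩, Or.inr rfl⟩
  refine ⟨s', hs', key s s' h, fun τ _ => ?_⟩
  apply disc_convex.segment_subset
  · rw [disc, mem_closedBall_zero_iff]; exact (hG s).le
  · rw [disc, mem_closedBall_zero_iff]; exact (hG τ).le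

end Pool.Agent.Ruler
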