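import Pool.Agent.Ruler.SFan

/-!
MP_067807_co: the concrete rational data of the simple case and the area bound.
-/

open Set MeasureTheory

namespace Pool.Agent.Ruler.Simp

/-- direction number `k` (the angle `2 arctan (k/16)`) -/
def eQ (k : ℤ) : ℚ × ℚ := ((256 - k ^ 2) / (256 + k ^ 2), 32 * k / (256 + k ^ 2))

/-- intersection of the tangents of the unit circle at the directions `j-1`, `j` -/
def tQ (j : ℤ) : ℚ × ℚ :=
  ((256 - j * (j - 1)) / (256 + j * (j - 1)), 16 * (2 * j - 1) / (256 + j * (j - 1)))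

/-- switching angles and weights (times 2848) -/
def wts : List (ℤ × ℚ) :=
  [(-7, 305), (-5, 281), (-3, 265), (-2, 260), (-1, 257), (0, 112), (1, 257), (2, 260), (3, 265),
    (5, 281), (7, 305)]

/-- right end of the chord number `k` -/
def xQ (k : ℤ) : ℚ × ℚ :=
  ((wts.map fun p => p.2 / 2848 * (eQ (min k p.1)).1).sum,
    (wts.map fun p => p.2 / 2848 * (eQ (min k p.1)).2).sum)

/-- left end of the chord number `k` -/
def yQ (k : ℤ) : ℚ × ℚ := ((xQ k).1 - (eQ k).1, (xQ k).2 - (eQ k).2)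

/-- pivots -/
def pQ (i : ℕ) : ℚ × ℚ :=
  (((wts.take i).map fun p => p.2 / 2848 * (eQ p.1).1).sum,
    ((wts.take i).map fun p => p.2 / 2848 * (eQ p.1).2).sum)

/-- pivot of the chords between the directions `j-1` and `j` -/
def oQ (j : ℤ) : ℚ × ℚ :=
  (((wts.filter fun p => p.1 < j).map fun p => p.2 / 2848 * (eQ p.1).1).sum,
    ((wts.filter fun p => p.1 < j).map fun p => p.2 / 2848 * (eQ p.1).2).sum)

def rQ (j : ℤ) : ℚ := ((wts.filter fun p => j ≤ p.1).map fun p => p.2 / 2848).sum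

def vQ (j : ℤ) : ℚ × ℚ := ((oQ j).1 + rQ j * (tQ j).1, (oQ j).2 + rQ j * (tQ j).2)

def vQ' (j : ℤ) : ℚ × ℚ := ((oQ j).1 - (1 - rQ j) * (tQ j).1, (oQ j).2 - (1 - rQ j) * (tQ j).2)

/-- the vertices of the outer polygon, seen from `C = eQ (-10)` in counterclockwise order -/
def polyQ : List (ℚ × ℚ) :=
  (List.range 17).map (fun i => vQ ((i:ℤ) - 9)) ++ (List.range 12).map (fun i => pQ (11 - i)) ++
    (List.range 17).map (fun i => vQ' ((i:ℤ) - 6))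

def crQ (u v : ℚ × ℚ) : ℚ := u.1 * v.2 - u.2 * v.1

def subQ (u v : ℚ × ℚ) : ℚ × ℚ := (u.1 - v.1, u.2 - v.2)

def cQ : ℚ × ℚ := (39 / 89, -80 / 89)

/-- vertex number `i` -/
def vtx (i : ℕ) : ℚ × ℚ := polyQ.getD i (0, 0)

/-- value at `z` of the outer functional of direction `k` (right side) -/
def gQ (k : ℤ) (z : ℚ × ℚ) : ℚ := (z.1 - (xQ k).1) * (eQ k).1 + (z.2 - (xQ k).2) * (eQ k).2

/-- value at `z` of the outer functional of direction `k` (left side) -/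
def gQ' (k : ℤ) (z : ℚ × ℚ) : ℚ := -((z.1 - (yQ k).1) * (eQ k).1 + (z.2 - (yQ k).2) * (eQ k).2)

/-- value at `z` of the chord functional number `k` -/
def fQ (k : ℤ) (z : ℚ × ℚ) : ℚ := -(z.1 - (xQ k).1) * (eQ k).2 + (z.2 - (xQ k).2) * (eQ k).1

theorem check_cr : ∀ i : ℕ, i < 45 → 0 < crQ (subQ (vtx i) cQ) (subQ (vtx (i + 1)) cQ) := by
  decide +kernel

theorem check_area : (∑ i ∈ Finset.range 45,
    crQ (subQ (vtx i) cQ) (subQ (vtx (i + 1)) cQ) / 2) ≤ 558 / 1000 := by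
  decide +kernel

theorem check_right : ∀ i : ℕ, i < 17 → gQ ((i:ℤ) - 9) cQ < 0 ∧ 0 ≤ gQ ((i:ℤ) - 9) (vtx i) ∧
    0 ≤ gQ ((i:ℤ) - 9) (vtx (i + 1)) := by
  decide +kernel

theorem check_left : ∀ i : ℕ, i < 17 → gQ' ((i:ℤ) - 7) cQ < 0 ∧ 0 ≤ gQ' ((i:ℤ) - 7) (vtx (i + 28)) ∧
    0 ≤ gQ' ((i:ℤ) - 7) (vtx (i + 29)) := by
  decide +kernel

theorem check_notch : ∀ p ∈ wts, fQ p.1 cQ < 0 ∧ ∀ i : ℕ, i < 12 → 0 ≤ fQ p.1 (vtx (i + 17)) := by
  decide +kernel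

theorem check_start : (vtx 0).1 - cQ.1 = (-(eQ (-10)).2) * ((vtx 0).2 - cQ.2) / (eQ (-10)).1 ∧
    0 < (vtx 0).2 - cQ.2 ∧ 0 < (eQ (-10)).1 ∧ xQ (-10) = cQ := by
  decide +kernel

theorem check_end : (vtx 45).1 - cQ.1 = (-(eQ 10).2) * ((vtx 45).2 - cQ.2) / (eQ 10).1 ∧
    0 < (vtx 45).2 - cQ.2 ∧ 0 < (eQ 10).1 ∧ yQ 10 = cQ := by
  decide +kernel

/-- a rational point -/
def cc (p : ℚ × ℚ) : ℂ := ⟨(p.1 : ℝ), (p.2 : ℝ)⟩

theorem cr_cc (a b c : ℚ × ℚ) :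
    cr (cc a - cc c) (cc b - cc c) = ((crQ (subQ a c) (subQ b c) : ℚ) : ℝ) := by
  simp only [cr, cc, crQ, subQ, Complex.sub_re, Complex.sub_im]
  push_cast
  ring

theorem gQ_cast (k : ℤ) (z : ℚ × ℚ) : ((gQ k z : ℚ) : ℝ) =
    ((cc z).re - (cc (xQ k)).re) * (cc (eQ k)).re + ((cc z).im - (cc (xQ k)).im) * (cc (eQ k)).im := by
  simp only [gQ, cc]
  push_cast
  ring

theorem gQ'_cast (k : ℤ) (z : ℚ × ℚ) : ((gQ' k z : ℚ) : ℝ) =
    -(((cc z).re - (cc (yQ k)).re) * (cc (eQ k)).re +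
      ((cc z).im - (cc (yQ k)).im) * (cc (eQ k)).im) := by
  simp only [gQ', cc]
  push_cast
  ring

theorem fQ_cast (k : ℤ) (z : ℚ × ℚ) : ((fQ k z : ℚ) : ℝ) =
    -((cc z).re - (cc (xQ k)).re) * (cc (eQ k)).im +
      ((cc z).im - (cc (xQ k)).im) * (cc (eQ k)).re := by
  simp only [fQ, cc]
  push_cast
  ring

/-- **The area bound.** -/
theorem area_le {S : Set ℂ}
    (hA : ∀ z ∈ S, ∀ k : ℤ, -10 ≤ k → k ≤ 10 →
      (z.re - (cc (xQ k)).re) * (cc (eQ k)).re + (z.im - (cc (xQ k)).im) * (cc (eQ k)).im ≤ 0)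
    (hB : ∀ z ∈ S, ∀ k : ℤ, -10 ≤ k → k ≤ 10 →
      0 ≤ (z.re - (cc (yQ k)).re) * (cc (eQ k)).re + (z.im - (cc (yQ k)).im) * (cc (eQ k)).im)
    (hC : ∀ z ∈ S, ∃ p ∈ wts, -(z.re - (cc (xQ p.1)).re) * (cc (eQ p.1)).im +
      (z.im - (cc (xQ p.1)).im) * (cc (eQ p.1)).re ≤ 0) :
    volume S ≤ ENNReal.ofReal 0.558 := by
  have hsum : (∑ i ∈ Finset.range 45,
      cr (cc (vtx i) - cc cQ) (cc (vtx (i + 1)) - cc cQ) / 2) ≤ (0.558 : ℝ) := by
    have h1 : ((∑ i ∈ Finset.range 45,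
        crQ (subQ (vtx i) cQ) (subQ (vtx (i + 1)) cQ) / 2 : ℚ) : ℝ) ≤ ((558 / 1000 : ℚ) : ℝ) :=
      Rat.cast_le.2 check_area
    rw [Rat.cast_sum] at h1
    refine (le_of_eq (Finset.sum_congr rfl fun i _ => ?_)).trans (h1.trans (by norm_num))
    rw [cr_cc]
    push_cast
    ring
  refine (volume_le_fan (C := cc cQ) (n := 45) (by norm_num) (fun i => cc (vtx i)) ?_ ?_ ?_ ?_).trans
    (ENNReal.ofReal_le_ofReal hsum)
  · intro i hi
    rw [cr_cc]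
    exact_mod_cast check_cr i hi
  · intro z hz
    obtain ⟨h1, h2, h3, h4⟩ := check_start
    have h := hA z hz (-10) (by norm_num) (by norm_num)
    rw [h4] at h
    have h1' : (cc (vtx 0)).re - (cc cQ).re =
        (-(cc (eQ (-10))).im) * ((cc (vtx 0)).im - (cc cQ).im) / (cc (eQ (-10))).re := by
      simp only [cc]; exact_mod_cast h1
    have h2' : 0 < (cc (vtx 0)).im - (cc cQ).im := by simp only [cc]; exact_mod_cast h2
    have h3' : 0 < (cc (eQ (-10))).re := by simp only [cc]; exact_mod_cast h3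
    have : cr (cc (vtx 0) - cc cQ) (z - cc cQ) =
        -((z.re - (cc cQ).re) * (cc (eQ (-10))).re + (z.im - (cc cQ).im) * (cc (eQ (-10))).im) *
          (((cc (vtx 0)).im - (cc cQ).im) / (cc (eQ (-10))).re) := by
      simp only [cr, Complex.sub_re, Complex.sub_im]
      rw [h1']
      field_simp
      ring
    rw [this]
    apply mul_nonneg (by linarith) (by positivity)
  · intro z hz
    obtain ⟨h1, h2, h3, h4⟩ := check_end
    have h := hB z hz 10 (by norm_num) (by norm_num)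
    rw [h4] at h
    have h1' : (cc (vtx 45)).re - (cc cQ).re =
        (-(cc (eQ 10)).im) * ((cc (vtx 45)).im - (cc cQ).im) / (cc (eQ 10)).re := by
      simp only [cc]; exact_mod_cast h1
    have h2' : 0 < (cc (vtx 45)).im - (cc cQ).im := by simp only [cc]; exact_mod_cast h2
    have h3' : 0 < (cc (eQ 10)).re := by simp only [cc]; exact_mod_cast h3
    have : cr (cc (vtx 45) - cc cQ) (z - cc cQ) =
        -((z.re - (cc cQ).re) * (cc (eQ 10)).re + (z.im - (cc cQ).im) * (cc (eQ 10)).im) *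
          (((cc (vtx 45)).im - (cc cQ).im) / (cc (eQ 10)).re) := by
      simp only [cr, Complex.sub_re, Complex.sub_im]
      rw [h1']
      field_simp
      ring
    rw [this]
    have : 0 < ((cc (vtx 45)).im - (cc cQ).im) / (cc (eQ 10)).re := by positivity
    nlinarith
  · intro z hz i hi
    rcases lt_or_ge i 17 with h17 | h17
    · obtain ⟨g1, g2, g3⟩ := check_right i h17
      have k1 := gQ_cast ((i:ℤ) - 9) cQ
      have k2 := gQ_cast ((i:ℤ) - 9) (vtx i)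
      have k3 := gQ_cast ((i:ℤ) - 9) (vtx (i + 1))
      have g1' : ((gQ ((i:ℤ) - 9) cQ : ℚ) : ℝ) < 0 := by exact_mod_cast g1
      have g2' : (0:ℝ) ≤ ((gQ ((i:ℤ) - 9) (vtx i) : ℚ) : ℝ) := by exact_mod_cast g2
      have g3' : (0:ℝ) ≤ ((gQ ((i:ℤ) - 9) (vtx (i + 1)) : ℚ) : ℝ) := by exact_mod_cast g3
      have h := hA z hz ((i:ℤ) - 9) (by omega) (by omega)
      refine ⟨(cc (eQ ((i:ℤ) - 9))).re, (cc (eQ ((i:ℤ) - 9))).im,
        -((cc (xQ ((i:ℤ) - 9))).re * (cc (eQ ((i:ℤ) - 9))).re +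
          (cc (xQ ((i:ℤ) - 9))).im * (cc (eQ ((i:ℤ) - 9))).im), ?_, ?_, ?_, ?_⟩ <;> linarith
    · rcases lt_or_ge i 28 with h28 | h28
      · obtain ⟨p, hp, hpz⟩ := hC z hz
        obtain ⟨g1, g23⟩ := check_notch p hp
        have g2 := g23 (i - 17) (by omega)
        have g3 := g23 (i - 17 + 1) (by omega)
        rw [show i - 17 + 17 = i by omega] at g2
        rw [show i - 17 + 1 + 17 = i + 1 by omega] at g3
        have k1 := fQ_cast p.1 cQ
        have k2 := fQ_cast p.1 (vtx i)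
        have k3 := fQ_cast p.1 (vtx (i + 1))
        have g1' : ((fQ p.1 cQ : ℚ) : ℝ) < 0 := by exact_mod_cast g1
        have g2' : (0:ℝ) ≤ ((fQ p.1 (vtx i) : ℚ) : ℝ) := by exact_mod_cast g2
        have g3' : (0:ℝ) ≤ ((fQ p.1 (vtx (i + 1)) : ℚ) : ℝ) := by exact_mod_cast g3
        refine ⟨-(cc (eQ p.1)).im, (cc (eQ p.1)).re,
          (cc (xQ p.1)).re * (cc (eQ p.1)).im - (cc (xQ p.1)).im * (cc (eQ p.1)).re,
          ?_, ?_, ?_, ?_⟩ <;> linarith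
      · obtain ⟨g1, g2, g3⟩ := check_left (i - 28) (by omega)
        rw [show ((i - 28 : ℕ) : ℤ) - 7 = (i:ℤ) - 35 by omega] at g1 g2 g3
        rw [show i - 28 + 28 = i by omega] at g2
        rw [show i - 28 + 29 = i + 1 by omega] at g3
        have k1 := gQ'_cast ((i:ℤ) - 35) cQ
        have k2 := gQ'_cast ((i:ℤ) - 35) (vtx i)
        have k3 := gQ'_cast ((i:ℤ) - 35) (vtx (i + 1))
        have g1' : ((gQ' ((i:ℤ) - 35) cQ : ℚ) : ℝ) < 0 := by exact_mod_cast g1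
        have g2' : (0:ℝ) ≤ ((gQ' ((i:ℤ) - 35) (vtx i) : ℚ) : ℝ) := by exact_mod_cast g2
        have g3' : (0:ℝ) ≤ ((gQ' ((i:ℤ) - 35) (vtx (i + 1)) : ℚ) : ℝ) := by exact_mod_cast g3
        have h := hB z hz ((i:ℤ) - 35) (by omega) (by omega)
        refine ⟨-(cc (eQ ((i:ℤ) - 35))).re, -(cc (eQ ((i:ℤ) - 35))).im,
          ((cc (yQ ((i:ℤ) - 35))).re * (cc (eQ ((i:ℤ) - 35))).re +
            (cc (yQ ((i:ℤ) - 35))).im * (cc (eQ ((i:ℤ) - 35))).im), ?_, ?_, ?_, ?_⟩ <;> linarith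

end Pool.Agent.Ruler.Simp
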