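import Pool.Agent.Ruler.Simple1
import Pool.Agent.Ruler.SNum

/-!
MP_067807_co: the concrete profile of the simple case.
-/

open Set MeasureTheory Metric

namespace Pool.Agent.Ruler.Simp

/-- the angle number `k` -/
noncomputable def ang (k : ℤ) : ℝ := 2 * Real.arctan (k / 16)

theorem ang_strictMono : StrictMono ang := by
  intro j k h
  have h1 : ((j:ℝ) / 16) < (k:ℝ) / 16 := by
    have : (j:ℝ) < k := by exact_mod_cast h
    linarith
  have := Real.arctan_strictMono h1
  simp only [ang]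
  linarith

theorem ang_neg (k : ℤ) : ang (-k) = -ang k := by
  simp only [ang, Int.cast_neg, neg_div, Real.arctan_neg]
  ring

theorem ang_min (j k : ℤ) : min (ang j) (ang k) = ang (min j k) :=
  (ang_strictMono.monotone.map_min).symm

theorem cos_ang (k : ℤ) : Real.cos (ang k) = (256 - k ^ 2) / (256 + k ^ 2) := by
  have h : (256:ℝ) + k ^ 2 ≠ 0 := by positivity
  rw [ang, Real.cos_two_mul, Real.cos_sq_arctan]
  field_simp
  ring

theorem sin_ang (k : ℤ) : Real.sin (ang k) = 32 * k / (256 + k ^ 2) := by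
  have h : (256:ℝ) + k ^ 2 ≠ 0 := by positivity
  have h0 : Real.cos (Real.arctan ((k:ℝ) / 16)) ≠ 0 := (Real.cos_arctan_pos _).ne'
  have h1 : Real.sin (Real.arctan ((k:ℝ) / 16)) =
      (k:ℝ) / 16 * Real.cos (Real.arctan ((k:ℝ) / 16)) := by
    have := Real.tan_arctan ((k:ℝ) / 16)
    rw [Real.tan_eq_sin_div_cos, div_eq_iff h0] at this
    exact this
  rw [ang, Real.sin_two_mul, h1]
  have h2 := Real.cos_sq_arctan ((k:ℝ) / 16)
  have h3 : 2 * ((k:ℝ) / 16 * Real.cos (Real.arctan ((k:ℝ) / 16))) *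
      Real.cos (Real.arctan ((k:ℝ) / 16)) =
      2 * ((k:ℝ) / 16) * Real.cos (Real.arctan ((k:ℝ) / 16)) ^ 2 := by ring
  rw [h3, h2]
  field_simp
  ring

theorem e_ang (k : ℤ) : e (ang k) = cc (eQ k) := by
  apply Complex.ext
  · rw [e_re, cos_ang]
    simp only [cc, eQ]
    push_cast
    rfl
  · rw [e_im, sin_ang]
    simp only [cc, eQ]
    push_cast
    rfl

/-- the switching angles -/
def key (i : Fin 11) : ℤ := (wts.getD i (0, 0)).1

/-- the weights -/
def wt (i : Fin 11) : ℚ := (wts.getD i (0, 0)).2 / 2848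

theorem sum_wt (g : ℤ → ℚ × ℚ) : ∑ i, ((wt i : ℚ) : ℝ) • cc (g (key i)) =
    cc ((wts.map fun p => p.2 / 2848 * (g p.1).1).sum,
      (wts.map fun p => p.2 / 2848 * (g p.1).2).sum) := by
  apply Complex.ext
  · simp only [Fin.sum_univ_succ, wt, key, wts, cc]
    simp
  · simp only [Fin.sum_univ_succ, wt, key, wts, cc]
    simp

theorem cos_five_pi_div_twelve_lt : Real.cos (5 * Real.pi / 12) < 39 / 89 := by
  have h : 5 * Real.pi / 12 = Real.pi / 2 - Real.pi / 12 := by ring
  rw [h, Real.cos_pi_div_two_sub]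
  have h1 := Real.sin_lt (x := Real.pi / 12) (by positivity)
  have h2 := Real.pi_lt_d2
  linarith

theorem ang_ten_le : ang 10 ≤ 5 * Real.pi / 12 := by
  by_contra hcon
  push Not at hcon
  have hpi := Real.pi_pos
  have h1 : ang 10 ≤ Real.pi := by
    have := Real.arctan_lt_pi_div_two ((10:ℤ) / 16 : ℝ)
    simp only [ang]
    linarith
  have h2 := Real.cos_lt_cos_of_nonneg_of_le_pi (by positivity) h1 hcon
  have h3 := cos_ang 10
  have h4 := cos_five_pi_div_twelve_lt
  norm_num at h3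
  linarith

/-- The concrete profile. -/
noncomputable def prof : Prof (Fin 11) where
  w := fun i => (wt i : ℝ)
  th := fun i => ang (key i)
  a := ang (-10)
  b := ang 10
  hw := fun i => by
    have : ∀ i, 0 ≤ wt i := by decide +kernel
    exact_mod_cast this i
  hsum := by
    have : ∑ i, wt i = 1 := by decide +kernel
    exact_mod_cast this
  ha := fun i => ang_strictMono.monotone (by revert i; decide)
  hb := fun i => ang_strictMono.monotone (by revert i; decide)
  hab := ang_strictMono (by norm_num)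
  hba := by
    rw [ang_neg]
    linarith [ang_ten_le]
  clos := by
    simp only [e_ang]
    rw [sum_wt]
    have h : ((wts.map fun p => p.2 / 2848 * (eQ p.1).1).sum,
      (wts.map fun p => p.2 / 2848 * (eQ p.1).2).sum) =
      ((eQ (-10)).1 + (eQ 10).1, (eQ (-10)).2 + (eQ 10).2) := by decide +kernel
    rw [h]
    apply Complex.ext
    · simp [cc]
    · simp [cc]

theorem prof_X (k : ℤ) : prof.X (ang k) = cc (xQ k) := by
  have h : prof.X (ang k) = ∑ i, ((wt i : ℚ) : ℝ) • cc (eQ (min k (key i))) := by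
    simp only [Prof.X, ← e_ang, ← ang_min]
    rfl
  rw [h, sum_wt (fun j => eQ (min k j))]
  rfl

theorem prof_Y (k : ℤ) : prof.Y (ang k) = cc (yQ k) := by
  rw [Prof.Y, prof_X, e_ang]
  apply Complex.ext <;> simp [cc, yQ]

theorem prof_f (k : ℤ) (z : ℂ) : prof.f (ang k) z =
    -(z.re - (cc (xQ k)).re) * (cc (eQ k)).im + (z.im - (cc (xQ k)).im) * (cc (eQ k)).re := by
  rw [Prof.f, prof_X, ← e_ang, e_re, e_im, Complex.sub_re, Complex.sub_im]
  ring

theorem zero_mem_prof : (0:ℝ) ∈ Icc prof.a prof.b := by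
  have h : ang 0 = 0 := by simp [ang]
  rw [← h]
  exact ⟨ang_strictMono.monotone (by norm_num), ang_strictMono.monotone (by norm_num)⟩

theorem ang_zero : ang 0 = 0 := by simp [ang]

theorem xQ_zero : xQ 0 = (167 / 178, -18 / 89) := by decide +kernel

theorem yQ_zero : yQ 0 = (-11 / 178, -18 / 89) := by decide +kernel

theorem prof_ball_H : closedBall (⟨39 / 89, -7 / 10⟩ : ℂ) (1 / 100) ⊆ prof.H := by
  intro z hz
  rw [mem_closedBall, dist_eq_norm] at hz
  have h1 := (Complex.abs_re_le_norm _).trans hz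
  have h2 := (Complex.abs_im_le_norm _).trans hz
  rw [Complex.sub_re] at h1
  rw [Complex.sub_im] at h2
  simp only at h1 h2
  obtain ⟨h1a, h1b⟩ := abs_le.1 h1
  obtain ⟨h2a, h2b⟩ := abs_le.1 h2
  have hA : prof.X (ang 0) ∈ prof.H := prof.X_mem_H (by rw [ang_zero]; exact zero_mem_prof)
  have hB : prof.Y (ang 0) ∈ prof.H := prof.Y_mem_H (by rw [ang_zero]; exact zero_mem_prof)
  have hC : prof.X (ang (-10)) ∈ prof.H := prof.X_mem_H ⟨le_rfl, prof.hab.le⟩
  set s : ℝ := (z.im + 80 / 89) / (62 / 89) with hs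
  have hs1 : s * (62 / 89) = z.im + 80 / 89 := by rw [hs]; field_simp
  have hs2 : (0:ℝ) ≤ s / 2 + (z.re - 39 / 89) := by
    have : (1 / 4 : ℝ) ≤ s := by
      by_contra hc
      push Not at hc
      linarith
    linarith
  have hs3 : (0:ℝ) ≤ s / 2 - (z.re - 39 / 89) := by
    have : (1 / 4 : ℝ) ≤ s := by
      by_contra hc
      push Not at hc
      linarith
    linarith
  have hs4 : (0:ℝ) ≤ 1 - s := by
    by_contra hc
    push Not at hc
    linarith
  have hz2 : z = (1 - s) • prof.X (ang (-10)) + (s / 2 + (z.re - 39 / 89)) • prof.X (ang 0) +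
      (s / 2 - (z.re - 39 / 89)) • prof.Y (ang 0) := by
    rw [prof_X, prof_X, prof_Y, xQ_zero, yQ_zero, check_start.2.2.2]
    apply Complex.ext
    · simp only [cc, cQ, Complex.add_re, Complex.real_smul, Complex.mul_re, Complex.ofReal_re,
        Complex.ofReal_im, zero_mul, sub_zero]
      push_cast
      ring
    · simp only [cc, cQ, Complex.add_im, Complex.real_smul, Complex.mul_im, Complex.ofReal_re,
        Complex.ofReal_im, zero_mul, add_zero]
      push_cast
      linear_combination -hs1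
  rw [hz2]
  have hconv := prof.convex_H
  have := hconv.sum_mem (t := Finset.univ) (w := ![1 - s, s / 2 + (z.re - 39 / 89),
    s / 2 - (z.re - 39 / 89)]) (z := ![prof.X (ang (-10)), prof.X (ang 0), prof.Y (ang 0)])
    (by intro i _; fin_cases i <;> simp <;> linarith) (by simp [Fin.sum_univ_succ])
    (by intro i _; fin_cases i <;> simp <;> assumption)
  simpa [Fin.sum_univ_succ, add_assoc] using this

theorem check_disc : ∀ i : Fin 11, fQ (key i) (39 / 89, -7 / 10) ≤ -1 / 10 := by
  decide +kernel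

theorem prof_ball (i : Fin 11) : closedBall (⟨39 / 89, -7 / 10⟩ : ℂ) (1 / 100) ⊆
    prof.H ∩ {z | prof.f (prof.th i) z ≤ 0} := by
  intro z hz
  refine ⟨prof_ball_H hz, ?_⟩
  show prof.f (ang (key i)) z ≤ 0
  rw [mem_closedBall, dist_eq_norm] at hz
  have h1 := (Complex.abs_re_le_norm _).trans hz
  have h2 := (Complex.abs_im_le_norm _).trans hz
  rw [Complex.sub_re] at h1
  rw [Complex.sub_im] at h2
  simp only at h1 h2
  have h3 := fQ_cast (key i) (39 / 89, -7 / 10)
  have h4 : ((fQ (key i) (39 / 89, -7 / 10) : ℚ) : ℝ) ≤ -1 / 10 := by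
    exact_mod_cast check_disc i
  rw [h3] at h4
  have h5 : (cc (39 / 89, -7 / 10)).re = 39 / 89 := by simp [cc]
  have h6 : (cc (39 / 89, -7 / 10)).im = -7 / 10 := by simp [cc]
  rw [h5, h6] at h4
  rw [prof_f]
  have hc1 : |(cc (eQ (key i))).re| ≤ 1 := by
    rw [← e_ang, e_re]; exact Real.abs_cos_le_one _
  have hc2 : |(cc (eQ (key i))).im| ≤ 1 := by
    rw [← e_ang, e_im]; exact Real.abs_sin_le_one _
  have k1 : |(z.re - 39 / 89) * (cc (eQ (key i))).im| ≤ 1 / 100 := by
    rw [abs_mul]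
    calc _ ≤ 1 / 100 * 1 := mul_le_mul h1 hc2 (abs_nonneg _) (by norm_num)
      _ = 1 / 100 := by norm_num
  have k2 : |(z.im - -7 / 10) * (cc (eQ (key i))).re| ≤ 1 / 100 := by
    rw [abs_mul]
    calc _ ≤ 1 / 100 * 1 := mul_le_mul h2 hc1 (abs_nonneg _) (by norm_num)
      _ = 1 / 100 := by norm_num
  have k3 := (abs_le.1 k1).1
  have k4 := (abs_le.1 k2).2
  nlinarith

end Pool.Agent.Ruler.Simp
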