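import Pool.Agent.Ruler.Simple2
import Pool.Agent.Ruler.Profile

/-!
MP_067807_co: the simple case of diameter one and area at most `0.558`.
-/

open Set MeasureTheory Metric

namespace Pool.Agent.Ruler

open Simp in
/-- The upper bound: there is a (nonconvex) case of diameter one, in which every unit ruler can be
folded, of area at most `0.558`. -/
theorem simple_upper : ∃ S : Set ℂ, IsCase S ∧ Metric.diam S = 1 ∧ Universal S ∧
    (volume S).toReal ≤ 0.558 := by
  refine ⟨prof.S, prof.isCase_S_of_ball (by norm_num) prof_ball, prof.diam_S, prof.universal_S, ?_⟩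
  have hang : ∀ k : ℤ, -10 ≤ k → k ≤ 10 → ang k ∈ Icc prof.a prof.b := fun k h1 h2 =>
    ⟨ang_strictMono.monotone h1, ang_strictMono.monotone h2⟩
  have hvol : volume prof.S ≤ ENNReal.ofReal 0.558 := by
    apply area_le
    · intro z hz k h1 h2
      have h := prof.dot_X_le (hang k h1 h2) (prof.S_subset_H hz)
      rw [prof_X, e_ang] at h
      simpa only [dot, Complex.sub_re, Complex.sub_im] using h
    · intro z hz k h1 h2
      have h := prof.dot_Y_nonneg (hang k h1 h2) (prof.S_subset_H hz)
      rw [prof_Y, e_ang] at h
      simpa only [dot, Complex.sub_re, Complex.sub_im] using h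
    · intro z hz
      obtain ⟨i, hi⟩ := mem_iUnion.1 hz
      have h : prof.f (ang (key i)) z ≤ 0 := hi.2
      rw [prof_f] at h
      refine ⟨wts.getD i (0, 0), ?_, h⟩
      have : (i : ℕ) < wts.length := i.2
      rw [List.getD_eq_getElem _ _ this]
      exact List.getElem_mem this
  refine ENNReal.toReal_le_of_le_ofReal (by norm_num) hvol

end Pool.Agent.Ruler
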