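import Pool.Agent.Ruler.Basic

/-!
MP_067807_co: the area of a fan of triangles in a convex compact set.
-/

open Set MeasureTheory

namespace Pool.Agent.Ruler

private theorem fan_cr_add_left (a b c : ℂ) : cr (a + b) c = cr a c + cr b c := by
  simp only [cr, Complex.add_re, Complex.add_im]; ring

private theorem fan_cramer (u v w : ℂ) :
    ((cr u v : ℝ) : ℂ) * w = ((cr w v : ℝ) : ℂ) * u + ((cr u w : ℝ) : ℂ) * v := by
  apply Complex.ext <;> simp [cr] <;> ring

/-- the open triangle with vertices `p`, `p + u`, `p + v` -/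
private def fanTri (p u v : ℂ) : Set ℂ :=
  {z | 0 < cr (z - p) v ∧ 0 < cr u (z - p) ∧ cr (z - p) v + cr u (z - p) < cr u v}

private theorem fan_isOpen (p u v : ℂ) : IsOpen (fanTri p u v) := by
  have h1 : Continuous fun z : ℂ => cr (z - p) v := by unfold cr; fun_prop
  have h2 : Continuous fun z : ℂ => cr u (z - p) := by unfold cr; fun_prop
  exact (isOpen_lt continuous_const h1).inter
    ((isOpen_lt continuous_const h2).inter (isOpen_lt (h1.add h2) continuous_const))

private theorem fan_coef {p u v z : ℂ} (hz : z ∈ fanTri p u v) :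
    ∃ a b : ℝ, 0 < a ∧ 0 < b ∧ a + b < 1 ∧ z - p = (a : ℂ) * u + (b : ℂ) * v := by
  obtain ⟨h1, h2, h3⟩ := hz
  have hc : 0 < cr u v := by linarith
  refine ⟨cr (z - p) v / cr u v, cr u (z - p) / cr u v, by positivity, by positivity, ?_, ?_⟩
  · rw [← add_div, div_lt_one hc]; exact h3
  · have h := fan_cramer u v (z - p)
    have hc' : ((cr u v : ℝ) : ℂ) ≠ 0 := by exact_mod_cast hc.ne'
    push_cast
    field_simp
    linear_combination h

private theorem fan_subset {K : Set ℂ} (hK : Convex ℝ K) {p u v : ℂ} (hp : p ∈ K)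
    (hu : p + u ∈ K) (hv : p + v ∈ K) : fanTri p u v ⊆ K := by
  intro z hz
  obtain ⟨a, b, ha, hb, hab, h⟩ := fan_coef hz
  have h1 : z = (1 - a - b) • p + a • (p + u) + b • (p + v) := by
    have : z = p + (z - p) := by ring
    rw [this, h]
    simp only [Complex.real_smul]
    push_cast
    ring
  rw [h1]
  have h0 : 0 < 1 - a - b := by linarith
  have key := hK.sum_mem (t := Finset.univ) (w := ![1 - a - b, a, b])
    (z := ![p, p + u, p + v]) (by intro i _; fin_cases i <;> simp <;> linarith)
    (by simp [Fin.sum_univ_three]; ring) (by intro i _; fin_cases i <;> simp [hp, hu, hv])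
  simp only [Fin.sum_univ_three] at key
  exact key

/-- the standard open triangle -/
private def fanStd : Set ℂ := {z | 0 < z.re ∧ 0 < z.im ∧ z.re + z.im < 1}

private theorem fan_std_volume : ENNReal.ofReal (1 / 2) ≤ volume fanStd := by
  have h1 : volume (Complex.measurableEquivRealProd ⁻¹'
      (regionBetween (fun _ : ℝ => (0 : ℝ)) (fun x => 1 - x) (Ioo 0 1))) =
      volume (regionBetween (fun _ : ℝ => (0 : ℝ)) (fun x => 1 - x) (Ioo 0 1)) :=
    Complex.volume_preserving_equiv_real_prod.measure_preimage_equiv _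
  have h2 : volume (regionBetween (fun _ : ℝ => (0 : ℝ)) (fun x => 1 - x) (Ioo 0 1)) =
      ENNReal.ofReal (1 / 2) := by
    rw [Measure.volume_eq_prod, volume_regionBetween_eq_integral]
    · congr 1
      rw [← integral_Ioc_eq_integral_Ioo, ← intervalIntegral.integral_of_le zero_le_one]
      have e : ∀ x : ℝ, ((fun x : ℝ => 1 - x) - fun _ : ℝ => (0 : ℝ)) x = 1 - x := by
        intro x; simp
      simp only [e]
      rw [intervalIntegral.integral_sub (by simp) (by simp)]
      simp
      norm_num
    · exact integrableOn_const (by simp)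
    · exact (ContinuousOn.integrableOn_Icc (by fun_prop)).mono_set Ioo_subset_Icc_self
    · exact measurableSet_Ioo
    · intro x hx; simp only [mem_Ioo] at hx; linarith [hx.2]
  rw [← h2, ← h1]
  apply measure_mono
  intro z hz
  simp only [mem_preimage, regionBetween, mem_ofPred_eq, Complex.measurableEquivRealProd_apply,
    mem_Ioo] at hz
  exact ⟨hz.1.1, hz.2.1, by linarith [hz.2.2]⟩

/-- the linear map sending the standard triangle to the triangle `0, u, v` -/
private noncomputable def fanMap (u v : ℂ) : ℂ →ₗ[ℝ] ℂ where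
  toFun z := (z.re : ℂ) * u + (z.im : ℂ) * v
  map_add' x y := by simp; ring
  map_smul' c x := by simp; ring

private theorem fan_det (u v : ℂ) : LinearMap.det (fanMap u v) = cr u v := by
  rw [← LinearMap.det_toMatrix Complex.basisOneI, Matrix.det_fin_two]
  simp [LinearMap.toMatrix_apply, fanMap, cr]
  ring

private theorem fan_volume (p u v : ℂ) : ENNReal.ofReal (cr u v / 2) ≤ volume (fanTri p u v) := by
  rcases le_or_gt (cr u v) 0 with hc | hc
  · rw [ENNReal.ofReal_of_nonpos (by linarith)]; exact zero_le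
  have h1 : volume (fanMap u v '' fanStd) = ENNReal.ofReal |cr u v| * volume fanStd := by
    rw [Measure.addHaar_image_linearMap, fan_det]
  have h2 : volume ((fun z => p + z) '' (fanMap u v '' fanStd)) =
      volume (fanMap u v '' fanStd) := by
    rw [Set.image_add_left, measure_preimage_add]
  have h3 : (fun z => p + z) '' (fanMap u v '' fanStd) ⊆ fanTri p u v := by
    rintro _ ⟨_, ⟨z, ⟨hz1, hz2, hz3⟩, rfl⟩, rfl⟩
    have e1 : cr (p + fanMap u v z - p) v = z.re * cr u v := by
      simp [fanMap, cr]; ring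
    have e2 : cr u (p + fanMap u v z - p) = z.im * cr u v := by
      simp [fanMap, cr]; ring
    refine ⟨?_, ?_, ?_⟩
    · show 0 < cr (p + fanMap u v z - p) v
      rw [e1]; positivity
    · show 0 < cr u (p + fanMap u v z - p)
      rw [e2]; positivity
    · show cr (p + fanMap u v z - p) v + cr u (p + fanMap u v z - p) < cr u v
      rw [e1, e2]; nlinarith
  calc ENNReal.ofReal (cr u v / 2) = ENNReal.ofReal |cr u v| * ENNReal.ofReal (1 / 2) := by
        rw [abs_of_pos hc, ← ENNReal.ofReal_mul hc.le]; congr 1; ring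
    _ ≤ ENNReal.ofReal |cr u v| * volume fanStd := by gcongr; exact fan_std_volume
    _ = volume ((fun z => p + z) '' (fanMap u v '' fanStd)) := by rw [h2, h1]
    _ ≤ volume (fanTri p u v) := measure_mono h3

/-- area of a fan of triangles -/
theorem fan_area {K : Set ℂ} (hK : Convex ℝ K) (hc : IsCompact K) {p : ℂ} (hp : p ∈ K) (u : ℕ → ℂ)
    (n : ℕ) (hu : ∀ k ≤ n, p + u k ∈ K) (hcr : ∀ k ≤ n, ∀ l ≤ n, k ≤ l → 0 ≤ cr (u k) (u l)) :
    (∑ k ∈ Finset.range n, cr (u k) (u (k + 1))) / 2 ≤ (volume K).toReal := by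
  have hlt : ∀ k l, k < l → l < n →
      Disjoint (fanTri p (u k) (u (k + 1))) (fanTri p (u l) (u (l + 1))) := by
    intro k l hkl hln
    rw [Set.disjoint_left]
    intro z hz1 hz2
    obtain ⟨a, b, ha, hb, -, h⟩ := fan_coef hz2
    have h1 := hz1.1
    rw [h] at h1
    have h2 : cr ((a : ℂ) * u l + (b : ℂ) * u (l + 1)) (u (k + 1)) =
        -(a * cr (u (k + 1)) (u l)) - b * cr (u (k + 1)) (u (l + 1)) := by
      simp [cr]; ring
    rw [h2] at h1
    have h3 := hcr (k + 1) (by omega) l (by omega) (by omega)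
    have h4 := hcr (k + 1) (by omega) (l + 1) (by omega) (by omega)
    nlinarith
  have hdisj : (↑(Finset.range n) : Set ℕ).PairwiseDisjoint
      (fun k => fanTri p (u k) (u (k + 1))) := by
    intro k hk l hl hkl
    simp only [Finset.coe_range, mem_Iio] at hk hl
    rcases lt_or_gt_of_ne hkl with h | h
    · exact hlt k l h hl
    · exact (hlt l k h hk).symm
  have h1 : volume (⋃ k ∈ Finset.range n, fanTri p (u k) (u (k + 1))) =
      ∑ k ∈ Finset.range n, volume (fanTri p (u k) (u (k + 1))) :=
    measure_biUnion_finset hdisj fun k _ => (fan_isOpen _ _ _).measurableSet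
  have h2 : (⋃ k ∈ Finset.range n, fanTri p (u k) (u (k + 1))) ⊆ K := by
    refine iUnion₂_subset fun k hk => ?_
    rw [Finset.mem_range] at hk
    exact fan_subset hK hp (hu k (by omega)) (hu (k + 1) (by omega))
  have h3 : ENNReal.ofReal ((∑ k ∈ Finset.range n, cr (u k) (u (k + 1))) / 2) ≤ volume K := by
    rw [Finset.sum_div, ENNReal.ofReal_sum_of_nonneg]
    · calc _ ≤ ∑ k ∈ Finset.range n, volume (fanTri p (u k) (u (k + 1))) :=
            Finset.sum_le_sum fun k _ => fan_volume _ _ _
        _ = _ := h1.symm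
        _ ≤ volume K := measure_mono h2
    · intro k hk
      rw [Finset.mem_range] at hk
      have := hcr k (by omega) (k + 1) (by omega) (by omega)
      linarith
  have h4 : volume K ≠ ⊤ := hc.measure_lt_top.ne
  rwa [← ENNReal.ofReal_le_iff_le_toReal h4]

end Pool.Agent.Ruler
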