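import Pool.Agent.Ruler.Orient
import Pool.Agent.Ruler.Fan

/-!
MP_067807_co, module AreaGe: the area of the polygon of the heads and tails.
-/

open Set MeasureTheory

namespace Pool.Agent.Ruler

private theorem areaGe_mono {t : ℕ → ℝ} {M : ℕ} (hmono : ∀ i < M, t i ≤ t (i + 1)) (i : ℕ) :
    ∀ j, i ≤ j → j ≤ M → t i ≤ t j := by
  intro j
  induction j with
  | zero =>
    intro h _
    have : i = 0 := by omega
    rw [this]
  | succ j ih =>
    intro h h2
    rcases Nat.lt_or_ge i (j + 1) with h3 | h3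
    · exact (ih (by omega) (by omega)).trans (hmono j (by omega))
    · have : i = j + 1 := by omega
      rw [this]

private theorem areaGe_tel (x : ℕ → ℂ) (b : ℂ) (M : ℕ) :
    ∑ i ∈ Finset.range M, cr (x (i + 1) - x i) b = cr (x M - x 0) b := by
  induction M with
  | zero => simp [cr]
  | succ M ih =>
    rw [Finset.sum_range_succ, ih]
    simp only [cr, Complex.sub_re, Complex.sub_im]
    ring

private theorem areaGe_sum (x : ℕ → ℂ) (p : ℂ) (M : ℕ) :
    ∑ k ∈ Finset.range M, cr (x k - p) (x (k + 1) - p) =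
      cr (x 0 - p) (x M - x 0) +
        ∑ k ∈ Finset.range M, ∑ i ∈ Finset.range k, cr (x (i + 1) - x i) (x (k + 1) - x k) := by
  induction M with
  | zero => simp [cr]
  | succ M ih =>
    rw [Finset.sum_range_succ, Finset.sum_range_succ, ih, areaGe_tel]
    simp only [cr, Complex.sub_re, Complex.sub_im]
    ring

theorem area_ge (S : ChordSys) {K : Set ℂ} (hK : Convex ℝ K) (hc : IsCompact K)
    (hSK : ∀ t ∈ S.T, S.X t ∈ K) (t : ℕ → ℝ) (M : ℕ) (hmem : ∀ i ≤ M, t i ∈ S.T)
    (hmono : ∀ i < M, t i ≤ t (i + 1)) (hpi : t M ≤ t 0 + Real.pi) :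
    (Real.sin (t M - t 0) + pairSum t (fun i => S.X (t (i + 1)) - S.X (t i)) M) / 2 ≤
      (volume K).toReal := by
  set s : ℕ → ℝ := fun k => if k ≤ M then t k else t (k - (M + 1)) + Real.pi with hs
  have hpi0 := Real.pi_pos
  have s1 : ∀ k ≤ M, s k = t k := fun k hk => by simp only [hs, if_pos hk]
  have s2 : ∀ j, s (M + 1 + j) = t j + Real.pi := by
    intro j
    have h1 : ¬ (M + 1 + j ≤ M) := by omega
    have h2 : M + 1 + j - (M + 1) = j := by omega
    simp only [hs, if_neg h1, h2]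
  have hsT : ∀ k ≤ M + 1 + M, s k ∈ S.T := by
    intro k hk
    by_cases h : k ≤ M
    · rw [s1 k h]; exact hmem k h
    · obtain ⟨j, rfl⟩ : ∃ j, k = M + 1 + j := ⟨k - (M + 1), by omega⟩
      rw [s2]
      exact (S.per _).1 (hmem j (by omega))
  have hst : ∀ k l, k ≤ l → l ≤ M + 1 + M → s k ≤ s l := by
    intro k l hkl hl
    by_cases h : l ≤ M
    · rw [s1 l h, s1 k (by omega)]
      exact areaGe_mono hmono k l hkl h
    · obtain ⟨j, rfl⟩ : ∃ j, l = M + 1 + j := ⟨l - (M + 1), by omega⟩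
      rw [s2]
      by_cases h' : k ≤ M
      · rw [s1 k h']
        have e1 := areaGe_mono hmono k M h' le_rfl
        have e2 := areaGe_mono hmono 0 j (by omega) (by omega)
        linarith
      · obtain ⟨i, rfl⟩ : ∃ i, k = M + 1 + i := ⟨k - (M + 1), by omega⟩
        rw [s2]
        have e1 := areaGe_mono hmono i j (by omega) (by omega)
        linarith
  have hs0 : s 0 = t 0 := s1 0 (Nat.zero_le _)
  have hsl : ∀ l ≤ M + 1 + M, s l ≤ t 0 + 2 * Real.pi := by
    intro l hl
    have e1 := hst l (M + 1 + M) hl le_rfl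
    rw [s2] at e1
    linarith
  have key := fan_area hK hc (p := S.X (t 0)) (hSK _ (hmem 0 (Nat.zero_le _)))
    (fun k => S.X (s k) - S.X (t 0)) (M + 1 + M)
    (by
      intro k hk
      have : S.X (t 0) + (S.X (s k) - S.X (t 0)) = S.X (s k) := by ring
      rw [this]
      exact hSK _ (hsT k hk))
    (by
      intro k hk l hl hkl
      refine orient S (hmem 0 (Nat.zero_le _)) (hsT k hk) (hsT l hl) ?_ (hst k l hkl hl) (hsl l hl)
      rw [← hs0]
      exact hst 0 k (Nat.zero_le _) hk)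
  refine le_trans (le_of_eq ?_) key
  rw [Finset.sum_range_add, Finset.sum_range_succ]
  have e1 : ∑ k ∈ Finset.range M, cr (S.X (s k) - S.X (t 0)) (S.X (s (k + 1)) - S.X (t 0)) =
      ∑ k ∈ Finset.range M, cr (S.X (t k) - S.X (t 0)) (S.X (t (k + 1)) - S.X (t 0)) := by
    refine Finset.sum_congr rfl fun k hk => ?_
    have := Finset.mem_range.1 hk
    rw [s1 k (by omega), s1 (k + 1) (by omega)]
  have e2 : ∑ k ∈ Finset.range M, cr (S.X (s (M + 1 + k)) - S.X (t 0))
      (S.X (s (M + 1 + k + 1)) - S.X (t 0)) =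
      ∑ k ∈ Finset.range M, cr (S.X (t k + Real.pi) - S.X (t 0))
        (S.X (t (k + 1) + Real.pi) - S.X (t 0)) := by
    refine Finset.sum_congr rfl fun k hk => ?_
    rw [add_assoc (M + 1) k 1, s2, s2]
  have e3 : s M = t M := s1 M le_rfl
  have e4 : s (M + 1) = t 0 + Real.pi := s2 0
  rw [e1, e2, e3, e4, areaGe_sum (fun k => S.X (t k)) (S.X (t 0)) M,
    areaGe_sum (fun k => S.X (t k + Real.pi)) (S.X (t 0)) M]
  have e5 : ∀ i ≤ M, S.X (t i + Real.pi) = S.X (t i) - ex (t i) := fun i hi =>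
    S.tail _ (hmem i hi)
  have e6 : ∑ k ∈ Finset.range M, ∑ i ∈ Finset.range k,
      cr (S.X (t (i + 1) + Real.pi) - S.X (t i + Real.pi))
        (S.X (t (k + 1) + Real.pi) - S.X (t k + Real.pi)) =
      ∑ k ∈ Finset.range M, ∑ i ∈ Finset.range k,
        cr (ex (t (i + 1)) - ex (t i) - (S.X (t (i + 1)) - S.X (t i)))
          (ex (t (k + 1)) - ex (t k) - (S.X (t (k + 1)) - S.X (t k))) := by
    refine Finset.sum_congr rfl fun k hk => Finset.sum_congr rfl fun i hi => ?_
    have hk := Finset.mem_range.1 hk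
    have hi := Finset.mem_range.1 hi
    rw [e5 (i + 1) (by omega), e5 i (by omega), e5 (k + 1) (by omega), e5 k (by omega)]
    simp only [cr, Complex.sub_re, Complex.sub_im]
    ring
  simp only [pairSum, Finset.sum_add_distrib]
  rw [e6, e5 0 (Nat.zero_le _), e5 M le_rfl, Real.sin_sub]
  simp only [cr, ex, Complex.sub_re, Complex.sub_im]
  ring

end Pool.Agent.Ruler
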