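import Pool.Agent.Ruler.Basic

/-!
MP_067807_co, module B1: lower bound of the pair sums for a range of directions `≤ 2π/3`.
-/

open Set

namespace Pool.Agent.Ruler

namespace B1

theorem cr_ex (a b : ℝ) : cr (ex a) (ex b) = Real.sin (b - a) := by
  simp only [cr, ex]
  rw [Real.sin_sub]
  ring

/-! ### the comparison function -/

/-- `sin` up to `β`, constant afterwards -/
noncomputable def F (β u : ℝ) : ℝ := Real.sin (min u β)

theorem F_cont (β : ℝ) : Continuous (F β) := by
  unfold F
  exact Real.continuous_sin.comp (continuous_id.min continuous_const)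

noncomputable def P (β x : ℝ) : ℝ := ∫ u in (0:ℝ)..x, F β u
noncomputable def Q (β x : ℝ) : ℝ := ∫ u in (0:ℝ)..x, P β u

theorem hasDerivAt_P (β x : ℝ) : HasDerivAt (P β) (F β x) x :=
  (F_cont β).integral_hasStrictDerivAt 0 x |>.hasDerivAt

theorem P_cont (β : ℝ) : Continuous (P β) :=
  continuous_iff_continuousAt.2 (fun x => (hasDerivAt_P β x).continuousAt)

theorem hasDerivAt_Q (β x : ℝ) : HasDerivAt (Q β) (P β x) x :=
  (P_cont β).integral_hasStrictDerivAt 0 x |>.hasDerivAt

theorem Q_zero (β : ℝ) : Q β 0 = 0 := by simp [Q]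
theorem P_zero (β : ℝ) : P β 0 = 0 := by simp [P]

/-- comparison of increments from comparison of derivatives -/
theorem incr_le {f g f' g' : ℝ → ℝ} (hf : ∀ x, HasDerivAt f (f' x) x)
    (hg : ∀ x, HasDerivAt g (g' x) x) {c d a : ℝ} (ha : 0 ≤ a)
    (h : ∀ u ∈ Icc (0:ℝ) a, g' (d + u) ≤ f' (c + u)) : g (d + a) - g d ≤ f (c + a) - f c := by
  have hD : ∀ u, HasDerivAt (fun u => f (c + u) - g (d + u)) (f' (c + u) - g' (d + u)) u := by
    intro u
    have h1 : HasDerivAt (fun u => f (c + u)) (f' (c + u)) u := by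
      exact (hf (c + u)).comp_const_add c u
    have h2 : HasDerivAt (fun u => g (d + u)) (g' (d + u)) u := by
      exact (hg (d + u)).comp_const_add d u
    exact h1.sub h2
  have hm : MonotoneOn (fun u => f (c + u) - g (d + u)) (Icc 0 a) := by
    refine monotoneOn_of_deriv_nonneg (convex_Icc 0 a) ?_ ?_ ?_
    · exact fun u _ => (hD u).continuousAt.continuousWithinAt
    · exact fun u _ => (hD u).differentiableAt.differentiableWithinAt
    · intro u hu
      rw [interior_Icc] at hu
      rw [(hD u).deriv]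
      linarith [h u ⟨hu.1.le, hu.2.le⟩]
  have := hm (left_mem_Icc.2 ha) (right_mem_Icc.2 ha) ha
  simp only [add_zero] at this
  linarith

theorem F_mono {β : ℝ} (h1 : β ≤ Real.pi / 2) {x y : ℝ} (h0 : 0 ≤ x) (hxy : x ≤ y)
    (hβ : 0 ≤ β) : F β x ≤ F β y := by
  unfold F
  refine Real.sin_le_sin_of_le_of_le_pi_div_two ?_ ?_ (min_le_min_right β hxy)
  · have : 0 ≤ min x β := le_min h0 hβ
    linarith [Real.pi_pos]
  · exact (min_le_right _ _).trans h1

theorem F_le_sin {β : ℝ} (hβ : 0 ≤ β) (h1 : β ≤ Real.pi / 3) {x : ℝ} (h2 : x ≤ 2 * β) :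
    F β x ≤ Real.sin x := by
  unfold F
  rcases le_total x β with h | h
  · rw [min_eq_left h]
  · rw [min_eq_right h]
    rcases le_total x (Real.pi / 2) with h3 | h3
    · exact Real.sin_le_sin_of_le_of_le_pi_div_two (by linarith [Real.pi_pos]) h3 h
    · rw [← Real.sin_pi_sub x]
      exact Real.sin_le_sin_of_le_of_le_pi_div_two (by linarith [Real.pi_pos]) (by linarith)
        (by linarith)

theorem hasDerivAt_psi (x : ℝ) : HasDerivAt psi (1 - Real.cos x) x :=
  (hasDerivAt_id x).sub (Real.hasDerivAt_sin x)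

theorem hasDerivAt_one_sub_cos (x : ℝ) : HasDerivAt (fun x => 1 - Real.cos x) (Real.sin x) x := by
  simpa using (Real.hasDerivAt_cos x).const_sub 1

/-- second differences -/
theorem second_diff {β : ℝ} (hβ : 0 ≤ β) (h1 : β ≤ Real.pi / 3) {x y a b : ℝ} (hx : 0 ≤ x)
    (hxy : x ≤ y) (ha : 0 ≤ a) (hb : 0 ≤ b) (hy : y + a + b ≤ 2 * β) :
    Q β (x + a + b) - Q β (x + a) - Q β (x + b) + Q β x ≤
      psi (y + a + b) - psi (y + a) - psi (y + b) + psi y := by
  have key := incr_le (f := fun z => psi (z + b) - psi z) (g := fun z => Q β (z + b) - Q β z)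
    (f' := fun z => (1 - Real.cos (z + b)) - (1 - Real.cos z)) (g' := fun z => P β (z + b) - P β z)
    (fun z => ((hasDerivAt_psi (z + b)).comp_add_const z b).sub (hasDerivAt_psi z))
    (fun z => ((hasDerivAt_Q β (z + b)).comp_add_const z b).sub (hasDerivAt_Q β z))
    (c := y) (d := x) ha ?_
  · have e1 : x + a + b = (x + a) + b := by ring
    linarith
  · intro u hu
    exact incr_le hasDerivAt_one_sub_cos (hasDerivAt_P β) hb (fun v hv => by
      refine (F_mono (by linarith [Real.pi_pos]) (by linarith [hu.1, hv.1])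
        (y := y + u + v) (by linarith) hβ).trans ?_
      exact F_le_sin hβ h1 (by linarith [hu.2, hv.2]))

theorem Q_le_psi {β : ℝ} (hβ : 0 ≤ β) (h1 : β ≤ Real.pi / 3) {a : ℝ} (ha : 0 ≤ a)
    (h2 : a ≤ 2 * β) : Q β a ≤ psi a := by
  have := incr_le hasDerivAt_psi (hasDerivAt_Q β) (c := 0) (d := 0) ha ?_
  · simpa [Q_zero, psi] using this
  · intro u hu
    have := incr_le hasDerivAt_one_sub_cos (hasDerivAt_P β) (c := 0) (d := 0) hu.1 ?_
    · simpa [P_zero] using this
    · intro v hv
      exact F_le_sin hβ h1 (by linarith [hu.2, hv.2])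

theorem Q_eq_psi {β : ℝ} (hβ : 0 ≤ β) : Q β β = psi β := by
  have h1 : ∀ x ∈ Icc (0:ℝ) β, P β x = 1 - Real.cos x := by
    intro x hx
    unfold P
    have : ∫ u in (0:ℝ)..x, F β u = ∫ u in (0:ℝ)..x, Real.sin u := by
      refine intervalIntegral.integral_congr (fun u hu => ?_)
      rw [uIcc_of_le hx.1] at hu
      unfold F
      rw [min_eq_left (hu.2.trans hx.2)]
    rw [this, integral_sin]
    simp
  unfold Q
  have : ∫ u in (0:ℝ)..β, P β u = ∫ u in (0:ℝ)..β, (1 - Real.cos u) := by
    refine intervalIntegral.integral_congr (fun u hu => ?_)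
    rw [uIcc_of_le hβ] at hu
    exact h1 u hu
  rw [this, intervalIntegral.integral_sub (by simp) (by simp)]
  simp [psi]

/-- convexity: `Q L + Q (2β - L) ≥ 2 Q β` -/
theorem Q_convex {β : ℝ} (hβ : 0 ≤ β) (h1 : β ≤ Real.pi / 3) {L : ℝ} (h0 : 0 ≤ L)
    (h2 : L ≤ 2 * β) : 2 * psi β ≤ Q β L + Q β (2 * β - L) := by
  rw [← Q_eq_psi hβ]
  wlog h : L ≤ β generalizing L with H
  · have := H (L := 2 * β - L) (by linarith) (by linarith) (by linarith)
    rw [show 2 * β - (2 * β - L) = L by ring] at this
    linarith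
  have := incr_le (hasDerivAt_Q β) (hasDerivAt_Q β) (c := β) (d := L) (a := β - L) (by linarith) ?_
  · rw [show L + (β - L) = β by ring, show β + (β - L) = 2 * β - L by ring] at this
    linarith
  · intro u hu
    have := incr_le (hasDerivAt_P β) (hasDerivAt_P β) (c := L + u) (d := L + u) (a := β - L)
      (by linarith) (fun v _ => le_rfl)
    -- `P` is monotone on `[0, ∞)`
    have hm := incr_le (hasDerivAt_P β) (g := fun _ => (0:ℝ)) (g' := fun _ => 0)
      (fun x => hasDerivAt_const x 0) (c := L + u) (d := 0) (a := β - L) (by linarith) ?_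
    · simp only [sub_zero] at hm
      rw [show L + u + (β - L) = β + u by ring] at hm
      linarith
    · intro v hv
      unfold F
      refine Real.sin_nonneg_of_nonneg_of_le_pi (le_min (by linarith [hu.1, hv.1]) hβ) ?_
      exact (min_le_right _ _).trans (by linarith [Real.pi_pos])

theorem psi_superadd {a b : ℝ} (ha : 0 ≤ a) (hb : 0 ≤ b) (h : a + b ≤ Real.pi) :
    psi a + psi b ≤ psi (a + b) := by
  unfold psi
  rw [Real.sin_add]
  have h1 := Real.sin_nonneg_of_nonneg_of_le_pi ha (by linarith)
  have h2 := Real.sin_nonneg_of_nonneg_of_le_pi hb (by linarith)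
  nlinarith [Real.cos_le_one a, Real.cos_le_one b]

/-! ### one colour -/

theorem cr_pieces (p q p' q' : ℝ) :
    cr (ex q - ex p) (ex q' - ex p') =
      psi (q' - p) - psi (q' - q) - psi (p' - p) + psi (p' - q) := by
  have h : ∀ a b : ℝ, Real.sin (b - a) = cr (ex a) (ex b) := fun a b => (cr_ex a b).symm
  unfold psi
  rw [h p q', h q q', h p p', h q p']
  simp only [cr, Complex.sub_re, Complex.sub_im]
  ring

/-- intervals `[p i, q i]` in order inside a range of length `≤ 2β` -/
theorem one_colour {β : ℝ} (hβ : 0 ≤ β) (h1 : β ≤ Real.pi / 3) (p q : ℕ → ℝ) (M : ℕ)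
    (hpq : ∀ i < M, p i ≤ q i) (hqp : ∀ i, i + 1 < M → q i ≤ p (i + 1))
    (hr : ∀ i < M, ∀ j < M, q j - p i ≤ 2 * β) :
    Q β (∑ i ∈ Finset.range M, (q i - p i)) ≤
      ∑ k ∈ Finset.range M, ∑ i ∈ Finset.range k, cr (ex (q i) - ex (p i)) (ex (q k) - ex (p k))
        + ∑ i ∈ Finset.range M, psi (q i - p i) := by
  induction M with
  | zero => simp [Q_zero]
  | succ m ih =>
    have ih' := ih (fun i hi => hpq i (by omega)) (fun i hi => hqp i (by omega))
      (fun i hi j hj => hr i (by omega) j (by omega))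
    rw [Finset.sum_range_succ, Finset.sum_range_succ (fun k => ∑ i ∈ Finset.range k, _),
      Finset.sum_range_succ (fun i => psi (q i - p i))]
    set L : ℕ → ℝ := fun k => ∑ i ∈ Finset.range k, (q i - p i) with hL
    have hLs : ∀ k, L (k + 1) = L k + (q k - p k) := fun k => Finset.sum_range_succ _ _
    -- lengths do not exceed distances
    have hdist : ∀ i < m, L m - L (i + 1) ≤ p m - q i := by
      intro i hi
      have : ∀ m', i + 1 ≤ m' → m' ≤ m → L m' - L (i + 1) ≤ p m' - q i := by
        intro m' h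
        induction m', h using Nat.le_induction with
        | base => intro _; simpa using hqp i (by omega)
        | succ k hk ihk =>
          intro hk'
          have h2 := ihk (by omega)
          have h3 := hqp k (by omega)
          rw [hLs]
          linarith
      exact this m (by omega) le_rfl
    have hLm : ∀ i ≤ m, L i ≤ L m := by
      intro i hi
      have : ∀ m', i ≤ m' → m' ≤ m → L i ≤ L m' := by
        intro m' h
        induction m', h using Nat.le_induction with
        | base => intro _; exact le_rfl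
        | succ k hk ihk =>
          intro hk'
          have h2 := ihk (by omega)
          have h3 := hpq k (by omega)
          rw [hLs]
          linarith
      exact this m hi le_rfl
    set a := q m - p m with ha
    have ha0 : 0 ≤ a := sub_nonneg.2 (hpq m (by omega))
    have hterm : ∀ i ∈ Finset.range m,
        (Q β (L m - L i + a) - Q β (L m - L i)) - (Q β (L m - L (i + 1) + a) - Q β (L m - L (i + 1)))
          ≤ cr (ex (q i) - ex (p i)) (ex (q m) - ex (p m)) := by
      intro i hi
      rw [Finset.mem_range] at hi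
      have h3 := hdist i hi
      have h4 := hLm (i + 1) (by omega)
      have h5 := hpq i (by omega)
      have h6 := hr i (by omega) m (by omega)
      have := second_diff hβ h1 (x := L m - L (i + 1)) (y := p m - q i) (a := a) (b := q i - p i)
        (by linarith) h3 ha0 (by linarith) (by rw [ha]; linarith)
      rw [cr_pieces]
      have e1 : L m - L (i + 1) + a + (q i - p i) = L m - L i + a := by rw [hLs]; ring
      have e2 : L m - L (i + 1) + (q i - p i) = L m - L i := by rw [hLs]; ring
      have e3 : p m - q i + a + (q i - p i) = q m - p i := by rw [ha]; ring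
      have e4 : p m - q i + a = q m - q i := by rw [ha]; ring
      have e5 : p m - q i + (q i - p i) = p m - p i := by ring
      rw [e1, e2, e3, e4, e5] at this
      linarith
    have hsum := Finset.sum_le_sum hterm
    rw [Finset.sum_range_sub' (fun i => Q β (L m - L i + a) - Q β (L m - L i)) m] at hsum
    have h0 : L 0 = 0 := by simp [hL]
    simp only [h0, sub_zero, sub_self, zero_add, Q_zero] at hsum
    have hQ := Q_le_psi hβ h1 ha0 (by rw [ha]; exact hr m (by omega) m (by omega))
    change Q β (L m) ≤ _ at ih'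
    change Q β (L m + a) ≤ _
    linarith

/-! ### the extreme points of the lens -/

/-- `w` is one piece of the arc `[s, t]` and the complement is another piece -/
def Piece (s t : ℝ) (w : ℂ) : Prop :=
  ∃ p q p' q' : ℝ, s ≤ p ∧ p ≤ q ∧ q ≤ t ∧ s ≤ p' ∧ p' ≤ q' ∧ q' ≤ t ∧
    (q - p) + (q' - p') = t - s ∧ w = ex q - ex p ∧ ex t - ex s - w = ex q' - ex p'

theorem piece_left {s t c : ℝ} (h1 : s ≤ c) (h2 : c ≤ t) : Piece s t (ex c - ex s) :=
  ⟨s, c, c, t, le_rfl, h1, h2, h1, h2, le_rfl, by ring, rfl, by ring⟩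

theorem piece_right {s t c : ℝ} (h1 : s ≤ c) (h2 : c ≤ t) : Piece s t (ex t - ex c) :=
  ⟨c, t, s, c, h1, h2, le_rfl, le_rfl, h1, h2, by ring, rfl, by ring⟩

theorem piece_zero {s t : ℝ} (h : s ≤ t) : Piece s t 0 := by
  have := piece_left (s := s) (t := t) le_rfl h
  simpa using this

theorem ex_sub_ex (a b : ℝ) :
    ex b - ex a = ((2 * Real.sin ((b - a) / 2) : ℝ) : ℂ) * nx ((a + b) / 2) := by
  apply Complex.ext
  · simp only [ex, nx, Complex.sub_re, Complex.mul_re, Complex.ofReal_re, Complex.ofReal_im]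
    rw [Real.cos_sub_cos]
    rw [show (b + a) / 2 = (a + b) / 2 by ring]
    ring
  · simp only [ex, nx, Complex.sub_im, Complex.mul_im, Complex.ofReal_re, Complex.ofReal_im]
    rw [Real.sin_sub_sin]
    rw [show (b + a) / 2 = (a + b) / 2 by ring]
    ring

theorem exists_nx (w : ℂ) (s : ℝ) :
    ∃ γ : ℝ, s ≤ γ ∧ γ < s + 2 * Real.pi ∧ w = ((‖w‖ : ℝ) : ℂ) * nx γ := by
  obtain ⟨k, hk, -⟩ := existsUnique_add_zsmul_mem_Ico (Real.two_pi_pos) (w.arg - Real.pi / 2) s
  refine ⟨w.arg - Real.pi / 2 + k • (2 * Real.pi), hk.1, hk.2, ?_⟩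
  have hn : nx (w.arg - Real.pi / 2 + k • (2 * Real.pi)) =
      ⟨Real.cos w.arg, Real.sin w.arg⟩ := by
    unfold nx
    rw [zsmul_eq_mul, Real.sin_add_int_mul_two_pi, Real.cos_add_int_mul_two_pi,
      Real.sin_sub_pi_div_two, Real.cos_sub_pi_div_two, neg_neg]
  rw [hn]
  apply Complex.ext
  · simp only [Complex.mul_re, Complex.ofReal_re, Complex.ofReal_im]
    have := Complex.norm_mul_cos_arg w
    linarith
  · simp only [Complex.mul_im, Complex.ofReal_re, Complex.ofReal_im]
    have := Complex.norm_mul_sin_arg w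
    linarith

theorem norm_sq' (z : ℂ) : ‖z‖ ^ 2 = z.re ^ 2 + z.im ^ 2 := by
  rw [Complex.sq_norm, Complex.normSq_apply]
  ring

theorem ex_norm (t : ℝ) : (ex t).re ^ 2 + (ex t).im ^ 2 = 1 := by
  simp only [ex]
  have := Real.sin_sq_add_cos_sq t
  linarith

theorem lens_split {s t : ℝ} {w : ℂ} (hst : s ≤ t) (_ht : t < s + Real.pi) (h1 : ‖w + ex s‖ ≤ 1)
    (h2 : ‖w - ex t‖ ≤ 1) : ∃ r ∈ Icc (0:ℝ) 1, ∃ z, Piece s t z ∧ w = (r : ℂ) * z := by
  by_cases hw : w = 0
  · exact ⟨0, ⟨le_rfl, zero_le_one⟩, 0, piece_zero hst, by simp [hw]⟩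
  have hpos : 0 < ‖w‖ := norm_pos_iff.2 hw
  have k1 : ‖w‖ ^ 2 ≤ -2 * ip w (ex s) := by
    have : ‖w + ex s‖ ^ 2 ≤ 1 := by
      have := norm_nonneg (w + ex s)
      nlinarith
    rw [norm_sq'] at this ⊢
    have h := ex_norm s
    simp only [Complex.add_re, Complex.add_im] at this
    simp only [ip]
    nlinarith
  have k2 : ‖w‖ ^ 2 ≤ 2 * ip w (ex t) := by
    have : ‖w - ex t‖ ^ 2 ≤ 1 := by
      have := norm_nonneg (w - ex t)
      nlinarith
    rw [norm_sq'] at this ⊢
    have h := ex_norm t
    simp only [Complex.sub_re, Complex.sub_im] at this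
    simp only [ip]
    nlinarith
  obtain ⟨γ, g1, g2, g3⟩ := exists_nx w s
  have e1 : ip w (ex s) = -‖w‖ * Real.sin (γ - s) := by
    rw [Real.sin_sub]
    conv_lhs => rw [g3]
    simp only [ip, nx, ex, Complex.mul_re, Complex.mul_im, Complex.ofReal_re, Complex.ofReal_im]
    ring
  have e2 : ip w (ex t) = ‖w‖ * Real.sin (t - γ) := by
    rw [Real.sin_sub]
    conv_lhs => rw [g3]
    simp only [ip, nx, ex, Complex.mul_re, Complex.mul_im, Complex.ofReal_re, Complex.ofReal_im]
    ring
  rw [e1] at k1
  rw [e2] at k2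
  have k1' : ‖w‖ ≤ 2 * Real.sin (γ - s) := by
    by_contra hcon
    rw [not_le] at hcon
    nlinarith
  have k2' : ‖w‖ ≤ 2 * Real.sin (t - γ) := by
    by_contra hcon
    rw [not_le] at hcon
    nlinarith
  have k3 : γ - s < Real.pi := by
    by_contra hcon
    rw [not_lt] at hcon
    have : Real.sin (γ - s) ≤ 0 := by
      rw [← neg_nonneg, ← Real.sin_sub_pi]
      exact Real.sin_nonneg_of_nonneg_of_le_pi (by linarith) (by linarith)
    linarith
  have k4 : γ < t := by
    by_contra hcon
    rw [not_lt] at hcon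
    have : Real.sin (t - γ) ≤ 0 := by
      apply Real.sin_nonpos_of_nonpos_of_neg_pi_le (by linarith) (by linarith)
    linarith
  rcases le_total (γ - s) (t - γ) with h | h
  · refine ⟨‖w‖ / (2 * Real.sin (γ - s)), ⟨div_nonneg (norm_nonneg _) (by linarith), ?_⟩, ex (2 * γ - s) - ex s,
      piece_left (by linarith) (by linarith), ?_⟩
    · rw [div_le_one (by linarith)]
      exact k1'
    · rw [ex_sub_ex, show (2 * γ - s - s) / 2 = γ - s by ring,
        show (s + (2 * γ - s)) / 2 = γ by ring, ← mul_assoc, ← Complex.ofReal_mul,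
        div_mul_cancel₀ _ (by linarith)]
      exact g3
  · refine ⟨‖w‖ / (2 * Real.sin (t - γ)), ⟨div_nonneg (norm_nonneg _) (by linarith), ?_⟩, ex t - ex (2 * γ - t),
      piece_right (by linarith) (by linarith), ?_⟩
    · rw [div_le_one (by linarith)]
      exact k2'
    · rw [ex_sub_ex, show (t - (2 * γ - t)) / 2 = t - γ by ring,
        show (2 * γ - t + t) / 2 = γ by ring, ← mul_assoc, ← Complex.ofReal_mul,
        div_mul_cancel₀ _ (by linarith)]
      exact g3

/-! ### reduction to pieces -/

/-- replacing one edge is affine -/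
theorem pairSum_affine (t : ℕ → ℝ) (w : ℕ → ℂ) (M m : ℕ) (z : ℂ) (r : ℝ) :
    pairSum t (fun i => if i = m then (r : ℂ) * z else w i) M =
      (1 - r) * pairSum t (fun i => if i = m then 0 else w i) M +
        r * pairSum t (fun i => if i = m then z else w i) M := by
  unfold pairSum
  rw [Finset.mul_sum, Finset.mul_sum, ← Finset.sum_add_distrib]
  refine Finset.sum_congr rfl (fun k _ => ?_)
  rw [Finset.mul_sum, Finset.mul_sum, ← Finset.sum_add_distrib]
  refine Finset.sum_congr rfl (fun i hi => ?_)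
  rw [Finset.mem_range] at hi
  by_cases h1 : i = m
  · have h2 : k ≠ m := by omega
    simp only [h1, h2, if_true, if_false]
    simp only [cr, Complex.sub_re, Complex.sub_im, Complex.mul_re, Complex.mul_im,
      Complex.ofReal_re, Complex.ofReal_im, Complex.zero_re, Complex.zero_im]
    ring
  · by_cases h2 : k = m
    · simp only [h1, h2, if_true, if_false]
      simp only [cr, Complex.sub_re, Complex.sub_im, Complex.mul_re, Complex.mul_im,
        Complex.ofReal_re, Complex.ofReal_im, Complex.zero_re, Complex.zero_im]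
      ring
    · simp only [h1, h2, if_false]
      ring

theorem exists_pieces (t : ℕ → ℝ) (w : ℕ → ℂ) (M : ℕ) (hmono : ∀ i < M, t i ≤ t (i + 1))
    (hlt : ∀ i < M, t (i + 1) < t i + Real.pi)
    (h1 : ∀ i < M, ‖w i + ex (t i)‖ ≤ 1) (h2 : ∀ i < M, ‖w i - ex (t (i + 1))‖ ≤ 1) (m : ℕ)
    (hm : m ≤ M) :
    ∃ w' : ℕ → ℂ, (∀ i < m, Piece (t i) (t (i + 1)) (w' i)) ∧ (∀ i, m ≤ i → w' i = w i) ∧
      pairSum t w' M ≤ pairSum t w M := by
  induction m with
  | zero => exact ⟨w, by simp, fun _ _ => rfl, le_rfl⟩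
  | succ m ih =>
    obtain ⟨w', a1, a2, a3⟩ := ih (by omega)
    obtain ⟨r, hr, z, hz, hw⟩ := lens_split (hmono m (by omega)) (hlt m (by omega))
      (h1 m (by omega)) (h2 m (by omega))
    have hfun : (fun i => if i = m then (r : ℂ) * z else w' i) = w' := by
      funext i
      by_cases h : i = m
      · simp only [h, if_true]
        rw [a2 m le_rfl, hw]
      · simp only [h, if_false]
    have haff := pairSum_affine t w' M m z r
    rw [hfun] at haff
    set A := pairSum t (fun i => if i = m then 0 else w' i) M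
    set B := pairSum t (fun i => if i = m then z else w' i) M
    rcases le_total A B with h | h
    · refine ⟨fun i => if i = m then 0 else w' i, ?_, ?_, ?_⟩
      · intro i hi
        by_cases h3 : i = m
        · simp only [h3, if_true]
          exact piece_zero (hmono m (by omega))
        · simp only [h3, if_false]
          exact a1 i (by omega)
      · intro i hi
        have h3 : i ≠ m := by omega
        simp only [h3, if_false]
        exact a2 i (by omega)
      · change A ≤ _
        refine le_trans ?_ a3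
        rw [haff]
        nlinarith [hr.1, hr.2]
    · refine ⟨fun i => if i = m then z else w' i, ?_, ?_, ?_⟩
      · intro i hi
        by_cases h3 : i = m
        · simp only [h3, if_true]
          exact hz
        · simp only [h3, if_false]
          exact a1 i (by omega)
      · intro i hi
        have h3 : i ≠ m := by omega
        simp only [h3, if_false]
        exact a2 i (by omega)
      · change B ≤ _
        refine le_trans ?_ a3
        rw [haff]
        nlinarith [hr.1, hr.2]

end B1

open B1 in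
/-- the pair sum of any chord curve over a range of directions of length at most `2π/3` -/
theorem pairSum_ge (t : ℕ → ℝ) (w : ℕ → ℂ) (M : ℕ) (hmono : ∀ i < M, t i ≤ t (i + 1))
    (h1 : ∀ i < M, ‖w i + ex (t i)‖ ≤ 1) (h2 : ∀ i < M, ‖w i - ex (t (i + 1))‖ ≤ 1)
    (hα : t M - t 0 ≤ 2 * Real.pi / 3) :
    2 * psi ((t M - t 0) / 2) - ∑ i ∈ Finset.range M, psi (t (i + 1) - t i) ≤ pairSum t w M := by
  have hpi := Real.pi_pos
  have hmon : ∀ i j, i ≤ j → j ≤ M → t i ≤ t j := by
    intro i j hij
    induction j, hij using Nat.le_induction with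
    | base => intro _; exact le_rfl
    | succ j hj ih => intro hj'; exact (ih (by omega)).trans (hmono j (by omega))
  have hlt : ∀ i < M, t (i + 1) < t i + Real.pi := by
    intro i hi
    have a1 := hmon 0 i (by omega) (by omega)
    have a2 := hmon (i + 1) M (by omega) le_rfl
    linarith
  obtain ⟨w', a1, -, a3⟩ := exists_pieces t w M hmono hlt h1 h2 M le_rfl
  refine le_trans ?_ a3
  clear a3 h1 h2
  choose! p q p' q' b1 b2 b3 b4 b5 b6 b7 b8 b9 using a1
  set β := (t M - t 0) / 2 with hβ
  have hβ0 : 0 ≤ β := by have := hmon 0 M (by omega) le_rfl; linarith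
  have hβ1 : β ≤ Real.pi / 3 := by linarith
  have c1 := one_colour hβ0 hβ1 p q M b2
    (fun i hi => (b3 i (by omega)).trans (b1 (i + 1) hi))
    (fun i hi j hj => by
      have d1 := hmon 0 i (by omega) (by omega)
      have d2 := hmon (j + 1) M (by omega) le_rfl
      have d3 := b1 i hi
      have d4 := b3 j hj
      linarith)
  have c2 := one_colour hβ0 hβ1 p' q' M b5
    (fun i hi => (b6 i (by omega)).trans (b4 (i + 1) hi))
    (fun i hi j hj => by
      have d1 := hmon 0 i (by omega) (by omega)
      have d2 := hmon (j + 1) M (by omega) le_rfl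
      have d3 := b4 i hi
      have d4 := b6 j hj
      linarith)
  have e1 : pairSum t w' M =
      ∑ k ∈ Finset.range M, ∑ i ∈ Finset.range k, cr (ex (q i) - ex (p i)) (ex (q k) - ex (p k)) +
      ∑ k ∈ Finset.range M, ∑ i ∈ Finset.range k,
        cr (ex (q' i) - ex (p' i)) (ex (q' k) - ex (p' k)) := by
    unfold pairSum
    rw [← Finset.sum_add_distrib]
    refine Finset.sum_congr rfl (fun k hk => ?_)
    rw [← Finset.sum_add_distrib]
    refine Finset.sum_congr rfl (fun i hi => ?_)
    rw [Finset.mem_range] at hk hi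
    rw [b9 i (by omega), b9 k hk, b8 i (by omega), b8 k hk]
  have e2 : ∑ i ∈ Finset.range M, (q i - p i) + ∑ i ∈ Finset.range M, (q' i - p' i) = 2 * β := by
    rw [← Finset.sum_add_distrib, hβ]
    have : ∀ i ∈ Finset.range M, (q i - p i) + (q' i - p' i) = t (i + 1) - t i :=
      fun i hi => b7 i (Finset.mem_range.1 hi)
    rw [Finset.sum_congr rfl this, Finset.sum_range_sub]
    ring
  have e3 : ∑ i ∈ Finset.range M, psi (q i - p i) + ∑ i ∈ Finset.range M, psi (q' i - p' i) ≤
      ∑ i ∈ Finset.range M, psi (t (i + 1) - t i) := by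
    rw [← Finset.sum_add_distrib]
    refine Finset.sum_le_sum (fun i hi => ?_)
    rw [Finset.mem_range] at hi
    rw [← b7 i hi]
    exact psi_superadd (by linarith [b2 i hi]) (by linarith [b5 i hi])
      (by rw [b7 i hi]; linarith [hlt i hi])
  have e4 : 0 ≤ ∑ i ∈ Finset.range M, (q i - p i) :=
    Finset.sum_nonneg (fun i hi => by linarith [b2 i (Finset.mem_range.1 hi)])
  have e5 : 0 ≤ ∑ i ∈ Finset.range M, (q' i - p' i) :=
    Finset.sum_nonneg (fun i hi => by linarith [b5 i (Finset.mem_range.1 hi)])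
  have e6 := Q_convex hβ0 hβ1 e4 (by linarith)
  rw [show 2 * β - ∑ i ∈ Finset.range M, (q i - p i) = ∑ i ∈ Finset.range M, (q' i - p' i) by
    linarith] at e6
  rw [e1]
  linarith

end Pool.Agent.Ruler
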