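import Pool.Agent.Ruler.Basic

/-!
MP_067807_co: elementary geometry of a chord system (job RULER-Chord).
-/

open Set

namespace Pool.Agent.Ruler

private theorem chord_normSq (z : ℂ) : ‖z‖ ^ 2 = z.re ^ 2 + z.im ^ 2 := by
  rw [← Complex.normSq_eq_norm_sq, Complex.normSq_apply]; ring

private theorem chord_cs (t : ℝ) : Real.cos t ^ 2 + Real.sin t ^ 2 = 1 := by
  rw [add_comm]; exact Real.sin_sq_add_cos_sq t

/-- every point at distance ≤ 1 from the tail is below the support line at the head -/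
theorem support {x z : ℂ} {t : ℝ} (h : ‖z - (x - ex t)‖ ≤ 1) :
    ip (z - x) (ex t) ≤ -‖z - x‖ ^ 2 / 2 := by
  have h1 : ‖z - (x - ex t)‖ ^ 2 ≤ 1 := by
    have := norm_nonneg (z - (x - ex t))
    nlinarith
  rw [chord_normSq] at h1
  rw [chord_normSq]
  simp only [ip, ex, Complex.sub_re, Complex.sub_im] at *
  have := chord_cs t
  nlinarith

private theorem chord_left_unit (S : ChordSys) {s t : ℝ} (hs : s ∈ S.T) (ht : t ∈ S.T) :
    ‖S.X t - (S.X s - ex s)‖ ≤ 1 := by
  rw [← S.tail s hs]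
  exact S.dist_le t ht _ ((S.per s).1 hs)

private theorem chord_right_unit (S : ChordSys) {s t : ℝ} (hs : s ∈ S.T) (ht : t ∈ S.T) :
    ‖S.X s - (S.X t - ex t)‖ ≤ 1 := chord_left_unit S ht hs

theorem lens_left (S : ChordSys) {s t : ℝ} (hs : s ∈ S.T) (ht : t ∈ S.T) :
    ip (S.X t - S.X s) (ex s) ≤ -‖S.X t - S.X s‖ ^ 2 / 2 :=
  support (chord_left_unit S hs ht)

theorem lens_right (S : ChordSys) {s t : ℝ} (hs : s ∈ S.T) (ht : t ∈ S.T) :
    ‖S.X t - S.X s‖ ^ 2 / 2 ≤ ip (S.X t - S.X s) (ex t) := by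
  have h := support (chord_right_unit S hs ht)
  rw [norm_sub_rev] at h
  have : ip (S.X s - S.X t) (ex t) = - ip (S.X t - S.X s) (ex t) := by
    simp only [ip, Complex.sub_re, Complex.sub_im]; ring
  rw [this] at h
  linarith

private theorem chord_ip_le (z w : ℂ) : ip z w ≤ ‖z‖ * ‖w‖ := by
  have h : (ip z w) ^ 2 ≤ (‖z‖ * ‖w‖) ^ 2 := by
    rw [mul_pow, chord_normSq, chord_normSq]
    simp only [ip]
    nlinarith [sq_nonneg (z.re * w.im - z.im * w.re)]
  exact (le_abs_self _).trans (abs_le_of_sq_le_sq h (by positivity))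

private theorem chord_norm_ex_sub {s t : ℝ} (h1 : s ≤ t) (h2 : t ≤ s + 2 * Real.pi) :
    ‖ex t - ex s‖ = 2 * Real.sin ((t - s) / 2) := by
  have h0 : 0 ≤ 2 * Real.sin ((t - s) / 2) := by
    have := Real.sin_nonneg_of_nonneg_of_le_pi (x := (t - s) / 2) (by linarith) (by linarith)
    linarith
  have h : ‖ex t - ex s‖ ^ 2 = (2 * Real.sin ((t - s) / 2)) ^ 2 := by
    rw [chord_normSq]
    simp only [ex, Complex.sub_re, Complex.sub_im]
    have e1 := chord_cs t
    have e2 := chord_cs s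
    have e3 : Real.cos (t - s) = 1 - 2 * Real.sin ((t - s) / 2) ^ 2 := by
      have := Real.cos_sq' ((t - s) / 2)
      have h2 := Real.cos_two_mul ((t - s) / 2)
      rw [show 2 * ((t - s) / 2) = t - s by ring] at h2
      rw [h2, this]; ring
    have e4 := Real.cos_sub t s
    rw [e3] at e4
    nlinarith
  exact (pow_left_inj₀ (norm_nonneg _) h0 two_ne_zero).1 h

theorem norm_sub_le (S : ChordSys) {s t : ℝ} (hs : s ∈ S.T) (ht : t ∈ S.T) (h1 : s ≤ t)
    (h2 : t ≤ s + Real.pi) : ‖S.X t - S.X s‖ ≤ 2 * Real.sin ((t - s) / 2) := by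
  have hl := lens_left S hs ht
  have hr := lens_right S hs ht
  have hc := chord_ip_le (S.X t - S.X s) (ex t - ex s)
  have hadd : ip (S.X t - S.X s) (ex t - ex s) =
      ip (S.X t - S.X s) (ex t) - ip (S.X t - S.X s) (ex s) := by
    simp only [ip, Complex.sub_re, Complex.sub_im]; ring
  rw [chord_norm_ex_sub h1 (by linarith [Real.pi_pos])] at hc
  have h : ‖S.X t - S.X s‖ ^ 2 ≤ ‖S.X t - S.X s‖ * (2 * Real.sin ((t - s) / 2)) := by
    rw [hadd] at hc; linarith
  rcases (norm_nonneg (S.X t - S.X s)).eq_or_lt with h0 | h0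
  · rw [← h0]
    have := Real.sin_nonneg_of_nonneg_of_le_pi (x := (t - s) / 2) (by linarith)
      (by linarith [Real.pi_pos])
    linarith
  · rw [sq] at h
    exact le_of_mul_le_mul_left h h0

theorem norm_sub_le' (S : ChordSys) {s t : ℝ} (hs : s ∈ S.T) (ht : t ∈ S.T) :
    ‖S.X t - S.X s‖ ≤ |t - s| := by
  wlog hst : s ≤ t generalizing s t with H
  · rw [norm_sub_rev, abs_sub_comm]
    exact H ht hs (le_of_not_ge hst)
  rw [abs_of_nonneg (by linarith)]
  rcases le_or_gt t (s + Real.pi) with h | h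
  · have h3 := norm_sub_le S hs ht hst h
    have h4 := Real.sin_le (x := (t - s) / 2) (by linarith)
    linarith
  · have h3 := S.dist_le t ht s hs
    have h4 := Real.pi_gt_three
    linarith

/-- cone representation -/
theorem cone (S : ChordSys) {s t : ℝ} (hs : s ∈ S.T) (ht : t ∈ S.T) (h1 : s ≤ t)
    (h2 : t < s + Real.pi) :
    ∃ α β : ℝ, 0 ≤ α ∧ 0 ≤ β ∧ S.X t - S.X s = (α : ℂ) * nx s + (β : ℂ) * nx t := by
  rcases h1.eq_or_lt with rfl | h1
  · exact ⟨0, 0, le_rfl, le_rfl, by simp⟩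
  have hsin : 0 < Real.sin (t - s) := Real.sin_pos_of_pos_of_lt_pi (by linarith) (by linarith)
  have hl := lens_left S hs ht
  have hr := lens_right S hs ht
  have hn := sq_nonneg ‖S.X t - S.X s‖
  refine ⟨ip (S.X t - S.X s) (ex t) / Real.sin (t - s),
    -ip (S.X t - S.X s) (ex s) / Real.sin (t - s), div_nonneg (by linarith) hsin.le,
    div_nonneg (by linarith) hsin.le, ?_⟩
  have e0 := Real.sin_sub t s
  have hne := hsin.ne'
  have e1 := chord_cs t
  have e2 := chord_cs s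
  generalize S.X t - S.X s = w
  apply Complex.ext
  · simp only [ip, ex, nx, Complex.add_re, Complex.mul_re, Complex.ofReal_re, Complex.ofReal_im,
      zero_mul, sub_zero]
    field_simp
    rw [e0]; ring
  · simp only [ip, ex, nx, Complex.add_im, Complex.mul_im, Complex.ofReal_re, Complex.ofReal_im,
      zero_mul, add_zero]
    field_simp
    rw [e0]; ring

private theorem chord_ex_pi (t : ℝ) : ex (t + Real.pi) = - ex t := by
  apply Complex.ext <;> simp [ex]

private theorem chord_nx_pi (t : ℝ) : nx (t + Real.pi) = - nx t := by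
  apply Complex.ext <;> simp [nx]

private theorem chord_small_nonneg (S : ChordSys) {s t : ℝ} (hs : s ∈ S.T) (ht : t ∈ S.T)
    (h1 : s ≤ t) (h2 : t ≤ s + Real.pi / 2) :
    0 ≤ ip (S.X t - S.X s) (nx s) ∧ 0 ≤ ip (S.X t - S.X s) (nx t) := by
  have hpi := Real.pi_pos
  obtain ⟨α, β, hα, hβ, h⟩ := cone S hs ht h1 (by linarith)
  have hcos : 0 ≤ Real.cos (t - s) :=
    Real.cos_nonneg_of_neg_pi_div_two_le_of_le (by linarith) (by linarith)
  rw [Real.cos_sub] at hcos
  have e1 := chord_cs t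
  have e2 := chord_cs s
  rw [h]
  constructor
  · have : ip ((α : ℂ) * nx s + (β : ℂ) * nx t) (nx s) =
        α * (Real.cos s ^ 2 + Real.sin s ^ 2) +
          β * (Real.cos t * Real.cos s + Real.sin t * Real.sin s) := by
      simp only [ip, nx, Complex.add_re, Complex.mul_re, Complex.add_im, Complex.mul_im,
        Complex.ofReal_re, Complex.ofReal_im]
      ring
    rw [this, e2]
    positivity
  · have : ip ((α : ℂ) * nx s + (β : ℂ) * nx t) (nx t) =
        α * (Real.cos t * Real.cos s + Real.sin t * Real.sin s) +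
          β * (Real.cos t ^ 2 + Real.sin t ^ 2) := by
      simp only [ip, nx, Complex.add_re, Complex.mul_re, Complex.add_im, Complex.mul_im,
        Complex.ofReal_re, Complex.ofReal_im]
      ring
    rw [this, e1]
    positivity

private theorem chord_small (S : ChordSys) {s t : ℝ} (hs : s ∈ S.T) (ht : t ∈ S.T)
    (h1 : s ≤ t) (h2 : t ≤ s + Real.pi / 2) :
    (0 ≤ ip (S.X t - S.X s) (nx s) ∧ ip (S.X t - S.X s) (nx s) ≤ Real.sin (t - s)) ∧
    (0 ≤ ip (S.X t - S.X s) (nx t) ∧ ip (S.X t - S.X s) (nx t) ≤ Real.sin (t - s)) := by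
  obtain ⟨ha, hb⟩ := chord_small_nonneg S hs ht h1 h2
  obtain ⟨ha', hb'⟩ := chord_small_nonneg S ((S.per s).1 hs) ((S.per t).1 ht) (by linarith)
    (by linarith)
  rw [S.tail s hs, S.tail t ht, chord_nx_pi] at ha' hb'
  have e1 := chord_cs t
  have e2 := chord_cs s
  have e0 := Real.sin_sub t s
  refine ⟨⟨ha, ?_⟩, hb, ?_⟩
  · rw [e0]
    simp only [ip, ex, nx, Complex.sub_re, Complex.sub_im, Complex.neg_re, Complex.neg_im] at *
    nlinarith
  · rw [e0]
    simp only [ip, ex, nx, Complex.sub_re, Complex.sub_im, Complex.neg_re, Complex.neg_im] at *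
    nlinarith

private theorem chord_all (S : ChordSys) {s t : ℝ} (hs : s ∈ S.T) (ht : t ∈ S.T)
    (h1 : s ≤ t) (h2 : t ≤ s + Real.pi) :
    (0 ≤ ip (S.X t - S.X s) (nx s) ∧ ip (S.X t - S.X s) (nx s) ≤ Real.sin (t - s)) ∧
    (0 ≤ ip (S.X t - S.X s) (nx t) ∧ ip (S.X t - S.X s) (nx t) ≤ Real.sin (t - s)) := by
  rcases le_or_gt t (s + Real.pi / 2) with h | h
  · exact chord_small S hs ht h1 h
  obtain ⟨⟨ha, hb⟩, hc, hd⟩ := chord_small S ht ((S.per s).1 hs) h2 (by linarith)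
  rw [S.tail s hs] at ha hb hc hd
  rw [chord_nx_pi] at hc hd
  have e3 : Real.sin (s + Real.pi - t) = Real.sin (t - s) := by
    rw [show s + Real.pi - t = Real.pi - (t - s) by ring, Real.sin_pi_sub]
  rw [e3] at hb hd
  have e1 := chord_cs t
  have e2 := chord_cs s
  rw [Real.sin_sub] at hb hd
  rw [Real.sin_sub]
  simp only [ip, ex, nx, Complex.sub_re, Complex.sub_im, Complex.neg_re, Complex.neg_im] at *
  refine ⟨⟨?_, ?_⟩, ?_, ?_⟩ <;> nlinarith

theorem ip_nx_left (S : ChordSys) {s t : ℝ} (hs : s ∈ S.T) (ht : t ∈ S.T) (h1 : s ≤ t)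
    (h2 : t ≤ s + Real.pi) :
    0 ≤ ip (S.X t - S.X s) (nx s) ∧ ip (S.X t - S.X s) (nx s) ≤ Real.sin (t - s) :=
  (chord_all S hs ht h1 h2).1

theorem ip_nx_right (S : ChordSys) {s t : ℝ} (hs : s ∈ S.T) (ht : t ∈ S.T) (h1 : s ≤ t)
    (h2 : t ≤ s + Real.pi) :
    0 ≤ ip (S.X t - S.X s) (nx t) ∧ ip (S.X t - S.X s) (nx t) ≤ Real.sin (t - s) :=
  (chord_all S hs ht h1 h2).2

end Pool.Agent.Ruler
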