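import Pool.Agent.Ruler.Basic

/-!
MP_067807_co, module Pal: the regular hexagon of Pal, the theorem of Jung, the variance bound.
-/

open Set

namespace Pool.Agent.Ruler

private theorem pal_normSq (z : ℂ) : ‖z‖ ^ 2 = z.re ^ 2 + z.im ^ 2 := by
  rw [← Complex.normSq_eq_norm_sq, Complex.normSq_apply]; ring

private theorem pal_cs (t : ℝ) : Real.cos t ^ 2 + Real.sin t ^ 2 = 1 := by
  rw [add_comm]; exact Real.sin_sq_add_cos_sq t

private theorem pal_ip_ex_le (z : ℂ) (t : ℝ) : ip z (ex t) ≤ ‖z‖ := by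
  have h : (ip z (ex t)) ^ 2 ≤ ‖z‖ ^ 2 := by
    rw [pal_normSq]
    simp only [ip, ex]
    have := pal_cs t
    nlinarith [sq_nonneg (z.re * Real.sin t - z.im * Real.cos t)]
  exact (le_abs_self _).trans (abs_le_of_sq_le_sq h (by positivity))

private theorem pal_ex_pi (t : ℝ) : ex (t + Real.pi) = - ex t := by
  apply Complex.ext <;> simp [ex]

private theorem pal_ip_neg (z w : ℂ) : ip z (-w) = - ip z w := by
  simp only [ip, Complex.neg_re, Complex.neg_im]; ring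

private theorem pal_ip_sub (z z' w : ℂ) : ip (z - z') w = ip z w - ip z' w := by
  simp only [ip, Complex.sub_re, Complex.sub_im]; ring

/-- the support function -/
private noncomputable def pal_h (K : Set ℂ) (t : ℝ) : ℝ := sSup ((fun z => ip z (ex t)) '' K)

private theorem pal_cont_ip : Continuous (fun p : ℝ × ℂ => ip p.2 (ex p.1)) := by
  unfold ip ex
  fun_prop

private theorem pal_h_cont {K : Set ℂ} (hK : IsCompact K) : Continuous (pal_h K) :=
  hK.continuous_sSup (f := fun t z => ip z (ex t)) pal_cont_ip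

private theorem pal_bdd {K : Set ℂ} (hK : IsCompact K) (t : ℝ) :
    BddAbove ((fun z => ip z (ex t)) '' K) := by
  refine (hK.image ?_).bddAbove
  exact pal_cont_ip.comp (Continuous.prodMk_right t)

private theorem pal_le_h {K : Set ℂ} (hK : IsCompact K) (t : ℝ) {z : ℂ} (hz : z ∈ K) :
    ip z (ex t) ≤ pal_h K t := le_csSup (pal_bdd hK t) (mem_image_of_mem _ hz)

private theorem pal_h_add {K : Set ℂ} (hne : K.Nonempty)
    (hd : ∀ x ∈ K, ∀ y ∈ K, ‖x - y‖ ≤ 1) (t : ℝ) :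
    pal_h K t + pal_h K (t + Real.pi) ≤ 1 := by
  have h1 : pal_h K t ≤ 1 - pal_h K (t + Real.pi) := by
    refine csSup_le (hne.image _) ?_
    rintro _ ⟨z, hz, rfl⟩
    have h2 : pal_h K (t + Real.pi) ≤ 1 - ip z (ex t) := by
      refine csSup_le (hne.image _) ?_
      rintro _ ⟨y, hy, rfl⟩
      have h3 := pal_ip_ex_le (z - y) t
      have h4 := hd z hz y hy
      simp only [pal_ex_pi, pal_ip_neg]
      rw [pal_ip_sub] at h3
      linarith
    show ip z (ex t) ≤ _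
    linarith
  linarith

private noncomputable def pal_m (K : Set ℂ) (t : ℝ) : ℝ := (pal_h K t - pal_h K (t + Real.pi)) / 2

private theorem pal_m_cont {K : Set ℂ} (hK : IsCompact K) : Continuous (pal_m K) := by
  have := pal_h_cont hK
  unfold pal_m
  fun_prop

private theorem pal_m_pi (K : Set ℂ) (t : ℝ) : pal_m K (t + Real.pi) = - pal_m K t := by
  have h : pal_h K (t + Real.pi + Real.pi) = pal_h K t := by
    unfold pal_h
    rw [pal_ex_pi, pal_ex_pi, neg_neg]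
  unfold pal_m
  rw [h]
  ring

private theorem pal_m_le {K : Set ℂ} (hK : IsCompact K) (hne : K.Nonempty)
    (hd : ∀ x ∈ K, ∀ y ∈ K, ‖x - y‖ ≤ 1) (t : ℝ) {z : ℂ} (hz : z ∈ K) :
    |ip z (ex t) - pal_m K t| ≤ 1 / 2 := by
  have h1 := pal_le_h hK t hz
  have h2 := pal_le_h hK (t + Real.pi) hz
  have h3 := pal_h_add hne hd t
  rw [pal_ex_pi, pal_ip_neg] at h2
  unfold pal_m
  rw [abs_le]
  constructor <;> linarith

private theorem pal_ex_third (t : ℝ) :
    ex (t + Real.pi / 3) = ⟨1 / 2 * Real.cos t - Real.sqrt 3 / 2 * Real.sin t,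
      1 / 2 * Real.sin t + Real.sqrt 3 / 2 * Real.cos t⟩ := by
  unfold ex
  rw [Real.cos_add, Real.sin_add, Real.cos_pi_div_three, Real.sin_pi_div_three]
  apply Complex.ext <;> simp <;> ring

private theorem pal_two_thirds : Real.cos (2 * Real.pi / 3) = -(1 / 2) ∧
    Real.sin (2 * Real.pi / 3) = Real.sqrt 3 / 2 := by
  have h : 2 * Real.pi / 3 = Real.pi - Real.pi / 3 := by ring
  rw [h, Real.cos_pi_sub, Real.sin_pi_sub, Real.cos_pi_div_three, Real.sin_pi_div_three]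
  exact ⟨rfl, rfl⟩

private theorem pal_ex_two_thirds (t : ℝ) :
    ex (t + 2 * Real.pi / 3) = ⟨-(1 / 2) * Real.cos t - Real.sqrt 3 / 2 * Real.sin t,
      -(1 / 2) * Real.sin t + Real.sqrt 3 / 2 * Real.cos t⟩ := by
  unfold ex
  rw [Real.cos_add, Real.sin_add, pal_two_thirds.1, pal_two_thirds.2]
  apply Complex.ext <;> simp <;> ring

/-- Pál: a compact set of diameter ≤ 1 is in a regular hexagon of width 1 -/
theorem pal {K : Set ℂ} (hK : IsCompact K) (hne : K.Nonempty)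
    (hd : ∀ x ∈ K, ∀ y ∈ K, ‖x - y‖ ≤ 1) :
    ∃ O : ℂ, ∃ τ : ℝ, ∀ z ∈ K, |ip (z - O) (ex τ)| ≤ 1 / 2 ∧
      |ip (z - O) (ex (τ + Real.pi / 3))| ≤ 1 / 2 ∧
      |ip (z - O) (ex (τ + 2 * Real.pi / 3))| ≤ 1 / 2 := by
  have hm := pal_m_cont hK
  set F : ℝ → ℝ := fun t => pal_m K t - pal_m K (t + Real.pi / 3) + pal_m K (t + 2 * Real.pi / 3)
    with hF
  have hFc : Continuous F := by
    rw [hF]
    exact (hm.sub (hm.comp (by fun_prop))).add (hm.comp (by fun_prop))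
  have hF3 : F (0 + Real.pi / 3) = - F 0 := by
    simp only [hF]
    have e1 : (0:ℝ) + Real.pi / 3 + Real.pi / 3 = 0 + 2 * Real.pi / 3 := by ring
    have e2 : (0:ℝ) + Real.pi / 3 + 2 * Real.pi / 3 = 0 + Real.pi := by ring
    rw [e1, e2, pal_m_pi]
    ring
  obtain ⟨τ, hτ⟩ : ∃ τ, F τ = 0 := by
    rcases le_total 0 (F 0) with h | h
    · have h2 : F (0 + Real.pi / 3) ≤ 0 := by rw [hF3]; linarith
      exact mem_range_of_exists_le_of_exists_ge hFc ⟨_, h2⟩ ⟨_, h⟩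
    · have h2 : 0 ≤ F (0 + Real.pi / 3) := by rw [hF3]; linarith
      exact mem_range_of_exists_le_of_exists_ge hFc ⟨_, h⟩ ⟨_, h2⟩
  simp only [hF] at hτ
  set a := pal_m K τ
  set b := pal_m K (τ + Real.pi / 3)
  set c := pal_m K (τ + 2 * Real.pi / 3)
  have h3 : Real.sqrt 3 ^ 2 = 3 := Real.sq_sqrt (by norm_num)
  have h3p : 0 < Real.sqrt 3 := by positivity
  set d := (2 * b - a) / Real.sqrt 3 with hd'
  have hds : d * Real.sqrt 3 = 2 * b - a := by
    rw [hd']; field_simp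
  have hcs := pal_cs τ
  refine ⟨⟨a * Real.cos τ - d * Real.sin τ, a * Real.sin τ + d * Real.cos τ⟩, τ, ?_⟩
  intro z hz
  have k1 := pal_m_le hK hne hd τ hz
  have k2 := pal_m_le hK hne hd (τ + Real.pi / 3) hz
  have k3 := pal_m_le hK hne hd (τ + 2 * Real.pi / 3) hz
  refine ⟨?_, ?_, ?_⟩
  · have : ip (z - ⟨a * Real.cos τ - d * Real.sin τ, a * Real.sin τ + d * Real.cos τ⟩) (ex τ)
        = ip z (ex τ) - a := by
      rw [pal_ip_sub]
      simp only [ip, ex]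
      linear_combination (-a) * hcs
    rw [this]
    exact k1
  · have : ip (z - ⟨a * Real.cos τ - d * Real.sin τ, a * Real.sin τ + d * Real.cos τ⟩)
        (ex (τ + Real.pi / 3)) = ip z (ex (τ + Real.pi / 3)) - b := by
      rw [pal_ip_sub, pal_ex_third]
      simp only [ip]
      linear_combination (-(a / 2) - d * Real.sqrt 3 / 2) * hcs - (1 / 2) * hds
    rw [this]
    exact k2
  · have : ip (z - ⟨a * Real.cos τ - d * Real.sin τ, a * Real.sin τ + d * Real.cos τ⟩)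
        (ex (τ + 2 * Real.pi / 3)) = ip z (ex (τ + 2 * Real.pi / 3)) - c := by
      rw [pal_ip_sub, pal_ex_two_thirds]
      simp only [ip]
      linear_combination ((a / 2) - d * Real.sqrt 3 / 2) * hcs - (1 / 2) * hds + hτ
    rw [this]
    exact k3

/-- Jung's theorem in the plane -/
theorem jung {K : Set ℂ} (hK : IsCompact K) (hne : K.Nonempty)
    (hd : ∀ x ∈ K, ∀ y ∈ K, ‖x - y‖ ≤ 1) : ∃ O : ℂ, ∀ z ∈ K, ‖z - O‖ ^ 2 ≤ 1 / 3 := by
  obtain ⟨O, τ, h⟩ := pal hK hne hd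
  refine ⟨O, fun z hz => ?_⟩
  obtain ⟨h0, h1, h2⟩ := h z hz
  rw [pal_ex_third] at h1
  rw [pal_ex_two_thirds] at h2
  rw [pal_normSq]
  have h3 : Real.sqrt 3 ^ 2 = 3 := Real.sq_sqrt (by norm_num)
  have hcs := pal_cs τ
  set u := z - O
  simp only [ip, ex] at h0 h1 h2
  set p := u.re * Real.cos τ + u.im * Real.sin τ with hp
  set q := Real.sqrt 3 * (u.im * Real.cos τ - u.re * Real.sin τ) with hq
  have e1 : u.re * (1 / 2 * Real.cos τ - Real.sqrt 3 / 2 * Real.sin τ) +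
      u.im * (1 / 2 * Real.sin τ + Real.sqrt 3 / 2 * Real.cos τ) = (p + q) / 2 := by
    rw [hp, hq]; ring
  have e2 : u.re * (-(1 / 2) * Real.cos τ - Real.sqrt 3 / 2 * Real.sin τ) +
      u.im * (-(1 / 2) * Real.sin τ + Real.sqrt 3 / 2 * Real.cos τ) = (q - p) / 2 := by
    rw [hp, hq]; ring
  rw [e1] at h1
  rw [e2] at h2
  have e3 : u.re ^ 2 + u.im ^ 2 = p ^ 2 + q ^ 2 / 3 := by
    rw [hp, hq, mul_pow, h3]
    linear_combination (-(u.re ^ 2) - u.im ^ 2) * hcs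
  rw [e3]
  rw [abs_le] at h0 h1 h2
  obtain ⟨a1, a2⟩ := h0
  obtain ⟨b1, b2⟩ := h1
  obtain ⟨c1, c2⟩ := h2
  -- p = z0, z1 = (p+q)/2, z2 = (q-p)/2
  rcases le_total 0 p with hp0 | hp0 <;> rcases le_total 0 q with hq0 | hq0
  · rcases le_total p q with h | h <;> nlinarith
  · rcases le_total p (-q) with h | h <;> nlinarith
  · rcases le_total (-p) q with h | h <;> nlinarith
  · rcases le_total (-p) (-q) with h | h <;> nlinarith

theorem variance_le {ι : Type*} [Fintype ι] {K : Set ℂ} (hK : IsCompact K) (hne : K.Nonempty)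
    (hd : ∀ x ∈ K, ∀ y ∈ K, ‖x - y‖ ≤ 1) (p : ι → ℂ) (hp : ∀ i, p i ∈ K) (μ : ι → ℝ)
    (hμ : ∀ i, 0 ≤ μ i) :
    ∑ i, ∑ j, μ i * μ j * ‖p i - p j‖ ^ 2 ≤ 2 / 3 * (∑ i, μ i) ^ 2 := by
  obtain ⟨O, hO⟩ := jung hK hne hd
  set u : ι → ℂ := fun i => p i - O with hu
  have hu3 : ∀ i, ‖u i‖ ^ 2 ≤ 1 / 3 := fun i => hO _ (hp i)
  have e1 : ∑ i, ∑ j, μ i * μ j * ‖p i - p j‖ ^ 2 =
      2 * ((∑ i, μ i) * ∑ i, μ i * ‖u i‖ ^ 2)
        - 2 * ((∑ i, μ i * (u i).re) ^ 2 + (∑ i, μ i * (u i).im) ^ 2) := by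
    have e2 : ∀ i j, μ i * μ j * ‖p i - p j‖ ^ 2 =
        (μ i * (μ j * ‖u j‖ ^ 2) + (μ i * ‖u i‖ ^ 2) * μ j)
          - 2 * ((μ i * (u i).re) * (μ j * (u j).re) + (μ i * (u i).im) * (μ j * (u j).im)) := by
      intro i j
      have e3 : p i - p j = u i - u j := by simp [hu]
      rw [e3, pal_normSq, pal_normSq, pal_normSq, Complex.sub_re, Complex.sub_im]
      ring
    simp only [e2, Finset.sum_sub_distrib, Finset.sum_add_distrib, ← Finset.mul_sum,
      ← Finset.sum_mul]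
    ring
  rw [e1]
  have e4 : ∑ i, μ i * ‖u i‖ ^ 2 ≤ (∑ i, μ i) * (1 / 3) := by
    rw [Finset.sum_mul]
    exact Finset.sum_le_sum fun i _ => mul_le_mul_of_nonneg_left (hu3 i) (hμ i)
  have hM : 0 ≤ ∑ i, μ i := Finset.sum_nonneg fun i _ => hμ i
  nlinarith [sq_nonneg (∑ i, μ i * (u i).re), sq_nonneg (∑ i, μ i * (u i).im),
    mul_le_mul_of_nonneg_left e4 hM]

end Pool.Agent.Ruler
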