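import Pool.Agent.Ruler.Basic
import Pool.Agent.Ruler.Chord
import Pool.Agent.Ruler.Pal
import Pool.Agent.Ruler.AreaGe

/-!
MP_067807_co: lower bound for the pair sums when the net covers a half turn (all gaps are small),
from the regular hexagon of width one.
-/

open Set

namespace Pool.Agent.Ruler

private theorem b2_ip_nx_ex (a b : ℝ) : ip (nx a) (ex b) = Real.sin (b - a) := by
  simp [ip, nx, ex, Real.sin_sub]; ring

private theorem b2_ip_comb (α β : ℝ) (x y z : ℂ) :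
    ip ((α : ℂ) * x + (β : ℂ) * y) z = α * ip x z + β * ip y z := by
  simp [ip]; ring

private theorem b2_ex_add_pi (t : ℝ) : ex (t + Real.pi) = -ex t := by
  apply Complex.ext <;> simp [ex]

private theorem b2_ip_neg_left (z w : ℂ) : ip (-z) w = -ip z w := by simp [ip]; ring
private theorem b2_ip_neg_right (z w : ℂ) : ip z (-w) = -ip z w := by simp [ip]; ring
private theorem b2_ip_sub_left (x y w : ℂ) : ip (x - y) w = ip x w - ip y w := by
  simp [ip]; ring
private theorem b2_ip_ex_self (t : ℝ) : ip (ex t) (ex t) = 1 := by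
  have := Real.cos_sq_add_sin_sq t
  simp [ip, ex]; nlinarith

private theorem b2_ip_le (z : ℂ) (t : ℝ) : |ip z (ex t)| ≤ ‖z‖ := by
  rw [← Real.sqrt_sq_eq_abs, Complex.norm_eq_sqrt_sq_add_sq]
  apply Real.sqrt_le_sqrt
  have h := Real.cos_sq_add_sin_sq t
  simp only [ip, ex]
  nlinarith [sq_nonneg (z.re * Real.sin t - z.im * Real.cos t)]

/-- an edge of the curve before the direction `τ` -/
private theorem b2_before (S : ChordSys) {s t τ : ℝ} (hs : s ∈ S.T) (ht : t ∈ S.T) (h1 : s ≤ t)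
    (h3 : t ≤ τ) (h4 : τ ≤ s + Real.pi) : 0 ≤ ip (S.X t - S.X s) (ex τ) := by
  rcases lt_or_ge t (s + Real.pi) with h | h
  · obtain ⟨α, β, hα, hβ, e⟩ := cone S hs ht h1 h
    rw [e, b2_ip_comb, b2_ip_nx_ex, b2_ip_nx_ex]
    have e1 : 0 ≤ Real.sin (τ - s) := Real.sin_nonneg_of_nonneg_of_le_pi (by linarith) (by linarith)
    have e2 : 0 ≤ Real.sin (τ - t) := Real.sin_nonneg_of_nonneg_of_le_pi (by linarith) (by linarith)
    positivity
  · have h5 : t = s + Real.pi := by linarith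
    have h6 : τ = s + Real.pi := by linarith
    rw [h5, h6, S.tail s hs, b2_ex_add_pi]
    have : S.X s - ex s - S.X s = -ex s := by ring
    rw [this, b2_ip_neg_left, b2_ip_neg_right, b2_ip_ex_self]
    norm_num

/-- an edge of the curve after the direction `τ` -/
private theorem b2_after (S : ChordSys) {s t τ : ℝ} (hs : s ∈ S.T) (ht : t ∈ S.T) (h1 : s ≤ t)
    (h3 : τ ≤ s) (h4 : t ≤ τ + Real.pi) : ip (S.X t - S.X s) (ex τ) ≤ 0 := by
  rcases lt_or_ge t (s + Real.pi) with h | h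
  · obtain ⟨α, β, hα, hβ, e⟩ := cone S hs ht h1 h
    rw [e, b2_ip_comb, b2_ip_nx_ex, b2_ip_nx_ex]
    have e1 : 0 ≤ Real.sin (s - τ) := Real.sin_nonneg_of_nonneg_of_le_pi (by linarith) (by linarith)
    have e2 : 0 ≤ Real.sin (t - τ) := Real.sin_nonneg_of_nonneg_of_le_pi (by linarith) (by linarith)
    have e3 : Real.sin (τ - s) = -Real.sin (s - τ) := by rw [← Real.sin_neg]; ring_nf
    have e4 : Real.sin (τ - t) = -Real.sin (t - τ) := by rw [← Real.sin_neg]; ring_nf
    rw [e3, e4]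
    nlinarith [mul_nonneg hα e1, mul_nonneg hβ e2]
  · have h5 : t = s + Real.pi := by linarith
    have h6 : τ = s := by linarith
    rw [h5, h6, S.tail s hs]
    have : S.X s - ex s - S.X s = -ex s := by ring
    rw [this, b2_ip_neg_left, b2_ip_ex_self]
    norm_num

private theorem b2_ex_two_pi (τ : ℝ) : ex (τ + 2 * Real.pi) = ex τ := by
  apply Complex.ext <;> simp [ex]

/-- the quantity `|⟨w, ex τ⟩| + |⟨v, ex τ⟩|` of a cell -/
private noncomputable def b2F (S : ChordSys) (t : ℕ → ℝ) (τ : ℝ) (i : ℕ) : ℝ :=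
  |ip (S.X (t (i + 1)) - S.X (t i)) (ex τ)| +
    |ip (ex (t (i + 1)) - ex (t i) - (S.X (t (i + 1)) - S.X (t i))) (ex τ)|

/-- the width of the chord `t` in direction `τ` with respect to the two curves -/
private noncomputable def b2G (S : ChordSys) (τ s : ℝ) : ℝ :=
  ip (S.X s) (ex τ) - ip (S.X (s + Real.pi)) (ex τ)

private theorem b2_v (S : ChordSys) {t : ℕ → ℝ} {i : ℕ} (h1 : t i ∈ S.T) (h2 : t (i + 1) ∈ S.T) :
    ex (t (i + 1)) - ex (t i) - (S.X (t (i + 1)) - S.X (t i)) =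
      -(S.X (t (i + 1) + Real.pi) - S.X (t i + Real.pi)) := by
  rw [S.tail _ h1, S.tail _ h2]; ring

private theorem b2F_before (S : ChordSys) {t : ℕ → ℝ} {τ : ℝ} {i : ℕ} (h1 : t i ∈ S.T)
    (h2 : t (i + 1) ∈ S.T) (h3 : t i ≤ t (i + 1)) (h4 : t (i + 1) ≤ τ)
    (h5 : τ ≤ t i + Real.pi) : b2F S t τ i = b2G S τ (t (i + 1)) - b2G S τ (t i) := by
  have e1 := b2_before S h1 h2 h3 h4 h5
  have e2 := b2_after S ((S.per _).1 h1) ((S.per _).1 h2) (add_le_add_left h3 _) h5
    (add_le_add_left h4 _)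
  unfold b2F b2G
  rw [b2_v S h1 h2, b2_ip_neg_left, abs_neg, abs_of_nonneg e1, abs_of_nonpos e2,
    b2_ip_sub_left, b2_ip_sub_left]
  ring

private theorem b2F_after (S : ChordSys) {t : ℕ → ℝ} {τ : ℝ} {i : ℕ} (h1 : t i ∈ S.T)
    (h2 : t (i + 1) ∈ S.T) (h3 : t i ≤ t (i + 1)) (h4 : τ ≤ t i)
    (h5 : t (i + 1) ≤ τ + Real.pi) : b2F S t τ i = b2G S τ (t i) - b2G S τ (t (i + 1)) := by
  have e1 := b2_after S h1 h2 h3 h4 h5
  have e2 := b2_before S (τ := τ + 2 * Real.pi) ((S.per _).1 h1) ((S.per _).1 h2)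
    (add_le_add_left h3 _) (by linarith) (by linarith)
  rw [b2_ex_two_pi] at e2
  unfold b2F b2G
  rw [b2_v S h1 h2, b2_ip_neg_left, abs_neg, abs_of_nonpos e1, abs_of_nonneg e2,
    b2_ip_sub_left, b2_ip_sub_left]
  ring

private theorem b2_exists_cell {t : ℕ → ℝ} {τ : ℝ} (M : ℕ) (hM : 0 < M) (h0 : t 0 ≤ τ)
    (h1 : τ ≤ t M) : ∃ m < M, t m ≤ τ ∧ τ ≤ t (m + 1) := by
  induction M with
  | zero => exact absurd hM (lt_irrefl _)
  | succ M ih =>
    rcases le_or_gt τ (t M) with h | h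
    · rcases Nat.eq_zero_or_pos M with h2 | h2
      · subst h2
        exact ⟨0, by omega, h0, h1⟩
      · obtain ⟨m, hm, h3⟩ := ih h2 h
        exact ⟨m, by omega, h3⟩
    · exact ⟨M, by omega, h.le, h1⟩

private theorem b2_abs_sum_le {a a' b b' : ℝ} (h1 : a - b ≤ 1) (h2 : a - b' ≤ 1)
    (h3 : a' - b ≤ 1) (h4 : a' - b' ≤ 1) :
    |a' - a| + |b' - b| + (a - b) + (a' - b') ≤ 2 := by
  rcases abs_cases (a' - a) with ⟨e, _⟩ | ⟨e, _⟩ <;>
    rcases abs_cases (b' - b) with ⟨e', _⟩ | ⟨e', _⟩ <;> rw [e, e'] <;> linarith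

private theorem b2_total (S : ChordSys) (t : ℕ → ℝ) (M : ℕ) (hmem : ∀ i ≤ M, t i ∈ S.T)
    (hmono : ∀ i < M, t i ≤ t (i + 1)) (hpi : t M = t 0 + Real.pi) {τ : ℝ} (h0 : t 0 ≤ τ)
    (h1 : τ ≤ t 0 + Real.pi) : ∑ i ∈ Finset.range M, b2F S t τ i ≤ 2 := by
  have hM : 0 < M := by
    rcases Nat.eq_zero_or_pos M with h | h
    · subst h
      have := Real.pi_pos
      linarith
    · exact h
  have hle : ∀ j ≤ M, ∀ i ≤ j, t i ≤ t j := by
    intro j
    induction j with
    | zero => intro _ i hi; rw [Nat.le_zero.1 hi]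
    | succ j ih =>
      intro hj i hi
      rcases Nat.lt_or_ge i (j + 1) with h | h
      · exact (ih (by omega) i (by omega)).trans (hmono j (by omega))
      · rw [show i = j + 1 by omega]
  obtain ⟨m, hm, hm1, hm2⟩ := b2_exists_cell M hM h0 (hpi ▸ h1)
  have hA : ∀ k ≤ m, ∑ i ∈ Finset.range k, b2F S t τ i = b2G S τ (t k) - b2G S τ (t 0) := by
    intro k
    induction k with
    | zero => intro _; simp
    | succ k ih =>
      intro hk
      rw [Finset.sum_range_succ, ih (by omega), b2F_before S (hmem k (by omega))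
        (hmem (k + 1) (by omega)) (hmono k (by omega)) ((hle m (by omega) (k + 1) hk).trans hm1)
        (h1.trans (add_le_add_left (hle k (by omega) 0 (by omega)) _))]
      ring
  have hB : ∀ k, m + 1 ≤ k → k ≤ M → ∑ i ∈ Finset.range k, b2F S t τ i =
      ∑ i ∈ Finset.range (m + 1), b2F S t τ i + (b2G S τ (t (m + 1)) - b2G S τ (t k)) := by
    intro k hk
    induction k, hk using Nat.le_induction with
    | base => intro _; simp
    | succ k hk ih =>
      intro hkM
      rw [Finset.sum_range_succ, ih (by omega), b2F_after S (hmem k (by omega))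
        (hmem (k + 1) (by omega)) (hmono k (by omega)) (hm2.trans (hle k (by omega) (m + 1) hk))
        (by have := hle M le_rfl (k + 1) hkM; linarith)]
      ring
  rw [hB M (by omega) le_rfl, Finset.sum_range_succ, hA m le_rfl]
  have hT0 := hmem 0 (by omega)
  have hM1 : b2G S τ (t M) = -b2G S τ (t 0) := by
    unfold b2G
    rw [hpi, S.tail _ ((S.per _).1 hT0), S.tail _ hT0, b2_ex_add_pi]
    have : S.X (t 0) - ex (t 0) - -ex (t 0) = S.X (t 0) := by ring
    rw [this]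
    ring
  rw [hM1]
  have t1 := hmem m (by omega)
  have t2 := hmem (m + 1) (by omega)
  have t1' := (S.per _).1 t1
  have t2' := (S.per _).1 t2
  have key : ∀ a ∈ S.T, ∀ b ∈ S.T, ip (S.X a) (ex τ) - ip (S.X b) (ex τ) ≤ 1 := by
    intro a ha b hb
    rw [← b2_ip_sub_left]
    exact (le_abs_self _).trans ((b2_ip_le _ _).trans (S.dist_le a ha b hb))
  have := b2_abs_sum_le (key _ t1 _ t1') (key _ t1 _ t2') (key _ t2 _ t1') (key _ t2 _ t2')
  unfold b2F b2G
  rw [b2_v S t1 t2, b2_ip_neg_left, abs_neg, b2_ip_sub_left, b2_ip_sub_left]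
  linarith

private theorem b2_total' (S : ChordSys) (t : ℕ → ℝ) (M : ℕ) (hmem : ∀ i ≤ M, t i ∈ S.T)
    (hmono : ∀ i < M, t i ≤ t (i + 1)) (hpi : t M = t 0 + Real.pi) (τ : ℝ) :
    ∑ i ∈ Finset.range M, b2F S t τ i ≤ 2 := by
  have hp := Real.pi_pos
  obtain ⟨n, hn, -⟩ := existsUnique_add_zsmul_mem_Ico hp τ (t 0)
  have h := b2_total S t M hmem hmono hpi (τ := τ + n • Real.pi) hn.1 hn.2.le
  have e : ∀ z : ℂ, |ip z (ex (τ + n • Real.pi))| = |ip z (ex τ)| := by
    intro z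
    have : ex (τ + n • Real.pi) = ((-1) ^ n : ℝ) • ex τ := by
      apply Complex.ext
      · simp only [ex, Complex.real_smul, Complex.re_ofReal_mul, zsmul_eq_mul,
          Real.cos_add_int_mul_pi]
      · simp only [ex, Complex.real_smul, Complex.im_ofReal_mul, zsmul_eq_mul,
          Real.sin_add_int_mul_pi]
    rw [this]
    have h2 : ip z (((-1) ^ n : ℝ) • ex τ) = (-1) ^ n * ip z (ex τ) := by
      simp only [ip, Complex.real_smul, Complex.re_ofReal_mul, Complex.im_ofReal_mul]; ring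
    rw [h2, abs_mul, abs_zpow, abs_neg, abs_one, one_zpow, one_mul]
  calc _ = ∑ i ∈ Finset.range M, b2F S t (τ + n • Real.pi) i := by
        refine Finset.sum_congr rfl fun i _ => ?_
        unfold b2F
        rw [e, e]
    _ ≤ 2 := h

/-- the support function of the regular hexagon of width one -/
private theorem b2_hex {z : ℂ} {τ : ℝ} (h0 : |ip z (ex τ)| ≤ 1 / 2)
    (h1 : |ip z (ex (τ + Real.pi / 3))| ≤ 1 / 2)
    (h2 : |ip z (ex (τ + 2 * Real.pi / 3))| ≤ 1 / 2) (e : ℂ) :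
    2 * Real.sqrt 3 * |cr z e| ≤ |ip e (ex τ)| + |ip e (ex (τ + Real.pi / 3))| +
      |ip e (ex (τ + 2 * Real.pi / 3))| := by
  have hs3 : Real.sqrt 3 ^ 2 = 3 := Real.sq_sqrt (by norm_num)
  have hs0 : 0 ≤ Real.sqrt 3 := Real.sqrt_nonneg 3
  have hcs := Real.cos_sq_add_sin_sq τ
  have c1 : Real.cos (τ + Real.pi / 3) = Real.cos τ / 2 - Real.sqrt 3 / 2 * Real.sin τ := by
    rw [Real.cos_add, Real.cos_pi_div_three, Real.sin_pi_div_three]; ring
  have s1 : Real.sin (τ + Real.pi / 3) = Real.sin τ / 2 + Real.sqrt 3 / 2 * Real.cos τ := by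
    rw [Real.sin_add, Real.cos_pi_div_three, Real.sin_pi_div_three]; ring
  have e23 : 2 * Real.pi / 3 = Real.pi - Real.pi / 3 := by ring
  have c2 : Real.cos (τ + 2 * Real.pi / 3) = -Real.cos τ / 2 - Real.sqrt 3 / 2 * Real.sin τ := by
    rw [Real.cos_add, e23, Real.cos_pi_sub, Real.sin_pi_sub, Real.cos_pi_div_three,
      Real.sin_pi_div_three]; ring
  have s2 : Real.sin (τ + 2 * Real.pi / 3) = -Real.sin τ / 2 + Real.sqrt 3 / 2 * Real.cos τ := by
    rw [Real.sin_add, e23, Real.cos_pi_sub, Real.sin_pi_sub, Real.cos_pi_div_three,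
      Real.sin_pi_div_three]; ring
  simp only [ip, ex, c1, s1, c2, s2] at h0 h1 h2 ⊢
  set c := Real.cos τ
  set s := Real.sin τ
  set r := Real.sqrt 3
  set z0 := z.re * c + z.im * s with hz0
  set z1 := z.re * (c / 2 - r / 2 * s) + z.im * (s / 2 + r / 2 * c) with hz1
  set z2 := z.re * (-c / 2 - r / 2 * s) + z.im * (-s / 2 + r / 2 * c) with hz2
  set e0 := e.re * c + e.im * s with he0
  set e1 := e.re * (c / 2 - r / 2 * s) + e.im * (s / 2 + r / 2 * c) with he1
  set e2 := e.re * (-c / 2 - r / 2 * s) + e.im * (-s / 2 + r / 2 * c) with he2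
  have k01 : r / 2 * cr z e = z0 * e1 - z1 * e0 := by
    simp only [cr, hz0, hz1, he0, he1]
    linear_combination (-(r / 2) * (z.re * e.im - z.im * e.re)) * hcs
  have k12 : r / 2 * cr z e = z1 * e2 - z2 * e1 := by
    simp only [cr, hz1, hz2, he1, he2]
    linear_combination (-(r / 2) * (z.re * e.im - z.im * e.re)) * hcs
  have k02 : r / 2 * cr z e = z0 * e2 - z2 * e0 := by
    simp only [cr, hz0, hz2, he0, he2]
    linear_combination (-(r / 2) * (z.re * e.im - z.im * e.re)) * hcs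
  have lin : e1 = e0 + e2 := by
    simp only [he0, he1, he2]; ring
  have habs : ∀ a b x y : ℝ, |a| ≤ 1 / 2 → |b| ≤ 1 / 2 → |a * x - b * y| ≤ (|x| + |y|) / 2 := by
    intro a b x y ha hb
    calc |a * x - b * y| ≤ |a * x| + |b * y| := abs_sub _ _
      _ = |a| * |x| + |b| * |y| := by rw [abs_mul, abs_mul]
      _ ≤ 1 / 2 * |x| + 1 / 2 * |y| := by gcongr
      _ = _ := by ring
  have habsr : |r / 2 * cr z e| = r / 2 * |cr z e| := by
    rw [abs_mul, abs_of_nonneg (by positivity)]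
  have m01 : r / 2 * |cr z e| ≤ (|e1| + |e0|) / 2 := by
    rw [← habsr, k01]; exact habs _ _ _ _ h0 h1
  have m12 : r / 2 * |cr z e| ≤ (|e2| + |e1|) / 2 := by
    rw [← habsr, k12]; exact habs _ _ _ _ h1 h2
  have m02 : r / 2 * |cr z e| ≤ (|e2| + |e0|) / 2 := by
    rw [← habsr, k02]; exact habs _ _ _ _ h0 h2
  have fin : 4 * (r / 2 * |cr z e|) ≤ |e0| + |e1| + |e2| := by
    generalize r / 2 * |cr z e| = q at *
    rw [lin] at m01 m12 ⊢
    rcases abs_cases e0 with ⟨a0, _⟩ | ⟨a0, _⟩ <;> rcases abs_cases e2 with ⟨a2, _⟩ | ⟨a2, _⟩ <;>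
      rcases abs_cases (e0 + e2) with ⟨a1, _⟩ | ⟨a1, _⟩ <;>
      rw [a0, a1, a2] <;> rw [a0, a1] at m01 <;> rw [a1, a2] at m12 <;> rw [a0, a2] at m02 <;>
      linarith
  linarith

private theorem b2_cr_tel (a : ℕ → ℂ) (c : ℂ) (k : ℕ) :
    ∑ i ∈ Finset.range k, cr (a (i + 1) - a i) c = cr (a k - a 0) c := by
  induction k with
  | zero => simp [cr]
  | succ k ih =>
    rw [Finset.sum_range_succ, ih]
    simp [cr]; ring

private theorem b2_shoelace (a : ℕ → ℂ) (M : ℕ) :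
    ∑ k ∈ Finset.range M, ∑ i ∈ Finset.range k, cr (a (i + 1) - a i) (a (k + 1) - a k) =
      ∑ k ∈ Finset.range M, cr (a k) (a (k + 1) - a k) - cr (a 0) (a M) := by
  induction M with
  | zero => simp [cr]; ring
  | succ M ih =>
    rw [Finset.sum_range_succ, ih, b2_cr_tel, Finset.sum_range_succ]
    simp [cr]; ring

theorem pairSum_ge_full (S : ChordSys) {K : Set ℂ} (hc : IsCompact K)
    (hd : ∀ x ∈ K, ∀ y ∈ K, ‖x - y‖ ≤ 1)
    (hSK : ∀ t ∈ S.T, S.X t ∈ K) (t : ℕ → ℝ) (M : ℕ) (hmem : ∀ i ≤ M, t i ∈ S.T)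
    (hmono : ∀ i < M, t i ≤ t (i + 1)) (hpi : t M = t 0 + Real.pi) :
    ∑ i ∈ Finset.range M, Real.sin (t (i + 1) - t i) - Real.sqrt 3 ≤
      pairSum t (fun i => S.X (t (i + 1)) - S.X (t i)) M := by
  have hT0 := hmem 0 (Nat.zero_le _)
  obtain ⟨O, τ, hO⟩ := pal hc ⟨_, hSK _ hT0⟩ hd
  set x : ℕ → ℂ := fun i => S.X (t i) - O with hx
  set y : ℕ → ℂ := fun i => S.X (t i + Real.pi) - O with hy
  -- the pair sum is twice the area of the closed polygon
  have e1 : pairSum t (fun i => S.X (t (i + 1)) - S.X (t i)) M =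
      ∑ k ∈ Finset.range M, cr (x k) (x (k + 1) - x k) +
        ∑ k ∈ Finset.range M, cr (y k) (y (k + 1) - y k) := by
    have f1 := b2_shoelace x M
    have f2 := b2_shoelace y M
    have f3 : pairSum t (fun i => S.X (t (i + 1)) - S.X (t i)) M =
        ∑ k ∈ Finset.range M, ∑ i ∈ Finset.range k, cr (x (i + 1) - x i) (x (k + 1) - x k) +
        ∑ k ∈ Finset.range M, ∑ i ∈ Finset.range k, cr (y (i + 1) - y i) (y (k + 1) - y k) := by
      unfold pairSum
      rw [← Finset.sum_add_distrib]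
      refine Finset.sum_congr rfl fun k hk => ?_
      rw [← Finset.sum_add_distrib]
      refine Finset.sum_congr rfl fun i hi => ?_
      rw [Finset.mem_range] at hk hi
      rw [b2_v S (hmem i (by omega)) (hmem (i + 1) (by omega)),
        b2_v S (hmem k (by omega)) (hmem (k + 1) (by omega))]
      simp only [hx, hy, cr, Complex.sub_re, Complex.sub_im, Complex.neg_re, Complex.neg_im]
      ring
    have f4 : x M = y 0 := by simp only [hx, hy, hpi]
    have f5 : y M = x 0 := by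
      simp only [hx, hy, hpi]
      rw [S.tail _ ((S.per _).1 hT0), S.tail _ hT0, b2_ex_add_pi]
      ring
    rw [f3, f1, f2, f4, f5]
    simp only [cr]
    ring
  have e2 : ∀ i ∈ Finset.range M, Real.sin (t (i + 1) - t i) -
      (b2F S t τ i + b2F S t (τ + Real.pi / 3) i + b2F S t (τ + 2 * Real.pi / 3) i) /
        (2 * Real.sqrt 3) ≤
      cr (x i) (x (i + 1) - x i) + cr (y i) (y (i + 1) - y i) := by
    intro i hi
    rw [Finset.mem_range] at hi
    have m1 := hmem i (by omega)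
    have m2 := hmem (i + 1) (by omega)
    have g1 := hO _ (hSK _ m1)
    have g2 := hO _ (hSK _ ((S.per _).1 m1))
    have q1 := b2_hex g1.1 g1.2.1 g1.2.2
      (ex (t (i + 1)) - ex (t i) - (S.X (t (i + 1)) - S.X (t i)))
    have q2 := b2_hex g2.1 g2.2.1 g2.2.2 (S.X (t (i + 1)) - S.X (t i))
    have hs3 : 0 < Real.sqrt 3 := Real.sqrt_pos.2 (by norm_num)
    have key : cr (x i) (x (i + 1) - x i) + cr (y i) (y (i + 1) - y i) =
        Real.sin (t (i + 1) - t i) +
        cr (S.X (t i + Real.pi) - O) (S.X (t (i + 1)) - S.X (t i)) -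
        cr (S.X (t i) - O) (ex (t (i + 1)) - ex (t i) - (S.X (t (i + 1)) - S.X (t i))) := by
      simp only [hx, hy]
      rw [S.tail _ m1, S.tail _ m2, Real.sin_sub]
      simp only [cr, ex, Complex.sub_re, Complex.sub_im]
      ring
    rw [key]
    have b1 : -|cr (S.X (t i + Real.pi) - O) (S.X (t (i + 1)) - S.X (t i))| ≤
        cr (S.X (t i + Real.pi) - O) (S.X (t (i + 1)) - S.X (t i)) := neg_abs_le _
    have b2 : cr (S.X (t i) - O)
        (ex (t (i + 1)) - ex (t i) - (S.X (t (i + 1)) - S.X (t i))) ≤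
        |cr (S.X (t i) - O)
          (ex (t (i + 1)) - ex (t i) - (S.X (t (i + 1)) - S.X (t i)))| := le_abs_self _
    have b3 : |cr (S.X (t i + Real.pi) - O) (S.X (t (i + 1)) - S.X (t i))| +
        |cr (S.X (t i) - O)
          (ex (t (i + 1)) - ex (t i) - (S.X (t (i + 1)) - S.X (t i)))| ≤
        (b2F S t τ i + b2F S t (τ + Real.pi / 3) i + b2F S t (τ + 2 * Real.pi / 3) i) /
        (2 * Real.sqrt 3) := by
      rw [le_div_iff₀ (by positivity)]
      unfold b2F
      linarith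
    linarith
  have e3 := Finset.sum_le_sum e2
  rw [Finset.sum_sub_distrib, Finset.sum_add_distrib, ← e1, ← Finset.sum_div,
    Finset.sum_add_distrib, Finset.sum_add_distrib] at e3
  have a0 := b2_total' S t M hmem hmono hpi τ
  have a1 := b2_total' S t M hmem hmono hpi (τ + Real.pi / 3)
  have a2 := b2_total' S t M hmem hmono hpi (τ + 2 * Real.pi / 3)
  have hs3 : 0 < Real.sqrt 3 := Real.sqrt_pos.2 (by norm_num)
  have hs3' : Real.sqrt 3 * Real.sqrt 3 = 3 := Real.mul_self_sqrt (by norm_num)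
  have e4 : (∑ i ∈ Finset.range M, b2F S t τ i + ∑ i ∈ Finset.range M, b2F S t (τ + Real.pi / 3) i +
      ∑ i ∈ Finset.range M, b2F S t (τ + 2 * Real.pi / 3) i) / (2 * Real.sqrt 3) ≤
      Real.sqrt 3 := by
    rw [div_le_iff₀ (by positivity)]
    nlinarith
  linarith

end Pool.Agent.Ruler
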