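import Mathlib

/-!
MP_067807_co: basic vectors and the abstract chord systems.
-/

open Set

namespace Pool.Agent.Ruler

/-- unit vector in direction `t` -/
noncomputable def ex (t : ℝ) : ℂ := ⟨Real.cos t, Real.sin t⟩
/-- unit normal, `nx t = ex (t + π/2)` -/
noncomputable def nx (t : ℝ) : ℂ := ⟨-Real.sin t, Real.cos t⟩
/-- inner product -/
def ip (z w : ℂ) : ℝ := z.re * w.re + z.im * w.im
/-- cross product -/
def cr (z w : ℂ) : ℝ := z.re * w.im - z.im * w.re

/-- `x - sin x` -/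
noncomputable def psi (x : ℝ) : ℝ := x - Real.sin x

/-- A chord system: a closed set `T` of directions, invariant under `t ↦ t + π`, and for every
`t ∈ T` the head `X t` of the unit chord `[X t - ex t, X t]`; all heads and tails are at distance
at most `1`. -/
structure ChordSys where
  T : Set ℝ
  X : ℝ → ℂ
  closed : IsClosed T
  per : ∀ t, t ∈ T ↔ t + Real.pi ∈ T
  tail : ∀ t ∈ T, X (t + Real.pi) = X t - ex t
  dist_le : ∀ s ∈ T, ∀ t ∈ T, ‖X s - X t‖ ≤ 1

/-- the two ends of the chord `t` -/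
noncomputable def ChordSys.P (S : ChordSys) (σ : Bool) (t : ℝ) : ℂ :=
  if σ = true then S.X t else S.X t - ex t

/-- `(A, B)` is a base interval: `A, B ∈ T`, `A ≤ B ≤ A + π` and `T` does not meet `(B, A + π)`, so
every chord has its direction in `T ∩ [A,B]` modulo `π`. -/
def ChordSys.Base (S : ChordSys) (A B : ℝ) : Prop :=
  A ∈ S.T ∧ B ∈ S.T ∧ A ≤ B ∧ B ≤ A + Real.pi ∧ ∀ t ∈ S.T, ¬ (B < t ∧ t < A + Real.pi)

/-- the chain property (what universality gives): for all lengths `l k ∈ (0,1)` there is a sequence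
of unit chords (with orientations) such that the end of the `k`-th one is at distance `l k` from the
beginning of the next one. -/
def ChordSys.Chains (S : ChordSys) : Prop :=
  ∀ A : ℝ, ∀ n : ℕ, ∀ l : ℕ → ℝ, (∀ k < n, 0 < l k ∧ l k < 1) →
    ∃ θ : ℕ → ℝ, ∃ σ : ℕ → Bool, (∀ k ≤ n, θ k ∈ S.T ∧ A ≤ θ k ∧ θ k < A + Real.pi) ∧
      ∀ k < n, ‖S.P (σ k) (θ k) - S.P (!(σ (k + 1))) (θ (k + 1))‖ = l k

/-- A net of mesh `δ` on `[A,B]`: `n` blocks `[a i, b i]` with endpoints in `T`, in order, first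
point `A`, last point `B`, every block of length `≤ δ`, covering `T ∩ [A,B]`. -/
structure Net (T : Set ℝ) (A B δ : ℝ) where
  n : ℕ
  pos : 0 < n
  a : ℕ → ℝ
  b : ℕ → ℝ
  a_mem : ∀ i < n, a i ∈ T
  b_mem : ∀ i < n, b i ∈ T
  first : a 0 = A
  last : b (n - 1) = B
  le : ∀ i < n, a i ≤ b i
  mesh : ∀ i < n, b i - a i ≤ δ
  sep : ∀ i, i + 1 < n → b i ≤ a (i + 1)
  cover : ∀ t ∈ T, A ≤ t → t ≤ B → ∃ i < n, a i ≤ t ∧ t ≤ b i

/-- the pair sums of the edges `w i` and `v i = (ex (t (i+1)) - ex (t i)) - w i` -/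
noncomputable def pairSum (t : ℕ → ℝ) (w : ℕ → ℂ) (M : ℕ) : ℝ :=
  ∑ k ∈ Finset.range M, ∑ i ∈ Finset.range k,
    (cr (w i) (w k) + cr (ex (t (i + 1)) - ex (t i) - w i) (ex (t (k + 1)) - ex (t k) - w k))

end Pool.Agent.Ruler
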