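import Pool.Agent.Ruler.Defs

/-!
MP_067807_co: a compact union of convex sets which all contain a fixed disc is a case
(its boundary is a simple closed curve).
-/

open Set MeasureTheory Metric
open scoped Pointwise NNReal

namespace Pool.Agent.Ruler

section gauge

variable {ι : Type*} {T : ι → Set ℂ} {r : ℝ}

theorem absorbent_of_ball {A : Set ℂ} (hr : 0 < r) (h : closedBall (0:ℂ) r ⊆ A) :
    Absorbent ℝ A :=
  (absorbent_nhds_zero (closedBall_mem_nhds (0:ℂ) hr)).mono h

theorem gauge_iUnion_le (hr : 0 < r) (hconv : ∀ i, Convex ℝ (T i))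
    (hball : ∀ i, closedBall (0:ℂ) r ⊆ T i) [Nonempty ι] (x y : ℂ) :
    gauge (⋃ i, T i) y ≤ gauge (⋃ i, T i) x + r⁻¹ * dist x y := by
  have habs : Absorbent ℝ (⋃ i, T i) := by
    obtain ⟨i⟩ := ‹Nonempty ι›
    exact absorbent_of_ball hr ((hball i).trans (subset_iUnion T i))
  refine le_of_forall_pos_le_add fun ε hε => ?_
  obtain ⟨b, hb0, hb, hxb⟩ := exists_lt_of_gauge_lt habs
    (show gauge (⋃ i, T i) x < gauge (⋃ i, T i) x + ε by linarith)
  obtain ⟨z, hz, rfl⟩ := hxb
  obtain ⟨i, hi⟩ := mem_iUnion.1 hz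
  have habsi : Absorbent ℝ (T i) := absorbent_of_ball hr (hball i)
  have h1 : gauge (T i) (b • z) ≤ b := gauge_le_of_mem hb0.le ⟨z, hi, rfl⟩
  have hl : LipschitzWith (⟨r, hr.le⟩ : ℝ≥0)⁻¹ (gauge (T i)) :=
    (hconv i).lipschitzWith_gauge (r := ⟨r, hr.le⟩) (by exact_mod_cast hr)
      (ball_subset_closedBall.trans (hball i))
  have h2 := hl.dist_le_mul y (b • z)
  rw [Real.dist_eq] at h2
  have h3 : gauge (T i) y - gauge (T i) (b • z) ≤ r⁻¹ * dist (b • z) y := by
    rw [dist_comm]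
    exact (le_abs_self _).trans h2
  have h4 : gauge (⋃ i, T i) y ≤ gauge (T i) y := gauge_mono habsi (subset_iUnion T i) y
  linarith

theorem continuous_gauge_iUnion (hr : 0 < r) (hconv : ∀ i, Convex ℝ (T i))
    (hball : ∀ i, closedBall (0:ℂ) r ⊆ T i) [Nonempty ι] :
    Continuous (gauge (⋃ i, T i)) := by
  have : LipschitzWith (⟨r, hr.le⟩ : ℝ≥0)⁻¹ (gauge (⋃ i, T i)) := by
    refine LipschitzWith.of_dist_le_mul fun x y => ?_
    rw [Real.dist_eq, abs_le]
    have h1 := gauge_iUnion_le hr hconv hball x y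
    have h2 := gauge_iUnion_le hr hconv hball y x
    rw [dist_comm] at h2
    have h3 : (((⟨r, hr.le⟩ : ℝ≥0)⁻¹ : ℝ≥0) : ℝ) = r⁻¹ := rfl
    rw [h3]
    constructor <;> linarith
  exact this.continuous

theorem closure_iUnion_eq (hr : 0 < r) (hconv : ∀ i, Convex ℝ (T i))
    (hball : ∀ i, closedBall (0:ℂ) r ⊆ T i) [Nonempty ι] :
    closure (⋃ i, T i) = {x | gauge (⋃ i, T i) x ≤ 1} := by
  have hc := continuous_gauge_iUnion hr hconv hball
  apply Subset.antisymm
  · exact closure_minimal (fun x hx => gauge_le_one_of_mem hx) (isClosed_le hc continuous_const)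
  intro x h
  have h : gauge (⋃ i, T i) x ≤ 1 := h
  have habs : Absorbent ℝ (⋃ i, T i) := by
    obtain ⟨i⟩ := ‹Nonempty ι›
    exact absorbent_of_ball hr ((hball i).trans (subset_iUnion T i))
  have hstar : ∀ z ∈ (⋃ i, T i), ∀ t : ℝ, 0 ≤ t → t ≤ 1 → t • z ∈ (⋃ i, T i) := by
    intro z hz t ht0 ht1
    obtain ⟨i, hi⟩ := mem_iUnion.1 hz
    refine mem_iUnion.2 ⟨i, ?_⟩
    exact (hconv i).smul_mem_of_zero_mem (hball i (mem_closedBall_self hr.le)) hi ⟨ht0, ht1⟩
  -- the points `(1 - s) • x` are in the set for `0 < s < 1`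
  have hmem : ∀ s : ℝ, 0 < s → s < 1 → (1 - s) • x ∈ (⋃ i, T i) := by
    intro s hs0 hs1
    have h1 : gauge (⋃ i, T i) x < (1 - s)⁻¹ := by
      refine lt_of_le_of_lt h ?_
      rw [one_lt_inv₀ (by linarith)]
      linarith
    obtain ⟨b, hb0, hb, z, hz, hzx⟩ := exists_lt_of_gauge_lt habs h1
    have hzx' : b • z = x := hzx
    rw [← hzx', smul_smul]
    refine hstar z hz _ (mul_nonneg (by linarith) hb0.le) ?_
    have : b * (1 - s) ≤ 1 := by
      have := mul_le_mul_of_nonneg_right hb.le (show 0 ≤ 1 - s by linarith)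
      rwa [inv_mul_cancel₀ (by linarith)] at this
    linarith [mul_comm b (1 - s)]
  have hlim : Filter.Tendsto (fun s : ℝ => (1 - s) • x) (nhdsWithin 0 (Ioi 0)) (nhds x) := by
    have : Filter.Tendsto (fun s : ℝ => (1 - s) • x) (nhds 0) (nhds ((1 - (0:ℝ)) • x)) :=
      ((continuous_const.sub continuous_id).smul continuous_const).tendsto 0
    rw [sub_zero, one_smul] at this
    exact this.mono_left nhdsWithin_le_nhds
  refine mem_closure_of_tendsto hlim ?_
  have : Ioo (0:ℝ) 1 ∈ nhdsWithin (0:ℝ) (Ioi 0) := Ioo_mem_nhdsGT zero_lt_one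
  filter_upwards [this] with s hs
  exact hmem s hs.1 hs.2

theorem frontier_iUnion (hr : 0 < r) (hconv : ∀ i, Convex ℝ (T i))
    (hball : ∀ i, closedBall (0:ℂ) r ⊆ T i) [Nonempty ι] :
    frontier (closure (⋃ i, T i)) = {x | gauge (⋃ i, T i) x = 1} := by
  have hc := continuous_gauge_iUnion hr hconv hball
  have hint : interior (closure (⋃ i, T i)) = {x | gauge (⋃ i, T i) x < 1} := by
    rw [closure_iUnion_eq hr hconv hball]
    apply Subset.antisymm
    · intro x hx
      -- `(1 + ε) • x` still has gauge `≤ 1`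
      have hlim : Filter.Tendsto (fun s : ℝ => (1 + s) • x) (nhdsWithin 0 (Ioi 0)) (nhds x) := by
        have : Filter.Tendsto (fun s : ℝ => (1 + s) • x) (nhds 0) (nhds ((1 + (0:ℝ)) • x)) :=
          ((continuous_const.add continuous_id).smul continuous_const).tendsto 0
        rw [add_zero, one_smul] at this
        exact this.mono_left nhdsWithin_le_nhds
      have h1 := hlim.eventually (isOpen_interior.mem_nhds hx)
      have h2 : ∀ᶠ s : ℝ in nhdsWithin (0:ℝ) (Ioi 0), 0 < s := self_mem_nhdsWithin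
      obtain ⟨s, hs1, hs2⟩ := (h1.and h2).exists
      have h3' : (1 + s) • x ∈ {x | gauge (⋃ i, T i) x ≤ 1} := interior_subset hs1
      have h3 : gauge (⋃ i, T i) ((1 + s) • x) ≤ 1 := h3'
      rw [gauge_smul_of_nonneg (by linarith), smul_eq_mul] at h3
      show gauge (⋃ i, T i) x < 1
      by_contra h4
      push Not at h4
      nlinarith
    · refine interior_maximal ?_ (isOpen_lt hc continuous_const)
      intro x hx
      exact le_of_lt (show gauge (⋃ i, T i) x < 1 from hx)
  rw [isClosed_closure.frontier_eq, hint, closure_iUnion_eq hr hconv hball]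
  ext x
  simp only [mem_sdiff, mem_ofPred_eq, not_lt]
  exact ⟨fun h => le_antisymm h.1 h.2, fun h => ⟨h.le, h.ge⟩⟩

/-- The case of a union star-shaped around `0`. -/
theorem exists_curve_zero (hr : 0 < r) (hconv : ∀ i, Convex ℝ (T i))
    (hball : ∀ i, closedBall (0:ℂ) r ⊆ T i) [Nonempty ι]
    (hbdd : Bornology.IsBounded (⋃ i, T i)) :
    ∃ γ : Circle → ℂ, Continuous γ ∧ Function.Injective γ ∧
      frontier (closure (⋃ i, T i)) = range γ := by
  set g := gauge (⋃ i, T i) with hg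
  have hc : Continuous g := continuous_gauge_iUnion hr hconv hball
  have habs : Absorbent ℝ (⋃ i, T i) := by
    obtain ⟨i⟩ := ‹Nonempty ι›
    exact absorbent_of_ball hr ((hball i).trans (subset_iUnion T i))
  obtain ⟨R, hR⟩ := hbdd.subset_closedBall (0:ℂ)
  have hR' : (⋃ i, T i) ⊆ closedBall (0:ℂ) (max R 1) :=
    hR.trans (closedBall_subset_closedBall (le_max_left _ _))
  have hR0 : 0 < max R 1 := lt_of_lt_of_le one_pos (le_max_right _ _)
  have hpos : ∀ x : ℂ, x ≠ 0 → 0 < g x := by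
    intro x hx
    have := le_gauge_of_subset_closedBall habs hR0.le hR' (x := x)
    refine lt_of_lt_of_le ?_ this
    exact div_pos (norm_pos_iff.2 hx) hR0
  have hposu : ∀ u : Circle, 0 < g u := fun u => hpos u (Circle.coe_ne_zero u)
  have hsm : ∀ (a : ℝ), 0 ≤ a → ∀ x : ℂ, g (a • x) = a * g x := by
    intro a ha x
    rw [hg, gauge_smul_of_nonneg ha, smul_eq_mul]
  refine ⟨fun u => (g u)⁻¹ • (u : ℂ), ?_, ?_, ?_⟩
  · exact ((hc.comp continuous_subtype_val).inv₀ fun u => (hposu u).ne').smul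
      continuous_subtype_val
  · intro u v huv
    have huv' : (g u)⁻¹ • (u : ℂ) = (g v)⁻¹ • (v : ℂ) := huv
    have h1 : ‖(g u)⁻¹ • (u : ℂ)‖ = (g u)⁻¹ := by
      rw [norm_smul, Circle.norm_coe, mul_one, Real.norm_of_nonneg (inv_nonneg.2 (hposu u).le)]
    have h2 : ‖(g v)⁻¹ • (v : ℂ)‖ = (g v)⁻¹ := by
      rw [norm_smul, Circle.norm_coe, mul_one, Real.norm_of_nonneg (inv_nonneg.2 (hposu v).le)]
    have h3 : (g u)⁻¹ = (g v)⁻¹ := by rw [← h1, ← h2, huv']
    rw [h3] at huv'
    have h4 : (g v)⁻¹ ≠ 0 := (inv_pos.2 (hposu v)).ne'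
    have := smul_right_injective ℂ h4 huv'
    exact Circle.ext this
  · rw [frontier_iUnion hr hconv hball]
    ext y
    simp only [mem_ofPred_eq, mem_range]
    constructor
    · intro hy
      have hy0 : y ≠ 0 := by
        rintro rfl
        rw [gauge_zero] at hy
        exact zero_ne_one hy
      have hn : 0 < ‖y‖ := norm_pos_iff.2 hy0
      refine ⟨⟨(‖y‖⁻¹ : ℝ) • y, ?_⟩, ?_⟩
      · show (‖y‖⁻¹ : ℝ) • y ∈ sphere (0:ℂ) 1
        rw [mem_sphere_zero_iff_norm, norm_smul, norm_inv, norm_norm, inv_mul_cancel₀ hn.ne']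
      · show (g ((‖y‖⁻¹ : ℝ) • y))⁻¹ • ((‖y‖⁻¹ : ℝ) • y) = y
        rw [hsm _ (inv_nonneg.2 hn.le), show g y = 1 from hy, mul_one, inv_inv, smul_smul,
          mul_inv_cancel₀ hn.ne', one_smul]
    · rintro ⟨u, rfl⟩
      show g ((g u)⁻¹ • (u:ℂ)) = 1
      rw [hsm _ (inv_nonneg.2 (hposu u).le), inv_mul_cancel₀ (hposu u).ne']

end gauge

/-- The closure of a bounded union of convex sets which all contain a fixed disc is a case. -/
theorem isCase_closure_iUnion {ι : Type*} [Nonempty ι] {K : ι → Set ℂ} {Z : ℂ} {r : ℝ}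
    (hr : 0 < r) (hconv : ∀ i, Convex ℝ (K i)) (hball : ∀ i, closedBall Z r ⊆ K i)
    (hbdd : Bornology.IsBounded (⋃ i, K i)) : IsCase (closure (⋃ i, K i)) := by
  refine ⟨hbdd.isCompact_closure, ?_, ?_⟩
  · obtain ⟨i⟩ := ‹Nonempty ι›
    refine ⟨Z, interior_maximal (s := closure (⋃ i, K i)) (t := ball Z r) ?_ isOpen_ball
      (mem_ball_self hr)⟩
    exact ((ball_subset_closedBall.trans (hball i)).trans (subset_iUnion K i)).trans
      subset_closure
  · let φ : ℂ ≃ₜ ℂ := Homeomorph.addLeft (-Z)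
    have hT : (⋃ i, φ '' K i) = φ '' (⋃ i, K i) := (image_iUnion).symm
    obtain ⟨γ, h1, h2, h3⟩ := exists_curve_zero (T := fun i => φ '' K i) (r := r) hr
      (fun i => by
        have : φ '' K i = (fun x => -Z + x) '' K i := rfl
        rw [this]
        exact (hconv i).translate (-Z))
      (fun i => by
        intro x hx
        refine ⟨Z + x, hball i ?_, ?_⟩
        · rw [mem_closedBall, dist_eq_norm]
          simpa using hx
        · show -Z + (Z + x) = x
          ring)
      (by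
        rw [hT]
        exact (hbdd.isCompact_closure.image φ.continuous).isBounded.subset
          (image_mono subset_closure))
    refine ⟨fun u => Z + γ u, continuous_const.add h1, fun u v h => h2 (add_left_cancel h), ?_⟩
    rw [hT, ← φ.image_closure, ← φ.image_frontier] at h3
    have : frontier (closure (⋃ i, K i)) = φ.symm '' (range γ) := by
      rw [← h3, ← image_comp]
      simp
    rw [this]
    ext y
    constructor
    · rintro ⟨x, ⟨u, rfl⟩, rfl⟩
      refine ⟨u, ?_⟩
      show Z + γ u = φ.symm (γ u)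
      rw [show φ.symm (γ u) = -(-Z) + γ u from rfl, neg_neg]
    · rintro ⟨u, rfl⟩
      refine ⟨γ u, ⟨u, rfl⟩, ?_⟩
      rw [show φ.symm (γ u) = -(-Z) + γ u from rfl, neg_neg]

/-- A compact union of convex sets which all contain a fixed disc is a case. -/
theorem isCase_iUnion {ι : Type*} [Nonempty ι] {K : ι → Set ℂ} {Z : ℂ} {r : ℝ} (hr : 0 < r)
    (hconv : ∀ i, Convex ℝ (K i)) (hball : ∀ i, closedBall Z r ⊆ K i)
    (hcomp : IsCompact (⋃ i, K i)) : IsCase (⋃ i, K i) := by
  have := isCase_closure_iUnion hr hconv hball hcomp.isBounded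
  rwa [hcomp.isClosed.closure_eq] at this

/-- A compact convex set with nonempty interior is a case. -/
theorem isCase_of_convex {K : Set ℂ} (hK : Convex ℝ K) (hc : IsCompact K)
    (hi : (interior K).Nonempty) : IsCase K := by
  obtain ⟨Z, hZ⟩ := hi
  obtain ⟨r, hr, hball⟩ := Metric.mem_nhds_iff.1 (mem_interior_iff_mem_nhds.1 hZ)
  have h := isCase_iUnion (ι := Unit) (K := fun _ => K) (Z := Z) (r := r / 2) (by linarith)
    (fun _ => hK) (fun _ => (closedBall_subset_ball (by linarith)).trans hball)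
    (by rw [iUnion_const]; exact hc)
  rwa [iUnion_const] at h

end Pool.Agent.Ruler
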