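import Mathlib

/-!
MP_067807_co: carpenter's rulers, cases, universality.  Definitions and the general strategy lemma.
-/

open Set MeasureTheory

namespace Pool.Agent.Ruler

/-- A unit ruler: a list of link lengths in `(0,1]`, one of which is `1`. -/
def UnitRuler (l : List ℝ) : Prop := (∀ x ∈ l, 0 < x ∧ x ≤ 1) ∧ (1:ℝ) ∈ l

/-- The ruler with link lengths `l` can be folded inside `S`: its vertices `p 0, p 1, …` can be
placed in the plane so that the `i`-th link `[p i, p (i+1)]` has the prescribed length and is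
contained in `S`. -/
def FoldsInside (l : List ℝ) (S : Set ℂ) : Prop :=
  ∃ p : ℕ → ℂ, ∀ i (hi : i < l.length),
    dist (p i) (p (i + 1)) = l[i] ∧ segment ℝ (p i) (p (i + 1)) ⊆ S

/-- Every unit ruler can be folded inside `S`. -/
def Universal (S : Set ℂ) : Prop := ∀ l : List ℝ, UnitRuler l → FoldsInside l S

/-- A case: a compact region with nonempty interior whose boundary is a simple closed curve. -/
def IsCase (S : Set ℂ) : Prop :=
  IsCompact S ∧ (interior S).Nonempty ∧
    ∃ γ : Circle → ℂ, Continuous γ ∧ Function.Injective γ ∧ frontier S = range γ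

/-- If there is a nonempty set `E` such that from every point of `E` every length in `[0,1]` can be
realised by a segment in `S` ending in `E`, then `S` is universal. -/
theorem universal_of_step {S E : Set ℂ} (hE : E.Nonempty)
    (h : ∀ p ∈ E, ∀ l ∈ Icc (0:ℝ) 1, ∃ q ∈ E, dist p q = l ∧ segment ℝ p q ⊆ S) :
    Universal S := by
  classical
  intro l hl
  obtain ⟨p0, hp0⟩ := hE
  have key : ∀ (l : List ℝ), (∀ x ∈ l, 0 < x ∧ x ≤ 1) → ∀ p0 ∈ E, ∃ p : ℕ → ℂ, p 0 = p0 ∧
      ∀ i (hi : i < l.length), dist (p i) (p (i + 1)) = l[i] ∧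
        segment ℝ (p i) (p (i + 1)) ⊆ S := by
    intro l
    induction l with
    | nil => intro _ p0 _; exact ⟨fun _ => p0, rfl, fun i hi => absurd hi (by simp)⟩
    | cons a l ih =>
      intro hl p0 hp0
      obtain ⟨ha0, ha1⟩ := hl a (by simp)
      obtain ⟨q, hq, hd, hs⟩ := h p0 hp0 a ⟨ha0.le, ha1⟩
      obtain ⟨p, hp, hpl⟩ := ih (fun x hx => hl x (by simp [hx])) q hq
      refine ⟨fun n => Nat.casesOn n p0 p, rfl, ?_⟩
      intro i hi
      cases i with
      | zero =>
        simp only [List.getElem_cons_zero]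
        constructor
        · show dist p0 (p 0) = a
          rw [hp]; exact hd
        · show segment ℝ p0 (p 0) ⊆ S
          rw [hp]; exact hs
      | succ i =>
        have := hpl i (by simpa using hi)
        simpa using this
  obtain ⟨p, _, hp⟩ := key l hl.1 p0 hp0
  exact ⟨p, hp⟩

/-- The connected strategy: `G` is a path, every point `G s` has a partner `G s'` at distance `1`
such that all segments from `G s` to points of the path between them are in `S`. -/
theorem universal_of_path {S : Set ℂ} {a b : ℝ} (hab : a ≤ b) {G : ℝ → ℂ}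
    (hG : ContinuousOn G (Icc a b))
    (h : ∀ s ∈ Icc a b, ∃ s' ∈ Icc a b, dist (G s) (G s') = 1 ∧
      ∀ τ ∈ uIcc s s', segment ℝ (G s) (G τ) ⊆ S) : Universal S := by
  refine universal_of_step (E := G '' Icc a b) ⟨G a, a, ⟨le_rfl, hab⟩, rfl⟩ ?_
  rintro _ ⟨s, hs, rfl⟩ l hl
  obtain ⟨s', hs', h1, h2⟩ := h s hs
  have hsub : uIcc s s' ⊆ Icc a b := by
    rw [← uIcc_of_le hab]
    exact uIcc_subset_uIcc (by rwa [uIcc_of_le hab]) (by rwa [uIcc_of_le hab])
  have hc : ContinuousOn (fun τ => dist (G s) (G τ)) (uIcc s s') := by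
    exact (continuous_const.dist continuous_id).comp_continuousOn (hG.mono hsub)
  have := intermediate_value_uIcc hc
  simp only [dist_self, h1] at this
  rw [uIcc_of_le zero_le_one] at this
  obtain ⟨τ, hτ, hτl⟩ := this hl
  exact ⟨G τ, ⟨τ, hsub hτ, rfl⟩, hτl, h2 τ hτ⟩

end Pool.Agent.Ruler
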