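import Mathlib
import Pool.Agent.Helper64.Ruler.Slide

/-!
MP_067807_co, module Entropy: the abstract counting theorem.

`n` blocks `[a i, b i]`, states `(x, σ)` with `x` in a block, steps of length `l` given by a kernel
`F` which is antitone in the first and monotone in the second variable. If all words with letters
in `(0,1)` are realised by chains of steps, then `1 ≤ ∑ μ p κ p q ^ 2 / μ q`. Proof: every word is
realised by a chain with one coordinate at the left end of its block (sliding lemma), and the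
volume of the set of words realised from a fixed state is estimated by Fubini.
-/

open Set MeasureTheory Topology

namespace Pool.Agent.Ruler

/-- a step of length `l` from the state `(x, σ)` to the state `(y, τ)` -/
def Step (F : Bool → Bool → ℝ → ℝ → ℝ) (l : ℝ) (σ τ : Bool) (x y : ℝ) : Prop :=
  F σ τ x y = l ∨ F (!τ) (!σ) y x = l

namespace Entropy

/-- a separately continuous function, antitone in the first variable, is continuous -/
lemma cont_of_sep {f : ℝ → ℝ → ℝ} (hanti : ∀ y, Antitone (fun x => f x y))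
    (hcl : ∀ y, Continuous (fun x => f x y)) (hcr : ∀ x, Continuous (f x)) :
    Continuous (fun p : ℝ × ℝ => f p.1 p.2) := by
  rw [continuous_iff_continuousAt]
  rintro ⟨x0, y0⟩
  rw [ContinuousAt, tendsto_order]
  constructor
  · intro c hc
    have h1 : ∀ᶠ x in 𝓝 x0, c < f x y0 := (hcl y0).continuousAt.eventually (lt_mem_nhds hc)
    obtain ⟨x2, h2', h2⟩ : ∃ x2, c < f x2 y0 ∧ x2 ∈ Ioi x0 :=
      ((h1.filter_mono nhdsWithin_le_nhds).and (self_mem_nhdsWithin (s := Ioi x0))).exists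
    have h3 : ∀ᶠ y in 𝓝 y0, c < f x2 y := (hcr x2).continuousAt.eventually (lt_mem_nhds h2')
    filter_upwards [prod_mem_nhds (Iio_mem_nhds h2) h3] with p hp
    exact lt_of_lt_of_le hp.2 (hanti _ (le_of_lt hp.1))
  · intro c hc
    have h1 : ∀ᶠ x in 𝓝 x0, f x y0 < c := (hcl y0).continuousAt.eventually (gt_mem_nhds hc)
    obtain ⟨x2, h2', h2⟩ : ∃ x2, f x2 y0 < c ∧ x2 ∈ Iio x0 :=
      ((h1.filter_mono nhdsWithin_le_nhds).and (self_mem_nhdsWithin (s := Iio x0))).exists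
    have h3 : ∀ᶠ y in 𝓝 y0, f x2 y < c := (hcr x2).continuousAt.eventually (gt_mem_nhds h2')
    filter_upwards [prod_mem_nhds (Ioi_mem_nhds h2) h3] with p hp
    exact lt_of_le_of_lt (hanti _ (le_of_lt hp.1)) hp.2

/-- the same on a rectangle -/
lemma contOn_of_sep {f : ℝ → ℝ → ℝ} {a b c d : ℝ} (hab : a ≤ b) (hcd : c ≤ d)
    (hanti : ∀ y ∈ Icc c d, AntitoneOn (fun x => f x y) (Icc a b))
    (hcl : ∀ y ∈ Icc c d, ContinuousOn (fun x => f x y) (Icc a b))
    (hcr : ∀ x ∈ Icc a b, ContinuousOn (fun y => f x y) (Icc c d)) :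
    ContinuousOn (fun p : ℝ × ℝ => f p.1 p.2) (Icc a b ×ˢ Icc c d) := by
  have m1 : ∀ x, (projIcc a b hab x : ℝ) ∈ Icc a b := fun x => (projIcc a b hab x).2
  have m2 : ∀ y, (projIcc c d hcd y : ℝ) ∈ Icc c d := fun y => (projIcc c d hcd y).2
  have c1 : Continuous fun x => (projIcc a b hab x : ℝ) :=
    continuous_subtype_val.comp continuous_projIcc
  have c2 : Continuous fun x => (projIcc c d hcd x : ℝ) :=
    continuous_subtype_val.comp continuous_projIcc
  have key := cont_of_sep (f := fun x y => f (projIcc a b hab x) (projIcc c d hcd y))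
    (fun y x x' h => hanti _ (m2 y) (m1 x) (m1 x') (monotone_projIcc hab h))
    (fun y => (hcl _ (m2 y)).comp_continuous c1 m1)
    (fun x => (hcr _ (m1 x)).comp_continuous c2 m2)
  refine key.continuousOn.congr ?_
  rintro ⟨x, y⟩ ⟨hx, hy⟩
  simp only
  rw [projIcc_of_mem hab hx, projIcc_of_mem hcd hy]

/-- slices: if over almost every first letter `c` the set `E` is one of the sets `H y` -/
lemma vol_slice {k : ℕ} {J : Set ℝ} {g : ℝ → ℝ} {u v : ℝ} {V : ENNReal}
    {H : ℝ → Set (Fin k → ℝ)} {E : Set (Fin (k + 1) → ℝ)} (hE : MeasurableSet E)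
    (hsub : ∀ l ∈ E, ∃ y ∈ J, g y = l 0 ∧ Fin.tail l ∈ H y)
    (hg : ∀ y ∈ J, g y ∈ Icc u v)
    (hc : {c | ∃ x y, x ∈ J ∧ y ∈ J ∧ x < y ∧ g x = c ∧ g y = c}.Countable)
    (hV : ∀ y ∈ J, volume (H y) ≤ V) :
    volume E ≤ ENNReal.ofReal (v - u) * V := by
  have mp := (volume_preserving_piFinSuccAbove (fun _ : Fin (k + 1) => ℝ) 0).symm
  rw [← mp.measure_preimage_equiv, Measure.volume_eq_prod, Measure.prod_apply (mp.measurable hE)]
  calc _ ≤ ∫⁻ c, (Icc u v).indicator (fun _ => V) c := ?_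
    _ = ENNReal.ofReal (v - u) * V := by
        rw [lintegral_indicator measurableSet_Icc, setLIntegral_const, Real.volume_Icc, mul_comm]
  refine lintegral_mono_ae ?_
  filter_upwards [hc.ae_notMem volume] with c hcn
  by_cases hne : (Prod.mk c ⁻¹' ((MeasurableEquiv.piFinSuccAbove (fun _ : Fin (k + 1) => ℝ) 0).symm
      ⁻¹' E)).Nonempty
  · obtain ⟨w0, hw0⟩ := hne
    obtain ⟨y0, hy0, e0, _⟩ := hsub _ hw0
    have e0' : g y0 = c := by
      rw [e0]; simp [MeasurableEquiv.piFinSuccAbove, Fin.insertNthEquiv]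
    have hcm : c ∈ Icc u v := e0' ▸ hg y0 hy0
    rw [indicator_of_mem hcm]
    refine (measure_mono ?_).trans (hV y0 hy0)
    intro w hw
    obtain ⟨y, hy, e, hy'⟩ := hsub _ hw
    have e' : g y = c := by
      rw [e]; simp [MeasurableEquiv.piFinSuccAbove, Fin.insertNthEquiv]
    have hyy : y = y0 := by
      by_contra hne
      rcases lt_or_gt_of_ne hne with h | h
      · exact hcn ⟨y, y0, hy, hy0, h, e', e0'⟩
      · exact hcn ⟨y0, y, hy0, hy, h, e0', e'⟩
    subst hyy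
    have : Fin.tail ((MeasurableEquiv.piFinSuccAbove (fun _ : Fin (k + 1) => ℝ) 0).symm (c, w))
        = w := by
      ext i
      simp [MeasurableEquiv.piFinSuccAbove, Fin.insertNthEquiv, Fin.tail]
    rw [this] at hy'
    exact hy'
  · rw [not_nonempty_iff_eq_empty.1 hne, measure_empty]
    exact zero_le

/-- the volume of the words that split into a reversed word of `A` and a word of `B` -/
lemma vol_split {k r : ℕ} (A : Set (Fin k → ℝ)) (B : Set (Fin r → ℝ)) :
    volume {l : Fin (k + r) → ℝ | (fun i : Fin k => l (Fin.castAdd r (Fin.rev i))) ∈ A ∧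
      (fun j : Fin r => l (Fin.natAdd k j)) ∈ B} ≤ volume A * volume B := by
  let e : Fin k ⊕ Fin r ≃ Fin (k + r) :=
    (Equiv.sumCongr Fin.revPerm (Equiv.refl _)).trans finSumFinEquiv
  let E : (Fin (k + r) → ℝ) ≃ᵐ (Fin k → ℝ) × (Fin r → ℝ) :=
    (MeasurableEquiv.piCongrLeft (fun _ : Fin (k + r) => ℝ) e).symm.trans
      (MeasurableEquiv.sumPiEquivProdPi (fun _ : Fin k ⊕ Fin r => ℝ))
  have m : MeasurePreserving E volume volume :=
    (volume_measurePreserving_piCongrLeft (fun _ : Fin (k + r) => ℝ) e).symm.trans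
      (volume_measurePreserving_sumPiEquivProdPi (fun _ : Fin k ⊕ Fin r => ℝ))
  have h1 := m.measure_preimage_equiv (A ×ˢ B)
  rw [Measure.volume_eq_prod, Measure.prod_prod] at h1
  rw [← h1]
  refine measure_mono ?_
  rintro l ⟨hA, hB⟩
  exact ⟨hA, hB⟩

section words

variable {n : ℕ} (a b : Fin n → ℝ) (F : Bool → Bool → ℝ → ℝ → ℝ)

/-- the two ways of making a step -/
def D (e σ τ : Bool) (x y : ℝ) : ℝ := if e = true then F σ τ x y else F (!τ) (!σ) y x

lemma step_iff {l : ℝ} {σ τ : Bool} {x y : ℝ} :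
    Step F l σ τ x y ↔ ∃ e, D F e σ τ x y = l := by
  constructor
  · rintro (h | h)
    · exact ⟨true, by simpa [D] using h⟩
    · exact ⟨false, by simpa [D] using h⟩
  · rintro ⟨e, h⟩
    cases e
    · exact Or.inr (by simpa [D] using h)
    · exact Or.inl (by simpa [D] using h)

lemma D_symm (e σ τ : Bool) (x y : ℝ) : D F (!e) (!τ) (!σ) y x = D F e σ τ x y := by
  cases e <;> simp [D]

/-- the hypotheses on the kernel -/
structure Ker : Prop where
  hab : ∀ i, a i ≤ b i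
  hanti : ∀ σ τ i j, ∀ y ∈ Icc (a j) (b j), AntitoneOn (fun x => F σ τ x y) (Icc (a i) (b i))
  hmono : ∀ σ τ i j, ∀ x ∈ Icc (a i) (b i), MonotoneOn (fun y => F σ τ x y) (Icc (a j) (b j))
  hcl : ∀ σ τ i j, ∀ y ∈ Icc (a j) (b j), ContinuousOn (fun x => F σ τ x y) (Icc (a i) (b i))
  hcr : ∀ σ τ i j, ∀ x ∈ Icc (a i) (b i), ContinuousOn (fun y => F σ τ x y) (Icc (a j) (b j))

variable {a b F}

lemma Ker.cont (h : Ker a b F) (e σ τ : Bool) (i j : Fin n) :
    ContinuousOn (fun p : ℝ × ℝ => D F e σ τ p.1 p.2) (Icc (a i) (b i) ×ˢ Icc (a j) (b j)) := by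
  cases e
  · have := contOn_of_sep (h.hab j) (h.hab i) (f := F (!τ) (!σ)) (h.hanti _ _ j i)
      (h.hcl _ _ j i) (h.hcr _ _ j i)
    have h2 : ContinuousOn (fun p : ℝ × ℝ => F (!τ) (!σ) p.2 p.1)
        (Icc (a i) (b i) ×ˢ Icc (a j) (b j)) :=
      this.comp (f := fun p : ℝ × ℝ => (p.2, p.1)) (by fun_prop) (fun p hp => ⟨hp.2, hp.1⟩)
    simpa [D] using h2
  · have := contOn_of_sep (h.hab i) (h.hab j) (f := F σ τ) (h.hanti _ _ i j)
      (h.hcl _ _ i j) (h.hcr _ _ i j)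
    simpa [D] using this

variable (a b F)

/-- the words of length `k` realised from the state `(x, p.2)` -/
def G : ∀ k : ℕ, Fin n × Bool → ℝ → Set (Fin k → ℝ)
  | 0, _, _ => univ
  | k + 1, p, x => {l | ∃ q : Fin n × Bool, ∃ e : Bool, ∃ y ∈ Icc (a q.1) (b q.1),
      D F e p.2 q.2 x y = l 0 ∧ Fin.tail l ∈ G k q y}

/-- the graph of `G` over a block -/
def Gam (k : ℕ) (p : Fin n × Bool) : Set (ℝ × (Fin k → ℝ)) :=
  {z | z.1 ∈ Icc (a p.1) (b p.1) ∧ z.2 ∈ G a b F k p z.1}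

/-- one piece of the graph -/
def Pie (k : ℕ) (p q : Fin n × Bool) (e : Bool) : Set (ℝ × (Fin (k + 1) → ℝ)) :=
  {z | z.1 ∈ Icc (a p.1) (b p.1) ∧ ∃ y ∈ Icc (a q.1) (b q.1),
      D F e p.2 q.2 z.1 y = z.2 0 ∧ Fin.tail z.2 ∈ G a b F k q y}

lemma gam_succ (k : ℕ) (p : Fin n × Bool) :
    Gam a b F (k + 1) p = ⋃ q, ⋃ e, Pie a b F k p q e := by
  ext z
  simp only [Gam, Pie, G, mem_ofPred_eq, mem_iUnion]
  constructor
  · rintro ⟨h, q, e, y, h1, h2, h3⟩
    exact ⟨q, e, h, y, h1, h2, h3⟩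
  · rintro ⟨q, e, h, y, h1, h2, h3⟩
    exact ⟨h, q, e, y, h1, h2, h3⟩

lemma pie_eq (k : ℕ) (p q : Fin n × Bool) (e : Bool) :
    Pie a b F k p q e = (fun z : ℝ × (ℝ × (Fin k → ℝ)) =>
      ((z.1, Fin.cons (D F e p.2 q.2 z.1 z.2.1) z.2.2) : ℝ × (Fin (k + 1) → ℝ))) ''
      (Icc (a p.1) (b p.1) ×ˢ Gam a b F k q) := by
  ext z
  constructor
  · rintro ⟨h, y, h1, h2, h3⟩
    refine ⟨(z.1, y, Fin.tail z.2), ⟨h, h1, h3⟩, ?_⟩
    simp only [h2]
    rw [Fin.cons_self_tail]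
  · rintro ⟨⟨x, y, w⟩, ⟨h, h1, h3⟩, rfl⟩
    exact ⟨h, y, h1, by simp, by simpa using h3⟩

variable {a b F}

lemma pie_compact (h : Ker a b F) (k : ℕ) (p q : Fin n × Bool) (e : Bool)
    (hG : IsCompact (Gam a b F k q)) : IsCompact (Pie a b F k p q e) := by
  rw [pie_eq]
  refine (isCompact_Icc.prod hG).image_of_continuousOn ?_
  refine ContinuousOn.prodMk (by fun_prop) ?_
  refine ContinuousOn.finCons ?_ (by fun_prop)
  refine (h.cont e p.2 q.2 p.1 q.1).comp
    (f := fun z : ℝ × (ℝ × (Fin k → ℝ)) => (z.1, z.2.1)) (by fun_prop) ?_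
  rintro z ⟨h1, h2, _⟩
  exact ⟨h1, h2⟩

lemma gam_compact (h : Ker a b F) (k : ℕ) : ∀ p, IsCompact (Gam a b F k p) := by
  induction k with
  | zero =>
    intro p
    have : Gam a b F 0 p = Icc (a p.1) (b p.1) ×ˢ univ := by
      ext z
      simp [Gam, G]
    rw [this]
    exact isCompact_Icc.prod isCompact_univ
  | succ k ih =>
    intro p
    rw [gam_succ]
    exact isCompact_iUnion fun q => isCompact_iUnion fun e => pie_compact h k p q e (ih q)

lemma meas_slice {k : ℕ} {E : Set (ℝ × (Fin k → ℝ))} (h : IsCompact E) (x : ℝ) :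
    MeasurableSet {l : Fin k → ℝ | (x, l) ∈ E} :=
  (h.isClosed.preimage (by fun_prop : Continuous fun l : Fin k → ℝ => (x, l))).measurableSet

lemma vol_G (h : Ker a b F) (κ : Fin n × Bool → Fin n × Bool → ℝ)
    (hκ : ∀ i j σ τ, ∀ x ∈ Icc (a i) (b i),
      (F σ τ x (b j) - F σ τ x (a j)) + (F (!τ) (!σ) (a j) x - F (!τ) (!σ) (b j) x)
        ≤ κ (i, σ) (j, τ))
    (hκ0 : ∀ p q, 0 ≤ κ p q)
    (v : ℕ → Fin n × Bool → ℝ) (v0 : ∀ p, v 0 p = 1)
    (vs : ∀ k p, v (k + 1) p = ∑ q, κ p q * v k q) (vn : ∀ k p, 0 ≤ v k p) (k : ℕ) :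
    ∀ p, ∀ x ∈ Icc (a p.1) (b p.1), volume (G a b F k p x) ≤ ENNReal.ofReal (v k p) := by
  induction k with
  | zero =>
    intro p x _
    rw [v0]
    simp [G, volume_pi]
  | succ k ih =>
    intro p x hx
    let Q : (Fin n × Bool) → Bool → Set (Fin (k + 1) → ℝ) := fun q e =>
      {l | (x, l) ∈ Pie a b F k p q e}
    have hsub : G a b F (k + 1) p x ⊆ ⋃ q ∈ (Finset.univ : Finset (Fin n × Bool)),
        (Q q true ∪ Q q false) := by
      rintro l ⟨q, e, y, h1, h2, h3⟩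
      simp only [mem_iUnion]
      refine ⟨q, Finset.mem_univ _, ?_⟩
      cases e
      · exact Or.inr ⟨hx, y, h1, h2, h3⟩
      · exact Or.inl ⟨hx, y, h1, h2, h3⟩
    have hQ : ∀ q e, MeasurableSet (Q q e) := fun q e =>
      meas_slice (pie_compact h k p q e (gam_compact h k q)) x
    have hm : ∀ q : Fin n × Bool, q.1 = q.1 := fun _ => rfl
    have b1 : ∀ q : Fin n × Bool, volume (Q q true) ≤
        ENNReal.ofReal (F p.2 q.2 x (b q.1) - F p.2 q.2 x (a q.1)) * ENNReal.ofReal (v k q) := by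
      intro q
      have hmo := h.hmono p.2 q.2 p.1 q.1 x hx
      refine vol_slice (J := Icc (a q.1) (b q.1)) (g := fun y => F p.2 q.2 x y)
        (H := fun y => G a b F k q y) (hQ q true) ?_ ?_ hmo.countable_setOfPred_two_preimages
        (fun y hy => ih q y hy)
      · rintro l ⟨_, y, h1, h2, h3⟩
        exact ⟨y, h1, by simpa [D] using h2, h3⟩
      · intro y hy
        exact ⟨hmo ⟨le_rfl, h.hab _⟩ hy hy.1, hmo hy ⟨h.hab _, le_rfl⟩ hy.2⟩
    have b2 : ∀ q : Fin n × Bool, volume (Q q false) ≤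
        ENNReal.ofReal (F (!q.2) (!p.2) (a q.1) x - F (!q.2) (!p.2) (b q.1) x) *
          ENNReal.ofReal (v k q) := by
      intro q
      have hmo := h.hanti (!q.2) (!p.2) q.1 p.1 x hx
      refine vol_slice (J := Icc (a q.1) (b q.1)) (g := fun y => F (!q.2) (!p.2) y x)
        (H := fun y => G a b F k q y) (hQ q false) ?_ ?_ hmo.countable_setOfPred_two_preimages
        (fun y hy => ih q y hy)
      · rintro l ⟨_, y, h1, h2, h3⟩
        exact ⟨y, h1, by simpa [D] using h2, h3⟩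
      · intro y hy
        exact ⟨hmo hy ⟨h.hab _, le_rfl⟩ hy.2, hmo ⟨le_rfl, h.hab _⟩ hy hy.1⟩
    calc volume (G a b F (k + 1) p x) ≤ ∑ q, volume (Q q true ∪ Q q false) :=
          (measure_mono hsub).trans (measure_biUnion_finset_le _ _)
      _ ≤ ∑ q, ENNReal.ofReal (κ p q * v k q) := by
          refine Finset.sum_le_sum fun q _ => ?_
          refine (measure_union_le _ _).trans ((add_le_add (b1 q) (b2 q)).trans ?_)
          rw [← add_mul, ← ENNReal.ofReal_add, ← ENNReal.ofReal_mul]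
          · refine ENNReal.ofReal_le_ofReal (mul_le_mul_of_nonneg_right ?_ (vn k q))
            exact hκ p.1 q.1 p.2 q.2 x hx
          · have := h.hmono p.2 q.2 p.1 q.1 x hx ⟨le_rfl, h.hab _⟩ ⟨h.hab _, le_rfl⟩ (h.hab q.1)
            have := h.hanti (!q.2) (!p.2) q.1 p.1 x hx ⟨le_rfl, h.hab _⟩ ⟨h.hab _, le_rfl⟩
              (h.hab q.1)
            simp only at *
            linarith
          · have := h.hmono p.2 q.2 p.1 q.1 x hx ⟨le_rfl, h.hab _⟩ ⟨h.hab _, le_rfl⟩ (h.hab q.1)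
            simp only at this
            linarith
          · have := h.hanti (!q.2) (!p.2) q.1 p.1 x hx ⟨le_rfl, h.hab _⟩ ⟨h.hab _, le_rfl⟩
              (h.hab q.1)
            simp only at this
            linarith
      _ = ENNReal.ofReal (v (k + 1) p) := by
          rw [vs, ENNReal.ofReal_sum_of_nonneg fun q _ => mul_nonneg (hκ0 p q) (vn k q)]

lemma Ker.opp (h : Ker a b F) (e σ τ : Bool) (i j : Fin n) {x y : ℝ} (hx : x ∈ Icc (a i) (b i))
    (hy : y ∈ Icc (a j) (b j)) :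
    Pool.Agent.Helper64.Ruler.Opp (D F e σ τ) (a i) x (a j) y := by
  have sx : Icc (a i) x ⊆ Icc (a i) (b i) := Icc_subset_Icc_right hx.2
  have sy : Icc (a j) y ⊆ Icc (a j) (b j) := Icc_subset_Icc_right hy.2
  cases e
  · refine ⟨fun u hu => ?_, fun w hw => ?_, Or.inr ⟨fun w hw => ?_, fun u hu => ?_⟩⟩
    · simpa [D] using (h.hcl (!τ) (!σ) j i u (sx hu)).mono sy
    · simpa [D] using (h.hcr (!τ) (!σ) j i w (sy hw)).mono sx
    · simpa [D] using (h.hmono (!τ) (!σ) j i w (sy hw)).mono sx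
    · simpa [D] using (h.hanti (!τ) (!σ) j i u (sx hu)).mono sy
  · refine ⟨fun u hu => ?_, fun w hw => ?_, Or.inl ⟨fun w hw => ?_, fun u hu => ?_⟩⟩
    · simpa [D] using (h.hcr σ τ i j u (sx hu)).mono sy
    · simpa [D] using (h.hcl σ τ i j w (sy hw)).mono sx
    · simpa [D] using (h.hanti σ τ i j w (sy hw)).mono sx
    · simpa [D] using (h.hmono σ τ i j u (sx hu)).mono sy

lemma step_symm {l : ℝ} {σ τ : Bool} {x y : ℝ} (h : Step F l σ τ x y) :
    Step F l (!τ) (!σ) y x := by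
  rcases h with h | h
  · exact Or.inr (by simpa using h)
  · exact Or.inl h

lemma chain_mem (m : ℕ) : ∀ (ι : ℕ → Fin n) (σ : ℕ → Bool) (θ l : ℕ → ℝ),
    (∀ k ≤ m, θ k ∈ Icc (a (ι k)) (b (ι k))) →
    (∀ k < m, Step F (l k) (σ k) (σ (k + 1)) (θ k) (θ (k + 1))) →
    (fun i : Fin m => l i) ∈ G a b F m (ι 0, σ 0) (θ 0) := by
  induction m with
  | zero => intro ι σ θ l _ _; exact mem_univ _
  | succ m ih =>
    intro ι σ θ l h1 h2
    obtain ⟨e, he⟩ := (step_iff F).1 (h2 0 (by omega))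
    refine ⟨(ι 1, σ 1), e, θ 1, h1 1 (by omega), by simpa using he, ?_⟩
    have := ih (fun k => ι (k + 1)) (fun k => σ (k + 1)) (fun k => θ (k + 1))
      (fun k => l (k + 1)) (fun k hk => h1 (k + 1) (by omega)) (fun k hk => h2 (k + 1) (by omega))
    exact this

/-- extension of a word to `ℕ` -/
noncomputable def ext {N : ℕ} (l : Fin N → ℝ) (i : ℕ) : ℝ := if h : i < N then l ⟨i, h⟩ else 1 / 2

lemma vol_ext {k r N : ℕ} (hN : N = k + r) (A : Set (Fin k → ℝ)) (B : Set (Fin r → ℝ)) :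
    volume {l : Fin N → ℝ | (fun i : Fin k => ext l (k - 1 - i)) ∈ A ∧
      (fun j : Fin r => ext l (k + j)) ∈ B} ≤ volume A * volume B := by
  subst hN
  refine (measure_mono ?_).trans (vol_split A B)
  rintro l ⟨hA, hB⟩
  refine ⟨?_, ?_⟩
  · convert hA using 1
    ext i
    have : k - 1 - (i : ℕ) < k + r := by omega
    simp only [ext, this, dif_pos]
    congr 1
    ext
    simp [Fin.rev]
    omega
  · convert hB using 1
    ext j
    have : k + (j : ℕ) < k + r := by omega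
    simp only [ext, this, dif_pos]
    rfl

lemma cover (h : Ker a b F) {N : ℕ} (l : Fin N → ℝ)
    (hl : ∃ θ : ℕ → ℝ, ∃ σ : ℕ → Bool, (∀ k ≤ N, ∃ i, θ k ∈ Icc (a i) (b i)) ∧
        ∀ k < N, Step F (ext l k) (σ k) (σ (k + 1)) (θ k) (θ (k + 1))) :
    ∃ k ≤ N, ∃ p : Fin n × Bool,
      (fun i : Fin k => ext l (k - 1 - i)) ∈ G a b F k (p.1, !p.2) (a p.1) ∧
      (fun j : Fin (N - k) => ext l (k + j)) ∈ G a b F (N - k) p (a p.1) := by
  obtain ⟨θ, σ, h1, h2⟩ := hl
  obtain ⟨i0, _⟩ := h1 0 (by omega)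
  have h1' : ∀ k, ∃ i, k ≤ N → θ k ∈ Icc (a i) (b i) := by
    intro k
    by_cases hk : k ≤ N
    · obtain ⟨i, hi⟩ := h1 k hk
      exact ⟨i, fun _ => hi⟩
    · exact ⟨i0, fun h => absurd h hk⟩
  choose ι hι using h1'
  have h2' : ∀ k, ∃ e, k < N → D F e (σ k) (σ (k + 1)) (θ k) (θ (k + 1)) = ext l k := by
    intro k
    by_cases hk : k < N
    · obtain ⟨e, he⟩ := (step_iff F).1 (h2 k hk)
      exact ⟨e, fun _ => he⟩
    · exact ⟨true, fun h => absurd h hk⟩
  choose e he using h2'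
  obtain ⟨η, g1, g2, k, hk, g3⟩ := Pool.Agent.Helper64.Ruler.slide
    (fun k => D F (e k) (σ k) (σ (k + 1))) (ext l) (fun k => a (ι k)) θ N
    (fun i hi => (hι i hi).1)
    (fun i hi => h.opp _ _ _ _ _ (hι i (by omega)) (hι (i + 1) (by omega)))
    (fun i hi => he i hi)
  have g1' : ∀ i ≤ N, η i ∈ Icc (a (ι i)) (b (ι i)) := fun i hi =>
    ⟨(g1 i hi).1, (g1 i hi).2.trans (hι i hi).2⟩
  have g2' : ∀ i < N, Step F (ext l i) (σ i) (σ (i + 1)) (η i) (η (i + 1)) := fun i hi =>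
    (step_iff F).2 ⟨e i, g2 i hi⟩
  refine ⟨k, hk, (ι k, σ k), ?_, ?_⟩
  · have := chain_mem (F := F) (a := a) (b := b) k (fun i => ι (k - i)) (fun i => !(σ (k - i)))
      (fun i => η (k - i)) (fun i => ext l (k - 1 - i)) (fun i hi => g1' _ (by omega))
      (fun i hi => by
        have h3 := step_symm (g2' (k - 1 - i) (by omega))
        have e1 : k - 1 - i + 1 = k - i := by omega
        have e2 : k - (i + 1) = k - 1 - i := by omega
        rw [e1] at h3
        simp only [e2]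
        exact h3)
    simp only [Nat.sub_zero, g3] at this
    exact this
  · have := chain_mem (F := F) (a := a) (b := b) (N - k) (fun i => ι (k + i)) (fun i => σ (k + i))
      (fun i => η (k + i)) (fun i => ext l (k + i)) (fun i hi => g1' _ (by omega))
      (fun i hi => g2' (k + i) (by omega))
    simp only [Nat.add_zero, g3] at this
    exact this

end words

/-- the numerical end of the argument -/
lemma decay {ι : Type*} [Fintype ι] (κ : ι → ι → ℝ) (μ : ι → ℝ) (hμ : ∀ p, 0 < μ p)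
    (v : ℕ → ι → ℝ) (vs : ∀ k p, v (k + 1) p = ∑ q, κ p q * v k q) (k : ℕ) :
    ∑ p, μ p * v k p ^ 2 ≤ (∑ p, ∑ q, μ p * κ p q ^ 2 / μ q) ^ k * ∑ p, μ p * v 0 p ^ 2 := by
  have hΛ : 0 ≤ ∑ p, ∑ q, μ p * κ p q ^ 2 / μ q :=
    Finset.sum_nonneg fun p _ => Finset.sum_nonneg fun q _ =>
      div_nonneg (mul_nonneg (hμ p).le (sq_nonneg _)) (hμ q).le
  induction k with
  | zero => simp
  | succ k ih =>
    have h1 : ∀ p, v (k + 1) p ^ 2 ≤ (∑ q, κ p q ^ 2 / μ q) * ∑ q, μ q * v k q ^ 2 := by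
      intro p
      rw [vs]
      have := Finset.sum_mul_sq_le_sq_mul_sq Finset.univ
        (fun q => κ p q / Real.sqrt (μ q)) (fun q => Real.sqrt (μ q) * v k q)
      have e1 : ∀ q, κ p q / Real.sqrt (μ q) * (Real.sqrt (μ q) * v k q) = κ p q * v k q := by
        intro q
        have : Real.sqrt (μ q) ≠ 0 := (Real.sqrt_pos.2 (hμ q)).ne'
        field_simp
      have e2 : ∀ q, (κ p q / Real.sqrt (μ q)) ^ 2 = κ p q ^ 2 / μ q := by
        intro q
        rw [div_pow, Real.sq_sqrt (hμ q).le]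
      have e3 : ∀ q, (Real.sqrt (μ q) * v k q) ^ 2 = μ q * v k q ^ 2 := by
        intro q
        rw [mul_pow, Real.sq_sqrt (hμ q).le]
      simpa only [e1, e2, e3] using this
    calc ∑ p, μ p * v (k + 1) p ^ 2
        ≤ ∑ p, μ p * ((∑ q, κ p q ^ 2 / μ q) * ∑ q, μ q * v k q ^ 2) :=
          Finset.sum_le_sum fun p _ => mul_le_mul_of_nonneg_left (h1 p) (hμ p).le
      _ = (∑ p, ∑ q, μ p * κ p q ^ 2 / μ q) * ∑ q, μ q * v k q ^ 2 := by
          rw [Finset.sum_mul]
          refine Finset.sum_congr rfl fun p _ => ?_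
          have e : μ p * ∑ q, κ p q ^ 2 / μ q = ∑ q, μ p * κ p q ^ 2 / μ q := by
            rw [Finset.mul_sum]
            exact Finset.sum_congr rfl fun q _ => by ring
          rw [← mul_assoc, e]
      _ ≤ (∑ p, ∑ q, μ p * κ p q ^ 2 / μ q) *
          ((∑ p, ∑ q, μ p * κ p q ^ 2 / μ q) ^ k * ∑ p, μ p * v 0 p ^ 2) :=
          mul_le_mul_of_nonneg_left ih hΛ
      _ = _ := by ring

end Entropy

open Entropy

theorem entropy {n : ℕ} (hn : 0 < n) (a b : Fin n → ℝ) (hab : ∀ i, a i ≤ b i)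
    (F : Bool → Bool → ℝ → ℝ → ℝ)
    (hanti : ∀ σ τ i j, ∀ y ∈ Icc (a j) (b j), AntitoneOn (fun x => F σ τ x y) (Icc (a i) (b i)))
    (hmono : ∀ σ τ i j, ∀ x ∈ Icc (a i) (b i), MonotoneOn (fun y => F σ τ x y) (Icc (a j) (b j)))
    (hcl : ∀ σ τ i j, ∀ y ∈ Icc (a j) (b j), ContinuousOn (fun x => F σ τ x y) (Icc (a i) (b i)))
    (hcr : ∀ σ τ i j, ∀ x ∈ Icc (a i) (b i), ContinuousOn (fun y => F σ τ x y) (Icc (a j) (b j)))
    (κ : Fin n × Bool → Fin n × Bool → ℝ)
    (hκ : ∀ i j σ τ, ∀ x ∈ Icc (a i) (b i),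
      (F σ τ x (b j) - F σ τ x (a j)) + (F (!τ) (!σ) (a j) x - F (!τ) (!σ) (b j) x)
        ≤ κ (i, σ) (j, τ))
    (hchain : ∀ m : ℕ, ∀ l : ℕ → ℝ, (∀ k < m, 0 < l k ∧ l k < 1) →
      ∃ θ : ℕ → ℝ, ∃ σ : ℕ → Bool, (∀ k ≤ m, ∃ i, θ k ∈ Icc (a i) (b i)) ∧
        ∀ k < m, Step F (l k) (σ k) (σ (k + 1)) (θ k) (θ (k + 1)))
    (μ : Fin n × Bool → ℝ) (hμ : ∀ p, 0 < μ p) :
    1 ≤ ∑ p, ∑ q, μ p * κ p q ^ 2 / μ q := by
  have h : Ker a b F := ⟨hab, hanti, hmono, hcl, hcr⟩
  set Λ : ℝ := ∑ p, ∑ q, μ p * κ p q ^ 2 / μ q with hΛdef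
  have hΛ : 0 ≤ Λ := Finset.sum_nonneg fun p _ => Finset.sum_nonneg fun q _ =>
      div_nonneg (mul_nonneg (hμ p).le (sq_nonneg _)) (hμ q).le
  by_contra hlt
  rw [not_le] at hlt
  have hκ0 : ∀ p q, 0 ≤ κ p q := by
    rintro ⟨i, σ⟩ ⟨j, τ⟩
    have ha : a i ∈ Icc (a i) (b i) := ⟨le_rfl, hab i⟩
    refine le_trans ?_ (hκ i j σ τ (a i) ha)
    have h1 := hmono σ τ i j (a i) ha ⟨le_rfl, hab j⟩ ⟨hab j, le_rfl⟩ (hab j)
    have h2 := hanti (!τ) (!σ) j i (a i) ha ⟨le_rfl, hab j⟩ ⟨hab j, le_rfl⟩ (hab j)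
    simp only at h1 h2
    linarith
  -- the majorant of the volumes
  let v : ℕ → Fin n × Bool → ℝ := fun k => Nat.rec (fun _ => 1) (fun _ w p => ∑ q, κ p q * w q) k
  have v0 : ∀ p, v 0 p = 1 := fun _ => rfl
  have vs : ∀ k p, v (k + 1) p = ∑ q, κ p q * v k q := fun _ _ => rfl
  have vn : ∀ k p, 0 ≤ v k p := by
    intro k
    induction k with
    | zero => intro p; rw [v0]; exact zero_le_one
    | succ k ih => intro p; rw [vs]; exact Finset.sum_nonneg fun q _ => mul_nonneg (hκ0 p q) (ih q)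
  have hvol := vol_G h κ hκ hκ0 v v0 vs vn
  -- all words are covered
  have main : ∀ N : ℕ, (1 : ℝ) ≤ ∑ k ∈ Finset.range (N + 1), ∑ p : Fin n × Bool,
      v k (p.1, !p.2) * v (N - k) p := by
    intro N
    let S : ℕ → Fin n × Bool → Set (Fin N → ℝ) := fun k p =>
      {l | (fun i : Fin k => Entropy.ext l (k - 1 - i)) ∈ G a b F k (p.1, !p.2) (a p.1) ∧
        (fun j : Fin (N - k) => Entropy.ext l (k + j)) ∈ G a b F (N - k) p (a p.1)}
    have h1 : (univ.pi fun _ : Fin N => Ioo (0 : ℝ) 1) ⊆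
        ⋃ k ∈ Finset.range (N + 1), ⋃ p ∈ (Finset.univ : Finset (Fin n × Bool)), S k p := by
      intro l hl
      obtain ⟨k, hk, p, hp⟩ := cover h l (hchain N (Entropy.ext l) (fun k hk => by
        have := hl ⟨k, hk⟩ (mem_univ _)
        simp only [Entropy.ext, hk, dif_pos]
        exact this))
      simp only [mem_iUnion]
      exact ⟨k, Finset.mem_range.2 (by omega), p, Finset.mem_univ _, hp⟩
    have h2 : volume (univ.pi fun _ : Fin N => Ioo (0 : ℝ) 1) = 1 := by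
      rw [volume_pi_pi]
      simp
    have h3 : (1 : ENNReal) ≤ ENNReal.ofReal (∑ k ∈ Finset.range (N + 1), ∑ p : Fin n × Bool,
        v k (p.1, !p.2) * v (N - k) p) := by
      rw [← h2]
      refine (measure_mono h1).trans ((measure_biUnion_finset_le _ _).trans ?_)
      rw [ENNReal.ofReal_sum_of_nonneg fun k _ => Finset.sum_nonneg fun p _ =>
        mul_nonneg (vn _ _) (vn _ _)]
      refine Finset.sum_le_sum fun k hk => ?_
      rw [Finset.mem_range] at hk
      refine (measure_biUnion_finset_le _ _).trans ?_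
      rw [ENNReal.ofReal_sum_of_nonneg fun p _ => mul_nonneg (vn _ _) (vn _ _)]
      refine Finset.sum_le_sum fun p _ => ?_
      refine (vol_ext (by omega) _ _).trans ?_
      rw [ENNReal.ofReal_mul (vn _ _)]
      have ha : a p.1 ∈ Icc (a p.1) (b p.1) := ⟨le_rfl, hab _⟩
      exact mul_le_mul' (hvol k (p.1, !p.2) _ ha) (hvol (N - k) p _ ha)
    exact ENNReal.one_le_ofReal.1 h3
  -- exponential decay
  set N0 : ℝ := ∑ p, μ p * v 0 p ^ 2 with hN0
  have hN0n : 0 ≤ N0 := Finset.sum_nonneg fun p _ => mul_nonneg (hμ p).le (sq_nonneg _)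
  set c : ℝ := ∑ p, N0 / μ p with hc
  have hcn : 0 ≤ c := Finset.sum_nonneg fun p _ => div_nonneg hN0n (hμ p).le
  set s : ℝ := Real.sqrt Λ with hs
  have hs0 : 0 ≤ s := Real.sqrt_nonneg _
  have hs1 : s < 1 := by rw [hs, Real.sqrt_lt' one_pos]; simpa using hlt
  have bd : ∀ k p, v k p ≤ Real.sqrt c * s ^ k := by
    intro k p
    have h1 := decay κ μ hμ v vs k
    have h2 : μ p * v k p ^ 2 ≤ Λ ^ k * N0 :=
      (Finset.single_le_sum (f := fun p => μ p * v k p ^ 2)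
        (fun q _ => mul_nonneg (hμ q).le (sq_nonneg _)) (Finset.mem_univ p)).trans h1
    have h3 : N0 / μ p ≤ c := Finset.single_le_sum (f := fun p => N0 / μ p)
        (fun q _ => div_nonneg hN0n (hμ q).le) (Finset.mem_univ p)
    have h4 : v k p ^ 2 ≤ Λ ^ k * c := by
      calc v k p ^ 2 = (μ p * v k p ^ 2) / μ p := by field_simp [(hμ p).ne']
        _ ≤ (Λ ^ k * N0) / μ p := div_le_div_of_nonneg_right h2 (hμ p).le
        _ = Λ ^ k * (N0 / μ p) := by ring
        _ ≤ Λ ^ k * c := mul_le_mul_of_nonneg_left h3 (pow_nonneg hΛ k)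
    refine le_of_sq_le_sq ?_ (mul_nonneg (Real.sqrt_nonneg _) (pow_nonneg hs0 _))
    rw [mul_pow, Real.sq_sqrt hcn, ← pow_mul, mul_comm k 2, pow_mul, hs, Real.sq_sqrt hΛ]
    linarith [mul_comm c (Λ ^ k)]
  have fin : ∀ N : ℕ, (1 : ℝ) ≤ ((N : ℝ) * s ^ N + s ^ N) * ((Fintype.card (Fin n × Bool)) * c) := by
    intro N
    refine (main N).trans ?_
    calc _ ≤ ∑ k ∈ Finset.range (N + 1), ∑ p : Fin n × Bool, c * s ^ N := by
          refine Finset.sum_le_sum fun k hk => Finset.sum_le_sum fun p _ => ?_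
          rw [Finset.mem_range] at hk
          have e : c * s ^ N = (Real.sqrt c * s ^ k) * (Real.sqrt c * s ^ (N - k)) := by
            have : s ^ N = s ^ k * s ^ (N - k) := by rw [← pow_add]; congr 1; omega
            rw [this]
            calc c * (s ^ k * s ^ (N - k))
                = (Real.sqrt c * Real.sqrt c) * (s ^ k * s ^ (N - k)) := by
                  rw [Real.mul_self_sqrt hcn]
              _ = _ := by ring
          rw [e]
          exact mul_le_mul (bd _ _) (bd _ _) (vn _ _)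
            (mul_nonneg (Real.sqrt_nonneg _) (pow_nonneg hs0 _))
      _ = _ := by
          simp only [Finset.sum_const, Finset.card_range, nsmul_eq_mul, Finset.card_univ]
          push_cast
          ring
  have lim : Filter.Tendsto
      (fun N : ℕ => ((N : ℝ) * s ^ N + s ^ N) * ((Fintype.card (Fin n × Bool)) * c))
      Filter.atTop (𝓝 ((0 + 0) * ((Fintype.card (Fin n × Bool)) * c))) :=
    ((tendsto_self_mul_const_pow_of_lt_one hs0 hs1).add
      (tendsto_pow_atTop_nhds_zero_of_lt_one hs0 hs1)).mul_const _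
  have := ge_of_tendsto' lim fin
  simp at this
  linarith

end Pool.Agent.Ruler
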