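import Pool.Agent.Ruler.Chord

/-!
MP_067807_co, module Incr: the increment bound for the distance from a fixed head.
-/

open Set

namespace Pool.Agent.Ruler

private theorem incr_sq (z : ℂ) : ‖z‖ ^ 2 = z.re ^ 2 + z.im ^ 2 := by
  rw [Complex.sq_norm, Complex.normSq_apply]
  ring

/-- the increment bound, no order of the directions needed -/
theorem incr_gen (S : ChordSys) {θ φ₁ φ₂ δ : ℝ} (h0 : θ ∈ S.T) (h1 : φ₁ ∈ S.T) (h2 : φ₂ ∈ S.T)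
    (hδ : |φ₂ - φ₁| ≤ δ) :
    ‖S.X θ - S.X φ₂‖ - ‖S.X θ - S.X φ₁‖ ≤
      ‖S.X φ₂ - S.X φ₁‖ * (‖S.X θ - S.X (φ₁ + Real.pi)‖ + Real.sqrt δ) := by
  have hδ0 : 0 ≤ δ := (abs_nonneg _).trans hδ
  rw [S.tail _ h1]
  set p := S.X θ
  set u := S.X φ₁ - p with hu
  set w := S.X φ₂ - S.X φ₁ with hw
  set e := ex φ₁ with he
  have e1 : ‖p - S.X φ₁‖ = ‖u‖ := norm_sub_rev _ _
  have e2 : ‖p - S.X φ₂‖ = ‖u + w‖ := by
    rw [norm_sub_rev]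
    congr 1
    rw [hu, hw]
    ring
  have e3 : ‖p - (S.X φ₁ - e)‖ = ‖u - e‖ := by
    rw [norm_sub_rev]
    congr 1
    rw [hu]
    ring
  rw [e1, e2, e3]
  have hes : e.re ^ 2 + e.im ^ 2 = 1 := by
    rw [he]
    simp only [ex]
    have := Real.sin_sq_add_cos_sq φ₁
    linarith
  have hen : ‖e‖ = 1 := by
    have := incr_sq e
    rw [hes] at this
    have h := norm_nonneg e
    nlinarith
  -- bounds
  have a1 : 0 ≤ ip u e := by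
    have := lens_right S h0 h1
    have h := sq_nonneg ‖S.X φ₁ - S.X θ‖
    change 0 ≤ ip (S.X φ₁ - S.X θ) (ex φ₁)
    linarith
  have a2 : ip w e ≤ 0 := by
    have := lens_left S h1 h2
    have h := sq_nonneg ‖S.X φ₂ - S.X φ₁‖
    change ip (S.X φ₂ - S.X φ₁) (ex φ₁) ≤ 0
    linarith
  have a3 : ‖w‖ ≤ δ := (norm_sub_le' S h1 h2).trans hδ
  set h := |cr u e| with hh
  -- `h ≤ ‖u‖ ‖u - e‖`
  have a4 : h ≤ ‖u‖ * ‖u - e‖ := by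
    rw [hh]
    apply abs_le_of_sq_le_sq _ (by positivity)
    rw [mul_pow, incr_sq, incr_sq]
    simp only [cr, Complex.sub_re, Complex.sub_im]
    nlinarith [sq_nonneg (u.re * (u.re - e.re) + u.im * (u.im - e.im))]
  have a5 : |cr w e| ≤ ‖w‖ := by
    apply abs_le_of_sq_le_sq _ (norm_nonneg w)
    rw [incr_sq]
    simp only [cr]
    have : (w.re ^ 2 + w.im ^ 2) * (e.re ^ 2 + e.im ^ 2) =
      (w.re * e.im - w.im * e.re) ^ 2 + (w.re * e.re + w.im * e.im) ^ 2 := by ring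
    rw [hes, mul_one] at this
    rw [this]
    nlinarith [sq_nonneg (w.re * e.re + w.im * e.im)]
  have a6 : ip u w ≤ h * ‖w‖ := by
    have k1 : ip u w = ip u e * ip w e + cr u e * cr w e := by
      have : ip u w * (e.re ^ 2 + e.im ^ 2) = ip u e * ip w e + cr u e * cr w e := by
        simp only [ip, cr]
        ring
      rw [hes, mul_one] at this
      exact this
    have k2 : cr u e * cr w e ≤ h * ‖w‖ := by
      refine (le_abs_self _).trans ?_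
      rw [abs_mul]
      exact mul_le_mul le_rfl a5 (abs_nonneg _) (abs_nonneg _)
    have k3 : ip u e * ip w e ≤ 0 := mul_nonpos_of_nonneg_of_nonpos a1 a2
    linarith
  have a7 : ‖u + w‖ ^ 2 ≤ ‖u‖ ^ 2 + 2 * (‖u‖ * ‖u - e‖) * ‖w‖ + ‖w‖ ^ 2 := by
    have k1 : ‖u + w‖ ^ 2 = ‖u‖ ^ 2 + 2 * ip u w + ‖w‖ ^ 2 := by
      rw [incr_sq, incr_sq, incr_sq]
      simp only [ip, Complex.add_re, Complex.add_im]
      ring
    have k2 := mul_le_mul_of_nonneg_right a4 (norm_nonneg w)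
    linarith
  set s := Real.sqrt δ with hs
  have hs0 : 0 ≤ s := Real.sqrt_nonneg _
  have hs2 : s ^ 2 = δ := Real.sq_sqrt hδ0
  have hw0 := norm_nonneg w
  have hu0 := norm_nonneg u
  have hq0 := norm_nonneg (u - e)
  rcases le_or_gt s ‖u‖ with hc | hc
  · have k1 : ‖u + w‖ ≤ ‖u‖ + ‖w‖ * (‖u - e‖ + s) := by
      apply le_of_sq_le_sq _ (by positivity)
      have k2 : ‖w‖ ≤ 2 * ‖u‖ * s := by nlinarith
      have k3 : ‖w‖ ^ 2 ≤ 2 * ‖u‖ * s * ‖w‖ := by nlinarith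
      have k4 : 0 ≤ (‖w‖ * (‖u - e‖ + s)) ^ 2 := sq_nonneg _
      nlinarith
    linarith
  · have k1 : ‖u + w‖ ≤ ‖u‖ + ‖w‖ := norm_add_le _ _
    have k2 : 1 ≤ ‖u‖ + ‖u - e‖ := by
      have : ‖e‖ ≤ ‖u‖ + ‖u - e‖ := by
        calc ‖e‖ = ‖u - (u - e)‖ := by congr 1; ring
          _ ≤ ‖u‖ + ‖u - e‖ := _root_.norm_sub_le _ _
      rwa [hen] at this
    nlinarith

theorem incr_right (S : ChordSys) {θ φ₁ φ₂ δ : ℝ} (h0 : θ ∈ S.T) (h1 : φ₁ ∈ S.T) (h2 : φ₂ ∈ S.T)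
    (_h01 : θ ≤ φ₁) (h12 : φ₁ ≤ φ₂) (_h20 : φ₂ ≤ θ + Real.pi) (hδ : φ₂ - φ₁ ≤ δ)
    (_hδ1 : δ ≤ 1) :
    ‖S.X θ - S.X φ₂‖ - ‖S.X θ - S.X φ₁‖ ≤
      ‖S.X φ₂ - S.X φ₁‖ * (‖S.X θ - S.X (φ₁ + Real.pi)‖ + Real.sqrt δ) :=
  incr_gen S h0 h1 h2 (by rwa [abs_of_nonneg (by linarith)])

theorem incr_left (S : ChordSys) {θ φ₁ φ₂ δ : ℝ} (h0 : θ ∈ S.T) (h1 : φ₁ ∈ S.T) (h2 : φ₂ ∈ S.T)
    (_h01 : φ₁ ≤ θ) (h12 : φ₂ ≤ φ₁) (_h20 : θ - Real.pi ≤ φ₂) (hδ : φ₁ - φ₂ ≤ δ)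
    (_hδ1 : δ ≤ 1) :
    ‖S.X θ - S.X φ₂‖ - ‖S.X θ - S.X φ₁‖ ≤
      ‖S.X φ₂ - S.X φ₁‖ * (‖S.X θ - S.X (φ₁ + Real.pi)‖ + Real.sqrt δ) :=
  incr_gen S h0 h1 h2 (by rw [abs_of_nonpos (by linarith)]; linarith)

end Pool.Agent.Ruler
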