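import Pool.Agent.Ruler.Basic

/-!
MP_067807_co: bilinear interpolation over the gaps of a closed set of directions.
-/

open Set

namespace Pool.Agent.Ruler

noncomputable def lo (T : Set ℝ) (x : ℝ) : ℝ := sSup (T ∩ Iic x)
noncomputable def hi (T : Set ℝ) (x : ℝ) : ℝ := sInf (T ∩ Ici x)
/-- weight of `x` between its neighbours in `T` -/
noncomputable def wt (T : Set ℝ) (x : ℝ) : ℝ := (x - lo T x) / (hi T x - lo T x)
/-- bilinear interpolation of `f : T × T → ℝ` -/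
noncomputable def itp (T : Set ℝ) (f : ℝ → ℝ → ℝ) (x y : ℝ) : ℝ :=
  (1 - wt T x) * ((1 - wt T y) * f (lo T x) (lo T y) + wt T y * f (lo T x) (hi T y)) +
    wt T x * ((1 - wt T y) * f (hi T x) (lo T y) + wt T y * f (hi T x) (hi T y))

section interp
variable {T : Set ℝ} {A B : ℝ} {f : ℝ → ℝ → ℝ}

private theorem interp_lo (hT : IsClosed T) (hA : A ∈ T) {x : ℝ} (hx : A ≤ x) :
    lo T x ∈ T ∧ A ≤ lo T x ∧ lo T x ≤ x ∧ ∀ r ∈ T, r ≤ x → r ≤ lo T x := by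
  have hne : (T ∩ Iic x).Nonempty := ⟨A, hA, hx⟩
  have hbd : BddAbove (T ∩ Iic x) := ⟨x, fun r hr => hr.2⟩
  have hmem : lo T x ∈ T ∩ Iic x := (hT.inter isClosed_Iic).csSup_mem hne hbd
  exact ⟨hmem.1, le_csSup hbd ⟨hA, hx⟩, hmem.2, fun r hr hrx => le_csSup hbd ⟨hr, hrx⟩⟩

private theorem interp_hi (hT : IsClosed T) (hB : B ∈ T) {x : ℝ} (hx : x ≤ B) :
    hi T x ∈ T ∧ hi T x ≤ B ∧ x ≤ hi T x ∧ ∀ r ∈ T, x ≤ r → hi T x ≤ r := by
  have hne : (T ∩ Ici x).Nonempty := ⟨B, hB, hx⟩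
  have hbd : BddBelow (T ∩ Ici x) := ⟨x, fun r hr => hr.2⟩
  have hmem : hi T x ∈ T ∩ Ici x := (hT.inter isClosed_Ici).csInf_mem hne hbd
  exact ⟨hmem.1, csInf_le hbd ⟨hB, hx⟩, hmem.2, fun r hr hrx => csInf_le hbd ⟨hr, hrx⟩⟩

theorem lohi (hT : IsClosed T) (hA : A ∈ T) (hB : B ∈ T) {x : ℝ} (hx : x ∈ Icc A B) :
    lo T x ∈ T ∧ hi T x ∈ T ∧ A ≤ lo T x ∧ lo T x ≤ x ∧ x ≤ hi T x ∧ hi T x ≤ B ∧
      0 ≤ wt T x ∧ wt T x ≤ 1 ∧ (∀ r ∈ T, r ≤ x → r ≤ lo T x) ∧ (∀ r ∈ T, x ≤ r → hi T x ≤ r) := by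
  obtain ⟨h1, h2, h3, h4⟩ := interp_lo hT hA hx.1
  obtain ⟨h5, h6, h7, h8⟩ := interp_hi hT hB hx.2
  refine ⟨h1, h5, h2, h3, h7, h6, ?_, ?_, h4, h8⟩
  · exact div_nonneg (by linarith) (by linarith)
  · exact div_le_one_of_le₀ (by linarith) (by linarith)

private theorem interp_wt_mul (hT : IsClosed T) (hA : A ∈ T) (hB : B ∈ T) {x : ℝ}
    (hx : x ∈ Icc A B) : wt T x * (hi T x - lo T x) = x - lo T x := by
  obtain ⟨-, -, -, h3, h7, -⟩ := lohi hT hA hB hx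
  by_cases h : hi T x - lo T x = 0
  · rw [h, mul_zero]
    linarith
  · unfold wt
    exact div_mul_cancel₀ _ h

private theorem interp_self (hT : IsClosed T) {x : ℝ} (hx : x ∈ T) :
    lo T x = x ∧ hi T x = x ∧ wt T x = 0 := by
  obtain ⟨h1, h2, h3, h4⟩ := interp_lo hT hx le_rfl
  obtain ⟨h5, h6, h7, h8⟩ := interp_hi hT hx le_rfl
  have e1 : lo T x = x := le_antisymm h3 h2
  refine ⟨e1, le_antisymm h6 h7, ?_⟩
  unfold wt
  rw [e1, sub_self, zero_div]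

theorem itp_eq (hT : IsClosed T) {x y : ℝ} (hx : x ∈ T) (hy : y ∈ T) : itp T f x y = f x y := by
  obtain ⟨h1, h2, h3⟩ := interp_self hT hx
  obtain ⟨h4, h5, h6⟩ := interp_self hT hy
  unfold itp
  rw [h1, h2, h3, h4, h5, h6]
  ring

/-- interpolation in one variable -/
private noncomputable def itp1 (T : Set ℝ) (g : ℝ → ℝ) (x : ℝ) : ℝ :=
  (1 - wt T x) * g (lo T x) + wt T x * g (hi T x)

private theorem itp_left (x y : ℝ) :
    itp T f x y = itp1 T (fun x' => (1 - wt T y) * f x' (lo T y) + wt T y * f x' (hi T y)) x := rfl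

private theorem itp_right (x y : ℝ) :
    itp T f x y = itp1 T (fun y' => (1 - wt T x) * f (lo T x) y' + wt T x * f (hi T x) y') y := by
  unfold itp itp1
  ring

private theorem interp_cases (hT : IsClosed T) (hA : A ∈ T) (hB : B ∈ T) {x y : ℝ}
    (hx : x ∈ Icc A B) (hy : y ∈ Icc A B) (hxy : x ≤ y) :
    hi T x ≤ lo T y ∨ (lo T x = lo T y ∧ hi T x = hi T y) := by
  obtain ⟨a1, a2, -, a3, a4, -, -, -, a5, a6⟩ := lohi hT hA hB hx
  obtain ⟨b1, b2, -, b3, b4, -, -, -, b5, b6⟩ := lohi hT hA hB hy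
  by_cases h : ∃ t ∈ T, x ≤ t ∧ t ≤ y
  · obtain ⟨t, ht, h1, h2⟩ := h
    exact Or.inl ((a6 t ht h1).trans (b5 t ht h2))
  · push Not at h
    right
    constructor
    · apply le_antisymm (b5 _ a1 (a3.trans hxy))
      apply a5 _ b1
      by_contra h1
      push Not at h1
      exact absurd b3 (not_le.mpr (h _ b1 h1.le))
    · apply le_antisymm (a6 _ b2 (hxy.trans b4))
      apply b6 _ a2
      exact (h _ a2 a4).le

private theorem itp1_anti (hT : IsClosed T) (hA : A ∈ T) (hB : B ∈ T) {g : ℝ → ℝ}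
    (hg : AntitoneOn g (T ∩ Icc A B)) : AntitoneOn (itp1 T g) (Icc A B) := by
  intro x hx y hy hxy
  obtain ⟨a1, a2, a0, a3, a4, a7, a8, a9, -, -⟩ := lohi hT hA hB hx
  obtain ⟨b1, b2, b0, b3, b4, b7, b8, b9, -, -⟩ := lohi hT hA hB hy
  have lx : lo T x ∈ T ∩ Icc A B := ⟨a1, a0, a3.trans (hx.2)⟩
  have hx' : hi T x ∈ T ∩ Icc A B := ⟨a2, hx.1.trans a4, a7⟩
  have ly : lo T y ∈ T ∩ Icc A B := ⟨b1, b0, b3.trans (hy.2)⟩
  have hy' : hi T y ∈ T ∩ Icc A B := ⟨b2, hy.1.trans b4, b7⟩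
  have g1 : g (hi T x) ≤ g (lo T x) := hg lx hx' (a3.trans a4)
  have g2 : g (hi T y) ≤ g (lo T y) := hg ly hy' (b3.trans b4)
  unfold itp1
  rcases interp_cases hT hA hB hx hy hxy with h | ⟨h1, h2⟩
  · have g3 : g (lo T y) ≤ g (hi T x) := hg hx' ly h
    have k1 : 0 ≤ (1 - wt T x) * (g (lo T x) - g (hi T x)) :=
      mul_nonneg (by linarith) (by linarith)
    have k2 : 0 ≤ wt T y * (g (lo T y) - g (hi T y)) := mul_nonneg b8 (by linarith)
    linarith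
  · have w1 : wt T x ≤ wt T y := by
      unfold wt
      rw [h1, h2]
      exact div_le_div_of_nonneg_right (by linarith) (by linarith)
    rw [h1, h2]
    have k1 : 0 ≤ (wt T y - wt T x) * (g (lo T y) - g (hi T y)) :=
      mul_nonneg (by linarith) (by linarith)
    linarith

private theorem itp1_neg (g : ℝ → ℝ) (x : ℝ) : itp1 T (fun y => - g y) x = - itp1 T g x := by
  unfold itp1
  ring

private theorem itp1_mono (hT : IsClosed T) (hA : A ∈ T) (hB : B ∈ T) {g : ℝ → ℝ}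
    (hg : MonotoneOn g (T ∩ Icc A B)) : MonotoneOn (itp1 T g) (Icc A B) := by
  intro x hx y hy hxy
  have h1 : AntitoneOn (fun y => - g y) (T ∩ Icc A B) :=
    fun a ha b hb hab => neg_le_neg (hg ha hb hab)
  have h2 := itp1_anti hT hA hB h1 hx hy hxy
  rw [itp1_neg, itp1_neg] at h2
  linarith

private theorem itp1_lip_aux (hT : IsClosed T) (hA : A ∈ T) (hB : B ∈ T) {g : ℝ → ℝ}
    (hg : ∀ x ∈ T, x ∈ Icc A B → ∀ x' ∈ T, x' ∈ Icc A B → |g x - g x'| ≤ |x - x'|)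
    {x y : ℝ} (hx : x ∈ Icc A B) (hy : y ∈ Icc A B) (hxy : x ≤ y) :
    |itp1 T g x - itp1 T g y| ≤ y - x := by
  obtain ⟨a1, a2, a0, a3, a4, a7, a8, a9, -, -⟩ := lohi hT hA hB hx
  obtain ⟨b1, b2, b0, b3, b4, b7, b8, b9, -, -⟩ := lohi hT hA hB hy
  have lx : lo T x ∈ Icc A B := ⟨a0, a3.trans (hx.2)⟩
  have hx' : hi T x ∈ Icc A B := ⟨hx.1.trans a4, a7⟩
  have ly : lo T y ∈ Icc A B := ⟨b0, b3.trans (hy.2)⟩
  have hy' : hi T y ∈ Icc A B := ⟨hy.1.trans b4, b7⟩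
  have w1 := interp_wt_mul hT hA hB hx
  have w2 := interp_wt_mul hT hA hB hy
  have g1 := hg _ a2 hx' _ a1 lx
  have g2 := hg _ b2 hy' _ b1 ly
  rw [abs_of_nonneg (show 0 ≤ hi T x - lo T x by linarith)] at g1
  rw [abs_of_nonneg (show 0 ≤ hi T y - lo T y by linarith)] at g2
  unfold itp1
  rcases interp_cases hT hA hB hx hy hxy with h | ⟨h1, h2⟩
  · have g3 := hg _ b1 ly _ a2 hx'
    rw [abs_of_nonneg (show 0 ≤ lo T y - hi T x by linarith)] at g3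
    have k1 : |(1 - wt T x) * (g (hi T x) - g (lo T x))| ≤
        (1 - wt T x) * (hi T x - lo T x) := by
      rw [abs_mul, abs_of_nonneg (show 0 ≤ 1 - wt T x by linarith)]
      exact mul_le_mul_of_nonneg_left g1 (by linarith)
    have k2 : |wt T y * (g (hi T y) - g (lo T y))| ≤ wt T y * (hi T y - lo T y) := by
      rw [abs_mul, abs_of_nonneg b8]
      exact mul_le_mul_of_nonneg_left g2 b8
    have k3 : (1 - wt T x) * (hi T x - lo T x) = hi T x - x := by linarith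
    rw [k3] at k1
    rw [w2] at k2
    rw [abs_le] at k1 k2 g3 ⊢
    constructor <;> linarith
  · have k4 : wt T y * (hi T y - lo T y) - wt T x * (hi T y - lo T y) = y - x := by
      rw [w2]
      rw [h1, h2] at w1
      linarith
    have w3 : wt T x ≤ wt T y := by
      unfold wt
      rw [h1, h2]
      exact div_le_div_of_nonneg_right (by linarith) (by linarith)
    rw [h1, h2]
    have k5 : |(wt T y - wt T x) * (g (hi T y) - g (lo T y))| ≤
        (wt T y - wt T x) * (hi T y - lo T y) := by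
      rw [abs_mul, abs_of_nonneg (show 0 ≤ wt T y - wt T x by linarith)]
      exact mul_le_mul_of_nonneg_left g2 (by linarith)
    rw [abs_le] at k5 ⊢
    constructor <;> linarith

private theorem itp1_cont (hT : IsClosed T) (hA : A ∈ T) (hB : B ∈ T) {g : ℝ → ℝ}
    (hg : ∀ x ∈ T, x ∈ Icc A B → ∀ x' ∈ T, x' ∈ Icc A B → |g x - g x'| ≤ |x - x'|) :
    ContinuousOn (itp1 T g) (Icc A B) := by
  have h : LipschitzOnWith 1 (itp1 T g) (Icc A B) := by
    apply LipschitzOnWith.of_dist_le_mul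
    intro x hx y hy
    rw [Real.dist_eq, Real.dist_eq, NNReal.coe_one, one_mul]
    rcases le_total x y with hxy | hxy
    · rw [abs_sub_comm x y, abs_of_nonneg (show 0 ≤ y - x by linarith)]
      exact itp1_lip_aux hT hA hB hg hx hy hxy
    · rw [abs_sub_comm, abs_of_nonneg (show 0 ≤ x - y by linarith)]
      exact itp1_lip_aux hT hA hB hg hy hx hxy
  exact h.continuousOn

theorem itp_anti (hT : IsClosed T) (hA : A ∈ T) (hB : B ∈ T)
    (hf : ∀ y ∈ T, y ∈ Icc A B → AntitoneOn (fun x => f x y) (T ∩ Icc A B)) {y : ℝ}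
    (hy : y ∈ Icc A B) : AntitoneOn (fun x => itp T f x y) (Icc A B) := by
  obtain ⟨b1, b2, b0, b3, b4, b7, b8, b9, -, -⟩ := lohi hT hA hB hy
  have ly : lo T y ∈ Icc A B := ⟨b0, b3.trans (hy.2)⟩
  have hy' : hi T y ∈ Icc A B := ⟨hy.1.trans b4, b7⟩
  simp only [itp_left]
  refine itp1_anti hT hA hB fun x hx x' hx' hxx => ?_
  exact add_le_add (mul_le_mul_of_nonneg_left (hf _ b1 ly hx hx' hxx) (by linarith))
    (mul_le_mul_of_nonneg_left (hf _ b2 hy' hx hx' hxx) b8)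

theorem itp_mono (hT : IsClosed T) (hA : A ∈ T) (hB : B ∈ T)
    (hf : ∀ x ∈ T, x ∈ Icc A B → MonotoneOn (fun y => f x y) (T ∩ Icc A B)) {x : ℝ}
    (hx : x ∈ Icc A B) : MonotoneOn (fun y => itp T f x y) (Icc A B) := by
  obtain ⟨b1, b2, b0, b3, b4, b7, b8, b9, -, -⟩ := lohi hT hA hB hx
  have lx : lo T x ∈ Icc A B := ⟨b0, b3.trans (hx.2)⟩
  have hx' : hi T x ∈ Icc A B := ⟨hx.1.trans b4, b7⟩
  simp only [itp_right]
  refine itp1_mono hT hA hB fun y hy y' hy' hyy => ?_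
  exact add_le_add (mul_le_mul_of_nonneg_left (hf _ b1 lx hy hy' hyy) (by linarith))
    (mul_le_mul_of_nonneg_left (hf _ b2 hx' hy hy' hyy) b8)

private theorem interp_comb {w a b c d e : ℝ} (h0 : 0 ≤ w) (h1 : w ≤ 1) (h2 : |a - b| ≤ e)
    (h3 : |c - d| ≤ e) : |((1 - w) * a + w * c) - ((1 - w) * b + w * d)| ≤ e := by
  have h4 := mul_le_mul_of_nonneg_left (abs_le.mp h2).1 (show 0 ≤ 1 - w by linarith)
  have h5 := mul_le_mul_of_nonneg_left (abs_le.mp h2).2 (show 0 ≤ 1 - w by linarith)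
  have h6 := mul_le_mul_of_nonneg_left (abs_le.mp h3).1 h0
  have h7 := mul_le_mul_of_nonneg_left (abs_le.mp h3).2 h0
  rw [abs_le]
  constructor <;> linarith

theorem itp_cont_left (hT : IsClosed T) (hA : A ∈ T) (hB : B ∈ T)
    (hf : ∀ y ∈ T, y ∈ Icc A B → ∀ x ∈ T, x ∈ Icc A B → ∀ x' ∈ T, x' ∈ Icc A B →
      |f x y - f x' y| ≤ |x - x'|) {y : ℝ}
    (hy : y ∈ Icc A B) : ContinuousOn (fun x => itp T f x y) (Icc A B) := by
  obtain ⟨b1, b2, b0, b3, b4, b7, b8, b9, -, -⟩ := lohi hT hA hB hy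
  have ly : lo T y ∈ Icc A B := ⟨b0, b3.trans (hy.2)⟩
  have hy' : hi T y ∈ Icc A B := ⟨hy.1.trans b4, b7⟩
  simp only [itp_left]
  refine itp1_cont hT hA hB fun x hx hxI x' hx' hxI' => ?_
  exact interp_comb b8 b9 (hf _ b1 ly x hx hxI x' hx' hxI') (hf _ b2 hy' x hx hxI x' hx' hxI')

theorem itp_cont_right (hT : IsClosed T) (hA : A ∈ T) (hB : B ∈ T)
    (hf : ∀ x ∈ T, x ∈ Icc A B → ∀ y ∈ T, y ∈ Icc A B → ∀ y' ∈ T, y' ∈ Icc A B →
      |f x y - f x y'| ≤ |y - y'|) {x : ℝ}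
    (hx : x ∈ Icc A B) : ContinuousOn (fun y => itp T f x y) (Icc A B) := by
  obtain ⟨b1, b2, b0, b3, b4, b7, b8, b9, -, -⟩ := lohi hT hA hB hx
  have lx : lo T x ∈ Icc A B := ⟨b0, b3.trans (hx.2)⟩
  have hx' : hi T x ∈ Icc A B := ⟨hx.1.trans b4, b7⟩
  simp only [itp_right]
  refine itp1_cont hT hA hB fun y hy hyI y' hy' hyI' => ?_
  exact interp_comb b8 b9 (hf _ b1 lx y hy hyI y' hy' hyI') (hf _ b2 hx' y hy hyI y' hy' hyI')

end interp

end Pool.Agent.Ruler
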