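import Mathlib
import Pool.Agent.Ruler.Basic

/-!
MP_067807_co: a gap of more than a right angle in the set of directions kills universality.

If all unit chords of a compact set of diameter at most one have directions in a range smaller than
a right angle, then a constant ruler `1, a, 1, a, …, 1` does not fold.
-/

open Set Real

namespace Pool.Agent.Ruler

private lemma kip_comm (z w : ℂ) : ip z w = ip w z := by simp only [ip]; ring

private lemma kdist_sq (z w : ℂ) : dist z w ^ 2 = ip (z - w) (z - w) := by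
  rw [Complex.dist_eq, Complex.sq_norm, Complex.normSq_apply]; rfl

private lemma kip_ev_ev (s t : ℝ) : ip (ex s) (ex t) = Real.cos (t - s) := by
  simp only [ip, ex, Real.cos_sub]; ring

private lemma kip_frame (t : ℝ) (u v : ℂ) :
    ip u v = ip u (ex t) * ip v (ex t) + ip u (nx t) * ip v (nx t) := by
  have h := Real.sin_sq_add_cos_sq t
  simp only [ip, ex, nx]
  have : u.re * v.re + u.im * v.im = (u.re * v.re + u.im * v.im) * (sin t ^ 2 + cos t ^ 2) := by
    rw [h]; ring
  rw [this]; ring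

private lemma kip_ev_add (t d : ℝ) (u : ℂ) :
    ip u (ex (t + d)) = Real.cos d * ip u (ex t) + Real.sin d * ip u (nx t) := by
  simp only [ip, ex, nx, Real.cos_add, Real.sin_add]; ring

/-- Two displacements in consecutive cones make an angle of at most a right angle. -/
private lemma kcone_ip {a b c : ℝ} {u v : ℂ} (hab : a < b) (hbc : b < c) (hac : c - a ≤ π / 2)
    (u1 : ip u (ex b) ≤ 0) (u2 : 0 ≤ ip u (ex c)) (v1 : ip v (ex a) ≤ 0)
    (v2 : 0 ≤ ip v (ex b)) : 0 ≤ ip u v := by
  have hpi := Real.pi_pos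
  obtain ⟨d1, hd1⟩ : ∃ d1, d1 = b - a := ⟨_, rfl⟩
  obtain ⟨d2, hd2⟩ : ∃ d2, d2 = c - b := ⟨_, rfl⟩
  have e1 : ex c = ex (b + d2) := by rw [hd2]; congr 1; ring
  have e2 : ex a = ex (b + (-d1)) := by rw [hd1]; congr 1; ring
  rw [e1, kip_ev_add] at u2
  rw [e2, kip_ev_add, Real.cos_neg, Real.sin_neg] at v1
  have s1 : 0 < sin d1 := Real.sin_pos_of_pos_of_lt_pi (by linarith) (by linarith)
  have s2 : 0 < sin d2 := Real.sin_pos_of_pos_of_lt_pi (by linarith) (by linarith)
  have c1 : 0 ≤ cos d1 := Real.cos_nonneg_of_mem_Icc ⟨by linarith, by linarith⟩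
  have c2 : 0 ≤ cos d2 := Real.cos_nonneg_of_mem_Icc ⟨by linarith, by linarith⟩
  have c12 : 0 ≤ cos (d1 + d2) := Real.cos_nonneg_of_mem_Icc ⟨by linarith, by linarith⟩
  rw [Real.cos_add] at c12
  rw [kip_frame b u v]
  set U1 := ip u (ex b)
  set U2 := ip u (nx b)
  set V1 := ip v (ex b)
  set V2 := ip v (nx b)
  have k1 : (-U1) * cos d2 ≤ U2 * sin d2 := by nlinarith
  have k2 : V1 * cos d1 ≤ V2 * sin d1 := by nlinarith
  have k3 : 0 ≤ (-U1) * cos d2 := mul_nonneg (by linarith) c2
  have k4 : 0 ≤ V1 * cos d1 := mul_nonneg v2 c1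
  have k5 : ((-U1) * cos d2) * (V1 * cos d1) ≤ (U2 * sin d2) * (V2 * sin d1) :=
    mul_le_mul k1 k2 k4 (k3.trans k1)
  have k6 : 0 ≤ (-U1) * V1 * (cos d1 * cos d2 - sin d1 * sin d2) :=
    mul_nonneg (mul_nonneg (by linarith) v2) c12
  have k7 : 0 ≤ (sin d1 * sin d2) * (U1 * V1 + U2 * V2) := by nlinarith
  have s12 : 0 < sin d1 * sin d2 := mul_pos s1 s2
  by_contra hneg
  push Not at hneg
  have : (sin d1 * sin d2) * (U1 * V1 + U2 * V2) < 0 := mul_neg_of_pos_of_neg s12 hneg
  linarith

/-- `(x, y)` is a unit chord of `K` of direction `t`. -/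
private def KCh (K : Set ℂ) (t : ℝ) (x y : ℂ) : Prop := x ∈ K ∧ y ∈ K ∧ x - y = ex t


private lemma kle_abs_of_sq_le' {p q : ℝ} (h : p ^ 2 ≤ q ^ 2) : p ≤ |q| := by
  exact (le_abs_self p).trans (sq_le_sq.mp h)

private lemma kle_one_sq {K : Set ℂ} (hd : ∀ x ∈ K, ∀ y ∈ K, dist x y ≤ 1) {x y : ℂ} (hx : x ∈ K)
    (hy : y ∈ K) : ip (x - y) (x - y) ≤ 1 := by
  rw [← kdist_sq]
  have := hd x hx y hy
  have h0 : 0 ≤ dist x y := dist_nonneg
  nlinarith

private lemma kip_ev_self (t : ℝ) : ip (ex t) (ex t) = 1 := by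
  rw [kip_ev_ev]; simp

section chords

variable {K : Set ℂ} (hd : ∀ x ∈ K, ∀ y ∈ K, dist x y ≤ 1)
include hd

private lemma kchX {b c : ℝ} {xb yb xc yc : ℂ} (hb : KCh K b xb yb) (hc : KCh K c xc yc) :
    ip (xc - xb) (xc - xb) ≤ -2 * ip (xc - xb) (ex b) ∧
      ip (xc - xb) (xc - xb) ≤ 2 * ip (xc - xb) (ex c) := by
  obtain ⟨hb1, hb2, hb3⟩ := hb
  obtain ⟨hc1, hc2, hc3⟩ := hc
  have h1 := kle_one_sq hd hc1 hb2
  have h2 := kle_one_sq hd hc2 hb1
  have e1 : xc - yb = (xc - xb) + ex b := by rw [← hb3]; ring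
  have e2 : yc - xb = (xc - xb) - ex c := by rw [← hc3]; ring
  have u1 := kip_ev_self b
  have u2 := kip_ev_self c
  rw [e1] at h1
  rw [e2] at h2
  constructor
  · have : ip (xc - xb + ex b) (xc - xb + ex b) =
        ip (xc - xb) (xc - xb) + 2 * ip (xc - xb) (ex b) + ip (ex b) (ex b) := by
      simp only [ip, Complex.add_re, Complex.add_im]; ring
    rw [this, u1] at h1
    linarith
  · have : ip (xc - xb - ex c) (xc - xb - ex c) =
        ip (xc - xb) (xc - xb) - 2 * ip (xc - xb) (ex c) + ip (ex c) (ex c) := by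
      simp only [ip, Complex.sub_re, Complex.sub_im]; ring
    rw [this, u2] at h2
    linarith

private lemma kchY {b c : ℝ} {xb yb xc yc : ℂ} (hb : KCh K b xb yb) (hc : KCh K c xc yc) :
    ip (yc - yb) (yc - yb) ≤ 2 * ip (yc - yb) (ex b) ∧
      ip (yc - yb) (yc - yb) ≤ -2 * ip (yc - yb) (ex c) := by
  obtain ⟨hb1, hb2, hb3⟩ := hb
  obtain ⟨hc1, hc2, hc3⟩ := hc
  have h1 := kle_one_sq hd hc2 hb1
  have h2 := kle_one_sq hd hc1 hb2
  have e1 : yc - xb = (yc - yb) - ex b := by rw [← hb3]; ring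
  have e2 : xc - yb = (yc - yb) + ex c := by rw [← hc3]; ring
  have u1 := kip_ev_self b
  have u2 := kip_ev_self c
  rw [e1] at h1
  rw [e2] at h2
  constructor
  · have : ip (yc - yb - ex b) (yc - yb - ex b) =
        ip (yc - yb) (yc - yb) - 2 * ip (yc - yb) (ex b) + ip (ex b) (ex b) := by
      simp only [ip, Complex.sub_re, Complex.sub_im]; ring
    rw [this, u1] at h1
    linarith
  · have : ip (yc - yb + ex c) (yc - yb + ex c) =
        ip (yc - yb) (yc - yb) + 2 * ip (yc - yb) (ex c) + ip (ex c) (ex c) := by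
      simp only [ip, Complex.add_re, Complex.add_im]; ring
    rw [this, u2] at h2
    linarith

omit hd in
private lemma kip_self_nonneg (z : ℂ) : 0 ≤ ip z z := by
  simp only [ip]; nlinarith [mul_self_nonneg z.re, mul_self_nonneg z.im]

omit hd in
private lemma kev_diff_le (b c : ℝ) : ip (ex c - ex b) (ex c - ex b) ≤ (c - b) ^ 2 := by
  have h1 : ip (ex c - ex b) (ex c - ex b) = 2 - 2 * cos (c - b) := by
    have e : ip (ex c - ex b) (ex c - ex b) =
        ip (ex c) (ex c) + ip (ex b) (ex b) - 2 * ip (ex b) (ex c) := by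
      simp only [ip, Complex.sub_re, Complex.sub_im]; ring
    rw [e, kip_ev_self, kip_ev_self, kip_ev_ev]; ring
  have h2 := Real.one_sub_sq_div_two_le_cos (x := c - b)
  rw [h1]; linarith

/-- The ends of the unit chords move at most as fast as the direction. -/
private lemma kdist_ends_le {b c : ℝ} {xb yb xc yc : ℂ} (hb : KCh K b xb yb) (hc : KCh K c xc yc) :
    dist xb xc ≤ |c - b| ∧ dist yb yc ≤ |c - b| := by
  have key : ∀ u : ℂ, (ip u u ≤ ip u (ex c - ex b) ∨ ip u u ≤ - ip u (ex c - ex b)) →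
      ip u u ≤ (c - b) ^ 2 := by
    intro u hu
    have h1 := kev_diff_le b c
    have h0 : 0 ≤ ip u u := by
      simp only [ip]; nlinarith [mul_self_nonneg u.re, mul_self_nonneg u.im]
    have cs : ip u (ex c - ex b) ^ 2 ≤ ip u u * ip (ex c - ex b) (ex c - ex b) := by
      simp only [ip]
      nlinarith [sq_nonneg (u.re * (ex c - ex b).im - u.im * (ex c - ex b).re)]
    have h2 : ip u u ^ 2 ≤ ip u (ex c - ex b) ^ 2 := by
      rcases hu with hu | hu <;> nlinarith
    rcases h0.eq_or_lt with h | h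
    · rw [← h]; positivity
    · have h3 : ip u u * ip u u ≤ ip u u * (c - b) ^ 2 := by nlinarith
      exact le_of_mul_le_mul_left h3 h
  have hsub : ∀ u : ℂ, ip u (ex c - ex b) = ip u (ex c) - ip u (ex b) := by
    intro u; simp only [ip, Complex.sub_re, Complex.sub_im]; ring
  obtain ⟨h1, h2⟩ := kchX hd hb hc
  obtain ⟨h3, h4⟩ := kchY hd hb hc
  constructor
  · have := key (xc - xb) (Or.inl (by rw [hsub]; linarith))
    rw [← kdist_sq] at this
    rw [dist_comm]
    exact kle_abs_of_sq_le' this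
  · have := key (yc - yb) (Or.inr (by rw [hsub]; linarith))
    rw [← kdist_sq] at this
    rw [dist_comm]
    exact kle_abs_of_sq_le' this


private lemma kends_eq {b : ℝ} {xb yb xc yc : ℂ} (hb : KCh K b xb yb) (hc : KCh K b xc yc) :
    xb = xc ∧ yb = yc := by
  obtain ⟨h1, h2⟩ := kdist_ends_le hd hb hc
  simp only [sub_self, abs_zero] at h1 h2
  exact ⟨dist_le_zero.mp h1, dist_le_zero.mp h2⟩

section three

variable {a b c : ℝ} {xa ya xb yb xc yc : ℂ} (ha : KCh K a xa ya) (hb : KCh K b xb yb)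
  (hc : KCh K c xc yc) (hab : a ≤ b) (hbc : b ≤ c) (hac : c - a ≤ π / 2)
include ha hb hc hab hbc hac

private lemma kip_three : 0 ≤ ip (xc - xb) (xb - xa) ∧ ip (xc - xb) (yb - ya) ≤ 0 ∧
    0 ≤ ip (yc - yb) (yb - ya) ∧ ip (yc - yb) (xb - xa) ≤ 0 := by
  rcases hab.eq_or_lt with rfl | hab'
  · obtain ⟨e1, e2⟩ := kends_eq hd ha hb
    subst e1 e2
    simp [ip]
  rcases hbc.eq_or_lt with rfl | hbc'
  · obtain ⟨e1, e2⟩ := kends_eq hd hb hc
    subst e1 e2
    simp [ip]
  obtain ⟨p1, p2⟩ := kchX hd ha hb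
  obtain ⟨p3, p4⟩ := kchX hd hb hc
  obtain ⟨q1, q2⟩ := kchY hd ha hb
  obtain ⟨q3, q4⟩ := kchY hd hb hc
  have n1 := kip_self_nonneg (xb - xa)
  have n2 := kip_self_nonneg (xc - xb)
  have n3 := kip_self_nonneg (yb - ya)
  have n4 := kip_self_nonneg (yc - yb)
  have neg1 : ∀ u v : ℂ, ip (-u) v = - ip u v := by
    intro u v; simp only [ip, Complex.neg_re, Complex.neg_im]; ring
  have neg2 : ∀ u v : ℂ, ip u (-v) = - ip u v := by
    intro u v; simp only [ip, Complex.neg_re, Complex.neg_im]; ring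
  refine ⟨?_, ?_, ?_, ?_⟩
  · exact kcone_ip hab' hbc' hac (by linarith) (by linarith) (by linarith) (by linarith)
  · have := kcone_ip (u := xc - xb) (v := -(yb - ya)) hab' hbc' hac (by linarith) (by linarith)
      (by rw [neg1]; linarith) (by rw [neg1]; linarith)
    rw [neg2] at this; linarith
  · have := kcone_ip (u := -(yc - yb)) (v := -(yb - ya)) hab' hbc' hac (by rw [neg1]; linarith)
      (by rw [neg1]; linarith) (by rw [neg1]; linarith) (by rw [neg1]; linarith)
    rw [neg1, neg2] at this; linarith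
  · have := kcone_ip (u := -(yc - yb)) (v := xb - xa) hab' hbc' hac (by rw [neg1]; linarith)
      (by rw [neg1]; linarith) (by linarith) (by linarith)
    rw [neg1] at this; linarith

/-- All distance monotonicities for three chords in increasing order. -/
private lemma kdist_three : dist xa xb ≤ dist xa xc ∧ dist xb xc ≤ dist xa xc ∧
    dist ya yb ≤ dist ya yc ∧ dist yb yc ≤ dist ya yc ∧
    dist ya xc ≤ dist ya xb ∧ dist ya xc ≤ dist yb xc ∧
    dist xa yc ≤ dist xa yb ∧ dist xa yc ≤ dist xb yc := by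
  obtain ⟨h1, h2, h3, h4⟩ := kip_three hd ha hb hc hab hbc hac
  obtain ⟨p1, p2⟩ := kchX hd ha hb
  obtain ⟨p3, p4⟩ := kchX hd hb hc
  obtain ⟨q1, q2⟩ := kchY hd ha hb
  obtain ⟨q3, q4⟩ := kchY hd hb hc
  have n1 := kip_self_nonneg (xb - xa)
  have n2 := kip_self_nonneg (xc - xb)
  have n3 := kip_self_nonneg (yb - ya)
  have n4 := kip_self_nonneg (yc - yb)
  have hb3 := hb.2.2
  have eb1 : (ex b).re = xb.re - yb.re := by rw [← hb3]; simp
  have eb2 : (ex b).im = xb.im - yb.im := by rw [← hb3]; simp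
  have key : ∀ p q r s : ℂ, ip (p - q) (p - q) ≤ ip (r - s) (r - s) → dist p q ≤ dist r s := by
    intro p q r s h
    rw [← kdist_sq, ← kdist_sq] at h
    exact (pow_le_pow_iff_left₀ dist_nonneg dist_nonneg two_ne_zero).mp h
  simp only [ip, Complex.sub_re, Complex.sub_im, eb1, eb2] at h1 h2 h3 h4 p1 p2 p3 p4 q1 q2 q3 q4 n1 n2 n3 n4
  refine ⟨key _ _ _ _ ?_, key _ _ _ _ ?_, key _ _ _ _ ?_, key _ _ _ _ ?_, key _ _ _ _ ?_,
    key _ _ _ _ ?_, key _ _ _ _ ?_, key _ _ _ _ ?_⟩ <;>
    simp only [ip, Complex.sub_re, Complex.sub_im] <;> linarith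

end three

end chords

section dyn

variable (S : ChordSys)

private def kK : Set ℂ := {z | ∃ σ : Bool, ∃ θ ∈ S.T, z = S.P σ θ}

private lemma kP_true (θ : ℝ) : S.P true θ = S.X θ := by simp [ChordSys.P]

private lemma kP_false (θ : ℝ) : S.P false θ = S.X θ - ex θ := by simp [ChordSys.P]

private lemma kP_mem (σ : Bool) {θ : ℝ} (h : θ ∈ S.T) : ∃ φ ∈ S.T, S.P σ θ = S.X φ := by
  cases σ with
  | true => exact ⟨θ, h, kP_true S θ⟩
  | false => exact ⟨θ + π, (S.per θ).1 h, by rw [kP_false, S.tail θ h]⟩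

private lemma kK_dist : ∀ x ∈ kK S, ∀ y ∈ kK S, dist x y ≤ 1 := by
  rintro x ⟨σ, θ, hθ, rfl⟩ y ⟨τ, φ, hφ, rfl⟩
  obtain ⟨θ', hθ', e1⟩ := kP_mem S σ hθ
  obtain ⟨φ', hφ', e2⟩ := kP_mem S τ hφ
  rw [e1, e2, Complex.dist_eq]
  exact S.dist_le _ hθ' _ hφ'

private lemma kKCh {θ : ℝ} (h : θ ∈ S.T) : KCh (kK S) θ (S.P true θ) (S.P false θ) :=
  ⟨⟨true, θ, h, rfl⟩, ⟨false, θ, h, rfl⟩, by rw [kP_true, kP_false]; ring⟩

/-- the basic data: four monotonicity bounds -/
private lemma kbounds {A B : ℝ} (hA : A ∈ S.T) (hB : B ∈ S.T) (hAB : B - A ≤ π / 2)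
    {θ φ : ℝ} (hθ : θ ∈ S.T) (hφ : φ ∈ S.T) (h1 : A ≤ θ) (h2 : θ ≤ φ) (h3 : φ ≤ B) :
    dist (S.P true θ) (S.P true φ) ≤ dist (S.P true A) (S.P true B) ∧
    dist (S.P false θ) (S.P false φ) ≤ dist (S.P false A) (S.P false B) ∧
    dist (S.P false A) (S.P true B) ≤ dist (S.P false θ) (S.P true φ) ∧
    dist (S.P true A) (S.P false B) ≤ dist (S.P true θ) (S.P false φ) := by
  obtain ⟨-, a2, -, a4, -, a6, -, a8⟩ :=
    kdist_three (kK_dist S) (kKCh S hA) (kKCh S hθ) (kKCh S hB) h1 (h2.trans h3) hAB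
  obtain ⟨b1, -, b3, -, b5, -, b7, -⟩ :=
    kdist_three (kK_dist S) (kKCh S hθ) (kKCh S hφ) (kKCh S hB) h2 h3 (by linarith)
  exact ⟨b1.trans a2, b3.trans a4, a6.trans b5, a8.trans b7⟩

private lemma kidentity {A B : ℝ} (xA yA xB yB : ℂ) (hA : xA - yA = ex A) (hB : xB - yB = ex B) :
    dist yA xB ^ 2 + dist xA yB ^ 2 =
      dist xA xB ^ 2 + dist yA yB ^ 2 + 2 * Real.cos (B - A) := by
  rw [kdist_sq, kdist_sq, kdist_sq, kdist_sq, ← kip_ev_ev A B, ← hA, ← hB]
  simp only [ip, Complex.sub_re, Complex.sub_im]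
  ring

/-- a crossing step changes the direction by at least `1 - a` -/
private lemma kstep {σ : Bool} {θ φ a : ℝ} (hθ : θ ∈ S.T) (hφ : φ ∈ S.T)
    (h : dist (S.P σ θ) (S.P (!σ) φ) = a) : 1 - a ≤ |φ - θ| := by
  obtain ⟨h1, h2⟩ := kdist_ends_le (kK_dist S) (kKCh S hθ) (kKCh S hφ)
  have hn : dist (S.P true φ) (S.P false φ) = 1 := by
    rw [Complex.dist_eq, kP_true, kP_false, sub_sub_cancel]
    have := kip_ev_self φ
    have h' : ‖ex φ‖ ^ 2 = 1 := by
      rw [Complex.sq_norm, Complex.normSq_apply]; exact this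
    have h0 := norm_nonneg (ex φ)
    nlinarith
  cases σ with
  | true =>
    have t1 := dist_triangle (S.P true φ) (S.P true θ) (S.P false φ)
    rw [dist_comm (S.P true φ) (S.P true θ)] at t1
    simp only [Bool.not_true] at h
    linarith
  | false =>
    have t1 := dist_triangle (S.P false φ) (S.P false θ) (S.P true φ)
    rw [dist_comm (S.P false φ) (S.P false θ), dist_comm (S.P false φ) (S.P true φ)] at t1
    simp only [Bool.not_false] at h
    linarith

/-- a run of `M` crossing steps of constant type moves the direction by at least `M (1 - a)` -/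
private lemma krun {θ : ℕ → ℝ} {m M : ℕ} {δ : ℝ}
    (h : (∀ j < M, θ (m + j) + δ ≤ θ (m + (j + 1))) ∨ (∀ j < M, θ (m + (j + 1)) + δ ≤ θ (m + j))) :
    M * δ ≤ |θ (m + M) - θ m| := by
  rcases h with h | h
  · have : ∀ j ≤ M, j * δ ≤ θ (m + j) - θ m := by
      intro j
      induction j with
      | zero => intro _; simp
      | succ j ih =>
        intro hj
        have h1 := ih (by omega)
        have h2 := h j (by omega)
        push_cast
        linarith
    exact (this M le_rfl).trans (le_abs_self _)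
  · have : ∀ j ≤ M, j * δ ≤ θ m - θ (m + j) := by
      intro j
      induction j with
      | zero => intro _; simp
      | succ j ih =>
        intro hj
        have h1 := ih (by omega)
        have h2 := h j (by omega)
        push_cast
        linarith
    have h3 := (this M le_rfl).trans (le_abs_self _)
    rwa [abs_sub_comm] at h3

end dyn

/-- A gap of more than a right angle between two directions kills universality. -/
theorem gap_le (S : ChordSys) (hC : S.Chains) {s t : ℝ} (hs : s ∈ S.T) (ht : t ∈ S.T)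
    (hst : s < t) (htp : t ≤ s + Real.pi) (hgap : ∀ r ∈ S.T, ¬ (s < r ∧ r < t)) :
    t - s ≤ Real.pi / 2 := by
  by_contra hcon
  push Not at hcon
  obtain ⟨B, hBdef⟩ : ∃ B, B = s + π := ⟨_, rfl⟩
  have hB : B ∈ S.T := by rw [hBdef]; exact (S.per s).1 hs
  have hAB : t ≤ B := by rw [hBdef]; exact htp
  have hlt : B - t < π / 2 := by rw [hBdef]; linarith
  have hrange : ∀ θ ∈ S.T, t ≤ θ → θ < t + π → θ ≤ B := by
    intro θ hθ h1 h2
    by_contra hc
    push Not at hc
    have hm : θ - π ∈ S.T := by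
      rw [S.per, sub_add_cancel]; exact hθ
    exact hgap _ hm ⟨by rw [hBdef] at hc; linarith, by linarith⟩
  set xA := S.P true t with hxA
  set yA := S.P false t with hyA
  set xB := S.P true B with hxB
  set yB := S.P false B with hyB
  have hcos : 0 < Real.cos (B - t) := by
    apply Real.cos_pos_of_mem_Ioo
    constructor <;> linarith [Real.pi_pos]
  have hid := kidentity (A := t) (B := B) xA yA xB yB (kKCh S ht).2.2 (kKCh S hB).2.2
  obtain ⟨d1, hd1⟩ : ∃ d, d = dist yA xB := ⟨_, rfl⟩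
  obtain ⟨d2, hd2⟩ : ∃ d, d = dist xA yB := ⟨_, rfl⟩
  obtain ⟨lA, hlA⟩ : ∃ d, d = dist xA xB := ⟨_, rfl⟩
  obtain ⟨lB, hlB⟩ : ∃ d, d = dist yA yB := ⟨_, rfl⟩
  rw [← hd1, ← hd2, ← hlA, ← hlB] at hid
  have d1n : 0 ≤ d1 := hd1 ▸ dist_nonneg
  have d2n : 0 ≤ d2 := hd2 ▸ dist_nonneg
  have lAn : 0 ≤ lA := hlA ▸ dist_nonneg
  have lBn : 0 ≤ lB := hlB ▸ dist_nonneg
  have d1l : d1 ≤ 1 := hd1 ▸ kK_dist S _ (kKCh S ht).2.1 _ (kKCh S hB).1
  have d2l : d2 ≤ 1 := hd2 ▸ kK_dist S _ (kKCh S ht).1 _ (kKCh S hB).2.1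
  have hmm : min lA lB < max d1 d2 := by
    by_contra hc
    push Not at hc
    have e1 : d1 ≤ lA := (le_max_left _ _).trans (hc.trans (min_le_left _ _))
    have e2 : d2 ≤ lB := (le_max_right _ _).trans (hc.trans (min_le_right _ _))
    nlinarith
  obtain ⟨a, ha1, ha2⟩ := exists_between hmm
  have ha0 : 0 < a := lt_of_le_of_lt (le_min lAn lBn) ha1
  have ha3 : a < 1 := lt_of_lt_of_le ha2 (max_le d1l d2l)
  obtain ⟨M, hM⟩ := exists_nat_gt (π / 2 / (1 - a))
  have hM' : π / 2 < M * (1 - a) := (div_lt_iff₀ (by linarith)).1 hM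
  obtain ⟨θ, σ, hθ, hl⟩ := hC t (2 * M) (fun _ => a) (fun k _ => ⟨ha0, ha3⟩)
  have hT : ∀ k ≤ 2 * M, θ k ∈ S.T := fun k hk => (hθ k hk).1
  have hlo : ∀ k ≤ 2 * M, t ≤ θ k := fun k hk => (hθ k hk).2.1
  have hhi : ∀ k ≤ 2 * M, θ k ≤ B := fun k hk => hrange _ (hθ k hk).1 (hθ k hk).2.1 (hθ k hk).2.2
  have hl' : ∀ k < 2 * M, dist (S.P (σ k) (θ k)) (S.P (!(σ (k + 1))) (θ (k + 1))) = a := by
    intro k hk
    rw [Complex.dist_eq]
    exact hl k hk
  -- no long run of constant type
  have hno : ∀ m, m + M ≤ 2 * M → ∀ c : Bool, (∀ j ≤ M, σ (m + j) = c) → False := by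
    intro m hm c hc
    have hstep : ∀ j < M, 1 - a ≤ |θ (m + (j + 1)) - θ (m + j)| := by
      intro j hj
      have h1 := hl' (m + j) (by omega)
      rw [hc j hj.le, show m + j + 1 = m + (j + 1) from rfl, hc (j + 1) hj] at h1
      exact kstep S (hT _ (by omega)) (hT _ (by omega)) h1
    have hdir : (∀ j < M, θ (m + j) < θ (m + (j + 1))) ∨ (∀ j < M, θ (m + (j + 1)) < θ (m + j)) := by
      have hb : ∀ p q, p ≤ 2 * M → q ≤ 2 * M → θ p ≤ θ q →
          d1 ≤ dist (S.P false (θ p)) (S.P true (θ q)) ∧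
          d2 ≤ dist (S.P true (θ p)) (S.P false (θ q)) := by
        intro p q hp hq hpq
        obtain ⟨-, -, b3, b4⟩ := kbounds S ht hB hlt.le (hT p hp) (hT q hq) (hlo p hp) hpq (hhi q hq)
        exact ⟨hd1 ▸ b3, hd2 ▸ b4⟩
      have hcj : ∀ j < M, dist (S.P c (θ (m + j))) (S.P (!c) (θ (m + (j + 1)))) = a := by
        intro j hj
        have h1 := hl' (m + j) (by omega)
        rwa [hc j hj.le, show m + j + 1 = m + (j + 1) from rfl, hc (j + 1) hj] at h1
      rcases lt_max_iff.1 ha2 with had | had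
      · -- a < d1
        cases c with
        | true =>
          left
          intro j hj
          by_contra hcc
          push Not at hcc
          have h2 := (hb _ _ (by omega) (by omega) hcc).1
          have h3 := hcj j hj
          rw [Bool.not_true, dist_comm] at h3
          linarith
        | false =>
          right
          intro j hj
          by_contra hcc
          push Not at hcc
          have h2 := (hb _ _ (by omega) (by omega) hcc).1
          have h3 := hcj j hj
          rw [Bool.not_false] at h3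
          linarith
      · cases c with
        | true =>
          right
          intro j hj
          by_contra hcc
          push Not at hcc
          have h2 := (hb _ _ (by omega) (by omega) hcc).2
          have h3 := hcj j hj
          rw [Bool.not_true] at h3
          linarith
        | false =>
          left
          intro j hj
          by_contra hcc
          push Not at hcc
          have h2 := (hb _ _ (by omega) (by omega) hcc).2
          have h3 := hcj j hj
          rw [Bool.not_false, dist_comm] at h3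
          linarith
    have hrun := krun (θ := θ) (m := m) (M := M) (δ := 1 - a) (by
      rcases hdir with h | h
      · left
        intro j hj
        have h1 := hstep j hj
        rw [abs_of_pos (by linarith [h j hj])] at h1
        linarith
      · right
        intro j hj
        have h1 := hstep j hj
        rw [abs_of_neg (by linarith [h j hj])] at h1
        linarith)
    have hle : |θ (m + M) - θ m| ≤ B - t := by
      rw [abs_le]
      constructor <;> linarith [hlo (m + M) hm, hhi (m + M) hm, hlo m (by omega), hhi m (by omega)]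
    linarith
  -- the type changes at most once
  have hpers : ∃ c : Bool, ∀ k < 2 * M, σ k = c → σ (k + 1) = c := by
    have hb : ∀ p q, p ≤ 2 * M → q ≤ 2 * M →
        dist (S.P true (θ p)) (S.P true (θ q)) ≤ lA ∧
        dist (S.P false (θ p)) (S.P false (θ q)) ≤ lB := by
      intro p q hp hq
      rcases le_total (θ p) (θ q) with hpq | hpq
      · obtain ⟨b1, b2, -, -⟩ := kbounds S ht hB hlt.le (hT p hp) (hT q hq) (hlo p hp) hpq (hhi q hq)
        exact ⟨hlA ▸ b1, hlB ▸ b2⟩
      · obtain ⟨b1, b2, -, -⟩ := kbounds S ht hB hlt.le (hT q hq) (hT p hp) (hlo q hq) hpq (hhi p hp)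
        rw [dist_comm (S.P true (θ p)), dist_comm (S.P false (θ p))]
        exact ⟨hlA ▸ b1, hlB ▸ b2⟩
    rcases min_lt_iff.1 ha1 with hal | hal
    · -- lA < a : true persists
      refine ⟨true, fun k hk hkc => ?_⟩
      by_contra hcc
      have h1 := hl' k hk
      rw [hkc, Bool.eq_false_of_not_eq_true hcc, Bool.not_false] at h1
      have h2 := (hb k (k + 1) (by omega) (by omega)).1
      linarith
    · refine ⟨false, fun k hk hkc => ?_⟩
      by_contra hcc
      have h1 := hl' k hk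
      rw [hkc, Bool.eq_true_of_not_eq_false hcc, Bool.not_true] at h1
      have h2 := (hb k (k + 1) (by omega) (by omega)).2
      linarith
  obtain ⟨c, hc⟩ := hpers
  by_cases hMc : σ M = c
  · refine hno M (by omega) c ?_
    intro j
    induction j with
    | zero => intro _; simpa using hMc
    | succ j ih =>
      intro hj
      exact hc (M + j) (by omega) (ih (by omega))
  · have hback : ∀ j ≤ M, σ (M - j) ≠ c := by
      intro j
      induction j with
      | zero => intro _; simpa using hMc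
      | succ j ih =>
        intro hj hcc
        have h1 := hc (M - (j + 1)) (by omega) hcc
        rw [show M - (j + 1) + 1 = M - j by omega] at h1
        exact ih (by omega) h1
    refine hno 0 (by omega) (!c) ?_
    intro j hj
    have h1 := hback (M - j) (by omega)
    rw [show M - (M - j) = j by omega] at h1
    rw [Nat.zero_add]
    revert h1
    cases σ j <;> cases c <;> simp

end Pool.Agent.Ruler
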