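import Pool.Agent.Ruler.Basic

/-!
MP_067807_co, module Net: finite nets of small mesh on a closed set.
-/

open Set

namespace Pool.Agent.Ruler

private theorem net_single {T : Set ℝ} {A B δ : ℝ} (hA : A ∈ T) (hB : B ∈ T)
    (hAB : A ≤ B) (h : B - A ≤ δ) : Nonempty (Net T A B δ) :=
  ⟨{ n := 1
     pos := one_pos
     a := fun _ => A
     b := fun _ => B
     a_mem := fun _ _ => hA
     b_mem := fun _ _ => hB
     first := rfl
     last := rfl
     le := fun _ _ => hAB
     mesh := fun _ _ => h
     sep := fun i hi => by omega
     cover := fun t _ h1 h2 => ⟨0, one_pos, h1, h2⟩ }⟩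

private theorem net_aux {T : Set ℝ} (hT : IsClosed T) {B δ : ℝ} (hB : B ∈ T) (hδ : 0 < δ) (k : ℕ) :
    ∀ A : ℝ, A ∈ T → A ≤ B → B - A ≤ k * δ → Nonempty (Net T A B δ) := by
  induction k with
  | zero =>
    intro A hA hAB h
    refine net_single hA hB hAB ?_
    simp only [Nat.cast_zero, zero_mul] at h
    linarith
  | succ k ih =>
    intro A hA hAB h
    by_cases hle : B - A ≤ δ
    · exact net_single hA hB hAB hle
    push Not at hle
    -- first block
    have hc1 : IsCompact (T ∩ Icc A (A + δ)) := isCompact_Icc.inter_left hT
    have hn1 : (T ∩ Icc A (A + δ)).Nonempty := ⟨A, hA, by constructor <;> linarith⟩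
    have hb := hc1.sSup_mem hn1
    have hbl := hc1.isLUB_sSup hn1
    set b := sSup (T ∩ Icc A (A + δ)) with hbdef
    -- next block
    have hc2 : IsCompact (T ∩ Icc (A + δ) B) := isCompact_Icc.inter_left hT
    have hn2 : (T ∩ Icc (A + δ) B).Nonempty := ⟨B, hB, by constructor <;> linarith⟩
    have ha := hc2.sInf_mem hn2
    have hal := hc2.isGLB_sInf hn2
    set a := sInf (T ∩ Icc (A + δ) B) with hadef
    obtain ⟨N⟩ := ih a ha.1 ha.2.2 (by
      have h1 := ha.2.1
      push_cast at h
      linarith)
    have hNpos := N.pos
    refine ⟨{ n := N.n + 1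
              pos := Nat.succ_pos _
              a := fun i => if i = 0 then A else N.a (i - 1)
              b := fun i => if i = 0 then b else N.b (i - 1)
              a_mem := ?_
              b_mem := ?_
              first := by simp
              last := ?_
              le := ?_
              mesh := ?_
              sep := ?_
              cover := ?_ }⟩
    · intro i hi
      by_cases h0 : i = 0
      · simp only [h0, if_true]; exact hA
      · simp only [h0, if_false]; exact N.a_mem _ (by omega)
    · intro i hi
      by_cases h0 : i = 0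
      · simp only [h0, if_true]; exact hb.1
      · simp only [h0, if_false]; exact N.b_mem _ (by omega)
    · have h0 : N.n + 1 - 1 ≠ 0 := by omega
      simp only [h0, if_false]
      exact N.last
    · intro i hi
      by_cases h0 : i = 0
      · simp only [h0, if_true]; exact hb.2.1
      · simp only [h0, if_false]; exact N.le _ (by omega)
    · intro i hi
      by_cases h0 : i = 0
      · simp only [h0, if_true]
        have := hb.2.2
        linarith
      · simp only [h0, if_false]; exact N.mesh _ (by omega)
    · intro i hi
      by_cases h0 : i = 0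
      · subst h0
        simp only [if_true, Nat.zero_add, Nat.one_ne_zero, if_false, Nat.sub_self]
        rw [N.first]
        have h1 := hb.2.2
        have h2 := ha.2.1
        linarith
      · have h1 : i + 1 ≠ 0 := by omega
        simp only [h0, h1, if_false]
        have := N.sep (i - 1) (by omega)
        have h2 : i - 1 + 1 = i + 1 - 1 := by omega
        rwa [h2] at this
    · intro t ht h1 h2
      by_cases h3 : t ≤ A + δ
      · refine ⟨0, Nat.succ_pos _, ?_, ?_⟩
        · simpa using h1
        · simp only [if_true]
          exact hbl.1 ⟨ht, h1, h3⟩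
      · push Not at h3
        have h4 : a ≤ t := hal.1 ⟨ht, h3.le, h2⟩
        obtain ⟨i, hi, h5, h6⟩ := N.cover t ht h4 h2
        refine ⟨i + 1, by omega, ?_, ?_⟩
        · simpa using h5
        · simpa using h6

theorem exists_net {T : Set ℝ} (hT : IsClosed T) {A B δ : ℝ} (hA : A ∈ T) (hB : B ∈ T)
    (hAB : A ≤ B) (hδ : 0 < δ) : Nonempty (Net T A B δ) := by
  obtain ⟨k, hk⟩ := exists_nat_ge ((B - A) / δ)
  rw [div_le_iff₀ hδ] at hk
  exact net_aux hT hB hδ k A hA hAB hk

end Pool.Agent.Ruler
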