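import Pool.Agent.Ruler.Basic

/-!
MP_067807_co, module Num: numeric inequalities of the lower bound.
-/

open Set

namespace Pool.Agent.Ruler

private theorem nonneg_of_deriv {f f' : ℝ → ℝ} (hf : ∀ x, HasDerivAt f (f' x) x) (h0 : f 0 = 0)
    (hp : ∀ x, 0 ≤ x → 0 ≤ f' x) {x : ℝ} (hx : 0 ≤ x) : 0 ≤ f x := by
  have h : MonotoneOn f (Ici 0) := by
    refine monotoneOn_of_deriv_nonneg (convex_Ici 0) ?_ ?_ ?_
    · exact fun y _ => (hf y).continuousAt.continuousWithinAt
    · exact fun y _ => (hf y).differentiableAt.differentiableWithinAt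
    · intro y hy
      rw [(hf y).deriv]
      exact hp y (interior_subset hy)
  have := h (Set.self_mem_Ici) hx hx
  rwa [h0] at this

private theorem t1 {x : ℝ} (hx : 0 ≤ x) : 0 ≤ x - Real.sin x := by
  linarith [Real.sin_le hx]

private theorem t2 {x : ℝ} (hx : 0 ≤ x) : 0 ≤ Real.cos x - (1 - x ^ 2 / 2) := by
  refine nonneg_of_deriv (f := fun x => Real.cos x - (1 - x ^ 2 / 2)) (f' := fun x => x - Real.sin x) (fun x => ?_) (by simp)
    (fun x hx => t1 hx) hx
  have h := (Real.hasDerivAt_cos x).sub (((hasDerivAt_pow 2 x).div_const 2).const_sub 1)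
  refine h.congr_deriv ?_
  simp only [Nat.cast_ofNat]
  ring

private theorem t3 {x : ℝ} (hx : 0 ≤ x) : 0 ≤ Real.sin x - (x - x ^ 3 / 6) := by
  refine nonneg_of_deriv (f := fun x => Real.sin x - (x - x ^ 3 / 6)) (f' := fun x => Real.cos x - (1 - x ^ 2 / 2)) (fun x => ?_) (by simp)
    (fun x hx => t2 hx) hx
  have h := (Real.hasDerivAt_sin x).sub ((hasDerivAt_id' x).sub ((hasDerivAt_pow 3 x).div_const 6))
  refine h.congr_deriv ?_
  simp only [Nat.cast_ofNat]
  ring

private theorem t4 {x : ℝ} (hx : 0 ≤ x) : 0 ≤ (1 - x ^ 2 / 2 + x ^ 4 / 24) - Real.cos x := by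
  refine nonneg_of_deriv (f := fun x => (1 - x ^ 2 / 2 + x ^ 4 / 24) - Real.cos x) (f' := fun x => Real.sin x - (x - x ^ 3 / 6)) (fun x => ?_) (by simp)
    (fun x hx => t3 hx) hx
  have h := ((((hasDerivAt_pow 2 x).div_const 2).const_sub 1).add
    ((hasDerivAt_pow 4 x).div_const 24)).sub (Real.hasDerivAt_cos x)
  refine h.congr_deriv ?_
  simp only [Nat.cast_ofNat]
  ring

private theorem t5 {x : ℝ} (hx : 0 ≤ x) : 0 ≤ (x - x ^ 3 / 6 + x ^ 5 / 120) - Real.sin x := by
  refine nonneg_of_deriv (f := fun x => (x - x ^ 3 / 6 + x ^ 5 / 120) - Real.sin x) (f' := fun x => (1 - x ^ 2 / 2 + x ^ 4 / 24) - Real.cos x)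
    (fun x => ?_) (by simp) (fun x hx => t4 hx) hx
  have h := (((hasDerivAt_id' x).sub ((hasDerivAt_pow 3 x).div_const 6)).add
    ((hasDerivAt_pow 5 x).div_const 120)).sub (Real.hasDerivAt_sin x)
  refine h.congr_deriv ?_
  simp only [Nat.cast_ofNat]
  ring

private theorem t6 {x : ℝ} (hx : 0 ≤ x) :
    0 ≤ Real.cos x - (1 - x ^ 2 / 2 + x ^ 4 / 24 - x ^ 6 / 720) := by
  refine nonneg_of_deriv (f := fun x => Real.cos x - (1 - x ^ 2 / 2 + x ^ 4 / 24 - x ^ 6 / 720)) (f' := fun x => (x - x ^ 3 / 6 + x ^ 5 / 120) - Real.sin x)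
    (fun x => ?_) (by simp) (fun x hx => t5 hx) hx
  have h := (Real.hasDerivAt_cos x).sub (((((hasDerivAt_pow 2 x).div_const 2).const_sub 1).add
    ((hasDerivAt_pow 4 x).div_const 24)).sub ((hasDerivAt_pow 6 x).div_const 720))
  refine h.congr_deriv ?_
  simp only [Nat.cast_ofNat]
  ring

private theorem t7 {x : ℝ} (hx : 0 ≤ x) :
    0 ≤ Real.sin x - (x - x ^ 3 / 6 + x ^ 5 / 120 - x ^ 7 / 5040) := by
  refine nonneg_of_deriv (f := fun x => Real.sin x - (x - x ^ 3 / 6 + x ^ 5 / 120 - x ^ 7 / 5040)) (f' := fun x => Real.cos x - (1 - x ^ 2 / 2 + x ^ 4 / 24 - x ^ 6 / 720))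
    (fun x => ?_) (by simp) (fun x hx => t6 hx) hx
  have h := (Real.hasDerivAt_sin x).sub ((((hasDerivAt_id' x).sub
    ((hasDerivAt_pow 3 x).div_const 6)).add
    ((hasDerivAt_pow 5 x).div_const 120)).sub ((hasDerivAt_pow 7 x).div_const 5040))
  refine h.congr_deriv ?_
  simp only [Nat.cast_ofNat]
  ring

private theorem sqrt3_lt : √3 < 1.7320509 := by
  rw [Real.sqrt_lt' (by norm_num)]
  norm_num

private theorem sqrt3_gt : 1.7320508 < √3 := by
  rw [Real.lt_sqrt (by norm_num)]
  norm_num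

/-- the key numeric value `sin (2π/3 - 1.22) ≥ 0.76683` -/
private theorem sin_r0 : 0.76683 ≤ Real.sin (2 * Real.pi / 3 - 1.22) := by
  have h1 := Real.pi_gt_d6
  have h2 := Real.pi_lt_d6
  have h3 : Real.sin 0.874393 ≤ Real.sin (2 * Real.pi / 3 - 1.22) := by
    apply Real.sin_le_sin_of_le_of_le_pi_div_two
    · linarith
    · linarith
    · linarith
  have h4 := t7 (x := 0.874393) (by norm_num)
  norm_num at h4 ⊢
  linarith

private theorem sin_add_le {a b : ℝ} (ha : 0 ≤ a) (hb : 0 ≤ b) (hab : a + b ≤ Real.pi) :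
    Real.sin (a + b) ≤ Real.sin a + Real.sin b := by
  rw [Real.sin_add]
  have h1 : 0 ≤ Real.sin a := Real.sin_nonneg_of_nonneg_of_le_pi ha (by linarith)
  have h2 : 0 ≤ Real.sin b := Real.sin_nonneg_of_nonneg_of_le_pi hb (by linarith)
  have h3 := Real.cos_le_one a
  have h4 := Real.cos_le_one b
  nlinarith

private theorem psi_mono {a b : ℝ} (h : a ≤ b) : psi a ≤ psi b := by
  have h1 := Real.lipschitzWith_sin.dist_le_mul b a
  rw [Real.dist_eq, Real.dist_eq, abs_of_nonneg (by linarith : 0 ≤ b - a)] at h1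
  have h2 := le_abs_self (Real.sin b - Real.sin a)
  unfold psi
  simp only [NNReal.coe_one, one_mul] at h1
  linarith

/-- final inequality, case of a gap `≥ π/3` -/
theorem num1 {α s : ℝ} (h1 : Real.pi / 2 ≤ α) (h2 : α ≤ 2 * Real.pi / 3) (hs : s ≤ α - 1.22)
    (hs0 : 0 ≤ s) : 0.5604 ≤ (Real.sin α + (2 * psi (α / 2) - psi s)) / 2 := by
  have hp1 := Real.pi_gt_d6
  have hp2 := Real.pi_lt_d6
  set h : ℝ → ℝ := fun x => Real.sin x - 2 * Real.sin (x / 2) + Real.sin (x - 1.22) with hh
  have hconc : ConcaveOn ℝ (Icc (Real.pi / 2) (2 * Real.pi / 3)) h := by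
    have d1 : ∀ x, HasDerivAt h (Real.cos x - Real.cos (x / 2) + Real.cos (x - 1.22)) x := by
      intro x
      have e1 : HasDerivAt (fun x : ℝ => Real.sin (x / 2)) (Real.cos (x / 2) * (1 / 2)) x :=
        ((hasDerivAt_id' x).div_const 2).sin
      have e2 : HasDerivAt (fun x : ℝ => Real.sin (x - 1.22)) (Real.cos (x - 1.22) * 1) x :=
        ((hasDerivAt_id' x).sub_const _).sin
      have e3 := ((Real.hasDerivAt_sin x).sub (e1.const_mul 2)).add e2
      refine e3.congr_deriv ?_
      ring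
    have d1' : deriv h = fun x => Real.cos x - Real.cos (x / 2) + Real.cos (x - 1.22) :=
      funext fun x => (d1 x).deriv
    have d2 : ∀ x, HasDerivAt (fun x => Real.cos x - Real.cos (x / 2) + Real.cos (x - 1.22))
        (-Real.sin x + Real.sin (x / 2) / 2 - Real.sin (x - 1.22)) x := by
      intro x
      have e1 : HasDerivAt (fun x : ℝ => Real.cos (x / 2)) (-Real.sin (x / 2) * (1 / 2)) x :=
        ((hasDerivAt_id' x).div_const 2).cos
      have e2 : HasDerivAt (fun x : ℝ => Real.cos (x - 1.22)) (-Real.sin (x - 1.22) * 1) x :=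
        ((hasDerivAt_id' x).sub_const _).cos
      have e3 := ((Real.hasDerivAt_cos x).sub e1).add e2
      refine e3.congr_deriv ?_
      ring
    refine concaveOn_of_deriv2_nonpos (convex_Icc _ _) ?_ ?_ ?_ ?_
    · exact fun x _ => (d1 x).continuousAt.continuousWithinAt
    · exact fun x _ => (d1 x).differentiableAt.differentiableWithinAt
    · rw [d1']
      exact fun x _ => (d2 x).differentiableAt.differentiableWithinAt
    · intro x hx
      have hx' := interior_subset hx
      obtain ⟨hx1, hx2⟩ := hx'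
      have e : deriv^[2] h x = -Real.sin x + Real.sin (x / 2) / 2 - Real.sin (x - 1.22) := by
        rw [Function.iterate_succ, Function.iterate_one, Function.comp_apply, d1']
        exact (d2 x).deriv
      rw [e]
      have e1 : Real.sin x = 2 * Real.sin (x / 2) * Real.cos (x / 2) := by
        rw [← Real.sin_two_mul]
        congr 1
        ring
      have e2 : 1 / 2 ≤ Real.cos (x / 2) := by
        rw [← Real.cos_pi_div_three]
        apply Real.cos_le_cos_of_nonneg_of_le_pi
        · linarith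
        · linarith
        · linarith
      have e3 : 0 ≤ Real.sin (x / 2) :=
        Real.sin_nonneg_of_nonneg_of_le_pi (by linarith) (by linarith)
      have e4 : 0 ≤ Real.sin (x - 1.22) :=
        Real.sin_nonneg_of_nonneg_of_le_pi (by norm_num; linarith) (by norm_num; linarith)
      rw [e1]
      nlinarith
  have hmin := hconc.ge_on_segment (x := Real.pi / 2) (y := 2 * Real.pi / 3) (z := α)
    ⟨le_refl _, by linarith⟩ ⟨by linarith, le_refl _⟩
    (by rw [segment_eq_Icc (by linarith)]; exact ⟨h1, h2⟩)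
  have hA : -0.09915 ≤ h (Real.pi / 2) := by
    have e1 : Real.sin (Real.pi / 2 / 2) = √2 / 2 := by
      rw [show Real.pi / 2 / 2 = Real.pi / 4 by ring, Real.sin_pi_div_four]
    have e2 : √2 < 1.4143 := by
      rw [Real.sqrt_lt' (by norm_num)]
      norm_num
    have e3 : Real.sin 0.35 ≤ Real.sin (Real.pi / 2 - 1.22) := by
      apply Real.sin_le_sin_of_le_of_le_pi_div_two
      · linarith
      · linarith
      · norm_num
        linarith
    have e4 := t3 (x := 0.35) (by norm_num)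
    simp only [hh]
    rw [Real.sin_pi_div_two, e1]
    norm_num at e4 e3 e2 ⊢
    linarith
  have hB : -0.0992 ≤ h (2 * Real.pi / 3) := by
    have e1 : Real.sin (2 * Real.pi / 3) = √3 / 2 := by
      rw [show 2 * Real.pi / 3 = Real.pi - Real.pi / 3 by ring, Real.sin_pi_sub,
        Real.sin_pi_div_three]
    have e2 : Real.sin (2 * Real.pi / 3 / 2) = √3 / 2 := by
      rw [show 2 * Real.pi / 3 / 2 = Real.pi / 3 by ring, Real.sin_pi_div_three]
    have e3 := sin_r0
    have e4 := sqrt3_lt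
    simp only [hh]
    rw [e1, e2]
    norm_num at e3 e4 ⊢
    linarith
  have hC : -0.0992 ≤ h α := by
    refine le_trans (le_min ?_ hB) hmin
    norm_num at hA ⊢
    linarith
  have hD := psi_mono hs
  simp only [hh] at hC
  unfold psi at hD ⊢
  norm_num at hC hD ⊢
  linarith

/-- sum of `psi` over finitely many gaps -/
theorem psi_sum_le {ι : Type*} (F : Finset ι) (x : ι → ℝ) (hx : ∀ i ∈ F, 0 ≤ x i)
    (hs : ∑ i ∈ F, x i ≤ Real.pi) : ∑ i ∈ F, psi (x i) ≤ psi (∑ i ∈ F, x i) := by
  classical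
  induction F using Finset.induction_on with
  | empty => simp [psi]
  | insert a s ha ih =>
    rw [Finset.sum_insert ha] at hs ⊢
    rw [Finset.sum_insert ha]
    have h1 : 0 ≤ x a := hx a (Finset.mem_insert_self a s)
    have h2 : 0 ≤ ∑ i ∈ s, x i :=
      Finset.sum_nonneg fun i hi => hx i (Finset.mem_insert_of_mem hi)
    have h3 := ih (fun i hi => hx i (Finset.mem_insert_of_mem hi)) (by linarith)
    have h4 := sin_add_le h1 h2 hs
    unfold psi at h3 ⊢
    linarith

/-- final inequality, case of all gaps `< π/3` -/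
theorem num2 {ι : Type*} (F : Finset ι) (x : ι → ℝ) (hx : ∀ i ∈ F, 0 ≤ x i ∧ x i ≤ Real.pi / 3)
    (hs : ∑ i ∈ F, x i ≤ Real.pi - 1.22) :
    0.5604 ≤ (Real.pi - ∑ i ∈ F, psi (x i) - Real.sqrt 3) / 2 := by
  classical
  have hp1 := Real.pi_gt_d6
  have hp2 := Real.pi_lt_d6
  have hq1 := sqrt3_lt
  have hq2 := sqrt3_gt
  by_cases hM : ∃ i ∈ F, 2 * Real.pi / 3 - 1.22 ≤ x i
  · obtain ⟨i, hi, hxi⟩ := hM
    rw [← Finset.add_sum_erase F _ hi] at hs
    rw [← Finset.add_sum_erase F _ hi]
    have h1 := psi_sum_le (F.erase i) x (fun j hj => (hx j (Finset.mem_of_mem_erase hj)).1)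
      (by have := (hx i hi).1; norm_num at hs ⊢; linarith)
    have h2 : psi (∑ j ∈ F.erase i, x j) ≤ psi (Real.pi - 1.22 - x i) := by
      apply psi_mono
      linarith
    -- convexity
    have h3 : psi (x i) + psi (Real.pi - 1.22 - x i)
        ≤ psi (Real.pi / 3) + psi (2 * Real.pi / 3 - 1.22) := by
      have hc := strictConcaveOn_sin_Icc.concaveOn
      set r0 : ℝ := 2 * Real.pi / 3 - 1.22 with hr0
      have hr1 : 0 ≤ r0 := by rw [hr0]; norm_num; linarith
      have hr2 : r0 < Real.pi / 3 := by rw [hr0]; norm_num; linarith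
      have hd : 0 < Real.pi / 3 - r0 := by linarith
      set l : ℝ := (Real.pi / 3 - x i) / (Real.pi / 3 - r0) with hl
      have hl0 : 0 ≤ l := div_nonneg (by linarith [(hx i hi).2]) hd.le
      have hl1 : l ≤ 1 := by rw [hl, div_le_one hd]; linarith
      have hlx : l * (Real.pi / 3 - r0) = Real.pi / 3 - x i := div_mul_cancel₀ _ hd.ne'
      have m1 : r0 ∈ Icc (0:ℝ) Real.pi := ⟨hr1, by linarith⟩
      have m2 : Real.pi / 3 ∈ Icc (0:ℝ) Real.pi := ⟨by linarith, by linarith⟩
      have c1 := hc.2 m1 m2 hl0 (by linarith : 0 ≤ 1 - l) (by ring)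
      have c2 := hc.2 m2 m1 hl0 (by linarith : 0 ≤ 1 - l) (by ring)
      simp only [smul_eq_mul] at c1 c2
      have e1 : l * r0 + (1 - l) * (Real.pi / 3) = x i := by linear_combination -hlx
      have e2 : l * (Real.pi / 3) + (1 - l) * r0 = Real.pi - 1.22 - x i := by
        rw [hr0] at hlx ⊢
        linear_combination hlx
      rw [e1] at c1
      rw [e2] at c2
      unfold psi
      have e3 : Real.pi / 3 + r0 = Real.pi - 1.22 := by rw [hr0]; ring
      linarith
    have h4 : psi (Real.pi / 3) + psi (2 * Real.pi / 3 - 1.22) ≤ Real.pi - √3 - 1.1208 := by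
      have e3 := sin_r0
      unfold psi
      rw [Real.sin_pi_div_three]
      norm_num at e3 hq1 ⊢
      linarith
    norm_num at h4 ⊢
    linarith
  · push Not at hM
    have h1 : ∀ i ∈ F, psi (x i) ≤ x i * (0.8744 ^ 2 / 6) := by
      intro i hi
      have h2 := hM i hi
      have h3 := (hx i hi).1
      have h4 := t3 h3
      have h5 : x i ≤ 0.8744 := by norm_num at h2 ⊢; linarith
      have h6 : x i ^ 2 ≤ 0.8744 ^ 2 := by
        apply pow_le_pow_left₀ h3 h5
      unfold psi
      nlinarith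
    have h2 := Finset.sum_le_sum h1
    rw [← Finset.sum_mul] at h2
    have h3 : (∑ i ∈ F, x i) * (0.8744 ^ 2 / 6) ≤ (Real.pi - 1.22) * (0.8744 ^ 2 / 6) :=
      mul_le_mul_of_nonneg_right hs (by norm_num)
    norm_num at h2 h3 hq1 ⊢
    linarith

end Pool.Agent.Ruler
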