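import Pool.Agent.Ruler.Chord

/-!
MP_067807_co: the distance from a fixed head is monotone along the curve of heads; the mirror image
of a chord system.
-/

open Set

namespace Pool.Agent.Ruler

theorem mn_ip_self (z : ℂ) : ip z z = ‖z‖ ^ 2 := by
  rw [Complex.sq_norm, Complex.normSq_apply]; rfl

theorem mn_ip_nx_eq (z : ℂ) (t : ℝ) : ip z (nx t) = cr (ex t) z := by
  simp only [ip, cr, ex, nx]; ring

theorem mn_cr_nx_nx (s t : ℝ) : cr (nx s) (nx t) = Real.sin (t - s) := by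
  simp only [cr, nx, Real.sin_sub]; ring

theorem mn_ip_ex_ex (s t : ℝ) : ip (ex s) (ex t) = Real.cos (t - s) := by
  simp only [ip, ex, Real.cos_sub]; ring

/-- pure algebra of the crossing segments -/
theorem mn_core (g w e E : ℂ) (h1 : 0 ≤ cr e g) (h2 : 0 < cr e w) (h3 : 0 ≤ cr g w)
    (h4 : ip w w ≤ 2 * ip w e) (h5 : ip g E < 0) (h6 : ip g E ≤ ip w E) (h7 : ip g E ≤ ip e E) :
    ip w w ≤ 2 * ip g w := by
  have hw : 0 ≤ ip w w := by unfold ip; nlinarith [sq_nonneg w.re, sq_nonneg w.im]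
  have i1 : cr e w * ip g E = cr e g * ip w E + cr g w * ip e E := by
    simp only [ip, cr]; ring
  have i2 : cr e w * ip g w = cr e g * ip w w + cr g w * ip w e := by
    simp only [ip, cr]; ring
  have h8 : cr e w ≤ cr e g + cr g w := by
    by_contra hc
    push Not at hc
    nlinarith [mul_le_mul_of_nonneg_left h6 h1, mul_le_mul_of_nonneg_left h7 h3]
  have h9 : 0 ≤ cr e w * (2 * ip g w - ip w w) := by
    nlinarith [mul_le_mul_of_nonneg_left h4 h3, mul_le_mul_of_nonneg_right h8 hw,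
      mul_nonneg h1 hw]
  have := nonneg_of_mul_nonneg_right h9 h2
  linarith

theorem mn_norm_le_of_ip {g w : ℂ} (h : ip w w ≤ 2 * ip g w) : ‖g - w‖ ≤ ‖g‖ := by
  have h1 : ‖g - w‖ ^ 2 ≤ ‖g‖ ^ 2 := by
    rw [← mn_ip_self, ← mn_ip_self]
    have : ip (g - w) (g - w) = ip g g - 2 * ip g w + ip w w := by
      simp only [ip, Complex.sub_re, Complex.sub_im]; ring
    linarith
  exact (sq_le_sq₀ (norm_nonneg _) (norm_nonneg _)).1 h1

/-- two equal heads mn_squeeze the heads between them -/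
theorem mn_squeeze (S : ChordSys) {s t r : ℝ} (hs : s ∈ S.T) (ht : t ∈ S.T) (hr : r ∈ S.T)
    (h1 : s ≤ t) (h2 : t ≤ r) (h3 : r ≤ s + Real.pi) (he : S.X s = S.X r) : S.X t = S.X s := by
  set u := S.X t - S.X s with hu
  have a1 : ip u (ex s) ≤ -‖u‖ ^ 2 / 2 := lens_left S hs ht
  have a2 : ‖u‖ ^ 2 / 2 ≤ ip u (ex t) := lens_right S hs ht
  have a3 : ip u (ex r) ≤ -‖u‖ ^ 2 / 2 := by
    have := lens_right S ht hr
    have h4 : S.X r - S.X t = -u := by rw [hu, ← he]; ring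
    rw [h4, norm_neg] at this
    have h5 : ip (-u) (ex r) = - ip u (ex r) := by
      simp only [ip, Complex.neg_re, Complex.neg_im]; ring
    linarith
  have i1 : Real.sin (r - s) * ip u (ex t) =
      Real.sin (r - t) * ip u (ex s) + Real.sin (t - s) * ip u (ex r) := by
    simp only [ip, ex, Real.sin_sub]
    ring
  have s1 : 0 ≤ Real.sin (r - s) := Real.sin_nonneg_of_nonneg_of_le_pi (by linarith) (by linarith)
  have s2 : 0 ≤ Real.sin (r - t) := Real.sin_nonneg_of_nonneg_of_le_pi (by linarith) (by linarith)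
  have s3 : 0 ≤ Real.sin (t - s) := Real.sin_nonneg_of_nonneg_of_le_pi (by linarith) (by linarith)
  have hq : 0 ≤ ‖u‖ ^ 2 := sq_nonneg _
  by_cases hts : t = s
  · rw [hts]
  by_cases htp : t = s + Real.pi
  · have : r = t := by linarith
    rw [he, this]
  have s3' : 0 < Real.sin (t - s) := by
    apply Real.sin_pos_of_pos_of_lt_pi
    · rcases lt_or_eq_of_le h1 with h | h
      · linarith
      · exact absurd h.symm hts
    · rcases lt_or_eq_of_le (le_trans h2 h3) with h | h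
      · linarith
      · exact absurd h htp
  have h6 : Real.sin (t - s) * ‖u‖ ^ 2 ≤ 0 := by
    nlinarith [mul_le_mul_of_nonneg_left a1 s2, mul_le_mul_of_nonneg_left a2 s1,
      mul_le_mul_of_nonneg_left a3 s3, mul_nonneg s1 hq, mul_nonneg s2 hq]
  have h7 : ‖u‖ ^ 2 ≤ 0 := by
    by_contra hc
    push Not at hc
    nlinarith [mul_pos s3' hc]
  have h8 : u = 0 := by
    have : ‖u‖ = 0 := by nlinarith [norm_nonneg u]
    exact norm_eq_zero.1 this
  exact sub_eq_zero.1 h8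

/-- the cross product of consecutive differences of heads is nonnegative -/
theorem mn_cr_consec (S : ChordSys) {s t r : ℝ} (hs : s ∈ S.T) (ht : t ∈ S.T) (hr : r ∈ S.T)
    (h1 : s ≤ t) (h2 : t ≤ r) (h3 : r ≤ s + Real.pi) (ht1 : t < s + Real.pi)
    (hr1 : r < t + Real.pi) : 0 ≤ cr (S.X t - S.X s) (S.X r - S.X t) := by
  obtain ⟨α, β, hα, hβ, e1⟩ := cone S hs ht h1 ht1
  obtain ⟨γ, δ, hγ, hδ, e2⟩ := cone S ht hr h2 hr1
  rw [e1, e2]
  have i1 : cr ((α : ℂ) * nx s + (β : ℂ) * nx t) ((γ : ℂ) * nx t + (δ : ℂ) * nx r) =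
      α * γ * cr (nx s) (nx t) + α * δ * cr (nx s) (nx r) + β * δ * cr (nx t) (nx r) := by
    simp only [cr, Complex.add_re, Complex.add_im, Complex.mul_re, Complex.mul_im,
      Complex.ofReal_re, Complex.ofReal_im]
    ring
  rw [i1, mn_cr_nx_nx, mn_cr_nx_nx, mn_cr_nx_nx]
  have s1 : 0 ≤ Real.sin (r - s) := Real.sin_nonneg_of_nonneg_of_le_pi (by linarith) (by linarith)
  have s2 : 0 ≤ Real.sin (r - t) := Real.sin_nonneg_of_nonneg_of_le_pi (by linarith) (by linarith)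
  have s3 : 0 ≤ Real.sin (t - s) := Real.sin_nonneg_of_nonneg_of_le_pi (by linarith) (by linarith)
  positivity

theorem mono_right (S : ChordSys) {θ φ₁ φ₂ : ℝ} (h0 : θ ∈ S.T) (h1 : φ₁ ∈ S.T) (h2 : φ₂ ∈ S.T)
    (h01 : θ ≤ φ₁) (h12 : φ₁ ≤ φ₂) (h20 : φ₂ ≤ θ + Real.pi) :
    ‖S.X θ - S.X φ₁‖ ≤ ‖S.X θ - S.X φ₂‖ := by
  by_cases c1 : φ₁ = θ + Real.pi
  · have : φ₂ = φ₁ := by linarith
    rw [this]
  by_cases c2 : φ₂ = φ₁ + Real.pi
  · have : φ₁ = θ := by linarith
    rw [this]; simp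
  have c1' : φ₁ < θ + Real.pi := lt_of_le_of_ne (by linarith) c1
  have c2' : φ₂ < φ₁ + Real.pi := lt_of_le_of_ne (by linarith) c2
  set g := S.X φ₂ - S.X θ with hg
  set w := S.X φ₂ - S.X φ₁ with hw
  have hu : S.X φ₁ - S.X θ = g - w := by rw [hg, hw]; ring
  have goal' : ‖g - w‖ ≤ ‖g‖ → ‖S.X θ - S.X φ₁‖ ≤ ‖S.X θ - S.X φ₂‖ := by
    intro h
    rw [norm_sub_rev (S.X θ) (S.X φ₁), norm_sub_rev (S.X θ) (S.X φ₂), hu]
    exact h
  apply goal'
  have hgn : 0 ≤ cr (ex φ₂) g := by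
    rw [← mn_ip_nx_eq]; exact (ip_nx_right S h0 h2 (by linarith) h20).1
  have hwn : 0 ≤ cr (ex φ₂) w := by
    rw [← mn_ip_nx_eq]; exact (ip_nx_right S h1 h2 h12 (by linarith)).1
  have hgw : 0 ≤ cr g w := by
    have h := mn_cr_consec S h0 h1 h2 h01 h12 h20 c1' c2'
    rw [hu] at h
    have : cr (g - w) w = cr g w := by
      simp only [cr, Complex.sub_re, Complex.sub_im]; ring
    rw [← this]; exact h
  have hwe : ‖w‖ ^ 2 / 2 ≤ ip w (ex φ₂) := lens_right S h1 h2
  have hgE : ip g (ex θ) ≤ -‖g‖ ^ 2 / 2 := lens_left S h0 h2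
  have huE : ip (g - w) (ex θ) ≤ -‖g - w‖ ^ 2 / 2 := by
    rw [← hu]; exact lens_left S h0 h1
  have huE' : ip (g - w) (ex θ) = ip g (ex θ) - ip w (ex θ) := by
    simp only [ip, Complex.sub_re, Complex.sub_im]; ring
  have h2' : φ₂ + Real.pi ∈ S.T := (S.per φ₂).1 h2
  have htE : ip (g - ex φ₂) (ex θ) ≤ -‖g - ex φ₂‖ ^ 2 / 2 := by
    have h := lens_left S h0 h2'
    rw [S.tail φ₂ h2] at h
    have : S.X φ₂ - ex φ₂ - S.X θ = g - ex φ₂ := by rw [hg]; ring
    rw [this] at h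
    exact h
  have htE' : ip (g - ex φ₂) (ex θ) = ip g (ex θ) - ip (ex φ₂) (ex θ) := by
    simp only [ip, Complex.sub_re, Complex.sub_im]; ring
  have q1 : 0 ≤ ‖g - w‖ ^ 2 := sq_nonneg _
  have q2 : 0 ≤ ‖g - ex φ₂‖ ^ 2 := sq_nonneg _
  have q3 : 0 ≤ ‖g‖ ^ 2 := sq_nonneg _
  rcases lt_or_eq_of_le hwn with hpos | hzero
  · rcases lt_or_eq_of_le (show ip g (ex θ) ≤ 0 by linarith) with hneg | hz
    · apply mn_norm_le_of_ip
      apply mn_core g w (ex φ₂) (ex θ) hgn hpos hgw _ hneg (by linarith) (by linarith)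
      rw [mn_ip_self]; linarith
    · have hg0 : ‖g‖ ^ 2 ≤ 0 := by linarith
      have hg1 : g = 0 := by
        have : ‖g‖ = 0 := by nlinarith [norm_nonneg g]
        exact norm_eq_zero.1 this
      have he : S.X θ = S.X φ₂ := (sub_eq_zero.1 (hg.symm.trans hg1)).symm
      have := mn_squeeze S h0 h1 h2 h01 h12 h20 he
      rw [← hu, this]; simp
  · -- `w` is parallel to `ex φ₂`
    have hc : Real.sin φ₂ ^ 2 + Real.cos φ₂ ^ 2 = 1 := Real.sin_sq_add_cos_sq φ₂
    set k := ip w (ex φ₂) with hk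
    have hwk : w = (k : ℂ) * ex φ₂ := by
      have z0 : Real.cos φ₂ * w.im - Real.sin φ₂ * w.re = 0 := by
        have := hzero; simp only [cr, ex] at this; linarith
      apply Complex.ext
      · simp only [Complex.mul_re, Complex.ofReal_re, Complex.ofReal_im, hk, ip, ex]
        linear_combination (-w.re) * hc - Real.sin φ₂ * z0
      · simp only [Complex.mul_im, Complex.ofReal_re, Complex.ofReal_im, hk, ip, ex]
        linear_combination (-w.im) * hc + Real.cos φ₂ * z0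
    have hee : ip (ex φ₂) (ex φ₂) = 1 := by rw [mn_ip_ex_ex]; simp
    have hne : ‖ex φ₂‖ = 1 := by
      have : ‖ex φ₂‖ ^ 2 = 1 := by rw [← mn_ip_self, hee]
      have h0 := norm_nonneg (ex φ₂)
      nlinarith
    have hwn2 : ‖w‖ ^ 2 = k ^ 2 := by
      rw [hwk, norm_mul, hne, Complex.norm_real, mul_one, Real.norm_eq_abs, sq_abs]
    have hw1 : ‖w‖ ≤ 1 := S.dist_le _ h2 _ h1
    have hk1 : k ^ 2 ≤ 1 := by
      rw [← hwn2]; nlinarith [norm_nonneg w]
    have hk0 : 0 ≤ k := by nlinarith [sq_nonneg k]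
    have hk2 : k ≤ 1 := by nlinarith
    rcases eq_or_lt_of_le hk0 with hk3 | hk3
    · have hw0 : w = 0 := by rw [hwk, ← hk3]; simp
      rw [hw0]; simp
    have l1 : k * Real.cos (φ₁ - φ₂) ≤ -k ^ 2 / 2 := by
      have h := lens_left S h1 h2
      have e1 : ip (S.X φ₂ - S.X φ₁) (ex φ₁) = k * Real.cos (φ₁ - φ₂) := by
        rw [← hw, hwk, ← mn_ip_ex_ex]
        simp only [ip, Complex.mul_re, Complex.mul_im, Complex.ofReal_re, Complex.ofReal_im]
        ring
      rw [e1, ← hw, hwn2] at h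
      exact h
    have l2 : (k - 1) * Real.cos (φ₁ - φ₂) ≤ 0 := by
      have h := lens_left S h1 h2'
      have e1 : S.X (φ₂ + Real.pi) - S.X φ₁ = ((k - 1 : ℝ) : ℂ) * ex φ₂ := by
        rw [S.tail φ₂ h2]
        have : S.X φ₂ - S.X φ₁ = (k : ℂ) * ex φ₂ := by rw [← hw]; exact hwk
        push_cast
        linear_combination this
      rw [e1] at h
      have e2 : ip (((k - 1 : ℝ) : ℂ) * ex φ₂) (ex φ₁) = (k - 1) * Real.cos (φ₁ - φ₂) := by
        rw [← mn_ip_ex_ex]
        simp only [ip, Complex.mul_re, Complex.mul_im, Complex.ofReal_re, Complex.ofReal_im]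
        ring
      rw [e2] at h
      have := sq_nonneg ‖((k - 1 : ℝ) : ℂ) * ex φ₂‖
      linarith
    have hcn : Real.cos (φ₁ - φ₂) < 0 := by
      by_contra hc'
      push Not at hc'
      have m1 := mul_nonneg hk0 hc'
      have m2 : 0 < k ^ 2 := by positivity
      linarith
    have hk4 : k = 1 := by
      rcases lt_or_eq_of_le hk2 with h | h
      · have m1 := mul_pos_of_neg_of_neg (sub_neg.2 h) hcn
        linarith
      · exact h
    have h3 : φ₂ - Real.pi ∈ S.T := by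
      rw [S.per]; simpa using h2
    have e3 : S.X (φ₂ - Real.pi) = S.X φ₂ - ex φ₂ := by
      have := S.tail _ h3
      rw [sub_add_cancel] at this
      have e4 : ex (φ₂ - Real.pi) = - ex φ₂ := by
        apply Complex.ext <;> simp [ex, Real.cos_sub_pi, Real.sin_sub_pi]
      rw [e4] at this
      linear_combination -this
    have e5 : S.X (φ₂ - Real.pi) = S.X φ₁ := by
      have h : w = ex φ₂ := by rw [hwk, hk4]; simp
      rw [e3, ← h, hw]; ring
    have e6 := mn_squeeze S h3 h0 h1 (by linarith) h01 (by linarith) e5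
    have : g - w = 0 := by rw [← hu, e6, e5]; ring
    rw [this]; simp

/-- the mirror image of a chord system -/
noncomputable def ChordSys.mirror (S : ChordSys) : ChordSys where
  T := {t | -t ∈ S.T}
  X t := (starRingEnd ℂ) (S.X (-t))
  closed := S.closed.preimage continuous_neg
  per t := by
    simp only [mem_ofPred_eq]
    rw [S.per (-(t + Real.pi))]
    have : -(t + Real.pi) + Real.pi = -t := by ring
    rw [this]
  tail t ht := by
    simp only [mem_ofPred_eq] at ht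
    have h1 : -(t + Real.pi) ∈ S.T := by
      rw [S.per]
      have : -(t + Real.pi) + Real.pi = -t := by ring
      rw [this]; exact ht
    have h2 := S.tail _ h1
    have e1 : -(t + Real.pi) + Real.pi = -t := by ring
    rw [e1] at h2
    rw [h2]
    apply Complex.ext
    · simp only [map_sub, Complex.sub_re, Complex.conj_re, ex, Real.cos_neg, Real.cos_add_pi]
      ring
    · simp only [map_sub, Complex.sub_im, Complex.conj_im, ex, Real.sin_neg, Real.sin_add_pi]
      ring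
  dist_le s hs t ht := by
    rw [← map_sub, Complex.norm_conj]
    exact S.dist_le _ hs _ ht

theorem mirror_mem (S : ChordSys) {t : ℝ} : t ∈ S.mirror.T ↔ -t ∈ S.T := Iff.rfl

theorem mirror_mem' (S : ChordSys) {t : ℝ} (h : t ∈ S.T) : -t ∈ S.mirror.T := by
  rw [mirror_mem, neg_neg]; exact h

theorem mirror_dist (S : ChordSys) (s t : ℝ) :
    ‖S.mirror.X (-s) - S.mirror.X (-t)‖ = ‖S.X s - S.X t‖ := by
  show ‖(starRingEnd ℂ) (S.X (- -s)) - (starRingEnd ℂ) (S.X (- -t))‖ = _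
  rw [← map_sub, Complex.norm_conj, neg_neg, neg_neg]

theorem mono_left (S : ChordSys) {θ φ₁ φ₂ : ℝ} (h0 : θ ∈ S.T) (h1 : φ₁ ∈ S.T) (h2 : φ₂ ∈ S.T)
    (h01 : φ₁ ≤ θ) (h12 : φ₂ ≤ φ₁) (h20 : θ - Real.pi ≤ φ₂) :
    ‖S.X θ - S.X φ₁‖ ≤ ‖S.X θ - S.X φ₂‖ := by
  have h := mono_right S.mirror (mirror_mem' S h0) (mirror_mem' S h1) (mirror_mem' S h2)
    (by linarith) (by linarith) (by linarith)
  rwa [mirror_dist, mirror_dist] at h

end Pool.Agent.Ruler
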