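import Pool.Agent.Ruler.Chord
import Pool.Agent.Ruler.Mono
import Pool.Agent.Ruler.Incr

/-!
The kernel of the walk (from Mono and Incr).
-/

open Set MeasureTheory

namespace Pool.Agent.Ruler

/-- the kernel: same side, distance from the end `σ` of `x` to the other end of `y` (for `y ≤ x`,
continued by `1`); opposite side, distance of the ends `σ` of `x` and `y` (for `x ≤ y`, continued
by `0`).  It is antitone in `x` and monotone in `y`. -/
noncomputable def ChordSys.f (S : ChordSys) (σ τ : Bool) (x y : ℝ) : ℝ :=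
  if σ = τ then (if y ≤ x then ‖S.P σ x - S.P (!σ) y‖ else 1)
  else (if x ≤ y then ‖S.P σ x - S.P σ y‖ else 0)

theorem PFun_not {σ τ : Bool} (h : ¬ σ = τ) : (!τ) = σ ∧ τ = !σ ∧ ¬ ((!τ) = (!σ)) := by
  revert h
  cases σ <;> cases τ <;> decide

/-- the shift turning the end `σ` into a head -/
noncomputable def PFun_off (σ : Bool) : ℝ := if σ = true then 0 else Real.pi

theorem PFun_ex_norm (t : ℝ) : ‖ex t‖ = 1 := by
  have h : ‖ex t‖ ^ 2 = 1 := by
    rw [← Complex.normSq_eq_norm_sq, Complex.normSq_apply]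
    simp only [ex]
    nlinarith [Real.sin_sq_add_cos_sq t]
  nlinarith [norm_nonneg (ex t), sq_nonneg (‖ex t‖ - 1)]

theorem PFun_ex_pi (t : ℝ) : ex (t + Real.pi) = - ex t := by
  apply Complex.ext <;> simp [ex]

theorem PFun_P (S : ChordSys) (σ : Bool) {t : ℝ} (ht : t ∈ S.T) :
    S.P σ t = S.X (t + PFun_off σ) ∧ t + PFun_off σ ∈ S.T := by
  cases σ with
  | true => simp [ChordSys.P, PFun_off, ht]
  | false =>
    simp only [ChordSys.P, PFun_off, Bool.false_eq_true, if_false]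
    exact ⟨(S.tail t ht).symm, (S.per t).mp ht⟩

theorem PFun_Pn (S : ChordSys) (σ : Bool) {t : ℝ} (ht : t ∈ S.T) :
    S.P (!σ) t = S.X (t + PFun_off σ + Real.pi) ∧ t + PFun_off σ + Real.pi ∈ S.T := by
  obtain ⟨h1, h2⟩ := PFun_P S σ ht
  refine ⟨?_, (S.per _).mp h2⟩
  cases σ with
  | true =>
    simp only [Bool.not_true, ChordSys.P, PFun_off, Bool.false_eq_true, if_false, if_true,
      add_zero]
    exact (S.tail t ht).symm
  | false =>
    simp only [Bool.not_false, ChordSys.P, PFun_off, Bool.false_eq_true, if_false, if_true]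
    rw [S.tail _ ((S.per t).mp ht), S.tail t ht, PFun_ex_pi]
    ring

theorem PFun_Pn' (S : ChordSys) (σ : Bool) {t : ℝ} (ht : t ∈ S.T) :
    S.P (!σ) t = S.X (t + PFun_off σ - Real.pi) ∧ t + PFun_off σ - Real.pi ∈ S.T := by
  obtain ⟨h1, h2⟩ := PFun_P S σ ht
  obtain ⟨h3, h4⟩ := PFun_Pn S σ ht
  have h5 : t + PFun_off σ - Real.pi ∈ S.T := by
    rw [S.per, sub_add_cancel]
    exact h2
  refine ⟨?_, h5⟩
  have h6 := S.tail _ h5
  rw [sub_add_cancel] at h6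
  have h7 := PFun_ex_pi (t + PFun_off σ - Real.pi)
  rw [sub_add_cancel] at h7
  rw [h3, S.tail _ h2, h6, h7]
  ring

theorem PFun_one (S : ChordSys) (σ : Bool) {t : ℝ} (ht : t ∈ S.T) :
    ‖S.P σ t - S.P (!σ) t‖ = 1 := by
  obtain ⟨h1, h2⟩ := PFun_P S σ ht
  obtain ⟨h3, h4⟩ := PFun_Pn S σ ht
  rw [h1, h3, S.tail _ h2, sub_sub_cancel]
  exact PFun_ex_norm _

theorem PFun_le_one (S : ChordSys) (σ τ : Bool) {t s : ℝ} (ht : t ∈ S.T) (hs : s ∈ S.T) :
    ‖S.P σ t - S.P τ s‖ ≤ 1 := by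
  rw [(PFun_P S σ ht).1, (PFun_P S τ hs).1]
  exact S.dist_le _ (PFun_P S σ ht).2 _ (PFun_P S τ hs).2

theorem PFun_lip (S : ChordSys) (σ : Bool) {t s : ℝ} (ht : t ∈ S.T) (hs : s ∈ S.T) :
    ‖S.P σ t - S.P σ s‖ ≤ |t - s| := by
  have h := norm_sub_le' S (PFun_P S σ hs).2 (PFun_P S σ ht).2
  rw [(PFun_P S σ ht).1, (PFun_P S σ hs).1]
  rwa [add_sub_add_right_eq_sub] at h

theorem PFun_M1 (S : ChordSys) (σ : Bool) {x y₁ y₂ : ℝ} (hx : x ∈ S.T) (h1 : y₁ ∈ S.T)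
    (h2 : y₂ ∈ S.T) (h3 : x ≤ y₁) (h4 : y₁ ≤ y₂) (h5 : y₂ ≤ x + Real.pi) :
    ‖S.P σ x - S.P σ y₁‖ ≤ ‖S.P σ x - S.P σ y₂‖ := by
  rw [(PFun_P S σ hx).1, (PFun_P S σ h1).1, (PFun_P S σ h2).1]
  exact mono_right S (PFun_P S σ hx).2 (PFun_P S σ h1).2 (PFun_P S σ h2).2 (by linarith)
    (by linarith) (by linarith)

theorem PFun_M2 (S : ChordSys) (σ : Bool) {x y₁ y₂ : ℝ} (hx : x ∈ S.T) (h1 : y₁ ∈ S.T)
    (h2 : y₂ ∈ S.T) (h3 : y₁ ≤ x) (h4 : y₂ ≤ y₁) (h5 : x - Real.pi ≤ y₂) :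
    ‖S.P σ x - S.P σ y₁‖ ≤ ‖S.P σ x - S.P σ y₂‖ := by
  rw [(PFun_P S σ hx).1, (PFun_P S σ h1).1, (PFun_P S σ h2).1]
  exact mono_left S (PFun_P S σ hx).2 (PFun_P S σ h1).2 (PFun_P S σ h2).2 (by linarith)
    (by linarith) (by linarith)

theorem PFun_M3 (S : ChordSys) (σ : Bool) {x y₁ y₂ : ℝ} (hx : x ∈ S.T) (h1 : y₁ ∈ S.T)
    (h2 : y₂ ∈ S.T) (h3 : y₁ ≤ y₂) (h4 : y₂ ≤ x) (h5 : x ≤ y₁ + Real.pi) :
    ‖S.P σ x - S.P (!σ) y₁‖ ≤ ‖S.P σ x - S.P (!σ) y₂‖ := by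
  rw [(PFun_P S σ hx).1, (PFun_Pn S σ h1).1, (PFun_Pn S σ h2).1]
  exact mono_right S (PFun_P S σ hx).2 (PFun_Pn S σ h1).2 (PFun_Pn S σ h2).2 (by linarith)
    (by linarith) (by linarith)

theorem PFun_M4 (S : ChordSys) (σ : Bool) {x y₁ y₂ : ℝ} (hx : x ∈ S.T) (h1 : y₁ ∈ S.T)
    (h2 : y₂ ∈ S.T) (h3 : x ≤ y₂) (h4 : y₂ ≤ y₁) (h5 : y₁ ≤ x + Real.pi) :
    ‖S.P σ x - S.P (!σ) y₁‖ ≤ ‖S.P σ x - S.P (!σ) y₂‖ := by
  rw [(PFun_P S σ hx).1, (PFun_Pn' S σ h1).1, (PFun_Pn' S σ h2).1]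
  exact mono_left S (PFun_P S σ hx).2 (PFun_Pn' S σ h1).2 (PFun_Pn' S σ h2).2 (by linarith)
    (by linarith) (by linarith)

theorem PFun_I1 (S : ChordSys) (σ : Bool) {x a b δ : ℝ} (hx : x ∈ S.T) (ha : a ∈ S.T)
    (hb : b ∈ S.T) (h3 : x ≤ a) (h4 : a ≤ b) (h5 : b ≤ x + Real.pi) (hδ : b - a ≤ δ)
    (hδ1 : δ ≤ 1) :
    ‖S.P σ x - S.P σ b‖ - ‖S.P σ x - S.P σ a‖ ≤
      ‖S.P σ b - S.P σ a‖ * (‖S.P σ x - S.P (!σ) a‖ + Real.sqrt δ) := by
  have h := incr_right S (PFun_P S σ hx).2 (PFun_P S σ ha).2 (PFun_P S σ hb).2 (by linarith)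
    (by linarith) (by linarith) (by linarith : b + PFun_off σ - (a + PFun_off σ) ≤ δ) hδ1
  rwa [← (PFun_P S σ hx).1, ← (PFun_P S σ ha).1, ← (PFun_P S σ hb).1, ← (PFun_Pn S σ ha).1] at h

theorem PFun_I2 (S : ChordSys) (σ : Bool) {x a b δ : ℝ} (hx : x ∈ S.T) (ha : a ∈ S.T)
    (hb : b ∈ S.T) (h3 : a ≤ b) (h4 : b ≤ x) (h5 : x ≤ a + Real.pi) (hδ : b - a ≤ δ)
    (hδ1 : δ ≤ 1) :
    ‖S.P σ x - S.P σ a‖ - ‖S.P σ x - S.P σ b‖ ≤
      ‖S.P σ a - S.P σ b‖ * (‖S.P σ x - S.P (!σ) b‖ + Real.sqrt δ) := by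
  have h := incr_left S (PFun_P S σ hx).2 (PFun_P S σ hb).2 (PFun_P S σ ha).2 (by linarith)
    (by linarith) (by linarith) (by linarith : b + PFun_off σ - (a + PFun_off σ) ≤ δ) hδ1
  rwa [← (PFun_P S σ hx).1, ← (PFun_P S σ ha).1, ← (PFun_P S σ hb).1, ← (PFun_Pn S σ hb).1] at h

theorem PFun_I3 (S : ChordSys) (σ : Bool) {x a b δ : ℝ} (hx : x ∈ S.T) (ha : a ∈ S.T)
    (hb : b ∈ S.T) (h3 : a ≤ b) (h4 : b ≤ x) (h5 : x ≤ a + Real.pi) (hδ : b - a ≤ δ)
    (hδ1 : δ ≤ 1) :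
    ‖S.P σ x - S.P (!σ) b‖ - ‖S.P σ x - S.P (!σ) a‖ ≤
      ‖S.P (!σ) b - S.P (!σ) a‖ * (‖S.P σ x - S.P σ a‖ + Real.sqrt δ) := by
  have h := incr_right S (PFun_P S σ hx).2 (PFun_Pn S σ ha).2 (PFun_Pn S σ hb).2 (by linarith)
    (by linarith) (by linarith)
    (by linarith : b + PFun_off σ + Real.pi - (a + PFun_off σ + Real.pi) ≤ δ) hδ1
  have h6 : S.X (a + PFun_off σ + Real.pi + Real.pi) = S.P σ a := by
    rw [S.tail _ (PFun_Pn S σ ha).2, S.tail _ (PFun_P S σ ha).2, PFun_ex_pi, (PFun_P S σ ha).1]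
    ring
  rwa [← (PFun_P S σ hx).1, ← (PFun_Pn S σ ha).1, ← (PFun_Pn S σ hb).1, h6] at h

theorem PFun_I4 (S : ChordSys) (σ : Bool) {x a b δ : ℝ} (hx : x ∈ S.T) (ha : a ∈ S.T)
    (hb : b ∈ S.T) (h3 : x ≤ a) (h4 : a ≤ b) (h5 : b ≤ x + Real.pi) (hδ : b - a ≤ δ)
    (hδ1 : δ ≤ 1) :
    ‖S.P σ x - S.P (!σ) a‖ - ‖S.P σ x - S.P (!σ) b‖ ≤
      ‖S.P (!σ) a - S.P (!σ) b‖ * (‖S.P σ x - S.P σ b‖ + Real.sqrt δ) := by
  have h := incr_left S (PFun_P S σ hx).2 (PFun_Pn' S σ hb).2 (PFun_Pn' S σ ha).2 (by linarith)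
    (by linarith) (by linarith)
    (by linarith : b + PFun_off σ - Real.pi - (a + PFun_off σ - Real.pi) ≤ δ) hδ1
  rwa [← (PFun_P S σ hx).1, ← (PFun_Pn' S σ ha).1, ← (PFun_Pn' S σ hb).1, sub_add_cancel,
    ← (PFun_P S σ hb).1] at h

theorem f_anti (S : ChordSys) {A B : ℝ} (hAB : B ≤ A + Real.pi) (σ τ : Bool) {y : ℝ}
    (hy : y ∈ S.T) (hy' : y ∈ Icc A B) : AntitoneOn (fun x => S.f σ τ x y) (S.T ∩ Icc A B) := by
  rintro x₁ ⟨h1, h1A, h1B⟩ x₂ ⟨h2, h2A, h2B⟩ h12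
  obtain ⟨hyA, hyB⟩ := hy'
  simp only [ChordSys.f]
  by_cases hστ : σ = τ
  · rw [if_pos hστ, if_pos hστ]
    by_cases hy1 : y ≤ x₁
    · rw [if_pos hy1, if_pos (hy1.trans h12), norm_sub_rev, norm_sub_rev (S.P σ x₁)]
      have h := PFun_M4 S (!σ) hy h2 h1 hy1 h12 (by linarith)
      rwa [Bool.not_not] at h
    · rw [if_neg hy1]
      split_ifs
      · exact PFun_le_one S _ _ h2 hy
      · exact le_rfl
  · rw [if_neg hστ, if_neg hστ]
    by_cases hy1 : x₂ ≤ y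
    · rw [if_pos hy1, if_pos (h12.trans hy1), norm_sub_rev, norm_sub_rev (S.P σ x₁)]
      exact PFun_M2 S σ hy h2 h1 hy1 h12 (by linarith)
    · rw [if_neg hy1]
      split_ifs
      · exact norm_nonneg _
      · exact le_rfl

theorem f_mono (S : ChordSys) {A B : ℝ} (hAB : B ≤ A + Real.pi) (σ τ : Bool) {x : ℝ}
    (hx : x ∈ S.T) (hx' : x ∈ Icc A B) : MonotoneOn (fun y => S.f σ τ x y) (S.T ∩ Icc A B) := by
  rintro y₁ ⟨h1, h1A, h1B⟩ y₂ ⟨h2, h2A, h2B⟩ h12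
  obtain ⟨hxA, hxB⟩ := hx'
  simp only [ChordSys.f]
  by_cases hστ : σ = τ
  · rw [if_pos hστ, if_pos hστ]
    by_cases hy1 : y₂ ≤ x
    · rw [if_pos hy1, if_pos (h12.trans hy1)]
      exact PFun_M3 S σ hx h1 h2 h12 hy1 (by linarith)
    · rw [if_neg hy1]
      split_ifs
      · exact PFun_le_one S _ _ hx h1
      · exact le_rfl
  · rw [if_neg hστ, if_neg hστ]
    by_cases hy1 : x ≤ y₁
    · rw [if_pos hy1, if_pos (hy1.trans h12)]
      exact PFun_M1 S σ hx h1 h2 hy1 h12 (by linarith)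
    · rw [if_neg hy1]
      split_ifs
      · exact norm_nonneg _
      · exact le_rfl

theorem PFun_dd (a b c : ℂ) {r : ℝ} (h : ‖a - b‖ ≤ r) : |‖a - c‖ - ‖b - c‖| ≤ r := by
  refine le_trans (abs_norm_sub_norm_le _ _) ?_
  rwa [sub_sub_sub_cancel_right]

theorem f_lip_left (S : ChordSys) (σ τ : Bool) {x x' y : ℝ} (hx : x ∈ S.T) (hx' : x' ∈ S.T)
    (hy : y ∈ S.T) : |S.f σ τ x y - S.f σ τ x' y| ≤ |x - x'| := by
  simp only [ChordSys.f]
  by_cases hστ : σ = τ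
  · rw [if_pos hστ, if_pos hστ]
    split_ifs with h1 h2 h2
    · exact PFun_dd _ _ _ (PFun_lip S σ hx hx')
    · push Not at h2
      rw [← PFun_one S σ hy]
      refine PFun_dd _ _ _ (le_trans (PFun_lip S σ hx hy) ?_)
      rw [abs_of_nonneg (by linarith), abs_of_nonneg (by linarith)]
      linarith
    · push Not at h1
      rw [← PFun_one S σ hy]
      refine PFun_dd _ _ _ (le_trans (PFun_lip S σ hy hx') ?_)
      rw [abs_of_nonpos (by linarith), abs_of_nonpos (by linarith)]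
      linarith
    · rw [sub_self, abs_zero]
      exact abs_nonneg _
  · rw [if_neg hστ, if_neg hστ]
    have h0 : ‖S.P σ y - S.P σ y‖ = 0 := by rw [sub_self, norm_zero]
    split_ifs with h1 h2 h2
    · exact PFun_dd _ _ _ (PFun_lip S σ hx hx')
    · push Not at h2
      rw [← h0]
      refine PFun_dd _ _ _ (le_trans (PFun_lip S σ hx hy) ?_)
      rw [abs_of_nonpos (by linarith), abs_of_nonpos (by linarith)]
      linarith
    · push Not at h1
      rw [← h0]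
      refine PFun_dd _ _ _ (le_trans (PFun_lip S σ hy hx') ?_)
      rw [abs_of_nonneg (by linarith), abs_of_nonneg (by linarith)]
      linarith
    · rw [sub_self, abs_zero]
      exact abs_nonneg _

theorem f_lip_right (S : ChordSys) (σ τ : Bool) {x y y' : ℝ} (hx : x ∈ S.T) (hy : y ∈ S.T)
    (hy' : y' ∈ S.T) : |S.f σ τ x y - S.f σ τ x y'| ≤ |y - y'| := by
  simp only [ChordSys.f]
  by_cases hστ : σ = τ
  · rw [if_pos hστ, if_pos hστ]
    have h0 : ‖S.P (!σ) x - S.P σ x‖ = 1 := by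
      rw [norm_sub_rev]
      exact PFun_one S σ hx
    split_ifs with h1 h2 h2
    · rw [norm_sub_rev, norm_sub_rev (S.P σ x)]
      exact PFun_dd _ _ _ (PFun_lip S _ hy hy')
    · push Not at h2
      rw [norm_sub_rev, ← h0]
      refine PFun_dd _ _ _ (le_trans (PFun_lip S _ hy hx) ?_)
      rw [abs_of_nonpos (by linarith), abs_of_nonpos (by linarith)]
      linarith
    · push Not at h1
      rw [norm_sub_rev (S.P σ x), ← h0]
      refine PFun_dd _ _ _ (le_trans (PFun_lip S _ hx hy') ?_)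
      rw [abs_of_nonneg (by linarith), abs_of_nonneg (by linarith)]
      linarith
    · rw [sub_self, abs_zero]
      exact abs_nonneg _
  · rw [if_neg hστ, if_neg hστ]
    have h0 : ‖S.P σ x - S.P σ x‖ = 0 := by rw [sub_self, norm_zero]
    split_ifs with h1 h2 h2
    · rw [norm_sub_rev, norm_sub_rev (S.P σ x)]
      exact PFun_dd _ _ _ (PFun_lip S _ hy hy')
    · push Not at h2
      rw [norm_sub_rev, ← h0]
      refine PFun_dd _ _ _ (le_trans (PFun_lip S _ hy hx) ?_)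
      rw [abs_of_nonneg (by linarith), abs_of_nonneg (by linarith)]
      linarith
    · push Not at h1
      rw [norm_sub_rev (S.P σ x) (S.P σ y'), ← h0]
      refine PFun_dd _ _ _ (le_trans (PFun_lip S _ hx hy') ?_)
      rw [abs_of_nonpos (by linarith), abs_of_nonpos (by linarith)]
      linarith
    · rw [sub_self, abs_zero]
      exact abs_nonneg _

/-- one link followed by a unit link is a step of the kernel -/
theorem f_step (S : ChordSys) (σ τ : Bool) {x y : ℝ} :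
    S.f σ τ x y = ‖S.P σ x - S.P (!τ) y‖ ∨ S.f (!τ) (!σ) y x = ‖S.P σ x - S.P (!τ) y‖ := by
  simp only [ChordSys.f]
  by_cases hστ : σ = τ
  · subst hστ
    rcases le_total y x with h | h
    · left
      rw [if_pos rfl, if_pos h]
    · right
      rw [if_pos rfl, if_pos h, Bool.not_not, norm_sub_rev]
  · have hτ : (!τ) = σ := (PFun_not hστ).1
    rcases le_total x y with h | h
    · left
      rw [if_neg hστ, if_pos h, hτ]
    · right
      have h1 : ¬ ((!τ) = (!σ)) := (PFun_not hστ).2.2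
      rw [if_neg h1, if_pos h, hτ, norm_sub_rev]

/-- the increment bound: `[a,b]` is a target block of length `≤ δ`, `L` bounds the distances of the
points of the side `!τ` over this block, `x` is the present state -/
theorem f_incr (S : ChordSys) {A B : ℝ} (hAB : B ≤ A + Real.pi) (σ τ : Bool) {x a b δ L : ℝ}
    (hx : x ∈ S.T) (ha : a ∈ S.T) (hb : b ∈ S.T) (hxA : x ∈ Icc A B) (haA : A ≤ a) (hbB : b ≤ B)
    (hab : a ≤ b) (hδ : b - a ≤ δ) (hδ1 : δ ≤ 1)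
    (hL : ∀ y ∈ S.T, ∀ y' ∈ S.T, y ∈ Icc a b → y' ∈ Icc a b →
      ‖S.P (!τ) y - S.P (!τ) y'‖ ≤ L) :
    (S.f σ τ x b - S.f σ τ x a) + (S.f (!τ) (!σ) a x - S.f (!τ) (!σ) b x) ≤
      (if x ∈ Icc a b then 2 else 1) * L * (‖S.P σ x - S.P τ a‖ + δ + Real.sqrt δ) := by
  obtain ⟨hxA', hxB⟩ := hxA
  have hδ0 : 0 ≤ δ := le_trans (sub_nonneg.mpr hab) hδ
  have hsq : 0 ≤ Real.sqrt δ := Real.sqrt_nonneg δ
  have hL0 : 0 ≤ L := by
    have := hL a ha a ha ⟨le_rfl, hab⟩ ⟨le_rfl, hab⟩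
    rwa [sub_self, norm_zero] at this
  set W : ℝ := ‖S.P σ x - S.P τ a‖ + δ + Real.sqrt δ with hW
  have hW0 : 0 ≤ W := by positivity
  have hfin : ∀ k : ℝ, k ≤ L * W →
      k ≤ (if x ∈ Icc a b then 2 else 1) * L * W := by
    intro k hk
    have h0 : 0 ≤ L * W := mul_nonneg hL0 hW0
    split_ifs
    · linarith
    · linarith
  -- comparison of distances to the two ends of a block
  have htri : ∀ τ' : Bool, ‖S.P σ x - S.P τ' b‖ ≤ ‖S.P σ x - S.P τ' a‖ + δ := by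
    intro τ'
    have h1 := PFun_lip S τ' hb ha
    rw [abs_of_nonneg (by linarith)] at h1
    calc ‖S.P σ x - S.P τ' b‖ = ‖(S.P σ x - S.P τ' a) - (S.P τ' b - S.P τ' a)‖ := by
          congr 1; ring
      _ ≤ ‖S.P σ x - S.P τ' a‖ + ‖S.P τ' b - S.P τ' a‖ := _root_.norm_sub_le _ _
      _ ≤ _ := by linarith
  simp only [ChordSys.f]
  by_cases hστ : σ = τ
  · subst hστ
    rw [if_pos rfl, if_pos rfl, if_pos rfl, if_pos rfl, Bool.not_not]
    rcases lt_or_ge x a with hxa | hxa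
    · -- x < a
      rw [if_neg (by linarith), if_neg (by linarith), if_pos hxa.le, if_pos (by linarith),
        norm_sub_rev (S.P (!σ) a), norm_sub_rev (S.P (!σ) b)]
      apply hfin
      have h1 := PFun_I4 S σ hx ha hb hxa.le hab (by linarith) hδ hδ1
      have h2 := hL a ha b hb ⟨le_rfl, hab⟩ ⟨hab, le_rfl⟩
      have h3 := htri σ
      have h4 : ‖S.P (!σ) a - S.P (!σ) b‖ * (‖S.P σ x - S.P σ b‖ + Real.sqrt δ) ≤ L * W :=
        mul_le_mul h2 (by rw [hW]; linarith) (by positivity) hL0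
      linarith
    · rcases lt_or_ge b x with hbx | hbx
      · rw [if_pos hbx.le, if_pos hxa, if_neg (by linarith), if_neg (by linarith)]
        apply hfin
        have h1 := PFun_I3 S σ hx ha hb hab hbx.le (by linarith) hδ hδ1
        have h2 := hL b hb a ha ⟨hab, le_rfl⟩ ⟨le_rfl, hab⟩
        have h4 : ‖S.P (!σ) b - S.P (!σ) a‖ * (‖S.P σ x - S.P σ a‖ + Real.sqrt δ) ≤ L * W :=
          mul_le_mul h2 (by rw [hW]; linarith) (by positivity) hL0
        linarith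
      · -- a ≤ x ≤ b
        have hmem : x ∈ Icc a b := ⟨hxa, hbx⟩
        rw [if_pos hmem]
        have h1 := PFun_I3 S σ hx ha hx hxa le_rfl (by linarith) (by linarith) hδ1
        have h2 := hL x hx a ha ⟨hxa, hbx⟩ ⟨le_rfl, hab⟩
        have h3 := PFun_I4 S σ hx hx hb le_rfl hbx (by linarith) (by linarith) hδ1
        have h4 := hL x hx b hb ⟨hxa, hbx⟩ ⟨hab, le_rfl⟩
        have h5 := htri σ
        have h6 : ‖S.P (!σ) x - S.P (!σ) a‖ * (‖S.P σ x - S.P σ a‖ + Real.sqrt δ) ≤ L * W :=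
          mul_le_mul h2 (by rw [hW]; linarith) (by positivity) hL0
        have h7 : ‖S.P (!σ) x - S.P (!σ) b‖ * (‖S.P σ x - S.P σ b‖ + Real.sqrt δ) ≤ L * W :=
          mul_le_mul h4 (by rw [hW]; linarith) (by positivity) hL0
        rw [PFun_one S σ hx] at h1 h3
        have h8 : (if b ≤ x then ‖S.P σ x - S.P (!σ) b‖ else 1) = 1 := by
          split_ifs with h
          · have : b = x := le_antisymm h hbx
            rw [this, PFun_one S σ hx]
          · rfl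
        have h9 : (if x ≤ a then ‖S.P (!σ) a - S.P σ x‖ else 1) = 1 := by
          split_ifs with h
          · have : a = x := le_antisymm hxa h
            rw [this, norm_sub_rev, PFun_one S σ hx]
          · rfl
        rw [if_pos hxa, if_pos hbx, h8, h9, norm_sub_rev (S.P (!σ) b)]
        linarith
  · have hτ : (!τ) = σ := (PFun_not hστ).1
    have hτ2 : τ = !σ := (PFun_not hστ).2.1
    have h1' : ¬ ((!τ) = (!σ)) := (PFun_not hστ).2.2
    rw [if_neg hστ, if_neg hστ, if_neg h1', if_neg h1', hτ]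
    rw [hτ] at hL
    have hW' : W = ‖S.P σ x - S.P (!σ) a‖ + δ + Real.sqrt δ := by rw [hW, hτ2]
    rcases lt_or_ge x a with hxa | hxa
    · rw [if_pos (by linarith), if_pos hxa.le, if_neg (by linarith), if_neg (by linarith)]
      apply hfin
      have h1 := PFun_I1 S σ hx ha hb hxa.le hab (by linarith) hδ hδ1
      have h2 := hL b hb a ha ⟨hab, le_rfl⟩ ⟨le_rfl, hab⟩
      have h4 : ‖S.P σ b - S.P σ a‖ * (‖S.P σ x - S.P (!σ) a‖ + Real.sqrt δ) ≤ L * W :=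
        mul_le_mul h2 (by rw [hW']; linarith) (by positivity) hL0
      linarith
    · rcases lt_or_ge b x with hbx | hbx
      · rw [if_neg (by linarith), if_neg (by linarith), if_pos hxa, if_pos hbx.le,
          norm_sub_rev (S.P σ a), norm_sub_rev (S.P σ b)]
        apply hfin
        have h1 := PFun_I2 S σ hx ha hb hab hbx.le (by linarith) hδ hδ1
        have h2 := hL a ha b hb ⟨le_rfl, hab⟩ ⟨hab, le_rfl⟩
        have h3 := htri (!σ)
        have h4 : ‖S.P σ a - S.P σ b‖ * (‖S.P σ x - S.P (!σ) b‖ + Real.sqrt δ) ≤ L * W :=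
          mul_le_mul h2 (by rw [hW']; linarith) (by positivity) hL0
        linarith
      · have hmem : x ∈ Icc a b := ⟨hxa, hbx⟩
        rw [if_pos hmem]
        have h1 := PFun_I1 S σ hx hx hb le_rfl hbx (by linarith) (by linarith) hδ1
        have h2 := hL b hb x hx ⟨hab, le_rfl⟩ ⟨hxa, hbx⟩
        have h3 := PFun_I2 S σ hx ha hx hxa le_rfl (by linarith) (by linarith) hδ1
        have h4 := hL a ha x hx ⟨le_rfl, hab⟩ ⟨hxa, hbx⟩
        have h5 : ‖S.P σ x - S.P (!σ) x‖ ≤ ‖S.P σ x - S.P (!σ) a‖ + δ := by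
          have h51 := PFun_lip S (!σ) hx ha
          rw [abs_of_nonneg (by linarith)] at h51
          calc ‖S.P σ x - S.P (!σ) x‖
              = ‖(S.P σ x - S.P (!σ) a) - (S.P (!σ) x - S.P (!σ) a)‖ := by
                congr 1; ring
            _ ≤ ‖S.P σ x - S.P (!σ) a‖ + ‖S.P (!σ) x - S.P (!σ) a‖ :=
                _root_.norm_sub_le _ _
            _ ≤ _ := by linarith
        have h6 : ‖S.P σ b - S.P σ x‖ * (‖S.P σ x - S.P (!σ) x‖ + Real.sqrt δ) ≤ L * W :=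
          mul_le_mul h2 (by rw [hW']; linarith) (by positivity) hL0
        have h7 : ‖S.P σ a - S.P σ x‖ * (‖S.P σ x - S.P (!σ) x‖ + Real.sqrt δ) ≤ L * W :=
          mul_le_mul h4 (by rw [hW']; linarith) (by positivity) hL0
        rw [sub_self, norm_zero] at h1 h3
        have h8 : (if x ≤ a then ‖S.P σ x - S.P σ a‖ else 0) = 0 := by
          split_ifs with h
          · have : a = x := le_antisymm hxa h
            rw [this, sub_self, norm_zero]
          · rfl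
        have h9 : (if b ≤ x then ‖S.P σ b - S.P σ x‖ else 0) = 0 := by
          split_ifs with h
          · have : b = x := le_antisymm h hbx
            rw [this, sub_self, norm_zero]
          · rfl
        rw [if_pos hbx, if_pos hxa, h8, h9, norm_sub_rev (S.P σ a) (S.P σ x)]
        linarith

end Pool.Agent.Ruler
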