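import Pool.Agent.Ruler.Basic
import Pool.Agent.Ruler.Chord
import Pool.Agent.Ruler.PFun
import Pool.Agent.Ruler.Interp
import Pool.Agent.Ruler.Entropy
import Pool.Agent.Ruler.Pal

/-!
MP_067807_co: the total length of the blocks of a net is at least 1.22.
-/

open Set MeasureTheory

namespace Pool.Agent.Ruler

private lemma ip_add_left (z z' w : ℂ) : ip (z + z') w = ip z w + ip z' w := by
  simp only [ip, Complex.add_re, Complex.add_im]; ring

private lemma ip_sub_left (z z' w : ℂ) : ip (z - z') w = ip z w - ip z' w := by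
  simp only [ip, Complex.sub_re, Complex.sub_im]; ring

private lemma ip_real_mul (c : ℝ) (z w : ℂ) : ip ((c : ℂ) * z) w = c * ip z w := by
  simp only [ip, Complex.mul_re, Complex.mul_im, Complex.ofReal_re, Complex.ofReal_im]; ring

private lemma ip_nx_nx (s t : ℝ) : ip (nx s) (nx t) = Real.cos (s - t) := by
  simp only [ip, nx, Real.cos_sub]; ring

private lemma ip_ex_nx (s t : ℝ) : ip (ex s) (nx t) = Real.sin (s - t) := by
  simp only [ip, nx, ex, Real.sin_sub]; ring

private lemma norm_nx (t : ℝ) : ‖nx t‖ = 1 := by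
  have h : ‖nx t‖ ^ 2 = 1 := by
    rw [← Complex.normSq_eq_norm_sq, Complex.normSq_apply]
    simp only [nx]
    nlinarith [Real.sin_sq_add_cos_sq t]
  have h2 := norm_nonneg (nx t)
  nlinarith

private lemma nx_add_pi (t : ℝ) : nx (t + Real.pi) = - nx t := by
  apply Complex.ext <;> simp [nx]

/-- basic estimate in a short block, heads -/
private lemma block_head (S : ChordSys) {a y y' δ : ℝ} (hy : y ∈ S.T) (hy' : y' ∈ S.T)
    (hay : a ≤ y) (hyy : y ≤ y') (hyd : y' - a ≤ δ) (hδ1 : δ ≤ 1) :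
    ‖S.X y' - S.X y‖ * Real.cos δ ≤ ip (S.X y' - S.X y) (nx a) := by
  have hpi := Real.pi_gt_three
  obtain ⟨α, β, hα, hβ, hw⟩ := cone S hy hy' hyy (by linarith)
  have h1 : ‖S.X y' - S.X y‖ ≤ α + β := by
    rw [hw]
    refine (norm_add_le _ _).trans ?_
    rw [norm_mul, norm_mul, norm_nx, norm_nx, Complex.norm_real, Complex.norm_real,
      Real.norm_eq_abs, Real.norm_eq_abs, abs_of_nonneg hα, abs_of_nonneg hβ]
    linarith
  have hcos : 0 < Real.cos δ := Real.cos_pos_of_mem_Ioo ⟨by linarith, by linarith⟩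
  have h2 : ip (S.X y' - S.X y) (nx a) = α * Real.cos (y - a) + β * Real.cos (y' - a) := by
    rw [hw, ip_add_left, ip_real_mul, ip_real_mul, ip_nx_nx, ip_nx_nx]
  have h3 : Real.cos δ ≤ Real.cos (y - a) :=
    Real.cos_le_cos_of_nonneg_of_le_pi (by linarith) (by linarith) (by linarith)
  have h4 : Real.cos δ ≤ Real.cos (y' - a) :=
    Real.cos_le_cos_of_nonneg_of_le_pi (by linarith) (by linarith) (by linarith)
  rw [h2]
  nlinarith [mul_le_mul_of_nonneg_left h3 hα, mul_le_mul_of_nonneg_left h4 hβ,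
    mul_le_mul_of_nonneg_right h1 hcos.le]

private lemma P_true (S : ChordSys) (t : ℝ) : S.P true t = S.X t := by simp [ChordSys.P]

private lemma P_false (S : ChordSys) {t : ℝ} (ht : t ∈ S.T) :
    S.P false t = S.X (t + Real.pi) := by
  simp [ChordSys.P, S.tail t ht]

/-- basic estimate in a short block, tails -/
private lemma block_tail (S : ChordSys) {a y y' δ : ℝ} (hy : y ∈ S.T) (hy' : y' ∈ S.T)
    (hay : a ≤ y) (hyy : y ≤ y') (hyd : y' - a ≤ δ) (hδ1 : δ ≤ 1) :
    ‖S.P false y' - S.P false y‖ * Real.cos δ ≤ - ip (S.P false y' - S.P false y) (nx a) := by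
  rw [P_false S hy, P_false S hy']
  have h := block_head S (a := a + Real.pi) ((S.per y).1 hy) ((S.per y').1 hy')
    (by linarith) (by linarith) (by linarith) hδ1
  rw [nx_add_pi] at h
  have h2 : ∀ z w : ℂ, ip z (-w) = - ip z w := by
    intro z w; simp only [ip, Complex.neg_re, Complex.neg_im]; ring
  rw [h2] at h
  exact h

/-- the length of the side `σ` over the block `[a,b]` -/
private noncomputable def ell (S : ChordSys) (δ : ℝ) (σ : Bool) (a b : ℝ) : ℝ :=
  |ip (S.P σ b - S.P σ a) (nx a)| / Real.cos δ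

private lemma ell_nonneg (S : ChordSys) {δ : ℝ} (hδ : 0 < Real.cos δ) (σ : Bool) (a b : ℝ) :
    0 ≤ ell S δ σ a b := div_nonneg (abs_nonneg _) hδ.le

private lemma ell_bound (S : ChordSys) {a b δ : ℝ} (ha : a ∈ S.T) (hb : b ∈ S.T)
    (hbd : b - a ≤ δ) (hδ1 : δ ≤ 1) (hδ0 : 0 < δ) (σ : Bool) {y y' : ℝ} (hy : y ∈ S.T)
    (hy' : y' ∈ S.T) (hya : y ∈ Icc a b) (hya' : y' ∈ Icc a b) :
    ‖S.P σ y - S.P σ y'‖ ≤ ell S δ σ a b := by
  have hpi := Real.pi_gt_three
  have hcos : 0 < Real.cos δ := Real.cos_pos_of_mem_Ioo ⟨by linarith, by linarith⟩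
  wlog hyy : y ≤ y' generalizing y y'
  · rw [norm_sub_rev]
    exact this hy' hy hya' hya (not_le.1 hyy).le
  rw [norm_sub_rev]
  unfold ell
  rw [le_div_iff₀ hcos]
  cases σ with
  | true =>
    simp only [P_true]
    have h1 := block_head S (a := a) ha hy (le_refl _) hya.1 (by linarith [hya.2]) hδ1
    have h2 := block_head S (a := a) hy hy' hya.1 hyy (by linarith [hya'.2]) hδ1
    have h3 := block_head S (a := a) hy' hb hya'.1 hya'.2 hbd hδ1
    have h4 : ip (S.X b - S.X a) (nx a) = ip (S.X b - S.X y') (nx a)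
        + ip (S.X y' - S.X y) (nx a) + ip (S.X y - S.X a) (nx a) := by
      rw [← ip_add_left, ← ip_add_left]; congr 1; ring
    have h5 := mul_nonneg (norm_nonneg (S.X y - S.X a)) hcos.le
    have h6 := mul_nonneg (norm_nonneg (S.X b - S.X y')) hcos.le
    refine le_trans ?_ (le_abs_self _)
    rw [h4]; linarith
  | false =>
    have h1 := block_tail S (a := a) ha hy (le_refl _) hya.1 (by linarith [hya.2]) hδ1
    have h2 := block_tail S (a := a) hy hy' hya.1 hyy (by linarith [hya'.2]) hδ1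
    have h3 := block_tail S (a := a) hy' hb hya'.1 hya'.2 hbd hδ1
    have h4 : ip (S.P false b - S.P false a) (nx a) = ip (S.P false b - S.P false y') (nx a)
        + ip (S.P false y' - S.P false y) (nx a) + ip (S.P false y - S.P false a) (nx a) := by
      rw [← ip_add_left, ← ip_add_left]; congr 1; ring
    have h5 := mul_nonneg (norm_nonneg (S.P false y - S.P false a)) hcos.le
    have h6 := mul_nonneg (norm_nonneg (S.P false b - S.P false y')) hcos.le
    refine le_trans ?_ (neg_abs_le _ |> fun h => (neg_le.1 h))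
    rw [h4]; linarith

private lemma ell_add (S : ChordSys) {a b δ : ℝ} (ha : a ∈ S.T) (hb : b ∈ S.T) (hab : a ≤ b)
    (hbd : b - a ≤ δ) (hδ1 : δ ≤ 1) :
    ell S δ true a b + ell S δ false a b = Real.sin (b - a) / Real.cos δ := by
  have hpi := Real.pi_gt_three
  have hcos : 0 < Real.cos δ := Real.cos_pos_of_mem_Ioo ⟨by linarith, by linarith⟩
  have h1 := block_head S (a := a) ha hb (le_refl _) hab hbd hδ1
  have h2 := block_tail S (a := a) ha hb (le_refl _) hab hbd hδ1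
  have h3 := mul_nonneg (norm_nonneg (S.X b - S.X a)) hcos.le
  have h4 := mul_nonneg (norm_nonneg (S.P false b - S.P false a)) hcos.le
  unfold ell
  rw [← add_div]
  congr 1
  rw [P_true, P_true, abs_of_nonneg (h3.trans h1), abs_of_nonpos (by linarith)]
  have h5 : S.P false b - S.P false a = (S.X b - S.X a) - (ex b - ex a) := by
    simp only [ChordSys.P]; simp; ring
  rw [h5, ip_sub_left _ (ex b - ex a), ip_sub_left (ex b), ip_ex_nx, ip_ex_nx]
  simp

private lemma P_lip (S : ChordSys) (σ : Bool) {x x' : ℝ} (hx : x ∈ S.T) (hx' : x' ∈ S.T) :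
    ‖S.P σ x - S.P σ x'‖ ≤ |x - x'| := by
  cases σ with
  | true => rw [P_true, P_true]; exact norm_sub_le' S hx' hx
  | false =>
    rw [P_false S hx, P_false S hx']
    refine (norm_sub_le' S ((S.per x').1 hx') ((S.per x).1 hx)).trans (le_of_eq ?_)
    congr 1; ring

section itpT
variable {T : Set ℝ} {A B : ℝ} {f : ℝ → ℝ → ℝ}

private lemma itp_right_T (hT : IsClosed T) (hA : A ∈ T) (hB : B ∈ T) {x y : ℝ} (hy : y ∈ T)
    (hyI : y ∈ Icc A B) : itp T f x y = (1 - wt T x) * f (lo T x) y + wt T x * f (hi T x) y := by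
  obtain ⟨-, -, -, h1, h2, -, -, -, h3, h4⟩ := lohi hT hA hB hyI
  have h5 : lo T y = y := le_antisymm h1 (h3 y hy le_rfl)
  have h6 : hi T y = y := le_antisymm (h4 y hy le_rfl) h2
  unfold itp
  rw [h5, h6]; ring

private lemma itp_left_T (hT : IsClosed T) (hA : A ∈ T) (hB : B ∈ T) {x y : ℝ} (hy : y ∈ T)
    (hyI : y ∈ Icc A B) : itp T f y x = (1 - wt T x) * f y (lo T x) + wt T x * f y (hi T x) := by
  obtain ⟨-, -, -, h1, h2, -, -, -, h3, h4⟩ := lohi hT hA hB hyI
  have h5 : lo T y = y := le_antisymm h1 (h3 y hy le_rfl)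
  have h6 : hi T y = y := le_antisymm (h4 y hy le_rfl) h2
  unfold itp
  rw [h5, h6]; ring

end itpT

open Classical in
/-- the factor `2` for blocks which meet -/
private noncomputable def nf (ai bi aj bj : ℝ) : ℝ :=
  if (Icc ai bi ∩ Icc aj bj).Nonempty then 2 else 1

private lemma kappa_le (S : ChordSys) {A B : ℝ} (hAB : S.Base A B) (σ τ : Bool)
    {ai bi aj bj δ : ℝ} (hai : ai ∈ S.T) (hbi : bi ∈ S.T) (haj : aj ∈ S.T) (hbj : bj ∈ S.T)
    (hAi : A ≤ ai) (hiB : bi ≤ B) (hAj : A ≤ aj) (hjB : bj ≤ B) (habj : aj ≤ bj)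
    (hδ0 : 0 < δ) (hδ1 : δ ≤ 1) (hdi : bi - ai ≤ δ) (hdj : bj - aj ≤ δ) {x : ℝ}
    (hx : x ∈ Icc ai bi) :
    (itp S.T (S.f σ τ) x bj - itp S.T (S.f σ τ) x aj) +
      (itp S.T (S.f (!τ) (!σ)) aj x - itp S.T (S.f (!τ) (!σ)) bj x) ≤
      nf ai bi aj bj * ell S δ (!τ) aj bj * (‖S.P σ ai - S.P τ aj‖ + (2 * δ + Real.sqrt δ)) := by
  obtain ⟨hA, hB, hAB1, hAB2, -⟩ := hAB
  have hpi := Real.pi_gt_three
  have hcos : 0 < Real.cos δ := Real.cos_pos_of_mem_Ioo ⟨by linarith, by linarith⟩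
  have hxI : x ∈ Icc A B := ⟨hAi.trans hx.1, hx.2.trans hiB⟩
  have hajI : aj ∈ Icc A B := ⟨hAj, habj.trans hjB⟩
  have hbjI : bj ∈ Icc A B := ⟨hAj.trans habj, hjB⟩
  obtain ⟨hloT, hhiT, hloA, hlox, hxhi, hhiB, hw0, hw1, hlo, hhi⟩ := lohi S.closed hA hB hxI
  have hailo : ai ≤ lo S.T x := hlo ai hai hx.1
  have hhibi : hi S.T x ≤ bi := hhi bi hbi hx.2
  have key : ∀ z ∈ S.T, z ∈ Icc ai bi →
      (S.f σ τ z bj - S.f σ τ z aj) + (S.f (!τ) (!σ) aj z - S.f (!τ) (!σ) bj z) ≤
      nf ai bi aj bj * ell S δ (!τ) aj bj * (‖S.P σ ai - S.P τ aj‖ + (2 * δ + Real.sqrt δ)) := by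
    intro z hz hzI
    have h1 := f_incr S hAB2 σ τ (x := z) (a := aj) (b := bj) (δ := δ)
      (L := ell S δ (!τ) aj bj) hz haj hbj ⟨hAi.trans hzI.1, hzI.2.trans hiB⟩ hAj hjB habj hdj hδ1
      (fun y hy y' hy' hyI hyI' => ell_bound S haj hbj hdj hδ1 hδ0 (!τ) hy hy' hyI hyI')
    refine h1.trans ?_
    have h2 : (if z ∈ Icc aj bj then (2:ℝ) else 1) ≤ nf ai bi aj bj := by
      unfold nf
      split_ifs with h3 h4 h4
      · exact le_rfl
      · exact absurd ⟨z, hzI, h3⟩ h4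
      · norm_num
      · exact le_rfl
    have h3 : ‖S.P σ z - S.P τ aj‖ ≤ ‖S.P σ ai - S.P τ aj‖ + δ := by
      have h4 := P_lip S σ hz hai
      have h5 : |z - ai| ≤ δ := by
        rw [abs_le]; constructor <;> linarith [hzI.1, hzI.2]
      have h6 : S.P σ z - S.P τ aj = (S.P σ z - S.P σ ai) + (S.P σ ai - S.P τ aj) := by ring
      rw [h6]
      refine (norm_add_le _ _).trans ?_
      linarith
    have h4 : 0 ≤ ell S δ (!τ) aj bj := ell_nonneg S hcos _ _ _
    have h5 : 0 ≤ ‖S.P σ z - S.P τ aj‖ + δ + Real.sqrt δ := by positivity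
    have h6 : 0 ≤ nf ai bi aj bj := by unfold nf; split_ifs <;> norm_num
    apply mul_le_mul
    · exact mul_le_mul_of_nonneg_right h2 h4
    · linarith
    · exact h5
    · exact mul_nonneg h6 h4
  rw [itp_right_T S.closed hA hB hbj hbjI, itp_right_T S.closed hA hB haj hajI,
    itp_left_T S.closed hA hB hbj hbjI, itp_left_T S.closed hA hB haj hajI]
  have k1 := key _ hloT ⟨hailo, hlox.trans hx.2⟩
  have k2 := key _ hhiT ⟨hx.1.trans hxhi, hhibi⟩
  nlinarith [mul_le_mul_of_nonneg_left k1 (sub_nonneg.2 hw1), mul_le_mul_of_nonneg_left k2 hw0]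

private lemma net_lt {T : Set ℝ} {A B δ : ℝ} (N : Net T A B δ) {i j : ℕ} (hij : i < j)
    (hj : j < N.n) : N.b i ≤ N.a j := by
  induction j with
  | zero => omega
  | succ j ih =>
    rcases Nat.lt_succ_iff_lt_or_eq.1 hij with h | h
    · have h1 := ih h (by omega)
      have h2 := N.le j (by omega)
      have h3 := N.sep j hj
      linarith
    · rw [h]; exact N.sep j hj

private lemma net_pack {T : Set ℝ} {A B δ : ℝ} (N : Net T A B δ) (J : Finset ℕ)
    (hJ : ∀ j ∈ J, j < N.n) {u v : ℝ} (huv : u ≤ v) (h1 : ∀ j ∈ J, u ≤ N.a j)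
    (h2 : ∀ j ∈ J, N.b j ≤ v) : ∑ j ∈ J, (N.b j - N.a j) ≤ v - u := by
  have hd : Set.PairwiseDisjoint (↑J) (fun j => Ioo (N.a j) (N.b j)) := by
    intro i hi j hj hij
    rw [Function.onFun, Set.disjoint_left]
    intro x hx hx'
    rcases lt_or_gt_of_ne hij with h | h
    · have := net_lt N h (hJ j hj)
      linarith [hx.2, hx'.1]
    · have := net_lt N h (hJ i hi)
      linarith [hx.1, hx'.2]
  have h3 := measure_biUnion_finset (μ := volume) hd (fun j _ => measurableSet_Ioo)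
  have h4 : (⋃ j ∈ J, Ioo (N.a j) (N.b j)) ⊆ Icc u v := by
    intro x hx
    simp only [mem_iUnion] at hx
    obtain ⟨j, hj, hx⟩ := hx
    exact ⟨(h1 j hj).trans hx.1.le, hx.2.le.trans (h2 j hj)⟩
  have h5 : ∑ j ∈ J, ENNReal.ofReal (N.b j - N.a j) ≤ ENNReal.ofReal (v - u) := by
    rw [← Real.volume_Icc]
    refine le_trans (le_of_eq ?_) (measure_mono h4)
    rw [h3]
    simp only [Real.volume_Ioo]
  rw [← ENNReal.ofReal_sum_of_nonneg (fun j hj => sub_nonneg.2 (N.le j (hJ j hj)))] at h5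
  exact (ENNReal.ofReal_le_ofReal_iff (by linarith)).1 h5

private lemma near_sum {T : Set ℝ} {A B δ : ℝ} (hδ : 0 < δ) (N : Net T A B δ) {i : ℕ}
    (hi : i < N.n) (J : Finset ℕ) (hJ : ∀ j ∈ J, j < N.n)
    (hne : ∀ j ∈ J, (Icc (N.a i) (N.b i) ∩ Icc (N.a j) (N.b j)).Nonempty) :
    ∑ j ∈ J, (N.b j - N.a j) ≤ 3 * δ := by
  have h0 := N.le i hi
  have h1 := N.mesh i hi
  have h := net_pack N J hJ (u := N.a i - δ) (v := N.b i + δ) (by linarith) (by
    intro j hj
    obtain ⟨x, hx, hx'⟩ := hne j hj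
    have := N.mesh j (hJ j hj)
    linarith [hx.1, hx'.2]) (by
    intro j hj
    obtain ⟨x, hx, hx'⟩ := hne j hj
    have := N.mesh j (hJ j hj)
    linarith [hx.2, hx'.1])
  linarith

theorem total_ge {K : Set ℂ} (hK : IsCompact K) (hd : ∀ x ∈ K, ∀ y ∈ K, ‖x - y‖ ≤ 1)
    (S : ChordSys) (hSK : ∀ t ∈ S.T, S.X t ∈ K) (hC : S.Chains) {A B : ℝ} (hAB : S.Base A B)
    {δ : ℝ} (hδ : 0 < δ) (hδ1 : δ ≤ 1 / 1000000) (N : Net S.T A B δ) :
    (1.22 : ℝ) ≤ ∑ i ∈ Finset.range N.n, (N.b i - N.a i) := by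
  classical
  by_contra hcon
  rw [not_le] at hcon
  have hpi := Real.pi_gt_three
  have hδ1' : δ ≤ 1 := by linarith
  have hcos : 0 < Real.cos δ := Real.cos_pos_of_mem_Ioo ⟨by linarith, by linarith⟩
  have hBase := hAB
  obtain ⟨hA, hB, hAB1, hAB2, hgap⟩ := hAB
  -- blocks are inside [A,B]
  have hAa : ∀ i < N.n, A ≤ N.a i := by
    intro i hi
    rcases Nat.eq_zero_or_pos i with h | h
    · rw [h, N.first]
    · have h1 := net_lt N h hi
      have h2 := N.le 0 N.pos
      rw [N.first] at h2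
      linarith
  have hbB : ∀ i < N.n, N.b i ≤ B := by
    intro i hi
    rcases Nat.lt_or_ge i (N.n - 1) with h | h
    · have h1 := net_lt N h (by omega)
      have h2 := N.le (N.n - 1) (by omega)
      rw [N.last] at h2
      linarith
    · have : i = N.n - 1 := by omega
      rw [this, N.last]
  let a : Fin N.n → ℝ := fun i => N.a i
  let b : Fin N.n → ℝ := fun i => N.b i
  let F : Bool → Bool → ℝ → ℝ → ℝ := fun σ τ => itp S.T (S.f σ τ)
  have hIcc : ∀ i : Fin N.n, Icc (a i) (b i) ⊆ Icc A B := fun i =>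
    Icc_subset_Icc (hAa i i.2) (hbB i i.2)
  set e : ℝ := 2 * δ + Real.sqrt δ with he
  let κ : Fin N.n × Bool → Fin N.n × Bool → ℝ := fun p q =>
    nf (a p.1) (b p.1) (a q.1) (b q.1) * ell S δ (!q.2) (a q.1) (b q.1) *
      (‖S.P p.2 (a p.1) - S.P q.2 (a q.1)‖ + e)
  have hn : (0:ℝ) < N.n := by exact_mod_cast N.pos
  set η : ℝ := 1 / (2 * 10 ^ 9 * N.n) with hη
  have hηpos : 0 < η := by positivity
  let μ : Fin N.n × Bool → ℝ := fun q => ell S δ (!q.2) (a q.1) (b q.1) + η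
  have hμ : ∀ p, 0 < μ p := fun p => add_pos_of_nonneg_of_pos (ell_nonneg S hcos _ _ _) hηpos
  have hent := entropy N.pos a b (fun i => N.le i i.2) F
    (fun σ τ i j y hy => (itp_anti (f := S.f σ τ) S.closed hA hB (fun y hy hyI => f_anti S hAB2 σ τ hy hyI)
      (hIcc j hy)).mono (hIcc i))
    (fun σ τ i j x hx => (itp_mono (f := S.f σ τ) S.closed hA hB (fun x hx hxI => f_mono S hAB2 σ τ hx hxI)
      (hIcc i hx)).mono (hIcc j))
    (fun σ τ i j y hy => (itp_cont_left (f := S.f σ τ) S.closed hA hB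
      (fun y hy _ x hx _ x' hx' _ => f_lip_left S σ τ hx hx' hy) (hIcc j hy)).mono (hIcc i))
    (fun σ τ i j x hx => (itp_cont_right (f := S.f σ τ) S.closed hA hB
      (fun x hx _ y hy _ y' hy' _ => f_lip_right S σ τ hx hy hy') (hIcc i hx)).mono (hIcc j))
    κ
    (fun i j σ τ x hx => kappa_le S hBase σ τ (N.a_mem i i.2) (N.b_mem i i.2) (N.a_mem j j.2)
      (N.b_mem j j.2) (hAa i i.2) (hbB i i.2) (hAa j j.2) (hbB j j.2) (N.le j j.2) hδ hδ1'
      (N.mesh i i.2) (N.mesh j j.2) hx)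
    (by
      intro m l hl
      obtain ⟨θ, σ, h1, h2⟩ := hC A m l hl
      refine ⟨θ, σ, ?_, ?_⟩
      · intro k hk
        obtain ⟨hT, hAk, hkA⟩ := h1 k hk
        have hkB : θ k ≤ B := by
          by_contra h
          exact hgap _ hT ⟨not_le.1 h, hkA⟩
        obtain ⟨i, hi, hi2⟩ := N.cover _ hT hAk hkB
        exact ⟨⟨i, hi⟩, hi2⟩
      · intro k hk
        have hx := (h1 k hk.le).1
        have hy := (h1 (k + 1) hk).1
        unfold Step
        simp only [F]
        rw [itp_eq S.closed hx hy, itp_eq S.closed hy hx, ← h2 k hk]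
        exact f_step S (σ k) (σ (k + 1)))
    μ hμ
  -- total mass
  have hMsum : ∀ (J : Finset ℕ) (hJ : ∀ j ∈ J, j < N.n),
      ∑ j ∈ J, ((ell S δ true (N.a j) (N.b j) + η) + (ell S δ false (N.a j) (N.b j) + η))
        ≤ (∑ j ∈ J, (N.b j - N.a j)) / Real.cos δ + 1 / 10 ^ 9 := by
    intro J hJ
    have h1 : ∀ j ∈ J, (ell S δ true (N.a j) (N.b j) + η) + (ell S δ false (N.a j) (N.b j) + η)
        ≤ (N.b j - N.a j) / Real.cos δ + 2 * η := by
      intro j hj
      have h2 := ell_add S (N.a_mem j (hJ j hj)) (N.b_mem j (hJ j hj)) (N.le j (hJ j hj))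
        (N.mesh j (hJ j hj)) hδ1'
      have h3 : Real.sin (N.b j - N.a j) / Real.cos δ ≤ (N.b j - N.a j) / Real.cos δ :=
        div_le_div_of_nonneg_right (Real.sin_le (sub_nonneg.2 (N.le j (hJ j hj)))) hcos.le
      linarith
    refine (Finset.sum_le_sum h1).trans ?_
    rw [Finset.sum_add_distrib, ← Finset.sum_div, Finset.sum_const, nsmul_eq_mul]
    have h4 : (J.card : ℝ) ≤ N.n := by
      have : J ⊆ Finset.range N.n := fun j hj => Finset.mem_range.2 (hJ j hj)
      have := Finset.card_le_card this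
      rw [Finset.card_range] at this
      exact_mod_cast this
    have h5 : (J.card : ℝ) * (2 * η) ≤ 1 / 10 ^ 9 := by
      have h6 : (N.n : ℝ) * (2 * η) = 1 / 10 ^ 9 := by
        rw [hη]; field_simp
      rw [← h6]
      exact mul_le_mul_of_nonneg_right h4 (by positivity)
    linarith
  set M : ℝ := ∑ p, μ p with hM
  have hMnn : 0 ≤ M := Finset.sum_nonneg (fun p _ => (hμ p).le)
  have hcosge : 1 - δ ^ 2 / 2 ≤ Real.cos δ := Real.one_sub_sq_div_two_le_cos
  have hcos2 : (999999 / 1000000 : ℝ) ≤ Real.cos δ := by nlinarith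
  have hMle : M ≤ 1.220002 := by
    have h1 : M = ∑ j ∈ Finset.range N.n,
        ((ell S δ true (N.a j) (N.b j) + η) + (ell S δ false (N.a j) (N.b j) + η)) := by
      rw [hM, Fintype.sum_prod_type, Finset.sum_range]
      apply Finset.sum_congr rfl
      intro i _
      simp only [Fintype.sum_bool, μ, a, b, Bool.not_true, Bool.not_false]
      ring
    rw [h1]
    refine (hMsum _ (fun j hj => Finset.mem_range.1 hj)).trans ?_
    have h2 : (∑ j ∈ Finset.range N.n, (N.b j - N.a j)) / Real.cos δ ≤ 1.2200015 := by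
      rw [div_le_iff₀ hcos]
      nlinarith
    linarith
  -- diagonal part
  have hnear : ∀ p : Fin N.n × Bool, ∑ q : Fin N.n × Bool,
      (if (Icc (a p.1) (b p.1) ∩ Icc (a q.1) (b q.1)).Nonempty then μ q else 0)
        ≤ 0.000004 := by
    intro p
    let J : Finset ℕ := (Finset.range N.n).filter
      (fun j => (Icc (a p.1) (b p.1) ∩ Icc (N.a j) (N.b j)).Nonempty)
    have hJ : ∀ j ∈ J, j < N.n := fun j hj =>
      Finset.mem_range.1 (Finset.mem_filter.1 hj).1
    have h1 : ∑ q : Fin N.n × Bool,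
        (if (Icc (a p.1) (b p.1) ∩ Icc (a q.1) (b q.1)).Nonempty then μ q else 0)
        = ∑ j ∈ J, ((ell S δ true (N.a j) (N.b j) + η) + (ell S δ false (N.a j) (N.b j) + η)) := by
      rw [Fintype.sum_prod_type, Finset.sum_filter, Finset.sum_range]
      apply Finset.sum_congr rfl
      intro i _
      simp only [Fintype.sum_bool, μ, a, b, Bool.not_true, Bool.not_false]
      split_ifs
      · ring
      · simp
    rw [h1]
    refine (hMsum J hJ).trans ?_
    have h2 := near_sum hδ N p.1.2 J hJ (fun j hj => (Finset.mem_filter.1 hj).2)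
    have h3 : (∑ j ∈ J, (N.b j - N.a j)) / Real.cos δ ≤ 0.0000035 := by
      rw [div_le_iff₀ hcos]
      nlinarith
    linarith
  -- distances
  have hPK : ∀ (σ : Bool) (t : ℝ), t ∈ S.T → S.P σ t ∈ K := by
    intro σ t ht
    cases σ with
    | true => rw [P_true]; exact hSK t ht
    | false => rw [P_false S ht]; exact hSK _ ((S.per t).1 ht)
  have hD : ∀ p q : Fin N.n × Bool, ‖S.P p.2 (a p.1) - S.P q.2 (a q.1)‖ ≤ 1 := fun p q =>
    hd _ (hPK _ _ (N.a_mem _ p.1.2)) _ (hPK _ _ (N.a_mem _ q.1.2))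
  have hvar := variance_le hK ⟨_, hPK true A hA⟩ hd (fun p : Fin N.n × Bool => S.P p.2 (a p.1))
    (fun p => hPK _ _ (N.a_mem _ p.1.2)) μ (fun p => (hμ p).le)
  have hsq : Real.sqrt δ ≤ 1 / 1000 := by
    rw [Real.sqrt_le_left (by norm_num)]
    linarith
  have hsq0 := Real.sqrt_nonneg δ
  have he0 : 0 < e := by rw [he]; linarith
  have he1 : e ≤ 0.001002 := by rw [he]; linarith
  have hterm : ∀ p q : Fin N.n × Bool, μ p * κ p q ^ 2 / μ q ≤
      μ p * μ q * ‖S.P p.2 (a p.1) - S.P q.2 (a q.1)‖ ^ 2 + 0.002006 * (μ p * μ q) +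
        3.01 * (μ p * (if (Icc (a p.1) (b p.1) ∩ Icc (a q.1) (b q.1)).Nonempty then μ q else 0)) := by
    intro p q
    have hp := hμ p
    have hq := hμ q
    set D := ‖S.P p.2 (a p.1) - S.P q.2 (a q.1)‖ with hDD
    have hD0 : 0 ≤ D := norm_nonneg _
    have hD1 : D ≤ 1 := hD p q
    have hl0 : 0 ≤ ell S δ (!q.2) (a q.1) (b q.1) := ell_nonneg S hcos _ _ _
    have hl1 : ell S δ (!q.2) (a q.1) (b q.1) ≤ μ q := by
      simp only [μ]; linarith
    have h1 : (D + e) ^ 2 ≤ D ^ 2 + 0.002006 := by nlinarith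
    have h2 : (D + e) ^ 2 ≤ 1.003 := by nlinarith
    have h3 : κ p q ^ 2 ≤ nf (a p.1) (b p.1) (a q.1) (b q.1) ^ 2 * μ q ^ 2 * (D + e) ^ 2 := by
      have h4 : κ p q = nf (a p.1) (b p.1) (a q.1) (b q.1) *
        ell S δ (!q.2) (a q.1) (b q.1) * (D + e) := rfl
      rw [h4, mul_pow, mul_pow]
      apply mul_le_mul_of_nonneg_right _ (sq_nonneg _)
      apply mul_le_mul_of_nonneg_left _ (sq_nonneg _)
      exact pow_le_pow_left₀ hl0 hl1 2
    have h5 : μ p * κ p q ^ 2 / μ q ≤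
        μ p * μ q * (nf (a p.1) (b p.1) (a q.1) (b q.1) ^ 2 * (D + e) ^ 2) := by
      rw [div_le_iff₀ hq]
      have := mul_le_mul_of_nonneg_left h3 hp.le
      calc μ p * κ p q ^ 2 ≤ _ := this
        _ = _ := by ring
    refine h5.trans ?_
    have hpq : 0 < μ p * μ q := mul_pos hp hq
    unfold nf
    split_ifs with h6
    · nlinarith
    · nlinarith
  have hfin : (1:ℝ) ≤ 2 / 3 * M ^ 2 + 0.002006 * M ^ 2 + 3.01 * (M * 0.000004) := by
    refine hent.trans ?_
    refine (Finset.sum_le_sum (fun p _ => Finset.sum_le_sum (fun q _ => hterm p q))).trans ?_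
    simp only [Finset.sum_add_distrib]
    have h1 : ∑ p, ∑ q, 0.002006 * (μ p * μ q) = 0.002006 * M ^ 2 := by
      rw [hM, pow_two, Finset.sum_mul_sum, Finset.mul_sum]
      simp only [Finset.mul_sum]
    have h2 : ∑ p : Fin N.n × Bool, ∑ q : Fin N.n × Bool, 3.01 * (μ p *
        (if (Icc (a p.1) (b p.1) ∩ Icc (a q.1) (b q.1)).Nonempty then μ q else 0))
        ≤ 3.01 * (M * 0.000004) := by
      simp only [← Finset.mul_sum]
      apply mul_le_mul_of_nonneg_left _ (by norm_num)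
      rw [hM, Finset.sum_mul]
      apply Finset.sum_le_sum
      intro p _
      exact mul_le_mul_of_nonneg_left (hnear p) (hμ p).le
    rw [h1]
    linarith
  nlinarith

end Pool.Agent.Ruler
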