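import Pool.Agent.Ruler.Univ
import Pool.Agent.Ruler.Kill
import Pool.Agent.Ruler.Net
import Pool.Agent.Ruler.Total
import Pool.Agent.Ruler.AreaGe
import Pool.Agent.Ruler.B1
import Pool.Agent.Ruler.B2
import Pool.Agent.Ruler.Num

/-!
MP_067807_co: every convex universal case of diameter 1 has area at least 0.56 (assembly).
-/

open Set MeasureTheory

namespace Pool.Agent.Ruler

/-- the points of a net as one sequence -/
noncomputable def seqN {T : Set ℝ} {A B δ : ℝ} (N : Net T A B δ) (j : ℕ) : ℝ :=
  if j % 2 = 0 then N.a (j / 2) else N.b (j / 2)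

theorem seqN_even {T : Set ℝ} {A B δ : ℝ} (N : Net T A B δ) (i : ℕ) : seqN N (2 * i) = N.a i := by
  unfold seqN
  rw [if_pos (by omega)]
  congr 1
  omega

theorem seqN_odd {T : Set ℝ} {A B δ : ℝ} (N : Net T A B δ) (i : ℕ) :
    seqN N (2 * i + 1) = N.b i := by
  unfold seqN
  rw [if_neg (by omega)]
  congr 1
  omega

theorem seqN_mem {T : Set ℝ} {A B δ : ℝ} (N : Net T A B δ) {j : ℕ} (hj : j ≤ 2 * N.n - 1) :
    seqN N j ∈ T := by
  have := N.pos
  unfold seqN
  split_ifs with h
  · exact N.a_mem _ (by omega)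
  · exact N.b_mem _ (by omega)

theorem seqN_mono {T : Set ℝ} {A B δ : ℝ} (N : Net T A B δ) {j : ℕ} (hj : j < 2 * N.n - 1) :
    seqN N j ≤ seqN N (j + 1) := by
  rcases Nat.even_or_odd' j with ⟨i, rfl | rfl⟩
  · rw [seqN_even, seqN_odd]
    exact N.le i (by omega)
  · rw [seqN_odd, show 2 * i + 1 + 1 = 2 * (i + 1) by ring, seqN_even]
    exact N.sep i (by omega)

theorem seqN_zero {T : Set ℝ} {A B δ : ℝ} (N : Net T A B δ) : seqN N 0 = A := by
  have := seqN_even N 0
  simp only [mul_zero] at this
  rw [this, N.first]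

theorem seqN_last {T : Set ℝ} {A B δ : ℝ} (N : Net T A B δ) : seqN N (2 * N.n - 1) = B := by
  have := N.pos
  obtain ⟨m, hm⟩ : ∃ m, N.n = m + 1 := ⟨N.n - 1, by omega⟩
  rw [hm, show 2 * (m + 1) - 1 = 2 * m + 1 by omega, seqN_odd]
  have := N.last
  rw [hm] at this
  simpa using this

/-- sums over the cells of a net -/
theorem sum_cells {T : Set ℝ} {A B δ : ℝ} (N : Net T A B δ) (g : ℝ → ℝ) :
    ∑ j ∈ Finset.range (2 * N.n - 1), g (seqN N (j + 1) - seqN N j) =
      ∑ i ∈ Finset.range N.n, g (N.b i - N.a i) +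
        ∑ i ∈ Finset.range (N.n - 1), g (N.a (i + 1) - N.b i) := by
  obtain ⟨m, hm⟩ : ∃ m, N.n = m + 1 := ⟨N.n - 1, by have := N.pos; omega⟩
  rw [hm, show 2 * (m + 1) - 1 = 2 * m + 1 by omega, show m + 1 - 1 = m by omega]
  clear hm
  induction m with
  | zero =>
    have h0 := seqN_even N 0
    have h1 := seqN_odd N 0
    simp only [mul_zero, zero_add] at h0 h1
    simp [h0, h1]
  | succ m ih =>
    rw [show 2 * (m + 1) + 1 = (2 * m + 1) + 1 + 1 by ring, Finset.sum_range_succ,
      Finset.sum_range_succ, ih, Finset.sum_range_succ _ (m + 1),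
      Finset.sum_range_succ (fun i => g (N.a (i + 1) - N.b i)) m]
    rw [seqN_odd, show 2 * m + 1 + 1 = 2 * (m + 1) by ring, seqN_even, seqN_odd]
    ring

theorem psi_small {x δ : ℝ} (h0 : 0 ≤ x) (h1 : x ≤ δ) (h2 : δ ≤ 1) : psi x ≤ δ * x := by
  unfold psi
  rcases h0.eq_or_lt with h | h
  · rw [← h]; simp
  · have := Real.sin_gt_sub_cube h
    have h3 : x ^ 3 ≤ δ * x := by
      have : x ^ 2 ≤ δ := by nlinarith
      nlinarith
    have h4 : 0 ≤ x ^ 3 := by positivity
    linarith

theorem psi_nonneg {x : ℝ} (h0 : 0 ≤ x) : 0 ≤ psi x := by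
  unfold psi
  linarith [Real.sin_le h0]

/-- the total of the blocks and the gaps -/
theorem net_sums {T : Set ℝ} {A B δ : ℝ} (N : Net T A B δ) :
    ∑ i ∈ Finset.range (N.n - 1), (N.a (i + 1) - N.b i) =
      (B - A) - ∑ i ∈ Finset.range N.n, (N.b i - N.a i) := by
  have h := sum_cells N (fun x => x)
  rw [Finset.sum_range_sub (fun j => seqN N j), seqN_last, seqN_zero] at h
  linarith

theorem small_sum {T : Set ℝ} {A B δ : ℝ} (N : Net T A B δ) (hδ : 0 ≤ δ) (h1 : δ ≤ 1 / 1000000)
    (hAB : B ≤ A + Real.pi) :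
    ∑ i ∈ Finset.range N.n, psi (N.b i - N.a i) ≤ 0.0001 := by
  have h2 : ∑ i ∈ Finset.range N.n, psi (N.b i - N.a i) ≤
      ∑ i ∈ Finset.range N.n, δ * (N.b i - N.a i) := by
    refine Finset.sum_le_sum (fun i hi => ?_)
    rw [Finset.mem_range] at hi
    exact psi_small (by linarith [N.le i hi]) (N.mesh i hi) (by linarith)
  rw [← Finset.mul_sum] at h2
  have h3 : 0 ≤ ∑ i ∈ Finset.range (N.n - 1), (N.a (i + 1) - N.b i) := by
    refine Finset.sum_nonneg (fun i hi => ?_)
    rw [Finset.mem_range] at hi
    linarith [N.sep i (by omega)]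
  rw [net_sums] at h3
  have h4 : ∑ i ∈ Finset.range N.n, (N.b i - N.a i) ≤ 4 := by
    linarith [Real.pi_lt_four]
  have h5 : δ * ∑ i ∈ Finset.range N.n, (N.b i - N.a i) ≤ 1 / 1000000 * 4 := by
    refine (mul_le_mul_of_nonneg_left h4 hδ).trans ?_
    exact mul_le_mul_of_nonneg_right h1 (by norm_num)
  linarith

theorem conv_lower {K : Set ℂ} (hK : Convex ℝ K) (hc : IsCompact K)
    (hd : Metric.diam K = 1) (hU : Universal K) : (0.56 : ℝ) ≤ (volume K).toReal := by
  have hd' : ∀ x ∈ K, ∀ y ∈ K, ‖x - y‖ ≤ 1 := by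
    intro x hx y hy
    rw [← dist_eq_norm, ← hd]
    exact Metric.dist_le_diam_of_mem hc.isBounded hx hy
  obtain ⟨S, hne, hSK, hC⟩ := exists_chordSys hc hd' hU
  have hper : ∀ t ∈ S.T, t + Real.pi ∈ S.T := fun t ht => (S.per t).1 ht
  by_cases hgap : ∃ s ∈ S.T, ∃ t ∈ S.T, s < t ∧ (∀ r ∈ S.T, ¬ (s < r ∧ r < t)) ∧
      Real.pi / 3 ≤ t - s
  · -- a big gap
    obtain ⟨s, hs, t, ht, hst, hgp, hbig⟩ := hgap
    have htp : t ≤ s + Real.pi := by
      by_contra hcon
      exact hgp _ (hper s hs) ⟨by linarith [Real.pi_pos], by linarith⟩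
    have hle := gap_le S hC hs ht hst htp hgp
    have hB : S.Base t (s + Real.pi) := by
      refine ⟨ht, hper s hs, htp, by linarith, ?_⟩
      rintro r hr ⟨h1, h2⟩
      have h3 : r - Real.pi ∈ S.T := by
        rw [S.per]
        simpa using hr
      exact hgp _ h3 ⟨by linarith, by linarith⟩
    obtain ⟨N⟩ := exists_net S.closed ht (hper s hs) htp (δ := 1 / 1000000) (by norm_num)
    have htot := total_ge hc hd' S hSK hC hB (by norm_num) le_rfl N
    have harea := area_ge S hK hc hSK (seqN N) (2 * N.n - 1) (fun i hi => seqN_mem N hi)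
      (fun i hi => seqN_mono N hi) (by rw [seqN_last, seqN_zero]; linarith)
    have hps := pairSum_ge (seqN N) (fun i => S.X (seqN N (i + 1)) - S.X (seqN N i)) (2 * N.n - 1)
      (fun i hi => seqN_mono N hi)
      (fun i hi => by
        have h1 := S.dist_le _ (seqN_mem N (j := i + 1) (by omega)) _
          (hper _ (seqN_mem N (j := i) (by omega)))
        rw [S.tail _ (seqN_mem N (j := i) (by omega))] at h1
        convert h1 using 2
        ring)
      (fun i hi => by
        have h1 := S.dist_le _ (hper _ (seqN_mem N (j := i + 1) (by omega))) _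
          (seqN_mem N (j := i) (by omega))
        rw [S.tail _ (seqN_mem N (j := i + 1) (by omega))] at h1
        convert h1 using 2
        ring)
      (by rw [seqN_last, seqN_zero]; linarith)
    rw [seqN_last, seqN_zero] at harea hps
    rw [sum_cells] at hps
    have hsm := small_sum N (by norm_num) le_rfl (by linarith)
    have hgn : ∀ i ∈ Finset.range (N.n - 1), 0 ≤ N.a (i + 1) - N.b i := by
      intro i hi
      rw [Finset.mem_range] at hi
      linarith [N.sep i (by omega)]
    have hsg := net_sums N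
    have hps2 := psi_sum_le (Finset.range (N.n - 1)) (fun i => N.a (i + 1) - N.b i) hgn
      (by rw [hsg]; linarith [Real.pi_pos])
    have hnum := num1 (α := s + Real.pi - t) (s := ∑ i ∈ Finset.range (N.n - 1),
      (N.a (i + 1) - N.b i)) (by linarith) (by linarith) (by rw [hsg]; linarith)
      (Finset.sum_nonneg hgn)
    linarith
  · -- all gaps are small
    push Not at hgap
    obtain ⟨A, hA⟩ := hne
    have hB : S.Base A (A + Real.pi) := by
      refine ⟨hA, hper A hA, by linarith [Real.pi_pos], le_rfl, ?_⟩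
      rintro r hr ⟨h1, h2⟩
      linarith
    obtain ⟨N⟩ := exists_net S.closed hA (hper A hA) (by linarith [Real.pi_pos])
      (δ := 1 / 1000000) (by norm_num)
    have htot := total_ge hc hd' S hSK hC hB (by norm_num) le_rfl N
    have harea := area_ge S hK hc hSK (seqN N) (2 * N.n - 1) (fun i hi => seqN_mem N hi)
      (fun i hi => seqN_mono N hi) (by rw [seqN_last, seqN_zero])
    have hps := pairSum_ge_full S hc hd' hSK (seqN N) (2 * N.n - 1) (fun i hi => seqN_mem N hi)
      (fun i hi => seqN_mono N hi) (by rw [seqN_last, seqN_zero])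
    rw [seqN_last, seqN_zero] at harea
    have hsin : ∑ j ∈ Finset.range (2 * N.n - 1), Real.sin (seqN N (j + 1) - seqN N j) =
        Real.pi - ∑ j ∈ Finset.range (2 * N.n - 1), psi (seqN N (j + 1) - seqN N j) := by
      have h := Finset.sum_range_sub (fun j => seqN N j) (2 * N.n - 1)
      rw [seqN_last, seqN_zero] at h
      unfold psi
      rw [Finset.sum_sub_distrib, h]
      ring
    rw [hsin, sum_cells] at hps
    have hsm := small_sum N (by norm_num) le_rfl (by linarith)
    have hgn : ∀ i ∈ Finset.range (N.n - 1), 0 ≤ N.a (i + 1) - N.b i ∧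
        N.a (i + 1) - N.b i ≤ Real.pi / 3 := by
      intro i hi
      rw [Finset.mem_range] at hi
      have hsep := N.sep i (by omega)
      refine ⟨by linarith, ?_⟩
      rcases hsep.eq_or_lt with h | h
      · rw [h]; simp; positivity
      · refine (hgap _ (N.b_mem i (by omega)) _ (N.a_mem (i + 1) (by omega)) h ?_).le
        intro r hr h1
        by_contra h2
        rw [not_le] at h2
        -- `r` lies in some block
        have hmonob : ∀ i j, i ≤ j → j < N.n → N.b i ≤ N.b j := by
          intro i j hij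
          induction j, hij using Nat.le_induction with
          | base => intro _; exact le_rfl
          | succ j hj ih =>
            intro hj'
            exact (ih (by omega)).trans ((N.sep j (by omega)).trans (N.le _ (by omega)))
        have hmonoa : ∀ i j, i ≤ j → j < N.n → N.a i ≤ N.a j := by
          intro i j hij
          induction j, hij using Nat.le_induction with
          | base => intro _; exact le_rfl
          | succ j hj ih =>
            intro hj'
            exact (ih (by omega)).trans ((N.le j (by omega)).trans (N.sep _ (by omega)))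
        have hrA : A ≤ r := by
          rw [← N.first]
          exact (hmonoa 0 i (by omega) (by omega)).trans ((N.le i (by omega)).trans h1.le)
        have hrB : r ≤ A + Real.pi := by
          rw [← N.last]
          refine h2.le.trans ((N.le (i + 1) (by omega)).trans (hmonob (i + 1) (N.n - 1) (by omega) (by omega)))
        obtain ⟨j, hj, h3, h4⟩ := N.cover r hr hrA hrB
        rcases Nat.lt_or_ge i j with h5 | h5
        · have := hmonoa (i + 1) j h5 hj
          linarith
        · have := hmonob j i h5 (by omega)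
          linarith
    have hsg := net_sums N
    have hnum := num2 (Finset.range (N.n - 1)) (fun i => N.a (i + 1) - N.b i) hgn
      (by rw [hsg]; linarith)
    have hs0 : Real.sin (A + Real.pi - A) = 0 := by simp
    rw [hs0] at harea
    linarith

end Pool.Agent.Ruler
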