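import Pool.Agent.Ruler.Chord

/-!
Three heads in cyclic order form a positively oriented triangle.
-/

open Set

namespace Pool.Agent.Ruler

theorem Orient_per2 (S : ChordSys) {t : ℝ} (ht : t ∈ S.T) :
    t + 2 * Real.pi ∈ S.T ∧ S.X (t + 2 * Real.pi) = S.X t := by
  have h1 : t + Real.pi ∈ S.T := (S.per t).mp ht
  have h2 : t + Real.pi + Real.pi ∈ S.T := (S.per _).mp h1
  have h3 : t + 2 * Real.pi = t + Real.pi + Real.pi := by ring
  rw [h3]
  refine ⟨h2, ?_⟩
  rw [S.tail _ h1, S.tail _ ht]
  have h4 : ex (t + Real.pi) = - ex t := by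
    apply Complex.ext <;> simp [ex]
  rw [h4]
  ring

theorem Orient_cr_nx (a b : ℝ) : cr (nx a) (nx b) = Real.sin (b - a) := by
  rw [Real.sin_sub]
  simp only [cr, nx]
  ring

theorem Orient_cr_add_left (u v w : ℂ) : cr (u + v) w = cr u w + cr v w := by
  simp only [cr, Complex.add_re, Complex.add_im]
  ring

theorem Orient_cr_add_right (u v w : ℂ) : cr u (v + w) = cr u v + cr u w := by
  simp only [cr, Complex.add_re, Complex.add_im]
  ring

theorem Orient_cr_mul_left (α : ℝ) (u v : ℂ) : cr ((α : ℂ) * u) v = α * cr u v := by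
  simp only [cr, Complex.mul_re, Complex.mul_im, Complex.ofReal_re, Complex.ofReal_im]
  ring

theorem Orient_cr_mul_right (α : ℝ) (u v : ℂ) : cr u ((α : ℂ) * v) = α * cr u v := by
  simp only [cr, Complex.mul_re, Complex.mul_im, Complex.ofReal_re, Complex.ofReal_im]
  ring

theorem Orient_cone {a b c α₁ β₁ α₂ β₂ : ℝ} (h1 : 0 ≤ α₁) (h2 : 0 ≤ β₁) (h3 : 0 ≤ α₂)
    (h4 : 0 ≤ β₂) (hab : 0 ≤ Real.sin (b - a)) (hbc : 0 ≤ Real.sin (c - b))
    (hac : 0 ≤ Real.sin (c - a)) :
    0 ≤ cr ((α₁ : ℂ) * nx a + (β₁ : ℂ) * nx b) ((α₂ : ℂ) * nx b + (β₂ : ℂ) * nx c) := by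
  rw [Orient_cr_add_left, Orient_cr_add_right, Orient_cr_add_right]
  simp only [Orient_cr_mul_left, Orient_cr_mul_right, Orient_cr_nx, sub_self, Real.sin_zero]
  positivity

/-- the case of two consecutive edges in a cone -/
theorem Orient_edges (S : ChordSys) {a b c : ℝ} (ha : a ∈ S.T) (hb : b ∈ S.T) (hc : c ∈ S.T)
    (hab : a ≤ b) (hbc : b ≤ c) (hac : c < a + Real.pi) :
    0 ≤ cr (S.X b - S.X a) (S.X c - S.X b) := by
  obtain ⟨α₁, β₁, h1, h2, h3⟩ := cone S ha hb hab (by linarith)
  obtain ⟨α₂, β₂, h4, h5, h6⟩ := cone S hb hc hbc (by linarith)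
  rw [h3, h6]
  exact Orient_cone h1 h2 h4 h5 (Real.sin_nonneg_of_nonneg_of_le_pi (by linarith) (by linarith))
    (Real.sin_nonneg_of_nonneg_of_le_pi (by linarith) (by linarith))
    (Real.sin_nonneg_of_nonneg_of_le_pi (by linarith) (by linarith))

theorem Orient_binet (U V : ℂ) (t r : ℝ) :
    cr U V * Real.sin (r - t) = ip U (ex t) * ip V (ex r) - ip U (ex r) * ip V (ex t) := by
  rw [Real.sin_sub]
  simp only [cr, ip, ex]
  ring

theorem Orient_three (U : ℂ) (s t r : ℝ) :
    Real.sin (r - t) * ip U (ex s) + Real.sin (s - r) * ip U (ex t)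
      + Real.sin (t - s) * ip U (ex r) = 0 := by
  rw [Real.sin_sub, Real.sin_sub, Real.sin_sub]
  simp only [ip, ex]
  ring

/-- three heads in cyclic order form a positively oriented triangle -/
theorem orient (S : ChordSys) {s t r : ℝ} (hs : s ∈ S.T) (ht : t ∈ S.T) (hr : r ∈ S.T)
    (h1 : s ≤ t) (h2 : t ≤ r) (h3 : r ≤ s + 2 * Real.pi) :
    0 ≤ cr (S.X t - S.X s) (S.X r - S.X s) := by
  have hpi := Real.pi_pos
  obtain ⟨hs2, hXs2⟩ := Orient_per2 S hs
  obtain ⟨ht2, hXt2⟩ := Orient_per2 S ht
  rcases lt_or_ge Real.pi (t - s) with hc1 | hc1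
  · have h := Orient_edges S ht hr hs2 h2 h3 (by linarith)
    rw [hXs2] at h
    have h4 : cr (S.X t - S.X s) (S.X r - S.X s) = cr (S.X r - S.X t) (S.X s - S.X r) := by
      simp only [cr, Complex.sub_re, Complex.sub_im]
      ring
    rw [h4]
    exact h
  rcases lt_or_ge Real.pi (r - t) with hc2 | hc2
  · have h := Orient_edges S hr hs2 ht2 h3 (by linarith) (by linarith)
    rw [hXs2, hXt2] at h
    have h4 : cr (S.X t - S.X s) (S.X r - S.X s) = cr (S.X s - S.X r) (S.X t - S.X s) := by
      simp only [cr, Complex.sub_re, Complex.sub_im]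
      ring
    rw [h4]
    exact h
  rcases lt_or_ge Real.pi (s + 2 * Real.pi - r) with hc3 | hc3
  · have h := Orient_edges S hs ht hr h1 h2 (by linarith)
    have h4 : cr (S.X t - S.X s) (S.X r - S.X s) = cr (S.X t - S.X s) (S.X r - S.X t) := by
      simp only [cr, Complex.sub_re, Complex.sub_im]
      ring
    rw [h4]
    exact h
  set U : ℂ := S.X t - S.X s with hU
  set V : ℂ := S.X r - S.X s with hV
  have e1 : 0 ≤ ip U (ex t) := le_trans (by positivity) (lens_right S hs ht)
  have e2 : 0 ≤ ip V (ex r) := le_trans (by positivity) (lens_right S hs hr)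
  have e3 : ip U (ex s) ≤ 0 := le_trans (lens_left S hs ht) (by nlinarith [sq_nonneg ‖S.X t - S.X s‖])
  have e4 : ip V (ex s) ≤ 0 := le_trans (lens_left S hs hr) (by nlinarith [sq_nonneg ‖S.X r - S.X s‖])
  have e5 : ip V (ex t) ≤ ip U (ex t) := by
    have h := le_trans (lens_left S ht hr) (by nlinarith [sq_nonneg ‖S.X r - S.X t‖] :
      -‖S.X r - S.X t‖ ^ 2 / 2 ≤ 0)
    have h' : ip (S.X r - S.X t) (ex t) = ip V (ex t) - ip U (ex t) := by
      rw [hU, hV]
      simp only [ip, Complex.sub_re, Complex.sub_im]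
      ring
    linarith
  have e6 : ip U (ex r) ≤ ip V (ex r) := by
    have h := le_trans (by positivity : 0 ≤ ‖S.X r - S.X t‖ ^ 2 / 2) (lens_right S ht hr)
    have h' : ip (S.X r - S.X t) (ex r) = ip V (ex r) - ip U (ex r) := by
      rw [hU, hV]
      simp only [ip, Complex.sub_re, Complex.sub_im]
      ring
    linarith
  have hsin : 0 ≤ Real.sin (r - t) := Real.sin_nonneg_of_nonneg_of_le_pi (by linarith) hc2
  rcases hsin.eq_or_lt with h0 | hpos
  · -- degenerate
    rcases (sub_nonneg.mpr h2).eq_or_lt with hrt | hrt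
    · have : r = t := by linarith
      subst this
      have h5 : cr U V = 0 := by
        rw [hU, hV]
        simp only [cr]
        ring
      rw [h5]
    · have hrt' : r - t = Real.pi := by
        by_contra hne
        have := Real.sin_pos_of_pos_of_lt_pi hrt (lt_of_le_of_ne hc2 hne)
        linarith
      have hr' : r = t + Real.pi := by linarith
      have hXr : S.X r = S.X t - ex t := by rw [hr', S.tail t ht]
      have h5 : cr U V = ip U (nx t) := by
        have : V = U - ex t := by rw [hU, hV, hXr]; ring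
        rw [this]
        simp only [cr, ip, ex, nx, Complex.sub_re, Complex.sub_im]
        ring
      rw [h5]
      exact (ip_nx_right S hs ht h1 (by linarith)).1
  · have hb := Orient_binet U V t r
    have key : 0 ≤ ip U (ex t) * ip V (ex r) - ip U (ex r) * ip V (ex t) := by
      rcases le_or_gt 0 (ip U (ex r)) with hA | hA
      · rcases le_or_gt 0 (ip V (ex t)) with hB | hB
        · nlinarith [mul_nonneg hA hB, mul_nonneg (sub_nonneg.mpr e5) (sub_nonneg.mpr e6),
            mul_nonneg hA (sub_nonneg.mpr e5), mul_nonneg hB (sub_nonneg.mpr e6)]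
        · nlinarith [mul_nonneg e1 e2, mul_nonneg hA (neg_nonneg.mpr hB.le)]
      · rcases le_or_gt 0 (ip V (ex t)) with hB | hB
        · nlinarith [mul_nonneg e1 e2, mul_nonneg hB (neg_nonneg.mpr hA.le)]
        · have t1 := Orient_three U s t r
          have t2 := Orient_three V s t r
          have hβ : 0 ≤ Real.sin (s - r) := by
            have : Real.sin (s - r) = Real.sin (s + 2 * Real.pi - r) := by
              rw [← Real.sin_add_two_pi]
              congr 1
              ring
            rw [this]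
            exact Real.sin_nonneg_of_nonneg_of_le_pi (by linarith) hc3
          have hγ : 0 ≤ Real.sin (t - s) :=
            Real.sin_nonneg_of_nonneg_of_le_pi (by linarith) hc1
          set β := Real.sin (s - r) with hβd
          set γ := Real.sin (t - s) with hγd
          have i1 : γ * (-ip U (ex r)) ≤ β * ip U (ex t) := by
            nlinarith [mul_nonneg hpos.le (neg_nonneg.mpr e3)]
          have i2 : β * (-ip V (ex t)) ≤ γ * ip V (ex r) := by
            nlinarith [mul_nonneg hpos.le (neg_nonneg.mpr e4)]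
          rcases hβ.eq_or_lt with hβ0 | hβpos
          · exfalso
            rw [← hβ0, zero_mul] at i1
            have hγ0 : γ = 0 := by
              by_contra hne
              have : 0 < γ := lt_of_le_of_ne hγ (Ne.symm hne)
              nlinarith [mul_pos this (neg_pos.mpr hA)]
            have hd : Real.sin (r - t) = 0 := by
              have : r - t = -((s - r) + (t - s)) := by ring
              rw [this, Real.sin_neg, Real.sin_add, ← hβd, ← hγd, hγ0, ← hβ0]
              ring
            linarith
          · have hγpos : 0 < γ := by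
              by_contra hne
              have hγ0 : γ = 0 := le_antisymm (not_lt.mp hne) hγ
              rw [hγ0, zero_mul] at i2
              nlinarith [mul_pos hβpos (neg_pos.mpr hB)]
            have i3 := mul_le_mul i1 i2 (by
              have := neg_pos.mpr hB
              positivity) (by positivity)
            have i4 : (β * γ) * (ip U (ex r) * ip V (ex t)) ≤
                (β * γ) * (ip U (ex t) * ip V (ex r)) := by nlinarith
            have i5 := le_of_mul_le_mul_left i4 (mul_pos hβpos hγpos)
            linarith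
    by_contra hneg
    push Not at hneg
    nlinarith [mul_pos (neg_pos.mpr hneg) hpos]

end Pool.Agent.Ruler
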