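import Pool.Agent.Ruler.Basic

/-!
MP_067807_co: the counting theorem by a potential on intervals (finite alphabets, no measure
theory, no continuity).
-/

open Set

namespace Pool.Agent.Ruler

namespace Pot

/-! ### combinatorial lemmas -/

/-- disjoint ordered intervals -/
theorem sum_ordered (S : Finset ℕ) (u v : ℕ → ℝ) (A : ℝ) :
    ∀ B, A ≤ B → (∀ r ∈ S, A ≤ u r ∧ v r ≤ B) → (∀ r ∈ S, ∀ r' ∈ S, r < r' → v r ≤ u r') →
      ∑ r ∈ S, (v r - u r) ≤ B - A := by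
  classical
  induction S using Finset.induction_on_max with
  | empty => intro B hAB _ _; simp; exact hAB
  | insert r0 S hlt ih =>
    intro B hAB h1 h2
    have hnot : r0 ∉ S := fun h => lt_irrefl _ (hlt r0 h)
    rw [Finset.sum_insert hnot]
    have h3 := h1 r0 (Finset.mem_insert_self _ _)
    have := ih (u r0) h3.1 (fun r hr => ⟨(h1 r (Finset.mem_insert_of_mem hr)).1,
      h2 r (Finset.mem_insert_of_mem hr) r0 (Finset.mem_insert_self _ _) (hlt r hr)⟩)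
      (fun r hr r' hr' h => h2 r (Finset.mem_insert_of_mem hr) r' (Finset.mem_insert_of_mem hr') h)
    linarith

theorem sum_overlap (S : Finset ℕ) (u v : ℕ → ℝ) {A B : ℝ} (hAB : A ≤ B) (N : ℕ) (hN : 0 < N)
    (h1 : ∀ r ∈ S, A ≤ u r ∧ v r ≤ B) (h2 : ∀ r ∈ S, ∀ r' ∈ S, r + N ≤ r' → v r ≤ u r') :
    ∑ r ∈ S, (v r - u r) ≤ N * (B - A) := by
  classical
  have hmaps : ∀ r ∈ S, r % N ∈ Finset.range N := fun r _ =>
    Finset.mem_range.2 (Nat.mod_lt _ hN)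
  rw [← Finset.sum_fiberwise_of_maps_to hmaps]
  calc ∑ j ∈ Finset.range N, ∑ r ∈ S with r % N = j, (v r - u r)
      ≤ ∑ j ∈ Finset.range N, (B - A) := by
        refine Finset.sum_le_sum (fun j _ => ?_)
        refine sum_ordered _ u v A B hAB (fun r hr => h1 r (Finset.mem_filter.1 hr).1) ?_
        intro r hr r' hr' hlt
        rw [Finset.mem_filter] at hr hr'
        refine h2 r hr.1 r' hr'.1 ?_
        have e1 : r % N = r' % N := by rw [hr.2, hr'.2]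
        have e2 : N ∣ r' - r := (Nat.modEq_iff_dvd' hlt.le).1 e1
        have e3 := Nat.le_of_dvd (by omega) e2
        omega
    _ = N * (B - A) := by rw [Finset.sum_const, Finset.card_range, nsmul_eq_mul]

theorem sum_overlap' (S : Finset ℕ) (u v : ℕ → ℝ) {A B : ℝ} (hAB : A ≤ B) (N : ℕ) (hN : 0 < N)
    (h1 : ∀ r ∈ S, A ≤ u r ∧ v r ≤ B) (h2 : ∀ r ∈ S, ∀ r' ∈ S, r + N ≤ r' → v r' ≤ u r) :
    ∑ r ∈ S, (v r - u r) ≤ N * (B - A) := by
  have := sum_overlap S (fun r => - v r) (fun r => - u r) (A := -B) (B := -A) (by linarith) N hN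
    (fun r hr => ⟨by linarith [(h1 r hr).2], by linarith [(h1 r hr).1]⟩)
    (fun r hr r' hr' h => by linarith [h2 r hr r' hr' h])
  calc ∑ r ∈ S, (v r - u r) = ∑ r ∈ S, (-u r - -v r) := by
        refine Finset.sum_congr rfl (fun r _ => by ring)
    _ ≤ _ := this
    _ = _ := by ring

/-- number of letters in an interval -/
theorem card_letters (S : Finset ℕ) {m : ℕ} (hm : 0 < m) {α β : ℝ} (hαβ : α ≤ β)
    (h : ∀ r ∈ S, α ≤ ((r : ℝ) + 1) / m ∧ ((r : ℝ) + 1) / m ≤ β) :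
    (S.card : ℝ) ≤ m * (β - α) + 1 := by
  have hm' : (0:ℝ) < m := by exact_mod_cast hm
  rcases S.eq_empty_or_nonempty with rfl | hne
  · simp
    have : 0 ≤ (m:ℝ) * (β - α) := mul_nonneg hm'.le (by linarith)
    linarith
  · have hsub : S ⊆ Finset.Icc (S.min' hne) (S.max' hne) := fun r hr =>
      Finset.mem_Icc.2 ⟨S.min'_le r hr, S.le_max' r hr⟩
    have hc := Finset.card_le_card hsub
    rw [Nat.card_Icc] at hc
    have h1 := (h _ (S.min'_mem hne)).1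
    have h2 := (h _ (S.max'_mem hne)).2
    have h3 := S.min'_le _ (S.max'_mem hne)
    rw [le_div_iff₀ hm'] at h1
    rw [div_le_iff₀ hm'] at h2
    have h4 : (S.card : ℝ) ≤ (S.max' hne : ℝ) + 1 - (S.min' hne : ℝ) := by
      have : (S.card : ℝ) ≤ ((S.max' hne + 1 - S.min' hne : ℕ) : ℝ) := by exact_mod_cast hc
      rw [Nat.cast_sub (by omega)] at this
      push_cast at this
      exact this
    nlinarith

/-! ### one step of the walk -/

/-- letters -/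
noncomputable def Lt (m : ℕ) (r : ℕ) : ℝ := ((r : ℝ) + 1) / m

/-- two functions `lo ≤ up` on the closed bounded set `J`, both monotone: the sets
`{y ∈ J | lo y ≤ L r ≤ up y}` -/
def Ys (J : Set ℝ) (lo up : ℝ → ℝ) (m r : ℕ) : Set ℝ := {y | y ∈ J ∧ lo y ≤ Lt m r ∧ Lt m r ≤ up y}

/-- the letters `r < M` with nonempty set -/
noncomputable def Ss (J : Set ℝ) (lo up : ℝ → ℝ) (m M : ℕ) : Finset ℕ := by
  classical
  exact (Finset.range M).filter (fun r => (Ys J lo up m r).Nonempty)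

theorem mem_Ss {J : Set ℝ} {lo up : ℝ → ℝ} {m M r : ℕ} :
    r ∈ Ss J lo up m M ↔ r < M ∧ (Ys J lo up m r).Nonempty := by
  classical
  simp [Ss]

section step

variable {T : Set ℝ} (hT : IsClosed T) {c d : ℝ} (hc : c ∈ T) (hd : d ∈ T) (hcd : c ≤ d)

include hT in
theorem Ys_sInf_mem {lo up : ℝ → ℝ} {m r : ℕ} (h : (Ys (T ∩ Icc c d) lo up m r).Nonempty) :
    sInf (Ys (T ∩ Icc c d) lo up m r) ∈ T ∩ Icc c d ∧
      sSup (Ys (T ∩ Icc c d) lo up m r) ∈ T ∩ Icc c d := by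
  have hJ : IsClosed (T ∩ Icc c d) := hT.inter isClosed_Icc
  have hsub : Ys (T ∩ Icc c d) lo up m r ⊆ T ∩ Icc c d := fun y hy => hy.1
  have hb1 : BddBelow (Ys (T ∩ Icc c d) lo up m r) := ⟨c, fun y hy => (hsub hy).2.1⟩
  have hb2 : BddAbove (Ys (T ∩ Icc c d) lo up m r) := ⟨d, fun y hy => (hsub hy).2.2⟩
  exact ⟨closure_minimal hsub hJ (csInf_mem_closure h hb1),
    closure_minimal hsub hJ (csSup_mem_closure h hb2)⟩

theorem Ys_mem {lo up : ℝ → ℝ} {m r : ℕ} {y : ℝ} (hy : y ∈ Ys (T ∩ Icc c d) lo up m r) :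
    y ∈ T ∩ Icc (sInf (Ys (T ∩ Icc c d) lo up m r)) (sSup (Ys (T ∩ Icc c d) lo up m r)) := by
  have hsub : Ys (T ∩ Icc c d) lo up m r ⊆ T ∩ Icc c d := fun y hy => hy.1
  have hb1 : BddBelow (Ys (T ∩ Icc c d) lo up m r) := ⟨c, fun y hy => (hsub hy).2.1⟩
  have hb2 : BddAbove (Ys (T ∩ Icc c d) lo up m r) := ⟨d, fun y hy => (hsub hy).2.2⟩
  exact ⟨(hsub hy).1, csInf_le hb1 hy, le_csSup hb2 hy⟩

include hT hc hd hcd

/-- number of letters and total length of the sets, monotone case -/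
theorem step_mono {lo up H : ℝ → ℝ} (hlo : MonotoneOn lo (T ∩ Icc c d))
    (hup : MonotoneOn up (T ∩ Icc c d)) (hle : ∀ y ∈ T ∩ Icc c d, lo y ≤ up y) {D : ℝ}
    (hD : ∀ y ∈ T ∩ Icc c d, up y - lo y ≤ D) (hH : MonotoneOn H (T ∩ Icc c d)) {m : ℕ}
    (hm : 0 < m) (M : ℕ) :
    ((Ss (T ∩ Icc c d) lo up m M).card : ℝ) ≤ m * (up d - lo c) + 1 ∧
    ∑ r ∈ Ss (T ∩ Icc c d) lo up m M, (H (sSup (Ys (T ∩ Icc c d) lo up m r)) -
      H (sInf (Ys (T ∩ Icc c d) lo up m r))) ≤ (m * D + 1) * (H d - H c) := by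
  have hm' : (0:ℝ) < m := by exact_mod_cast hm
  have hcJ : c ∈ T ∩ Icc c d := ⟨hc, le_rfl, hcd⟩
  have hdJ : d ∈ T ∩ Icc c d := ⟨hd, hcd, le_rfl⟩
  have hD0 : 0 ≤ D := by linarith [hD c hcJ, hle c hcJ]
  constructor
  · refine card_letters _ hm ?_ ?_
    · exact (hle c hcJ).trans (hup hcJ hdJ hcd)
    · intro r hr
      obtain ⟨-, y, hy, h1, h2⟩ := mem_Ss.1 hr
      exact ⟨(hlo hcJ hy hy.2.1).trans h1, h2.trans (hup hy hdJ hy.2.2)⟩
  · have hHcd : H c ≤ H d := hH hcJ hdJ hcd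
    have hN : 0 < ⌊(m:ℝ) * D⌋₊ + 1 := by omega
    have key := sum_overlap (Ss (T ∩ Icc c d) lo up m M)
      (fun r => H (sInf (Ys (T ∩ Icc c d) lo up m r)))
      (fun r => H (sSup (Ys (T ∩ Icc c d) lo up m r))) hHcd _ hN ?_ ?_
    · refine key.trans ?_
      refine mul_le_mul_of_nonneg_right ?_ (by linarith)
      push_cast
      linarith [Nat.floor_le (mul_nonneg hm'.le hD0)]
    · intro r hr
      obtain ⟨-, h⟩ := mem_Ss.1 hr
      obtain ⟨h1, h2⟩ := Ys_sInf_mem hT h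
      exact ⟨hH hcJ h1 h1.2.1, hH h2 hdJ h2.2.2⟩
    · intro r hr r' hr' hrr
      obtain ⟨-, h⟩ := mem_Ss.1 hr
      obtain ⟨-, h'⟩ := mem_Ss.1 hr'
      refine hH (Ys_sInf_mem hT h).2 (Ys_sInf_mem hT h').1 ?_
      refine csSup_le h (fun y hy => le_csInf h' (fun y' hy' => ?_))
      by_contra hcon
      rw [not_le] at hcon
      have k1 := hy.2.1
      have k2 := hy'.2.2.trans (hup hy'.1 hy.1 hcon.le)
      have k3 := hD y hy.1
      have k4 : Lt m r' - Lt m r ≤ D := by linarith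
      unfold Lt at k4
      rw [← sub_div, div_le_iff₀ hm'] at k4
      have k5 := Nat.lt_floor_add_one ((m:ℝ) * D)
      have k6 : (r:ℝ) + (⌊(m:ℝ) * D⌋₊ + 1) ≤ r' := by exact_mod_cast hrr
      linarith

/-- number of letters and total length of the sets, antitone case -/
theorem step_anti {lo up H : ℝ → ℝ} (hlo : AntitoneOn lo (T ∩ Icc c d))
    (hup : AntitoneOn up (T ∩ Icc c d)) (hle : ∀ y ∈ T ∩ Icc c d, lo y ≤ up y) {D : ℝ}
    (hD : ∀ y ∈ T ∩ Icc c d, up y - lo y ≤ D) (hH : MonotoneOn H (T ∩ Icc c d)) {m : ℕ}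
    (hm : 0 < m) (M : ℕ) :
    ((Ss (T ∩ Icc c d) lo up m M).card : ℝ) ≤ m * (up c - lo d) + 1 ∧
    ∑ r ∈ Ss (T ∩ Icc c d) lo up m M, (H (sSup (Ys (T ∩ Icc c d) lo up m r)) -
      H (sInf (Ys (T ∩ Icc c d) lo up m r))) ≤ (m * D + 1) * (H d - H c) := by
  have hm' : (0:ℝ) < m := by exact_mod_cast hm
  have hcJ : c ∈ T ∩ Icc c d := ⟨hc, le_rfl, hcd⟩
  have hdJ : d ∈ T ∩ Icc c d := ⟨hd, hcd, le_rfl⟩
  have hD0 : 0 ≤ D := by linarith [hD c hcJ, hle c hcJ]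
  constructor
  · refine card_letters _ hm ?_ ?_
    · exact (hle d hdJ).trans (hup hcJ hdJ hcd)
    · intro r hr
      obtain ⟨-, y, hy, h1, h2⟩ := mem_Ss.1 hr
      exact ⟨(hlo hy hdJ hy.2.2).trans h1, h2.trans (hup hcJ hy hy.2.1)⟩
  · have hHcd : H c ≤ H d := hH hcJ hdJ hcd
    have hN : 0 < ⌊(m:ℝ) * D⌋₊ + 1 := by omega
    have key := sum_overlap' (Ss (T ∩ Icc c d) lo up m M)
      (fun r => H (sInf (Ys (T ∩ Icc c d) lo up m r)))
      (fun r => H (sSup (Ys (T ∩ Icc c d) lo up m r))) hHcd _ hN ?_ ?_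
    · refine key.trans ?_
      refine mul_le_mul_of_nonneg_right ?_ (by linarith)
      push_cast
      linarith [Nat.floor_le (mul_nonneg hm'.le hD0)]
    · intro r hr
      obtain ⟨-, h⟩ := mem_Ss.1 hr
      obtain ⟨h1, h2⟩ := Ys_sInf_mem hT h
      exact ⟨hH hcJ h1 h1.2.1, hH h2 hdJ h2.2.2⟩
    · intro r hr r' hr' hrr
      obtain ⟨-, h⟩ := mem_Ss.1 hr
      obtain ⟨-, h'⟩ := mem_Ss.1 hr'
      refine hH (Ys_sInf_mem hT h').2 (Ys_sInf_mem hT h).1 ?_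
      refine csSup_le h' (fun y' hy' => le_csInf h (fun y hy => ?_))
      by_contra hcon
      rw [not_le] at hcon
      have k1 := hy.2.1
      have k2 := hy'.2.2.trans (hup hy.1 hy'.1 hcon.le)
      have k3 := hD y hy.1
      have k4 : Lt m r' - Lt m r ≤ D := by linarith
      unfold Lt at k4
      rw [← sub_div, div_le_iff₀ hm'] at k4
      have k5 := Nat.lt_floor_add_one ((m:ℝ) * D)
      have k6 : (r:ℝ) + (⌊(m:ℝ) * D⌋₊ + 1) ≤ r' := by exact_mod_cast hrr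
      linarith

end step

/-! ### words -/

/-- a step of length `l` from the state `(x, σ)` to the state `(y, τ)` -/
def Step (F : Bool → Bool → ℝ → ℝ → ℝ) (l : ℝ) (σ τ : Bool) (x y : ℝ) : Prop :=
  F σ τ x y = l ∨ F (!τ) (!σ) y x = l

section words

variable {n : ℕ} (T : Set ℝ) (a b : Fin n → ℝ) (F : Bool → Bool → ℝ → ℝ → ℝ)

/-- the word `w` is realised by a walk through the blocks from the state `(x, σ)` -/
def Rz (m M : ℕ) : (k : ℕ) → (Fin k → Fin M) → Bool → ℝ → Prop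
  | 0, _, _, _ => True
  | k + 1, w, σ, x => ∃ j τ, ∃ y ∈ T ∩ Icc (a j) (b j), Step F (Lt m (w 0)) σ τ x y ∧
      Rz m M k (Fin.tail w) τ y

/-- number of words of length `k` realised from some `x ∈ T ∩ [x₁, x₂]` -/
noncomputable def Nw (m M k : ℕ) (σ : Bool) (x₁ x₂ : ℝ) : ℝ := by
  classical
  exact ∑ w : Fin k → Fin M, if ∃ x ∈ T ∩ Icc x₁ x₂, Rz T a b F m M k w σ x then 1 else 0

/-- lower and upper functions of the two kinds of steps -/
noncomputable def loF (e : Bool) (σ τ : Bool) (x₁ x₂ y : ℝ) : ℝ :=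
  if e = true then F σ τ x₂ y else F (!τ) (!σ) y x₁
noncomputable def upF (e : Bool) (σ τ : Bool) (x₁ x₂ y : ℝ) : ℝ :=
  if e = true then F σ τ x₁ y else F (!τ) (!σ) y x₂

/-- the child sets -/
noncomputable def Yc (m : ℕ) (e σ τ : Bool) (j : Fin n) (x₁ x₂ : ℝ) (r : ℕ) : Set ℝ :=
  Ys (T ∩ Icc (a j) (b j)) (loF F e σ τ x₁ x₂) (upF F e σ τ x₁ x₂) m r

variable {T a b F}

theorem Nw_nonneg (m M k : ℕ) (σ : Bool) (x₁ x₂ : ℝ) : 0 ≤ Nw T a b F m M k σ x₁ x₂ := by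
  unfold Nw
  exact Finset.sum_nonneg (fun w _ => by split_ifs <;> norm_num)

theorem step_mem {i : Fin n} {σ τ : Bool} {j : Fin n} {m r : ℕ} {x₁ x₂ x y : ℝ}
    (hanti : ∀ σ τ i j, ∀ y ∈ T ∩ Icc (a j) (b j),
      AntitoneOn (fun x => F σ τ x y) (T ∩ Icc (a i) (b i)))
    (hmono : ∀ σ τ i j, ∀ x ∈ T ∩ Icc (a i) (b i),
      MonotoneOn (fun y => F σ τ x y) (T ∩ Icc (a j) (b j)))
    (h1 : x₁ ∈ T ∩ Icc (a i) (b i)) (h2 : x₂ ∈ T ∩ Icc (a i) (b i)) (hx : x ∈ T ∩ Icc x₁ x₂)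
    (hy : y ∈ T ∩ Icc (a j) (b j)) (hs : Step F (Lt m r) σ τ x y) :
    ∃ e, y ∈ Yc T a b F m e σ τ j x₁ x₂ r := by
  have hx' : x ∈ T ∩ Icc (a i) (b i) := ⟨hx.1, h1.2.1.trans hx.2.1, hx.2.2.trans h2.2.2⟩
  rcases hs with h | h
  · refine ⟨true, hy, ?_, ?_⟩
    · simp only [loF, if_true]
      rw [← h]
      exact hanti σ τ i j y hy hx' h2 hx.2.2
    · simp only [upF, if_true]
      rw [← h]
      exact hanti σ τ i j y hy h1 hx' hx.2.1
  · refine ⟨false, hy, ?_, ?_⟩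
    · simp only [loF, Bool.false_eq_true, if_false]
      rw [← h]
      exact hmono (!τ) (!σ) j i y hy h1 hx' hx.2.1
    · simp only [upF, Bool.false_eq_true, if_false]
      rw [← h]
      exact hmono (!τ) (!σ) j i y hy hx' h2 hx.2.2

/-- recursion for the number of words -/
theorem Nw_succ {i : Fin n} {σ : Bool} {m M k : ℕ} {x₁ x₂ : ℝ}
    (hanti : ∀ σ τ i j, ∀ y ∈ T ∩ Icc (a j) (b j),
      AntitoneOn (fun x => F σ τ x y) (T ∩ Icc (a i) (b i)))
    (hmono : ∀ σ τ i j, ∀ x ∈ T ∩ Icc (a i) (b i),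
      MonotoneOn (fun y => F σ τ x y) (T ∩ Icc (a j) (b j)))
    (h1 : x₁ ∈ T ∩ Icc (a i) (b i)) (h2 : x₂ ∈ T ∩ Icc (a i) (b i)) :
    Nw T a b F m M (k + 1) σ x₁ x₂ ≤ ∑ q : Fin n × Bool, ∑ e : Bool,
      ∑ r ∈ Ss (T ∩ Icc (a q.1) (b q.1)) (loF F e σ q.2 x₁ x₂) (upF F e σ q.2 x₁ x₂) m M,
        Nw T a b F m M k q.2 (sInf (Yc T a b F m e σ q.2 q.1 x₁ x₂ r))
          (sSup (Yc T a b F m e σ q.2 q.1 x₁ x₂ r)) := by
  classical
  -- the sum over words as a double sum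
  have e1 : Nw T a b F m M (k + 1) σ x₁ x₂ = ∑ r : Fin M, ∑ w : Fin k → Fin M,
      if ∃ x ∈ T ∩ Icc x₁ x₂, Rz T a b F m M (k + 1) (Fin.cons r w) σ x then (1:ℝ) else 0 := by
    unfold Nw
    rw [← Fintype.sum_prod_type']
    refine (Fintype.sum_equiv (Fin.consEquiv (fun _ => Fin M)) _ _ (fun p => ?_)).symm
    rfl
  rw [e1]
  have e2 : ∀ r : Fin M, ∀ w : Fin k → Fin M,
      (if ∃ x ∈ T ∩ Icc x₁ x₂, Rz T a b F m M (k + 1) (Fin.cons r w) σ x then (1:ℝ) else 0) ≤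
      ∑ q : Fin n × Bool, ∑ e : Bool, if (Yc T a b F m e σ q.2 q.1 x₁ x₂ r).Nonempty then
        (if ∃ y ∈ T ∩ Icc (sInf (Yc T a b F m e σ q.2 q.1 x₁ x₂ r))
          (sSup (Yc T a b F m e σ q.2 q.1 x₁ x₂ r)), Rz T a b F m M k w q.2 y then (1:ℝ) else 0)
        else 0 := by
    intro r w
    have hnn : ∀ q : Fin n × Bool, ∀ e : Bool, (0:ℝ) ≤
        if (Yc T a b F m e σ q.2 q.1 x₁ x₂ r).Nonempty then
        (if ∃ y ∈ T ∩ Icc (sInf (Yc T a b F m e σ q.2 q.1 x₁ x₂ r))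
          (sSup (Yc T a b F m e σ q.2 q.1 x₁ x₂ r)), Rz T a b F m M k w q.2 y then (1:ℝ) else 0)
        else 0 := by
      intro q e
      split_ifs <;> norm_num
    split_ifs with h
    · obtain ⟨x, hx, j, τ, y, hy, hs, hr⟩ := h
      simp only [Fin.cons_zero, Fin.tail_cons] at hs hr
      obtain ⟨e, he⟩ := step_mem hanti hmono h1 h2 hx hy hs
      refine le_trans ?_ (Finset.single_le_sum (f := fun q : Fin n × Bool => ∑ e : Bool,
        if (Yc T a b F m e σ q.2 q.1 x₁ x₂ r).Nonempty then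
        (if ∃ y ∈ T ∩ Icc (sInf (Yc T a b F m e σ q.2 q.1 x₁ x₂ r))
          (sSup (Yc T a b F m e σ q.2 q.1 x₁ x₂ r)), Rz T a b F m M k w q.2 y then (1:ℝ) else 0)
        else 0) (fun q _ => Finset.sum_nonneg (fun e _ => hnn q e)) (Finset.mem_univ (j, τ)))
      refine le_trans ?_ (Finset.single_le_sum (f := fun e : Bool =>
        if (Yc T a b F m e σ τ j x₁ x₂ r).Nonempty then
        (if ∃ y ∈ T ∩ Icc (sInf (Yc T a b F m e σ τ j x₁ x₂ r))
          (sSup (Yc T a b F m e σ τ j x₁ x₂ r)), Rz T a b F m M k w τ y then (1:ℝ) else 0)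
        else 0) (fun e _ => hnn (j, τ) e) (Finset.mem_univ e))
      have h3 : (Yc T a b F m e σ τ j x₁ x₂ r).Nonempty := ⟨y, he⟩
      have h4 : ∃ y ∈ T ∩ Icc (sInf (Yc T a b F m e σ τ j x₁ x₂ r))
          (sSup (Yc T a b F m e σ τ j x₁ x₂ r)), Rz T a b F m M k w τ y :=
        ⟨y, Ys_mem he, hr⟩
      rw [if_pos h3, if_pos h4]
    · exact Finset.sum_nonneg (fun q _ => Finset.sum_nonneg (fun e _ => hnn q e))
  refine (Finset.sum_le_sum (fun r _ => Finset.sum_le_sum (fun w _ => e2 r w))).trans ?_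
  -- exchange the sums
  have e3 : ∑ r : Fin M, ∑ w : Fin k → Fin M, ∑ q : Fin n × Bool, ∑ e : Bool,
      (if (Yc T a b F m e σ q.2 q.1 x₁ x₂ r).Nonempty then
        (if ∃ y ∈ T ∩ Icc (sInf (Yc T a b F m e σ q.2 q.1 x₁ x₂ r))
          (sSup (Yc T a b F m e σ q.2 q.1 x₁ x₂ r)), Rz T a b F m M k w q.2 y then (1:ℝ) else 0)
        else 0) = ∑ q : Fin n × Bool, ∑ e : Bool, ∑ r : Fin M,
        if (Yc T a b F m e σ q.2 q.1 x₁ x₂ r).Nonempty then
          Nw T a b F m M k q.2 (sInf (Yc T a b F m e σ q.2 q.1 x₁ x₂ r))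
          (sSup (Yc T a b F m e σ q.2 q.1 x₁ x₂ r)) else 0 := by
    have : ∀ r : Fin M, ∑ w : Fin k → Fin M, ∑ q : Fin n × Bool, ∑ e : Bool,
      (if (Yc T a b F m e σ q.2 q.1 x₁ x₂ r).Nonempty then
        (if ∃ y ∈ T ∩ Icc (sInf (Yc T a b F m e σ q.2 q.1 x₁ x₂ r))
          (sSup (Yc T a b F m e σ q.2 q.1 x₁ x₂ r)), Rz T a b F m M k w q.2 y then (1:ℝ) else 0)
        else 0) = ∑ q : Fin n × Bool, ∑ e : Bool,
        if (Yc T a b F m e σ q.2 q.1 x₁ x₂ r).Nonempty then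
          Nw T a b F m M k q.2 (sInf (Yc T a b F m e σ q.2 q.1 x₁ x₂ r))
          (sSup (Yc T a b F m e σ q.2 q.1 x₁ x₂ r)) else 0 := by
      intro r
      rw [Finset.sum_comm]
      refine Finset.sum_congr rfl (fun q _ => ?_)
      rw [Finset.sum_comm]
      refine Finset.sum_congr rfl (fun e _ => ?_)
      split_ifs with h
      · unfold Nw
        rfl
      · simp
    rw [Finset.sum_congr rfl (fun r _ => this r), Finset.sum_comm]
    refine Finset.sum_congr rfl (fun q _ => ?_)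
    rw [Finset.sum_comm]
  rw [e3]
  refine Finset.sum_le_sum (fun q _ => Finset.sum_le_sum (fun e _ => le_of_eq ?_))
  rw [Fin.sum_univ_eq_sum_range (fun r => if (Yc T a b F m e σ q.2 q.1 x₁ x₂ r).Nonempty then
    Nw T a b F m M k q.2 (sInf (Yc T a b F m e σ q.2 q.1 x₁ x₂ r))
    (sSup (Yc T a b F m e σ q.2 q.1 x₁ x₂ r)) else 0) M]
  rw [← Finset.sum_filter]
  refine Finset.sum_congr ?_ (fun r _ => rfl)
  ext r
  rw [Finset.mem_filter, Finset.mem_range, mem_Ss]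
  rfl

/-- all words -/
theorem total_words {m M k : ℕ} (hm : m = M + 1)
    (hchain : ∀ k : ℕ, ∀ l : ℕ → ℝ, (∀ i < k, 0 < l i ∧ l i < 1) →
      ∃ θ : ℕ → ℝ, ∃ σ : ℕ → Bool, (∀ i ≤ k, ∃ j, θ i ∈ T ∩ Icc (a j) (b j)) ∧
        ∀ i < k, Step F (l i) (σ i) (σ (i + 1)) (θ i) (θ (i + 1))) :
    (M : ℝ) ^ k ≤ ∑ p : Fin n × Bool, Nw T a b F m M k p.2 (a p.1) (b p.1) := by
  classical
  have e1 : (M : ℝ) ^ k = ∑ w : Fin k → Fin M, (1:ℝ) := by
    simp
  rw [e1]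
  unfold Nw
  rw [Finset.sum_comm]
  refine Finset.sum_le_sum (fun w _ => ?_)
  -- the word `w` is realised
  have key : ∃ p : Fin n × Bool, ∃ x ∈ T ∩ Icc (a p.1) (b p.1), Rz T a b F m M k w p.2 x := by
    set l : ℕ → ℝ := fun i => if h : i < k then Lt m (w ⟨i, h⟩) else 1 / 2 with hl
    obtain ⟨θ, σ, h1, h2⟩ := hchain k l (fun i hi => by
      rw [hl]
      simp only [hi, dif_pos]
      unfold Lt
      have hM : 0 < m := by omega
      have hM' : (0:ℝ) < m := by exact_mod_cast hM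
      constructor
      · positivity
      · rw [div_lt_one hM', hm]
        push_cast
        have := (w ⟨i, hi⟩).2
        have h3 : (((w ⟨i, hi⟩ : Fin M) : ℕ) : ℝ) < M := by exact_mod_cast this
        linarith)
    -- induction
    have gen : ∀ k' : ℕ, ∀ w' : Fin k' → Fin M, ∀ s : ℕ, s + k' = k →
        (∀ i (hi : i < k'), Lt m (w' ⟨i, hi⟩) = l (s + i)) → Rz T a b F m M k' w' (σ s) (θ s) := by
      intro k'
      induction k' with
      | zero => intro w' s _ _; trivial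
      | succ k' ih =>
        intro w' s hs hw'
        obtain ⟨j, hj⟩ := h1 (s + 1) (by omega)
        refine ⟨j, σ (s + 1), θ (s + 1), hj, ?_, ih (Fin.tail w') (s + 1) (by omega) ?_⟩
        · have := h2 s (by omega)
          have h4 := hw' 0 (by omega)
          rw [add_zero] at h4
          rw [← h4] at this
          exact this
        · intro i hi
          have := hw' (i + 1) (by omega)
          rw [show s + (i + 1) = s + 1 + i by ring] at this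
          rw [← this]
          rfl
    obtain ⟨j, hj⟩ := h1 0 (by omega)
    refine ⟨(j, σ 0), θ 0, hj, gen k w 0 (by omega) (fun i hi => ?_)⟩
    rw [hl]
    simp [hi]
  obtain ⟨p, hp⟩ := key
  refine le_trans ?_ (Finset.single_le_sum (f := fun p : Fin n × Bool =>
    if ∃ x ∈ T ∩ Icc (a p.1) (b p.1), Rz T a b F m M k w p.2 x then (1:ℝ) else 0)
    (fun q _ => by split_ifs <;> norm_num) (Finset.mem_univ p))
  rw [if_pos hp]

end words

/-! ### the potential -/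

section main

variable {n : ℕ} {T : Set ℝ} {a b : Fin n → ℝ} {F : Bool → Bool → ℝ → ℝ → ℝ}

/-- the opposite end of the same block -/
def op (p : Fin n × Bool) : Fin n × Bool := (p.1, !p.2)

theorem op_op (p : Fin n × Bool) : op (op p) = p := by
  simp [op]

def opE : (Fin n × Bool) ≃ (Fin n × Bool) := ⟨op, op, op_op, op_op⟩

theorem sum_op (f : Fin n × Bool → ℝ) : ∑ q, f (op q) = ∑ q, f q :=
  Equiv.sum_comp opE f

/-- **The counting theorem.** -/
theorem counting (hT : IsClosed T) (ha : ∀ i, a i ∈ T) (hb : ∀ i, b i ∈ T)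
    (hab : ∀ i, a i ≤ b i)
    (hanti : ∀ σ τ i j, ∀ y ∈ T ∩ Icc (a j) (b j),
      AntitoneOn (fun x => F σ τ x y) (T ∩ Icc (a i) (b i)))
    (hmono : ∀ σ τ i j, ∀ x ∈ T ∩ Icc (a i) (b i),
      MonotoneOn (fun y => F σ τ x y) (T ∩ Icc (a j) (b j)))
    (H : Fin n → Bool → ℝ → ℝ) (hH : ∀ i σ, MonotoneOn (H i σ) (T ∩ Icc (a i) (b i)))
    (k₁ k₂ : Fin n × Bool → Fin n × Bool → ℝ) (hk₁ : ∀ p q, 0 ≤ k₁ p q) (hk₂ : ∀ p q, 0 ≤ k₂ p q)
    (hk : ∀ p q, 0 < k₁ p q + k₂ p q)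
    (hsymm : ∀ p q, k₁ p q + k₂ p q = k₁ q p + k₂ q p)
    (hV₁ : ∀ i j σ τ, ∀ x ∈ T ∩ Icc (a i) (b i), ∀ y₁ ∈ T ∩ Icc (a j) (b j),
      ∀ y₂ ∈ T ∩ Icc (a j) (b j), y₁ ≤ y₂ →
      F σ τ x y₂ - F σ τ x y₁ ≤ (H j (!τ) y₂ - H j (!τ) y₁) * k₁ (i, σ) (j, τ))
    (hV₂ : ∀ i j σ τ, ∀ x ∈ T ∩ Icc (a i) (b i), ∀ y₁ ∈ T ∩ Icc (a j) (b j),
      ∀ y₂ ∈ T ∩ Icc (a j) (b j), y₁ ≤ y₂ →
      F (!τ) (!σ) y₁ x - F (!τ) (!σ) y₂ x ≤ (H j (!τ) y₂ - H j (!τ) y₁) * k₂ (i, σ) (j, τ))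
    (hchain : ∀ k : ℕ, ∀ l : ℕ → ℝ, (∀ i < k, 0 < l i ∧ l i < 1) →
      ∃ θ : ℕ → ℝ, ∃ σ : ℕ → Bool, (∀ i ≤ k, ∃ j, θ i ∈ T ∩ Icc (a j) (b j)) ∧
        ∀ i < k, Step F (l i) (σ i) (σ (i + 1)) (θ i) (θ (i + 1)))
    (μ : Fin n × Bool → ℝ) (hμ : ∀ p, 0 < μ p)
    (hμH : ∀ i σ, H i (!σ) (b i) - H i (!σ) (a i) ≤ μ (i, σ)) :
    1 ≤ ∑ p, ∑ q, μ p * (k₁ p q + k₂ p q) ^ 2 * μ q := by
  classical
  by_contra hcon
  rw [not_le] at hcon
  set kk : Fin n × Bool → Fin n × Bool → ℝ := fun p q => k₁ p q + k₂ p q with hkk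
  set Λ := ∑ p, ∑ q, μ p * (k₁ p q + k₂ p q) ^ 2 * μ q with hΛ
  have hΛ0 : 0 ≤ Λ := Finset.sum_nonneg (fun p _ => Finset.sum_nonneg (fun q _ =>
    mul_nonneg (mul_nonneg (hμ p).le (sq_nonneg _)) (hμ q).le))
  set v : Fin n × Bool → ℝ := fun p => Real.sqrt (∑ q, kk p q ^ 2 * μ q) with hv
  have hv2 : ∀ p, v p ^ 2 = ∑ q, kk p q ^ 2 * μ q := fun p =>
    Real.sq_sqrt (Finset.sum_nonneg (fun q _ => mul_nonneg (sq_nonneg _) (hμ q).le))
  have hvpos : ∀ p, 0 < v p := by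
    intro p
    apply Real.sqrt_pos.2
    exact Finset.sum_pos (fun q _ => mul_pos (pow_pos (hk p q) 2) (hμ q)) ⟨p, Finset.mem_univ p⟩
  set lam := Real.sqrt Λ with hlam
  have hlam0 : 0 ≤ lam := Real.sqrt_nonneg _
  have hlam1 : lam < 1 := by
    rw [hlam, Real.sqrt_lt' one_pos]
    simpa using hcon
  -- sub-eigenvector
  have hcs : ∀ p, ∑ q, kk p q * μ q * v q ≤ lam * v p := by
    intro p
    have h1 := Finset.sum_mul_sq_le_sq_mul_sq Finset.univ (fun q => kk p q * Real.sqrt (μ q))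
      (fun q => Real.sqrt (μ q) * v q)
    have e1 : ∀ q, kk p q * Real.sqrt (μ q) * (Real.sqrt (μ q) * v q) = kk p q * μ q * v q := by
      intro q
      have := Real.mul_self_sqrt (hμ q).le
      calc kk p q * Real.sqrt (μ q) * (Real.sqrt (μ q) * v q)
          = kk p q * (Real.sqrt (μ q) * Real.sqrt (μ q)) * v q := by ring
        _ = _ := by rw [this]
    have e2 : ∑ q, (kk p q * Real.sqrt (μ q)) ^ 2 = v p ^ 2 := by
      rw [hv2]
      refine Finset.sum_congr rfl (fun q _ => ?_)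
      rw [mul_pow, Real.sq_sqrt (hμ q).le]
    have e3 : ∑ q, (Real.sqrt (μ q) * v q) ^ 2 = Λ := by
      rw [hΛ]
      refine Finset.sum_congr rfl (fun q _ => ?_)
      rw [mul_pow, Real.sq_sqrt (hμ q).le, hv2, Finset.mul_sum]
      refine Finset.sum_congr rfl (fun r _ => ?_)
      simp only [hkk]
      ring
    rw [Finset.sum_congr rfl (fun q _ => e1 q), e2, e3] at h1
    have h2 : 0 ≤ lam * v p := mul_nonneg hlam0 (hvpos p).le
    refine abs_le_of_sq_le_sq' ?_ h2 |>.2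
    rw [mul_pow, hlam, Real.sq_sqrt hΛ0]
    linarith
  -- constants
  obtain ⟨δ, hδ0, hδ⟩ : ∃ δ : ℝ, 0 < δ ∧ ∀ p, δ ≤ v p := by
    rcases isEmpty_or_nonempty (Fin n × Bool) with he | he
    · exact ⟨1, one_pos, fun p => (he.false p).elim⟩
    · obtain ⟨p, hp⟩ := Finite.exists_min v
      exact ⟨v p, hvpos p, hp⟩
  set lam' := (lam + 1) / 2 with hlam'
  set ε := (1 - lam) / 2 with hε
  have hε0 : 0 < ε := by rw [hε]; linarith
  have hle' : lam' = lam + ε := by rw [hlam', hε]; ring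
  set E := ∑ p, ∑ q, kk (op q) (op p) * v q with hE
  have hE0 : 0 ≤ E := Finset.sum_nonneg (fun p _ => Finset.sum_nonneg (fun q _ =>
    mul_nonneg (hk _ _).le (hvpos q).le))
  have hEp : ∀ p, ∑ q, kk (op q) (op p) * v q ≤ E := fun p =>
    Finset.single_le_sum (f := fun p => ∑ q, kk (op q) (op p) * v q)
      (fun p _ => Finset.sum_nonneg (fun q _ => mul_nonneg (hk _ _).le (hvpos q).le))
      (Finset.mem_univ p)
  set C := E / (ε * δ) with hC
  have hC0 : 0 ≤ C := div_nonneg hE0 (mul_pos hε0 hδ0).le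
  have hCE : C * (ε * δ) = E := div_mul_cancel₀ _ (mul_pos hε0 hδ0).ne'
  set K0 := 2 * ∑ q, v q + 2 * C * ∑ q, v (op q) * μ (op q) with hK0
  obtain ⟨M, hM1, hM2⟩ : ∃ M : ℕ, K0 ≤ ((M : ℝ) + 1) * (ε * δ) ∧ lam' * ((M:ℝ) + 1) < M := by
    obtain ⟨M1, hM1⟩ := exists_nat_ge (K0 / (ε * δ))
    obtain ⟨M2, hM2⟩ := exists_nat_gt (lam' / ε)
    refine ⟨max M1 M2, ?_, ?_⟩
    · rw [div_le_iff₀ (mul_pos hε0 hδ0)] at hM1
      have : (M1 : ℝ) ≤ ((max M1 M2 : ℕ) : ℝ) := by exact_mod_cast le_max_left _ _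
      have h3 := mul_pos hε0 hδ0
      nlinarith
    · rw [div_lt_iff₀ hε0] at hM2
      have : (M2 : ℝ) ≤ ((max M1 M2 : ℕ) : ℝ) := by exact_mod_cast le_max_right _ _
      have h4 : 1 - lam' = ε := by rw [hlam', hε]; ring
      nlinarith
  set m := M + 1 with hm
  have hm0 : 0 < m := by omega
  have hmR : (m : ℝ) = (M:ℝ) + 1 := by rw [hm]; push_cast; ring
  have hmR0 : (0:ℝ) < m := by exact_mod_cast hm0
  -- the potential
  set Z : Fin n × Bool → ℝ → ℝ → ℝ := fun p x₁ x₂ =>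
    v p + C * v (op p) * (H p.1 p.2 x₂ - H p.1 p.2 x₁) with hZ
  have hstep : ∀ p : Fin n × Bool, ∀ x₁ ∈ T ∩ Icc (a p.1) (b p.1),
      ∀ x₂ ∈ T ∩ Icc (a p.1) (b p.1), x₁ ≤ x₂ →
      ∑ q : Fin n × Bool, ∑ e : Bool,
      ∑ r ∈ Ss (T ∩ Icc (a q.1) (b q.1)) (loF F e p.2 q.2 x₁ x₂) (upF F e p.2 q.2 x₁ x₂) m M,
        Z q (sInf (Yc T a b F m e p.2 q.2 q.1 x₁ x₂ r))
          (sSup (Yc T a b F m e p.2 q.2 q.1 x₁ x₂ r)) ≤ m * lam' * Z p x₁ x₂ := by
    rintro ⟨i, σ⟩ x₁ h1 x₂ h2 h12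
    simp only at h1 h2 ⊢
    set ΔH := H i σ x₂ - H i σ x₁ with hΔ
    have hΔ0 : 0 ≤ ΔH := sub_nonneg.2 (hH i σ h1 h2 h12)
    have hq : ∀ q : Fin n × Bool, ∑ e : Bool,
      ∑ r ∈ Ss (T ∩ Icc (a q.1) (b q.1)) (loF F e σ q.2 x₁ x₂) (upF F e σ q.2 x₁ x₂) m M,
        Z q (sInf (Yc T a b F m e σ q.2 q.1 x₁ x₂ r))
          (sSup (Yc T a b F m e σ q.2 q.1 x₁ x₂ r)) ≤
        m * (kk (i, σ) q * μ q * v q) + m * ΔH * (kk (op q) (op (i, σ)) * v q) + 2 * v q +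
        C * (m * ΔH * (kk (op q) (op (i, σ)) * μ (op q) * v (op q)) +
          2 * (v (op q) * μ (op q))) := by
      rintro ⟨j, τ⟩
      simp only
      have haj : a j ∈ T ∩ Icc (a j) (b j) := ⟨ha j, le_rfl, hab j⟩
      have hbj : b j ∈ T ∩ Icc (a j) (b j) := ⟨hb j, hab j, le_rfl⟩
      -- the two kinds of steps
      have t1 := step_mono hT (ha j) (hb j) (hab j) (lo := loF F true σ τ x₁ x₂)
        (up := upF F true σ τ x₁ x₂) (H := H j τ)
        (fun y hy y' hy' h => by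
          simpa only [loF, if_true] using hmono σ τ i j x₂ h2 hy hy' h)
        (fun y hy y' hy' h => by
          simpa only [upF, if_true] using hmono σ τ i j x₁ h1 hy hy' h)
        (fun y hy => by
          simpa only [loF, upF, if_true] using hanti σ τ i j y hy h1 h2 h12)
        (D := ΔH * k₂ (op (j, τ)) (op (i, σ)))
        (fun y hy => by
          have := hV₂ j i (!τ) (!σ) y hy x₁ h1 x₂ h2 h12
          simpa only [loF, upF, if_true, Bool.not_not, op] using this)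
        (hH j τ) hm0 M
      have t2 := step_anti hT (ha j) (hb j) (hab j) (lo := loF F false σ τ x₁ x₂)
        (up := upF F false σ τ x₁ x₂) (H := H j τ)
        (fun y hy y' hy' h => by
          simpa only [loF, Bool.false_eq_true, if_false] using hanti (!τ) (!σ) j i x₁ h1 hy hy' h)
        (fun y hy y' hy' h => by
          simpa only [upF, Bool.false_eq_true, if_false] using hanti (!τ) (!σ) j i x₂ h2 hy hy' h)
        (fun y hy => by
          simpa only [loF, upF, Bool.false_eq_true, if_false] using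
            hmono (!τ) (!σ) j i y hy h1 h2 h12)
        (D := ΔH * k₁ (op (j, τ)) (op (i, σ)))
        (fun y hy => by
          have := hV₁ j i (!τ) (!σ) y hy x₁ h1 x₂ h2 h12
          simpa only [loF, upF, Bool.false_eq_true, if_false, Bool.not_not, op] using this)
        (hH j τ) hm0 M
      have hb1 := hV₁ i j σ τ x₁ h1 (a j) haj (b j) hbj (hab j)
      have hb2 := hV₂ i j σ τ x₁ h1 (a j) haj (b j) hbj (hab j)
      have hb3 := hV₂ j i (!τ) (!σ) (a j) haj x₁ h1 x₂ h2 h12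
      have hb4 := hV₁ j i (!τ) (!σ) (a j) haj x₁ h1 x₂ h2 h12
      have hm1 := hμH j τ
      have hm2 := hμH j (!τ)
      simp only [Bool.not_not] at hb3 hb4 hm2
      have hc1 : (H j (!τ) (b j) - H j (!τ) (a j)) * k₁ (i, σ) (j, τ) ≤
          μ (j, τ) * k₁ (i, σ) (j, τ) := mul_le_mul_of_nonneg_right hm1 (hk₁ _ _)
      have hc2 : (H j (!τ) (b j) - H j (!τ) (a j)) * k₂ (i, σ) (j, τ) ≤
          μ (j, τ) * k₂ (i, σ) (j, τ) := mul_le_mul_of_nonneg_right hm1 (hk₂ _ _)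
      have hsum : ∀ (e : Bool) (S : Finset ℕ), ∑ r ∈ S, Z (j, τ)
          (sInf (Yc T a b F m e σ τ j x₁ x₂ r)) (sSup (Yc T a b F m e σ τ j x₁ x₂ r)) =
          (S.card : ℝ) * v (j, τ) + C * v (op (j, τ)) * ∑ r ∈ S,
            (H j τ (sSup (Yc T a b F m e σ τ j x₁ x₂ r)) -
              H j τ (sInf (Yc T a b F m e σ τ j x₁ x₂ r))) := by
        intro e S
        simp only [hZ]
        rw [Finset.sum_add_distrib, Finset.sum_const, nsmul_eq_mul, ← Finset.mul_sum]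
      rw [Fintype.sum_bool, hsum true, hsum false]
      have hvq := hvpos (j, τ)
      have hvo := hvpos (op (j, τ))
      have hCv : 0 ≤ C * v (op (j, τ)) := mul_nonneg hC0 hvo.le
      have hHj : H j τ (b j) - H j τ (a j) ≤ μ (op (j, τ)) := hm2
      have hD1 : 0 ≤ (m:ℝ) * (ΔH * k₂ (op (j, τ)) (op (i, σ))) + 1 := by
        have := mul_nonneg hmR0.le (mul_nonneg hΔ0 (hk₂ (op (j, τ)) (op (i, σ))))
        linarith
      have hD2 : 0 ≤ (m:ℝ) * (ΔH * k₁ (op (j, τ)) (op (i, σ))) + 1 := by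
        have := mul_nonneg hmR0.le (mul_nonneg hΔ0 (hk₁ (op (j, τ)) (op (i, σ))))
        linarith
      have l1 := t1.2.trans (mul_le_mul_of_nonneg_left hHj hD1)
      have l2 := t2.2.trans (mul_le_mul_of_nonneg_left hHj hD2)
      have l1' := mul_le_mul_of_nonneg_left l1 hCv
      have l2' := mul_le_mul_of_nonneg_left l2 hCv
      have c1 : (m:ℝ) * (upF F true σ τ x₁ x₂ (b j) - loF F true σ τ x₁ x₂ (a j)) + 1 ≤
          m * (μ (j, τ) * k₁ (i, σ) (j, τ) + ΔH * k₂ (op (j, τ)) (op (i, σ))) + 1 := by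
        have : upF F true σ τ x₁ x₂ (b j) - loF F true σ τ x₁ x₂ (a j) ≤
            μ (j, τ) * k₁ (i, σ) (j, τ) + ΔH * k₂ (op (j, τ)) (op (i, σ)) := by
          simp only [upF, loF, if_true, op]
          linarith
        linarith [mul_le_mul_of_nonneg_left this hmR0.le]
      have c2 : (m:ℝ) * (upF F false σ τ x₁ x₂ (a j) - loF F false σ τ x₁ x₂ (b j)) + 1 ≤
          m * (μ (j, τ) * k₂ (i, σ) (j, τ) + ΔH * k₁ (op (j, τ)) (op (i, σ))) + 1 := by
        have : upF F false σ τ x₁ x₂ (a j) - loF F false σ τ x₁ x₂ (b j) ≤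
            μ (j, τ) * k₂ (i, σ) (j, τ) + ΔH * k₁ (op (j, τ)) (op (i, σ)) := by
          simp only [upF, loF, Bool.false_eq_true, if_false, op]
          linarith
        linarith [mul_le_mul_of_nonneg_left this hmR0.le]
      have n1 := mul_le_mul_of_nonneg_right (t1.1.trans c1) hvq.le
      have n2 := mul_le_mul_of_nonneg_right (t2.1.trans c2) hvq.le
      simp only [hkk]
      unfold Yc
      linarith
    refine (Finset.sum_le_sum (fun q _ => hq q)).trans ?_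
    have s1 : ∑ q, (m * (kk (i, σ) q * μ q * v q) + m * ΔH * (kk (op q) (op (i, σ)) * v q) +
        2 * v q + C * (m * ΔH * (kk (op q) (op (i, σ)) * μ (op q) * v (op q)) +
          2 * (v (op q) * μ (op q)))) =
        m * ∑ q, kk (i, σ) q * μ q * v q + m * ΔH * ∑ q, kk (op q) (op (i, σ)) * v q +
        C * (m * ΔH * ∑ q, kk (op q) (op (i, σ)) * μ (op q) * v (op q)) + K0 := by
      rw [hK0]
      simp only [Finset.sum_add_distrib, ← Finset.mul_sum]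
      ring
    rw [s1]
    have s2 : ∑ q, kk (op q) (op (i, σ)) * μ (op q) * v (op q) ≤ lam * v (op (i, σ)) := by
      rw [sum_op (fun q => kk q (op (i, σ)) * μ q * v q)]
      refine le_trans (le_of_eq ?_) (hcs (op (i, σ)))
      refine Finset.sum_congr rfl (fun q _ => ?_)
      have : kk q (op (i, σ)) = kk (op (i, σ)) q := hsymm _ _
      rw [this]
    have s3 := hcs (i, σ)
    have s4 := hEp (i, σ)
    have s5 := hδ (i, σ)
    have s6 := hδ (op (i, σ))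
    simp only [hZ]
    rw [← hΔ, hle']
    have u1 := mul_le_mul_of_nonneg_left s3 hmR0.le
    have u2 := mul_le_mul_of_nonneg_left s4 (mul_nonneg hmR0.le hΔ0)
    have u3 := mul_le_mul_of_nonneg_left (mul_le_mul_of_nonneg_left s2 (mul_nonneg hmR0.le hΔ0)) hC0
    have u4 : (m:ℝ) * (ε * δ) ≤ m * (ε * v (i, σ)) :=
      mul_le_mul_of_nonneg_left (mul_le_mul_of_nonneg_left s5 hε0.le) hmR0.le
    have u5 : (m:ℝ) * ΔH * E ≤ m * ΔH * (C * (ε * v (op (i, σ)))) := by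
      refine mul_le_mul_of_nonneg_left ?_ (mul_nonneg hmR0.le hΔ0)
      rw [← hCE]
      exact mul_le_mul_of_nonneg_left (mul_le_mul_of_nonneg_left s6 hε0.le) hC0
    rw [← hmR] at hM1
    linarith
  -- induction
  have hind : ∀ k : ℕ, ∀ p : Fin n × Bool, ∀ x₁ ∈ T ∩ Icc (a p.1) (b p.1),
      ∀ x₂ ∈ T ∩ Icc (a p.1) (b p.1), x₁ ≤ x₂ →
      Nw T a b F m M k p.2 x₁ x₂ ≤ (m * lam') ^ k * (Z p x₁ x₂ / δ) := by
    intro k
    induction k with
    | zero =>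
      intro p x₁ h1 x₂ h2 h12
      have : Nw T a b F m M 0 p.2 x₁ x₂ ≤ 1 := by
        unfold Nw
        simp only [Finset.univ_unique, Finset.sum_singleton]
        split_ifs <;> norm_num
      refine this.trans ?_
      rw [pow_zero, one_mul, one_le_div hδ0]
      simp only [hZ]
      have h3 := mul_nonneg (mul_nonneg hC0 (hvpos (op p)).le)
        (sub_nonneg.2 (hH p.1 p.2 h1 h2 h12))
      linarith [hδ p]
    | succ k ih =>
      intro p x₁ h1 x₂ h2 h12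
      refine (Nw_succ (i := p.1) hanti hmono h1 h2).trans ?_
      have h3 : ∑ q : Fin n × Bool, ∑ e : Bool,
        ∑ r ∈ Ss (T ∩ Icc (a q.1) (b q.1)) (loF F e p.2 q.2 x₁ x₂) (upF F e p.2 q.2 x₁ x₂) m M,
        Nw T a b F m M k q.2 (sInf (Yc T a b F m e p.2 q.2 q.1 x₁ x₂ r))
          (sSup (Yc T a b F m e p.2 q.2 q.1 x₁ x₂ r)) ≤
        ∑ q : Fin n × Bool, ∑ e : Bool,
        ∑ r ∈ Ss (T ∩ Icc (a q.1) (b q.1)) (loF F e p.2 q.2 x₁ x₂) (upF F e p.2 q.2 x₁ x₂) m M,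
        (m * lam') ^ k / δ * Z q (sInf (Yc T a b F m e p.2 q.2 q.1 x₁ x₂ r))
          (sSup (Yc T a b F m e p.2 q.2 q.1 x₁ x₂ r)) := by
        refine Finset.sum_le_sum (fun q _ => Finset.sum_le_sum (fun e _ =>
          Finset.sum_le_sum (fun r hr => ?_)))
        obtain ⟨-, hne⟩ := mem_Ss.1 hr
        have h4 := Ys_sInf_mem hT hne
        have h5 := ih q _ h4.1 _ h4.2 (csInf_le_csSup hne
          ⟨a q.1, fun y hy => hy.1.2.1⟩ ⟨b q.1, fun y hy => hy.1.2.2⟩)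
        refine h5.trans (le_of_eq ?_)
        unfold Yc
        ring
      refine h3.trans ?_
      simp only [← Finset.mul_sum]
      have hpow : 0 ≤ (m * lam') ^ k / δ := by
        have : 0 ≤ lam' := by rw [hlam']; linarith
        positivity
      refine (mul_le_mul_of_nonneg_left (hstep p x₁ h1 x₂ h2 h12) hpow).trans (le_of_eq ?_)
      rw [pow_succ]
      ring
  -- contradiction
  set W := ∑ p : Fin n × Bool, Z p (a p.1) (b p.1) / δ with hW
  have hfin : ∀ k : ℕ, (M:ℝ) ^ k ≤ (m * lam') ^ k * W := by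
    intro k
    refine (total_words hm hchain).trans ?_
    rw [hW, Finset.mul_sum]
    exact Finset.sum_le_sum (fun p _ => hind k p (a p.1) ⟨ha _, le_rfl, hab _⟩ (b p.1)
      ⟨hb _, hab _, le_rfl⟩ (hab _))
  have hlp : 0 < lam' := by rw [hlam']; linarith
  have hml : 0 < (m:ℝ) * lam' := mul_pos hmR0 hlp
  have hrho : 1 < (M:ℝ) / (m * lam') := by
    rw [one_lt_div hml, hmR]
    linarith
  obtain ⟨k, hk'⟩ := pow_unbounded_of_one_lt W hrho
  have := hfin k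
  rw [div_pow, lt_div_iff₀ (pow_pos hml k)] at hk'
  linarith

end main

end Pot

end Pool.Agent.Ruler
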