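import Pool.Agent.Ruler.Boundary

/-!
MP_067807_co: the simple (nonconvex) case, general profile.

A profile consists of angles `th i` in an interval `[a,b]` and weights `w i ≥ 0` of sum `1`.  The
unit chord of direction `e t` moves with `t ∈ [a,b]`: its ends are `X t` and `Y t = X t - e t`,
`X t = ∑ w i e(min t (th i))`.  `H` is the convex hull of the two curves and the case `S` is the
part of `H` on one side of at least one of the chords `t = th i`.
-/

open Set MeasureTheory Metric

namespace Pool.Agent.Ruler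

/-- The unit vector of direction `t`. -/
noncomputable def e (t : ℝ) : ℂ := ⟨Real.cos t, Real.sin t⟩

/-- The unit normal of direction `t`. -/
noncomputable def n (t : ℝ) : ℂ := ⟨-Real.sin t, Real.cos t⟩

/-- The scalar product. -/
def dot (z w : ℂ) : ℝ := z.re * w.re + z.im * w.im

@[simp] theorem e_re (t : ℝ) : (e t).re = Real.cos t := rfl
@[simp] theorem e_im (t : ℝ) : (e t).im = Real.sin t := rfl
@[simp] theorem n_re (t : ℝ) : (n t).re = -Real.sin t := rfl
@[simp] theorem n_im (t : ℝ) : (n t).im = Real.cos t := rfl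

theorem normSq_eq (z : ℂ) : ‖z‖ ^ 2 = z.re ^ 2 + z.im ^ 2 := by
  rw [Complex.sq_norm, Complex.normSq_apply]; ring

theorem norm_e (t : ℝ) : ‖e t‖ = 1 := by
  have h : ‖e t‖ ^ 2 = 1 := by
    rw [normSq_eq, e_re, e_im]; exact Real.cos_sq_add_sin_sq t
  have h0 := norm_nonneg (e t)
  nlinarith

theorem norm_n (t : ℝ) : ‖n t‖ = 1 := by
  have h : ‖n t‖ ^ 2 = 1 := by
    rw [normSq_eq, n_re, n_im, neg_sq]; exact Real.sin_sq_add_cos_sq t
  have h0 := norm_nonneg (n t)
  nlinarith

theorem e_eq (t : ℝ) : e t = (Real.cos t : ℂ) + (Real.sin t : ℂ) * Complex.I := by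
  apply Complex.ext <;> simp [Complex.cos_ofReal_re, Complex.sin_ofReal_re]

theorem continuous_e : Continuous e := by
  have : e = fun t => (Real.cos t : ℂ) + (Real.sin t : ℂ) * Complex.I := funext e_eq
  rw [this]
  fun_prop

theorem dot_comm (z w : ℂ) : dot z w = dot w z := by unfold dot; ring
theorem dot_add_left (z z' w : ℂ) : dot (z + z') w = dot z w + dot z' w := by
  simp only [dot, Complex.add_re, Complex.add_im]; ring
theorem dot_sub_left (z z' w : ℂ) : dot (z - z') w = dot z w - dot z' w := by
  simp only [dot, Complex.sub_re, Complex.sub_im]; ring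
theorem dot_smul_left (c : ℝ) (z w : ℂ) : dot (c • z) w = c * dot z w := by
  simp only [dot, Complex.smul_re, Complex.smul_im, smul_eq_mul]; ring
theorem dot_neg_left (z w : ℂ) : dot (-z) w = - dot z w := by
  simp only [dot, Complex.neg_re, Complex.neg_im]; ring
theorem dot_add_right (z w w' : ℂ) : dot z (w + w') = dot z w + dot z w' := by
  simp only [dot, Complex.add_re, Complex.add_im]; ring
theorem dot_sub_right (z w w' : ℂ) : dot z (w - w') = dot z w - dot z w' := by
  simp only [dot, Complex.sub_re, Complex.sub_im]; ring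
theorem dot_smul_right (c : ℝ) (z w : ℂ) : dot z (c • w) = c * dot z w := by
  simp only [dot, Complex.smul_re, Complex.smul_im, smul_eq_mul]; ring
theorem dot_sum_left {ι : Type*} (s : Finset ι) (g : ι → ℂ) (w : ℂ) :
    dot (∑ i ∈ s, g i) w = ∑ i ∈ s, dot (g i) w := by
  classical
  induction s using Finset.induction_on with
  | empty => simp [dot]
  | insert a s ha ih => rw [Finset.sum_insert ha, Finset.sum_insert ha, dot_add_left, ih]
theorem dot_sum_right {ι : Type*} (s : Finset ι) (g : ι → ℂ) (w : ℂ) :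
    dot w (∑ i ∈ s, g i) = ∑ i ∈ s, dot w (g i) := by
  rw [dot_comm, dot_sum_left]
  exact Finset.sum_congr rfl fun i _ => dot_comm _ _

theorem dot_self (z : ℂ) : dot z z = ‖z‖ ^ 2 := by rw [normSq_eq]; unfold dot; ring

theorem dot_le_norm (z w : ℂ) : dot z w ≤ ‖z‖ * ‖w‖ := by
  have h1 := normSq_eq z
  have h2 := normSq_eq w
  have h3 : (dot z w) ^ 2 ≤ (‖z‖ * ‖w‖) ^ 2 := by
    rw [mul_pow, h1, h2]
    unfold dot
    nlinarith [sq_nonneg (z.re * w.im - z.im * w.re)]
  exact le_trans (le_abs_self _) (abs_le_of_sq_le_sq h3 (by positivity))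

theorem dot_e_e (s t : ℝ) : dot (e s) (e t) = Real.cos (s - t) := by
  simp only [dot, e_re, e_im]; rw [Real.cos_sub]

theorem dot_e_n (s t : ℝ) : dot (e s) (n t) = Real.sin (s - t) := by
  simp only [dot, e_re, e_im, n_re, n_im]; rw [Real.sin_sub]; ring

theorem continuous_dot {α : Type*} [TopologicalSpace α] {g h : α → ℂ} (hg : Continuous g)
    (hh : Continuous h) : Continuous fun x => dot (g x) (h x) := by
  unfold dot
  exact ((Complex.continuous_re.comp hg).mul (Complex.continuous_re.comp hh)).add
    ((Complex.continuous_im.comp hg).mul (Complex.continuous_im.comp hh))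

/-- A profile: weights and angles in `[a,b]`, with the closure condition. -/
structure Prof (ι : Type) [Fintype ι] where
  /-- weights -/
  w : ι → ℝ
  /-- angles -/
  th : ι → ℝ
  /-- first angle -/
  a : ℝ
  /-- last angle -/
  b : ℝ
  hw : ∀ i, 0 ≤ w i
  hsum : ∑ i, w i = 1
  ha : ∀ i, a ≤ th i
  hb : ∀ i, th i ≤ b
  hab : a < b
  hba : b - a ≤ 5 * Real.pi / 6
  clos : ∑ i, w i • e (th i) = e a + e b

namespace Prof

variable {ι : Type} [Fintype ι] (P : Prof ι)

/-- The head of the chord of direction `t`. -/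
noncomputable def X (t : ℝ) : ℂ := ∑ i, P.w i • e (min t (P.th i))

/-- The tail of the chord of direction `t`. -/
noncomputable def Y (t : ℝ) : ℂ := P.X t - e t

/-- The curve of all chord ends. -/
def D : Set ℂ := P.X '' Icc P.a P.b ∪ P.Y '' Icc P.a P.b

/-- Its closed convex hull. -/
def H : Set ℂ := closure (convexHull ℝ P.D)

/-- The functional of the chord of direction `t`. -/
noncomputable def f (t : ℝ) (z : ℂ) : ℝ :=
  (z - P.X t).re * (-Real.sin t) + (z - P.X t).im * Real.cos t

/-- The case. -/
def S : Set ℂ := ⋃ i, P.H ∩ {z | P.f (P.th i) z ≤ 0}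

theorem f_eq (t : ℝ) (z : ℂ) : P.f t z = dot (z - P.X t) (n t) := rfl

theorem continuous_X : Continuous P.X := by
  unfold X
  refine continuous_finsetSum _ fun i _ => ?_
  have h : Continuous fun t : ℝ => e (min t (P.th i)) :=
    continuous_e.comp (continuous_id.min continuous_const)
  exact h.const_smul (P.w i)

theorem continuous_Y : Continuous P.Y := P.continuous_X.sub continuous_e

theorem X_a : P.X P.a = e P.a := by
  unfold X
  have : ∀ i, P.w i • e (min P.a (P.th i)) = P.w i • e P.a := fun i => by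
    rw [min_eq_left (P.ha i)]
  simp only [this]
  rw [← Finset.sum_smul, P.hsum, one_smul]

theorem X_b : P.X P.b = e P.a + e P.b := by
  unfold X
  rw [← P.clos]
  exact Finset.sum_congr rfl fun i _ => by rw [min_eq_right (P.hb i)]

theorem Y_a : P.Y P.a = 0 := by rw [Y, X_a, sub_self]

theorem Y_b : P.Y P.b = e P.a := by rw [Y, X_b, add_sub_cancel_right]

theorem dist_X_Y (t : ℝ) : dist (P.X t) (P.Y t) = 1 := by
  rw [Y, dist_eq_norm, sub_sub_cancel, norm_e]

end Prof

end Pool.Agent.Ruler
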