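import Mathlib

/-!
MP_067807_co: the area of a set covered by a fan of triangles.
-/

open Set MeasureTheory

namespace Pool.Agent.Ruler.Simp

/-- cross product -/
def cr (u v : ℂ) : ℝ := u.re * v.im - u.im * v.re

/-- the triangle with vertices `C`, `C + u`, `C + v` -/
def tri (C u v : ℂ) : Set ℂ :=
  {z | ∃ α β : ℝ, 0 ≤ α ∧ 0 ≤ β ∧ α + β ≤ 1 ∧ z = C + (α • u + β • v)}

/-- the standard triangle -/
def tri0 : Set ℂ := {z | 0 ≤ z.re ∧ 0 ≤ z.im ∧ z.re + z.im ≤ 1}

theorem isClosed_tri0 : IsClosed tri0 := by
  unfold tri0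
  exact (isClosed_le continuous_const Complex.continuous_re).inter
    ((isClosed_le continuous_const Complex.continuous_im).inter
      (isClosed_le (Complex.continuous_re.add Complex.continuous_im) continuous_const))

theorem volume_tri0 : volume tri0 ≤ ENNReal.ofReal (1 / 2) := by
  have h1 := Complex.volume_preserving_equiv_real_prod
  have h2 : volume tri0 = volume (Complex.measurableEquivRealProd.symm ⁻¹' tri0) := by
    rw [← h1.symm.measure_preimage isClosed_tri0.measurableSet.nullMeasurableSet]
  rw [h2]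
  have hm : MeasurableSet (Complex.measurableEquivRealProd.symm ⁻¹' tri0) :=
    Complex.measurableEquivRealProd.symm.measurable isClosed_tri0.measurableSet
  rw [Measure.volume_eq_prod, Measure.prod_apply hm]
  have hle : ∀ x : ℝ, volume (Prod.mk x ⁻¹' (Complex.measurableEquivRealProd.symm ⁻¹' tri0)) ≤
      (Icc (0:ℝ) 1).indicator (fun x => ENNReal.ofReal (1 - x)) x := by
    intro x
    by_cases hx : x ∈ Icc (0:ℝ) 1
    · rw [indicator_of_mem hx]
      have hsub : Prod.mk x ⁻¹' (Complex.measurableEquivRealProd.symm ⁻¹' tri0) ⊆ Icc 0 (1 - x) := by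
        intro y hy
        have hy' : (⟨x, y⟩ : ℂ) ∈ tri0 := hy
        obtain ⟨_, b, c⟩ := hy'
        simp only at b c
        exact ⟨b, by linarith⟩
      refine (measure_mono hsub).trans ?_
      rw [Real.volume_Icc, sub_zero]
    · rw [indicator_of_notMem hx]
      have : Prod.mk x ⁻¹' (Complex.measurableEquivRealProd.symm ⁻¹' tri0) = ∅ := by
        ext y
        simp only [mem_preimage, mem_empty_iff_false, iff_false]
        intro hy
        have hy' : (⟨x, y⟩ : ℂ) ∈ tri0 := hy
        obtain ⟨a, b, c⟩ := hy'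
        simp only at a b c
        exact hx ⟨a, by linarith⟩
      rw [this, measure_empty]
  refine (lintegral_mono hle).trans ?_
  rw [lintegral_indicator measurableSet_Icc, ← ofReal_integral_eq_lintegral_ofReal]
  · apply ENNReal.ofReal_le_ofReal
    rw [integral_Icc_eq_integral_Ioc, ← intervalIntegral.integral_of_le zero_le_one]
    rw [intervalIntegral.integral_sub (by simp) (by simp)]
    simp
    norm_num
  · exact (Continuous.integrableOn_Icc (by fun_prop))
  · filter_upwards [ae_restrict_mem measurableSet_Icc] with x hx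
    have := hx.2
    simp only [Pi.zero_apply]
    linarith

theorem volume_tri (C u v : ℂ) : volume (tri C u v) ≤ ENNReal.ofReal (|cr u v| / 2) := by
  classical
  set L : ℂ →ₗ[ℝ] ℂ := Matrix.toLin Complex.basisOneI Complex.basisOneI !![u.re, v.re; u.im, v.im]
    with hL
  have hdet : LinearMap.det L = cr u v := by
    rw [hL, LinearMap.det_toLin]
    simp [Matrix.det_fin_two, cr]
    ring
  have hLz : ∀ z : ℂ, L z = z.re • u + z.im • v := by
    intro z
    rw [hL, Matrix.toLin_apply]
    apply Complex.ext <;>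
      simp [Matrix.mulVec, dotProduct, Fin.sum_univ_two, Complex.coe_basisOneI_repr] <;> ring
  have hset : tri C u v = (fun z => C + z) '' (L '' tri0) := by
    ext z
    constructor
    · rintro ⟨α, β, hα, hβ, hs, rfl⟩
      refine ⟨_, ⟨⟨α, β⟩, ⟨hα, hβ, hs⟩, rfl⟩, ?_⟩
      simp only [hLz]
    · rintro ⟨_, ⟨w, ⟨h1, h2, h3⟩, rfl⟩, rfl⟩
      exact ⟨w.re, w.im, h1, h2, h3, by simp only [hLz]⟩
  rw [hset, image_add_left, measure_preimage_add, Measure.addHaar_image_linearMap, hdet]
  calc ENNReal.ofReal |cr u v| * volume tri0 ≤ ENNReal.ofReal |cr u v| * ENNReal.ofReal (1 / 2) := by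
        gcongr; exact volume_tri0
    _ = ENNReal.ofReal (|cr u v| / 2) := by
        rw [← ENNReal.ofReal_mul (abs_nonneg _)]
        congr 1; ring

/-- a vector between `u` and `v` -/
theorem sector_coord {u v w : ℂ} (h : 0 < cr u v) (h1 : 0 ≤ cr u w) (h2 : 0 ≤ cr w v) :
    ∃ α β : ℝ, 0 ≤ α ∧ 0 ≤ β ∧ w = α • u + β • v := by
  refine ⟨cr w v / cr u v, cr u w / cr u v, by positivity, by positivity, ?_⟩
  have h0 : cr u v ≠ 0 := h.ne'
  apply Complex.ext
  · simp only [Complex.add_re, Complex.real_smul, Complex.mul_re, Complex.ofReal_re,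
      Complex.ofReal_im, zero_mul, sub_zero]
    field_simp
    unfold cr
    ring
  · simp only [Complex.add_im, Complex.real_smul, Complex.mul_im, Complex.ofReal_re,
      Complex.ofReal_im, zero_mul, add_zero]
    field_simp
    unfold cr
    ring

/-- discrete intermediate value theorem -/
theorem exists_switch {c : ℕ → ℝ} {n : ℕ} (h0 : 0 ≤ c 0) (hn : c n ≤ 0) (hn0 : 0 < n) :
    ∃ i < n, 0 ≤ c i ∧ c (i + 1) ≤ 0 := by
  by_contra hcon
  push Not at hcon
  have : ∀ i ≤ n, 0 < i → 0 < c i := by
    intro i
    induction i with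
    | zero => intro _ h; exact absurd h (lt_irrefl _)
    | succ i ih =>
      intro hi _
      rcases Nat.eq_zero_or_pos i with h | h
      · subst h
        exact hcon 0 hn0 h0
      · exact hcon i (by omega) (ih (by omega) h).le
  exact absurd hn (not_le.2 (this n le_rfl hn0))

/-- **Fan lemma.**  `P 0, …, P n` are seen from `C` in counterclockwise order; every point of `S`
lies in the sector spanned by `P 0` and `P n`, and whenever it lies in the sector `i` there is an
affine functional which is negative at `C`, nonnegative at `P i`, `P (i+1)` and nonpositive at the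
point.  Then the area of `S` is at most the area of the fan. -/
theorem volume_le_fan {S : Set ℂ} {C : ℂ} {n : ℕ} (hn : 0 < n) (P : ℕ → ℂ)
    (hP : ∀ i < n, 0 < cr (P i - C) (P (i + 1) - C))
    (h0 : ∀ z ∈ S, 0 ≤ cr (P 0 - C) (z - C)) (h1 : ∀ z ∈ S, cr (P n - C) (z - C) ≤ 0)
    (hf : ∀ z ∈ S, ∀ i < n, ∃ p q r : ℝ, p * C.re + q * C.im + r < 0 ∧
      0 ≤ p * (P i).re + q * (P i).im + r ∧ 0 ≤ p * (P (i + 1)).re + q * (P (i + 1)).im + r ∧
      p * z.re + q * z.im + r ≤ 0) :
    volume S ≤ ENNReal.ofReal (∑ i ∈ Finset.range n, cr (P i - C) (P (i + 1) - C) / 2) := by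
  have hsub : S ⊆ ⋃ i ∈ Finset.range n, tri C (P i - C) (P (i + 1) - C) := by
    intro z hz
    obtain ⟨i, hi, hi0, hi1⟩ := exists_switch (c := fun i => cr (P i - C) (z - C)) (h0 z hz)
      (h1 z hz) hn
    have hi1' : 0 ≤ cr (z - C) (P (i + 1) - C) := by
      unfold cr at hi1 ⊢
      linarith
    obtain ⟨α, β, hα, hβ, hw⟩ := sector_coord (hP i hi) hi0 hi1'
    obtain ⟨p, q, r, f1, f2, f3, f4⟩ := hf z hz i hi
    refine mem_iUnion₂.2 ⟨i, Finset.mem_range.2 hi, α, β, hα, hβ, ?_, by rw [← hw]; ring⟩
    have e1 : z.re = C.re + (α * ((P i).re - C.re) + β * ((P (i + 1)).re - C.re)) := by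
      have := congrArg Complex.re hw
      simp only [Complex.sub_re, Complex.add_re, Complex.real_smul, Complex.mul_re,
        Complex.ofReal_re, Complex.ofReal_im, zero_mul, sub_zero] at this
      linarith
    have e2 : z.im = C.im + (α * ((P i).im - C.im) + β * ((P (i + 1)).im - C.im)) := by
      have := congrArg Complex.im hw
      simp only [Complex.sub_im, Complex.add_im, Complex.real_smul, Complex.mul_im,
        Complex.ofReal_re, Complex.ofReal_im, zero_mul, add_zero] at this
      linarith
    by_contra hcon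
    push Not at hcon
    rw [e1, e2] at f4
    have key : p * (C.re + (α * ((P i).re - C.re) + β * ((P (i + 1)).re - C.re))) +
        q * (C.im + (α * ((P i).im - C.im) + β * ((P (i + 1)).im - C.im))) + r =
        (1 - α - β) * (p * C.re + q * C.im + r) + α * (p * (P i).re + q * (P i).im + r) +
        β * (p * (P (i + 1)).re + q * (P (i + 1)).im + r) := by ring
    rw [key] at f4
    have t1 : 0 < (1 - α - β) * (p * C.re + q * C.im + r) :=
      mul_pos_of_neg_of_neg (by linarith) f1
    have t2 := mul_nonneg hα f2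
    have t3 := mul_nonneg hβ f3
    linarith
  calc volume S ≤ volume (⋃ i ∈ Finset.range n, tri C (P i - C) (P (i + 1) - C)) := measure_mono hsub
    _ ≤ ∑ i ∈ Finset.range n, volume (tri C (P i - C) (P (i + 1) - C)) :=
        measure_biUnion_finset_le _ _
    _ ≤ ∑ i ∈ Finset.range n, ENNReal.ofReal (cr (P i - C) (P (i + 1) - C) / 2) := by
        apply Finset.sum_le_sum
        intro i hi
        refine (volume_tri _ _ _).trans (le_of_eq ?_)
        rw [abs_of_pos (hP i (Finset.mem_range.1 hi))]
    _ = ENNReal.ofReal (∑ i ∈ Finset.range n, cr (P i - C) (P (i + 1) - C) / 2) := by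
        rw [ENNReal.ofReal_sum_of_nonneg]
        intro i hi
        have := hP i (Finset.mem_range.1 hi)
        positivity

end Pool.Agent.Ruler.Simp
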