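import Pool.Agent.Ruler.Prof

/-!
MP_067807_co: the simple case, diameter.
-/

open Set MeasureTheory Metric

namespace Pool.Agent.Ruler

/-! ### trigonometric lemmas -/

theorem norm_three (s τ t : ℝ) (h1 : s ≤ τ) (h2 : τ ≤ t) (h3 : t - s ≤ Real.pi) :
    ‖e s - e τ + e t‖ ≤ 1 := by
  have h4 : 0 ≤ Real.cos ((t - s) / 2) :=
    Real.cos_nonneg_of_mem_Icc ⟨by linarith [Real.pi_pos], by linarith⟩
  have h5 : 0 ≤ Real.sin ((τ - s) / 2) :=
    Real.sin_nonneg_of_nonneg_of_le_pi (by linarith) (by linarith [Real.pi_pos])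
  have h6 : 0 ≤ Real.sin ((t - τ) / 2) :=
    Real.sin_nonneg_of_nonneg_of_le_pi (by linarith) (by linarith [Real.pi_pos])
  have key : ‖e s - e τ + e t‖ ^ 2 =
      1 - 8 * (Real.cos ((t - s) / 2) * (Real.sin ((τ - s) / 2) * Real.sin ((t - τ) / 2))) := by
    have e1 : ‖e s - e τ + e t‖ ^ 2 =
        3 - 2 * Real.cos (τ - s) - 2 * Real.cos (t - τ) + 2 * Real.cos (t - s) := by
      rw [normSq_eq]
      simp only [Complex.add_re, Complex.sub_re, Complex.add_im, Complex.sub_im, e_re, e_im]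
      rw [Real.cos_sub, Real.cos_sub, Real.cos_sub]
      have a1 := Real.sin_sq_add_cos_sq s
      have a2 := Real.sin_sq_add_cos_sq τ
      have a3 := Real.sin_sq_add_cos_sq t
      nlinarith
    rw [e1]
    have p1 : τ - s = 2 * ((τ - s) / 2) := by ring
    have p2 : t - τ = 2 * ((t - τ) / 2) := by ring
    have p3 : t - s = 2 * ((τ - s) / 2 + (t - τ) / 2) := by ring
    have p4 : (t - s) / 2 = (τ - s) / 2 + (t - τ) / 2 := by ring
    rw [p4]
    set u := (τ - s) / 2
    set v := (t - τ) / 2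
    rw [p1, p2, p3, Real.cos_two_mul, Real.cos_two_mul, Real.cos_two_mul, Real.cos_add]
    have b1 := Real.sin_sq_add_cos_sq u
    have b2 := Real.sin_sq_add_cos_sq v
    have b1' : Real.sin u ^ 2 = 1 - Real.cos u ^ 2 := by linarith
    have b2' : Real.sin v ^ 2 = 1 - Real.cos v ^ 2 := by linarith
    linear_combination (-4 * Real.sin v ^ 2) * b1' - 4 * (1 - Real.cos u ^ 2) * b2'
  have h7 : ‖e s - e τ + e t‖ ^ 2 ≤ 1 := by
    rw [key]
    have := mul_nonneg h4 (mul_nonneg h5 h6)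
    linarith
  have h0 := norm_nonneg (e s - e τ + e t)
  nlinarith

/-- The bracket in `X s - Y t`. -/
theorem norm_bracket {s t θ a b : ℝ} (hs : s ∈ Icc a b) (ht : t ∈ Icc a b)
    (hab : b - a ≤ Real.pi) : ‖e (min s θ) - e (min t θ) + e t‖ ≤ 1 := by
  rcases le_total t s with h | h
  · rcases le_total θ t with h1 | h1
    · rw [min_eq_right (h1.trans h), min_eq_right h1, sub_self, zero_add, norm_e]
    · rw [min_eq_left h1, sub_add_cancel, norm_e]
  · rcases le_total θ s with h1 | h1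
    · rw [min_eq_right h1, min_eq_right (h1.trans h), sub_self, zero_add, norm_e]
    · rw [min_eq_left h1]
      exact norm_three s (min t θ) t (le_min h h1) (min_le_left _ _)
        (by linarith [hs.1, ht.2])

/-- The termwise inequality for the monotonicity of distances. -/
theorem dot_term {a σ s β : ℝ} (hσ : a ≤ σ) (hs : a ≤ s) (hsβ : s ≤ β)
    (hβ : β - a ≤ 5 * Real.pi / 6) (h : σ ≤ s ∨ s = β) (hσβ : σ - a ≤ 5 * Real.pi / 6) :
    0 ≤ dot (e σ - e a) ((2:ℝ) • e β - e s - e a) := by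
  have hpi := Real.pi_pos
  -- the factorisation
  have key : dot (e σ - e a) ((2:ℝ) • e β - e s - e a) =
      2 * Real.sin ((σ - a) / 2) * (2 * Real.sin (β - a - (σ - a) / 2) -
        Real.sin (s - a - (σ - a) / 2) + Real.sin ((σ - a) / 2)) := by
    have h1 : ∀ x y : ℝ, Real.cos (σ - x) - Real.cos (a - x) =
        2 * Real.sin ((σ - a) / 2) * Real.sin (x - a - (σ - a) / 2) := by
      intro x _
      have e1 : σ - x = ((σ - a) / 2) - (x - a - (σ - a) / 2) := by ring
      have e2 : a - x = -(((σ - a) / 2) + (x - a - (σ - a) / 2)) := by ring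
      rw [e1, e2, Real.cos_neg, Real.cos_add, Real.cos_sub]
      ring
    rw [dot_sub_right, dot_sub_right, dot_smul_right, dot_sub_left, dot_sub_left, dot_sub_left]
    simp only [dot_e_e]
    rw [h1 β 0, h1 s 0, h1 a 0]
    have e3 : a - a - (σ - a) / 2 = -((σ - a) / 2) := by ring
    rw [e3, Real.sin_neg]
    ring
  rw [key]
  have hs0 : 0 ≤ Real.sin ((σ - a) / 2) :=
    Real.sin_nonneg_of_nonneg_of_le_pi (by linarith) (by linarith)
  refine mul_nonneg (by linarith) ?_
  rcases h with h | h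
  · rcases le_total (β - a - (σ - a) / 2) (Real.pi / 2) with h2 | h2
    · have h3 : Real.sin (s - a - (σ - a) / 2) ≤ Real.sin (β - a - (σ - a) / 2) :=
        Real.sin_le_sin_of_le_of_le_pi_div_two (by linarith) h2 (by linarith)
      have h4 : 0 ≤ Real.sin (β - a - (σ - a) / 2) :=
        Real.sin_nonneg_of_nonneg_of_le_pi (by linarith) (by linarith)
      linarith
    · have h3 : 1 / 2 ≤ Real.sin (β - a - (σ - a) / 2) := by
        rw [← Real.sin_pi_div_six, ← Real.sin_pi_sub (β - a - (σ - a) / 2)]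
        exact Real.sin_le_sin_of_le_of_le_pi_div_two (by linarith) (by linarith)
          (by linarith)
      have h4 := Real.sin_le_one (s - a - (σ - a) / 2)
      linarith
  · subst h
    have : 0 ≤ Real.sin (s - a - (σ - a) / 2) + Real.sin ((σ - a) / 2) := by
      rw [Real.sin_add_sin]
      refine mul_nonneg (mul_nonneg zero_le_two (Real.sin_nonneg_of_nonneg_of_le_pi ?_ ?_))
        (Real.cos_nonneg_of_mem_Icc ⟨?_, ?_⟩) <;> linarith
    linarith

namespace Prof

variable {ι : Type} [Fintype ι] (P : Prof ι)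

theorem hpi : P.b - P.a ≤ Real.pi := by linarith [P.hba, Real.pi_pos]

theorem norm_X_sub_Y {s t : ℝ} (hs : s ∈ Icc P.a P.b) (ht : t ∈ Icc P.a P.b) :
    ‖P.X s - P.Y t‖ ≤ 1 := by
  have h : P.X s - P.Y t = ∑ i, P.w i • (e (min s (P.th i)) - e (min t (P.th i)) + e t) := by
    simp only [smul_add, smul_sub, Finset.sum_add_distrib, Finset.sum_sub_distrib]
    rw [← Finset.sum_smul, P.hsum, one_smul, Y, X, X]
    ring
  rw [h]
  calc ‖∑ i, P.w i • (e (min s (P.th i)) - e (min t (P.th i)) + e t)‖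
      ≤ ∑ i, ‖P.w i • (e (min s (P.th i)) - e (min t (P.th i)) + e t)‖ := norm_sum_le _ _
    _ ≤ ∑ i, P.w i := by
        refine Finset.sum_le_sum fun i _ => ?_
        rw [norm_smul, Real.norm_of_nonneg (P.hw i)]
        exact mul_le_of_le_one_right (P.hw i) (norm_bracket hs ht P.hpi)
    _ = 1 := P.hsum

theorem norm_X_sub_X_le {s t : ℝ} (hs : s ∈ Icc P.a P.b) (ht : t ∈ Icc P.a P.b) (hst : s ≤ t) :
    ‖P.X t - P.X s‖ ≤ ‖P.X t - P.X P.a‖ := by
  have hV : (2:ℝ) • P.X t - P.X s - P.X P.a =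
      ∑ i, P.w i • ((2:ℝ) • e (min t (P.th i)) - e (min s (P.th i)) - e P.a) := by
    simp only [smul_sub, Finset.sum_sub_distrib]
    rw [← Finset.sum_smul, P.hsum, one_smul, P.X_a, X, X, Finset.smul_sum]
    congr 2
    exact Finset.sum_congr rfl fun i _ => smul_comm _ _ _
  have hU : P.X s - P.X P.a = ∑ i, P.w i • (e (min s (P.th i)) - e P.a) := by
    simp only [smul_sub, Finset.sum_sub_distrib]
    rw [← Finset.sum_smul, P.hsum, one_smul, P.X_a, X]
  have h0 : 0 ≤ dot (P.X s - P.X P.a) ((2:ℝ) • P.X t - P.X s - P.X P.a) := by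
    rw [hU, dot_sum_left]
    refine Finset.sum_nonneg fun k _ => ?_
    rw [dot_smul_left, hV, dot_sum_right]
    refine mul_nonneg (P.hw k) (Finset.sum_nonneg fun j _ => ?_)
    rw [dot_smul_right]
    refine mul_nonneg (P.hw j) (dot_term (le_min hs.1 (P.ha k)) (le_min hs.1 (P.ha j))
      (min_le_min_right _ hst) ?_ ?_ ?_)
    · linarith [min_le_left t (P.th j), ht.2, P.hba]
    · rcases le_total s (P.th j) with h | h
      · left
        rw [min_eq_left h]
        exact min_le_left _ _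
      · right
        rw [min_eq_right h, min_eq_right (h.trans hst)]
    · linarith [min_le_left s (P.th k), hs.2, P.hba]
  have h1 : ‖P.X t - P.X P.a‖ ^ 2 - ‖P.X t - P.X s‖ ^ 2 =
      dot (P.X s - P.X P.a) ((2:ℝ) • P.X t - P.X s - P.X P.a) := by
    rw [normSq_eq, normSq_eq]
    simp only [dot, Complex.sub_re, Complex.sub_im, Complex.smul_re, Complex.smul_im, smul_eq_mul]
    ring
  have h2 : ‖P.X t - P.X s‖ ^ 2 ≤ ‖P.X t - P.X P.a‖ ^ 2 := by linarith
  exact (sq_le_sq₀ (norm_nonneg _) (norm_nonneg _)).1 h2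

theorem norm_X_sub_X {s t : ℝ} (hs : s ∈ Icc P.a P.b) (ht : t ∈ Icc P.a P.b) :
    ‖P.X t - P.X s‖ ≤ 1 := by
  have hb : P.b ∈ Icc P.a P.b := ⟨P.hab.le, le_rfl⟩
  have key : ∀ s t : ℝ, s ∈ Icc P.a P.b → t ∈ Icc P.a P.b → s ≤ t → ‖P.X t - P.X s‖ ≤ 1 := by
    intro s t hs ht hst
    refine (P.norm_X_sub_X_le hs ht hst).trans ?_
    rw [P.X_a, ← P.Y_b]
    exact P.norm_X_sub_Y ht hb
  rcases le_total s t with h | h
  · exact key s t hs ht h
  · rw [norm_sub_rev]; exact key t s ht hs h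

/-- The reversed profile. -/
noncomputable def rev : Prof ι where
  w := P.w
  th := fun i => -P.th i
  a := -P.b
  b := -P.a
  hw := P.hw
  hsum := P.hsum
  ha := fun i => neg_le_neg (P.hb i)
  hb := fun i => neg_le_neg (P.ha i)
  hab := neg_lt_neg P.hab
  hba := by linarith [P.hba]
  clos := by
    have h := congrArg (starRingEnd ℂ) P.clos
    have hc : ∀ t, starRingEnd ℂ (e t) = e (-t) := by
      intro t
      apply Complex.ext <;> simp
    rw [map_sum] at h
    have h2 : ∀ i, starRingEnd ℂ (P.w i • e (P.th i)) = P.w i • e (-P.th i) := by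
      intro i
      rw [← hc, Complex.real_smul, Complex.real_smul, map_mul, Complex.conj_ofReal]
    simp only [h2, map_add, hc] at h
    rw [h, add_comm]

theorem conj_e (t : ℝ) : starRingEnd ℂ (e t) = e (-t) := by
  apply Complex.ext <;> simp

/-- `Y` is the reflection of the head curve of the reversed profile. -/
theorem Y_eq_rev (t : ℝ) :
    P.Y t = e P.a + e P.b - starRingEnd ℂ (P.rev.X (-t)) := by
  rw [← P.clos, Y, X, X, map_sum, ← Finset.sum_sub_distrib]
  have h1 : e t = ∑ i, P.w i • e t := by rw [← Finset.sum_smul, P.hsum, one_smul]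
  rw [h1, ← Finset.sum_sub_distrib]
  refine Finset.sum_congr rfl fun i _ => ?_
  show P.w i • e (min t (P.th i)) - P.w i • e t =
    P.w i • e (P.th i) - starRingEnd ℂ (P.w i • e (min (-t) (-P.th i)))
  rw [Complex.real_smul (x := P.w i) (z := e (min (-t) (-P.th i))), map_mul,
    Complex.conj_ofReal, conj_e, min_neg_neg, neg_neg, ← Complex.real_smul]
  rcases le_total t (P.th i) with h | h
  · rw [min_eq_left h, max_eq_right h]; simp
  · rw [min_eq_right h, max_eq_left h]

theorem mem_rev {t : ℝ} (ht : t ∈ Icc P.a P.b) : -t ∈ Icc P.rev.a P.rev.b :=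
  ⟨neg_le_neg ht.2, neg_le_neg ht.1⟩

theorem norm_Y_sub_Y {s t : ℝ} (hs : s ∈ Icc P.a P.b) (ht : t ∈ Icc P.a P.b) :
    ‖P.Y t - P.Y s‖ ≤ 1 := by
  rw [Y_eq_rev, Y_eq_rev, sub_sub_sub_cancel_left, ← map_sub, Complex.norm_conj]
  exact P.rev.norm_X_sub_X (P.mem_rev ht) (P.mem_rev hs)

theorem dist_D_le {z w : ℂ} (hz : z ∈ P.D) (hw : w ∈ P.D) : dist z w ≤ 1 := by
  rw [dist_eq_norm]
  rcases hz with ⟨s, hs, rfl⟩ | ⟨s, hs, rfl⟩ <;> rcases hw with ⟨t, ht, rfl⟩ | ⟨t, ht, rfl⟩
  · exact P.norm_X_sub_X ht hs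
  · exact P.norm_X_sub_Y hs ht
  · rw [norm_sub_rev]; exact P.norm_X_sub_Y ht hs
  · exact P.norm_Y_sub_Y ht hs

theorem isCompact_D : IsCompact P.D :=
  (isCompact_Icc.image P.continuous_X).union (isCompact_Icc.image P.continuous_Y)

theorem isCompact_H : IsCompact P.H :=
  (isBounded_convexHull.2 P.isCompact_D.isBounded).isCompact_closure

theorem convex_H : Convex ℝ P.H := (convex_convexHull _ _).closure

theorem diam_H_le : diam P.H ≤ 1 := by
  rw [H, diam_closure, convexHull_diam]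
  exact diam_le_of_forall_dist_le zero_le_one fun z hz w hw => P.dist_D_le hz hw

theorem dist_H_le {z w : ℂ} (hz : z ∈ P.H) (hw : w ∈ P.H) : dist z w ≤ 1 :=
  (dist_le_diam_of_mem P.isCompact_H.isBounded hz hw).trans P.diam_H_le

theorem X_mem_H {t : ℝ} (ht : t ∈ Icc P.a P.b) : P.X t ∈ P.H :=
  subset_closure (subset_convexHull ℝ _ (Or.inl ⟨t, ht, rfl⟩))

theorem Y_mem_H {t : ℝ} (ht : t ∈ Icc P.a P.b) : P.Y t ∈ P.H :=
  subset_closure (subset_convexHull ℝ _ (Or.inr ⟨t, ht, rfl⟩))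

theorem continuous_f (t : ℝ) : Continuous (P.f t) := by
  unfold f
  fun_prop

theorem isCompact_S : IsCompact P.S := by
  refine isCompact_iUnion fun i => ?_
  exact P.isCompact_H.inter_right (isClosed_le (P.continuous_f _) continuous_const)

theorem S_subset_H : P.S ⊆ P.H := iUnion_subset fun _ => inter_subset_left

theorem f_X (t : ℝ) : P.f t (P.X t) = 0 := by simp [f]

theorem f_Y (t : ℝ) : P.f t (P.Y t) = 0 := by
  simp [f, Y]
  ring

theorem diam_S : diam P.S = 1 := by
  apply le_antisymm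
  · exact (diam_mono P.S_subset_H P.isCompact_H.isBounded).trans P.diam_H_le
  · have : Nonempty ι := by
      by_contra h
      rw [not_nonempty_iff] at h
      have := P.hsum
      simp at this
    obtain ⟨i⟩ := ‹Nonempty ι›
    have hi : P.th i ∈ Icc P.a P.b := ⟨P.ha i, P.hb i⟩
    have h1 : P.X (P.th i) ∈ P.S :=
      mem_iUnion.2 ⟨i, P.X_mem_H hi, (P.f_X _).le⟩
    have h2 : P.Y (P.th i) ∈ P.S :=
      mem_iUnion.2 ⟨i, P.Y_mem_H hi, (P.f_Y _).le⟩
    rw [← P.dist_X_Y (P.th i)]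
    exact dist_le_diam_of_mem P.isCompact_S.isBounded h1 h2

end Prof

end Pool.Agent.Ruler
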