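import Pool.Agent.Ruler.Simple1

/-!
MP_067807_co: the simple case: functionals, universality, boundary.
-/

open Set MeasureTheory Metric

namespace Pool.Agent.Ruler

/-- The cross product. -/
def cross (z w : ℂ) : ℝ := z.re * w.im - z.im * w.re

theorem convex_three {K : Set ℂ} (hK : Convex ℝ K) {A B C : ℂ} (hA : A ∈ K) (hB : B ∈ K)
    (hC : C ∈ K) {α β γ : ℝ} (h1 : 0 ≤ α) (h2 : 0 ≤ β) (h3 : 0 ≤ γ) (h : α + β + γ = 1) :
    α • A + β • B + γ • C ∈ K := by
  have := hK.sum_mem (t := Finset.univ) (w := ![α, β, γ]) (z := ![A, B, C])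
    (by intro i _; fin_cases i <;> simpa) (by simpa [Fin.sum_univ_three] using h)
    (by intro i _; fin_cases i <;> simpa)
  simpa [Fin.sum_univ_three] using this

/-- A non-degenerate triangle contains a disc. -/
theorem exists_ball_of_cross {A B C : ℂ} (h : 0 < cross (B - A) (C - A)) :
    ∃ Z : ℂ, ∃ r : ℝ, 0 < r ∧ closedBall Z r ⊆ convexHull ℝ {A, B, C} := by
  set Δ := cross (B - A) (C - A) with hΔ
  let U : Set ℂ := {z | 0 < cross (z - A) (C - A) / Δ} ∩ ({z | 0 < cross (B - A) (z - A) / Δ} ∩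
    {z | cross (z - A) (C - A) / Δ + cross (B - A) (z - A) / Δ < 1})
  have c1 : Continuous fun z : ℂ => cross (z - A) (C - A) / Δ := by
    unfold cross; fun_prop
  have c2 : Continuous fun z : ℂ => cross (B - A) (z - A) / Δ := by
    unfold cross; fun_prop
  have hU : IsOpen U := (isOpen_lt continuous_const c1).inter
    ((isOpen_lt continuous_const c2).inter (isOpen_lt (c1.add c2) continuous_const))
  have hZ : A + (1/3 : ℝ) • (B - A) + (1/3 : ℝ) • (C - A) ∈ U := by
    have e1 : cross (A + (1/3 : ℝ) • (B - A) + (1/3 : ℝ) • (C - A) - A) (C - A) = Δ / 3 := by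
      rw [hΔ]
      simp only [cross, Complex.add_re, Complex.add_im, Complex.sub_re, Complex.sub_im,
        Complex.smul_re, Complex.smul_im, smul_eq_mul]
      ring
    have e2 : cross (B - A) (A + (1/3 : ℝ) • (B - A) + (1/3 : ℝ) • (C - A) - A) = Δ / 3 := by
      rw [hΔ]
      simp only [cross, Complex.add_re, Complex.add_im, Complex.sub_re, Complex.sub_im,
        Complex.smul_re, Complex.smul_im, smul_eq_mul]
      ring
    have e3 : Δ / 3 / Δ = 1 / 3 := by
      field_simp
    refine ⟨?_, ?_, ?_⟩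
    · show 0 < cross (A + (1/3 : ℝ) • (B - A) + (1/3 : ℝ) • (C - A) - A) (C - A) / Δ
      rw [e1, e3]; norm_num
    · show 0 < cross (B - A) (A + (1/3 : ℝ) • (B - A) + (1/3 : ℝ) • (C - A) - A) / Δ
      rw [e2, e3]; norm_num
    · show cross (A + (1/3 : ℝ) • (B - A) + (1/3 : ℝ) • (C - A) - A) (C - A) / Δ +
        cross (B - A) (A + (1/3 : ℝ) • (B - A) + (1/3 : ℝ) • (C - A) - A) / Δ < 1
      rw [e1, e2, e3]; norm_num
  obtain ⟨r, hr, hball⟩ := Metric.isOpen_iff.1 hU _ hZ
  refine ⟨_, r / 2, by linarith, (closedBall_subset_ball (by linarith)).trans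
    (hball.trans ?_)⟩
  rintro z ⟨h1, h2, h3⟩
  have h1 : 0 < cross (z - A) (C - A) / Δ := h1
  have h2 : 0 < cross (B - A) (z - A) / Δ := h2
  have h3 : cross (z - A) (C - A) / Δ + cross (B - A) (z - A) / Δ < 1 := h3
  set β := cross (z - A) (C - A) / Δ with hβ
  set γ := cross (B - A) (z - A) / Δ with hγ
  have hz : z = (1 - β - γ) • A + β • B + γ • C := by
    have hΔ0 : Δ ≠ 0 := h.ne'
    have f1 : β * Δ = cross (z - A) (C - A) := by rw [hβ]; field_simp
    have f2 : γ * Δ = cross (B - A) (z - A) := by rw [hγ]; field_simp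
    apply Complex.ext
    · apply mul_left_cancel₀ hΔ0
      simp only [Complex.add_re, Complex.smul_re, smul_eq_mul]
      have : Δ * ((1 - β - γ) * A.re + β * B.re + γ * C.re) =
          Δ * A.re + (β * Δ) * (B.re - A.re) + (γ * Δ) * (C.re - A.re) := by ring
      rw [this, f1, f2, hΔ]
      simp only [cross, Complex.sub_re, Complex.sub_im]
      ring
    · apply mul_left_cancel₀ hΔ0
      simp only [Complex.add_im, Complex.smul_im, smul_eq_mul]
      have : Δ * ((1 - β - γ) * A.im + β * B.im + γ * C.im) =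
          Δ * A.im + (β * Δ) * (B.im - A.im) + (γ * Δ) * (C.im - A.im) := by ring
      rw [this, f1, f2, hΔ]
      simp only [cross, Complex.sub_re, Complex.sub_im]
      ring
  have hc := convex_convexHull ℝ ({A, B, C} : Set ℂ)
  have m1 : A ∈ convexHull ℝ ({A, B, C} : Set ℂ) := subset_convexHull ℝ _ (by simp)
  have m2 : B ∈ convexHull ℝ ({A, B, C} : Set ℂ) := subset_convexHull ℝ _ (by simp)
  have m3 : C ∈ convexHull ℝ ({A, B, C} : Set ℂ) := subset_convexHull ℝ _ (by simp)
  rw [hz]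
  exact convex_three hc m1 m2 m3 (by linarith) h1.le h2.le (by ring)

namespace Prof

variable {ι : Type} [Fintype ι] (P : Prof ι)

/-! ### the functionals -/

theorem dot_X_le {t : ℝ} (ht : t ∈ Icc P.a P.b) {z : ℂ} (hz : z ∈ P.H) :
    dot (z - P.X t) (e t) ≤ 0 := by
  have h1 : dot (z - P.X t) (e t) = dot (z - P.Y t) (e t) - 1 := by
    have : z - P.X t = (z - P.Y t) - e t := by rw [Y]; ring
    rw [this, dot_sub_left, dot_e_e, sub_self, Real.cos_zero]
  have h2 := dot_le_norm (z - P.Y t) (e t)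
  have h3 := P.dist_H_le hz (P.Y_mem_H ht)
  rw [dist_eq_norm] at h3
  rw [norm_e, mul_one] at h2
  linarith

theorem dot_Y_nonneg {t : ℝ} (ht : t ∈ Icc P.a P.b) {z : ℂ} (hz : z ∈ P.H) :
    0 ≤ dot (z - P.Y t) (e t) := by
  have h1 : dot (z - P.Y t) (e t) = dot (z - P.X t) (e t) + 1 := by
    have : z - P.Y t = (z - P.X t) + e t := by rw [Y]; ring
    rw [this, dot_add_left, dot_e_e, sub_self, Real.cos_zero]
  have h2 := dot_le_norm (P.X t - z) (e t)
  have h3 := P.dist_H_le (P.X_mem_H ht) hz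
  rw [dist_eq_norm] at h3
  rw [norm_e, mul_one] at h2
  have h4 : dot (P.X t - z) (e t) = - dot (z - P.X t) (e t) := by
    rw [← neg_sub, dot_neg_left]
  linarith

theorem f_X_sum (s t : ℝ) : P.f t (P.X s) =
    ∑ i, P.w i * (Real.sin (min s (P.th i) - t) - Real.sin (min t (P.th i) - t)) := by
  rw [f_eq, X, X, ← Finset.sum_sub_distrib, dot_sum_left]
  refine Finset.sum_congr rfl fun i _ => ?_
  rw [← smul_sub, dot_smul_left, dot_sub_left, dot_e_n, dot_e_n]

/-- `C = X a` is below every chord. -/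
theorem f_C {t : ℝ} (ht : t ∈ Icc P.a P.b) : P.f t (P.X P.a) ≤ 0 := by
  have hpi := Real.pi_pos
  rcases le_total (t - P.a) (Real.pi / 2) with h | h
  · rw [f_X_sum]
    refine Finset.sum_nonpos fun i _ => mul_nonpos_of_nonneg_of_nonpos (P.hw i) ?_
    rw [sub_nonpos, min_eq_left (P.ha i)]
    exact Real.sin_le_sin_of_le_of_le_pi_div_two (by linarith)
      (by linarith [min_le_left t (P.th i)]) (by linarith [le_min ht.1 (P.ha i)])
  · have h1 : P.f t (P.X P.a) = ∑ i, P.w i * (Real.sin (P.th i - t) - Real.sin (P.b - t) -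
        Real.sin (min t (P.th i) - t)) := by
      have h2 : P.X P.a = ∑ i, P.w i • (e (P.th i) - e P.b) := by
        simp only [smul_sub, Finset.sum_sub_distrib]
        rw [← Finset.sum_smul, P.hsum, one_smul, P.clos, P.X_a]
        ring
      rw [f_eq, h2, X, ← Finset.sum_sub_distrib, dot_sum_left]
      refine Finset.sum_congr rfl fun i _ => ?_
      rw [← smul_sub, dot_smul_left, dot_sub_left, dot_sub_left, dot_e_n, dot_e_n, dot_e_n]
    rw [h1]
    refine Finset.sum_nonpos fun i _ => mul_nonpos_of_nonneg_of_nonpos (P.hw i) ?_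
    have hb : P.b - t ≤ Real.pi / 2 := by linarith [P.hba]
    rcases le_total t (P.th i) with h2 | h2
    · rw [min_eq_left h2, sub_self, Real.sin_zero, sub_zero, sub_nonpos]
      exact Real.sin_le_sin_of_le_of_le_pi_div_two (by linarith) (by linarith)
        (by linarith [P.hb i])
    · rw [min_eq_right h2]
      have := Real.sin_nonneg_of_nonneg_of_le_pi (x := P.b - t) (by linarith [ht.2])
        (by linarith)
      linarith

theorem f_X_nonpos {s t : ℝ} (hs : P.a ≤ s) (hst : s ≤ t) (ht : t ≤ P.b) :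
    P.f t (P.X s) ≤ 0 := by
  have hpi := Real.pi_pos
  rcases le_total (t - s) (Real.pi / 2) with h | h
  · rw [f_X_sum]
    refine Finset.sum_nonpos fun i _ => mul_nonpos_of_nonneg_of_nonpos (P.hw i) ?_
    rw [sub_nonpos]
    rcases le_total (P.th i) s with h1 | h1
    · rw [min_eq_right h1, min_eq_right (h1.trans hst)]
    · rw [min_eq_left h1]
      exact Real.sin_le_sin_of_le_of_le_pi_div_two (by linarith)
        (by linarith [min_le_left t (P.th i)]) (by linarith [le_min hst h1])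
  · have h1 : P.f t (P.X s) - P.f t (P.X P.a) =
        ∑ i, P.w i * (Real.sin (min s (P.th i) - t) - Real.sin (P.a - t)) := by
      rw [f_X_sum, f_X_sum, ← Finset.sum_sub_distrib]
      refine Finset.sum_congr rfl fun i _ => ?_
      rw [min_eq_left (P.ha i)]
      ring
    have h2 : P.f t (P.X s) - P.f t (P.X P.a) ≤ 0 := by
      rw [h1]
      refine Finset.sum_nonpos fun i _ => mul_nonpos_of_nonneg_of_nonpos (P.hw i) ?_
      rw [sub_nonpos]
      have h3 := le_min hs (P.ha i)
      have h4 := min_le_left s (P.th i)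
      have e1 : Real.sin (min s (P.th i) - t) =
          - Real.sin (Real.pi - (t - min s (P.th i))) := by
        rw [Real.sin_pi_sub, ← Real.sin_neg]; congr 1; ring
      have e2 : Real.sin (P.a - t) = - Real.sin (Real.pi - (t - P.a)) := by
        rw [Real.sin_pi_sub, ← Real.sin_neg]; congr 1; ring
      rw [e1, e2, neg_le_neg_iff]
      exact Real.sin_le_sin_of_le_of_le_pi_div_two (by linarith [P.hba]) (by linarith)
        (by linarith)
    have h5 := P.f_C (t := t) ⟨hs.trans hst, ht⟩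
    linarith

theorem dot_conj (z w : ℂ) : dot (starRingEnd ℂ z) (starRingEnd ℂ w) = dot z w := by
  simp only [dot, Complex.conj_re, Complex.conj_im]; ring

theorem conj_n (t : ℝ) : starRingEnd ℂ (n t) = - n (-t) := by
  apply Complex.ext <;> simp

theorem f_rev (t : ℝ) (z : ℂ) :
    P.f t z = P.rev.f (-t) (starRingEnd ℂ (e P.a + e P.b - z)) := by
  rw [f_eq, f_eq]
  have h1 : z - P.X t = (z - P.Y t) - e t := by rw [Y]; ring
  rw [h1, dot_sub_left, dot_e_n, sub_self, Real.sin_zero, sub_zero, Y_eq_rev]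
  have h2 : z - (e P.a + e P.b - starRingEnd ℂ (P.rev.X (-t))) =
      - starRingEnd ℂ (starRingEnd ℂ (e P.a + e P.b - z) - P.rev.X (-t)) := by
    rw [map_sub, Complex.conj_conj]; ring
  rw [h2, dot_neg_left, ← dot_conj (starRingEnd ℂ _), Complex.conj_conj, conj_n, dot_comm,
    dot_neg_left, dot_comm, neg_neg]

theorem f_Y_nonpos {s t : ℝ} (ht : P.a ≤ t) (hst : t ≤ s) (hs : s ≤ P.b) :
    P.f t (P.Y s) ≤ 0 := by
  rw [f_rev, Y_eq_rev, sub_sub_cancel, Complex.conj_conj]
  exact P.rev.f_X_nonpos (neg_le_neg hs) (neg_le_neg hst) (neg_le_neg ht)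

/-- All partial sums `∑_{i ∈ A} w i e(th i)` are above all chords. -/
theorem f_pivot (A : Finset ι) {t : ℝ} (ht : t ∈ Icc P.a P.b) :
    0 ≤ P.f t (∑ i ∈ A, P.w i • e (P.th i)) := by
  classical
  have hpi := Real.pi_pos
  have h1 : P.f t (∑ i ∈ A, P.w i • e (P.th i)) = ∑ i, P.w i *
      ((if i ∈ A then Real.sin (P.th i - t) else 0) - Real.sin (min t (P.th i) - t)) := by
    rw [f_eq, dot_sub_left, dot_sum_left, X, dot_sum_left]
    have h2 : ∑ i ∈ A, dot (P.w i • e (P.th i)) (n t) =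
        ∑ i, if i ∈ A then dot (P.w i • e (P.th i)) (n t) else 0 := by
      rw [Finset.sum_ite_mem, Finset.univ_inter]
    rw [h2, ← Finset.sum_sub_distrib]
    refine Finset.sum_congr rfl fun i _ => ?_
    rw [dot_smul_left, dot_smul_left, dot_e_n, dot_e_n]
    split_ifs <;> ring
  rw [h1]
  refine Finset.sum_nonneg fun i _ => mul_nonneg (P.hw i) ?_
  rcases le_total t (P.th i) with h | h
  · rw [min_eq_left h, sub_self, Real.sin_zero, sub_zero]
    split_ifs
    · exact Real.sin_nonneg_of_nonneg_of_le_pi (by linarith) (by linarith [P.hb i, P.hba, ht.1])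
    · exact le_rfl
  · rw [min_eq_right h]
    split_ifs
    · simp
    · rw [zero_sub, ← Real.sin_neg]
      exact Real.sin_nonneg_of_nonneg_of_le_pi (by linarith) (by linarith [P.ha i, P.hba, ht.2])

/-! ### every chord is on the good side of one of the chords `th i` -/

include P in
theorem nonempty_index : Nonempty ι := by
  by_contra h
  rw [not_nonempty_iff] at h
  have := P.hsum
  simp at this

theorem exists_near_b : ∃ i, P.b - P.th i < Real.pi / 2 := by
  by_contra h
  push Not at h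
  have hpi := Real.pi_pos
  have h1 : dot (∑ i, P.w i • e (P.th i)) (e P.b) = dot (e P.a + e P.b) (e P.b) := by
    rw [P.clos]
  rw [dot_sum_left, dot_add_left, dot_e_e, dot_e_e, sub_self, Real.cos_zero] at h1
  have h2 : ∑ i, dot (P.w i • e (P.th i)) (e P.b) ≤ 0 := by
    refine Finset.sum_nonpos fun i _ => ?_
    rw [dot_smul_left, dot_e_e]
    refine mul_nonpos_of_nonneg_of_nonpos (P.hw i) ?_
    rw [← Real.cos_neg, neg_sub]
    exact Real.cos_nonpos_of_pi_div_two_le_of_le (h i) (by linarith [P.ha i, P.hba])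
  have h3 : -1 < Real.cos (P.a - P.b) := by
    rw [← Real.cos_pi, ← Real.cos_neg (P.a - P.b), neg_sub]
    exact Real.cos_lt_cos_of_nonneg_of_le_pi (by linarith [P.hab]) le_rfl
      (by linarith [P.hba])
  linarith

theorem rev_mem_H {z : ℂ} (hz : z ∈ P.H) : starRingEnd ℂ (e P.a + e P.b - z) ∈ P.rev.H := by
  have hclosed : IsClosed {z : ℂ | starRingEnd ℂ (e P.a + e P.b - z) ∈ P.rev.H} := by
    refine P.rev.isCompact_H.isClosed.preimage ?_
    exact Complex.continuous_conj.comp (continuous_const.sub continuous_id)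
  have hconv : Convex ℝ {z : ℂ | starRingEnd ℂ (e P.a + e P.b - z) ∈ P.rev.H} := by
    intro x hx y hy α β hα hβ hαβ
    have := P.rev.convex_H hx hy hα hβ hαβ
    show starRingEnd ℂ (e P.a + e P.b - (α • x + β • y)) ∈ P.rev.H
    convert this using 1
    rw [Complex.real_smul, Complex.real_smul, Complex.real_smul, Complex.real_smul]
    simp only [map_sub, map_add, map_mul, Complex.conj_ofReal]
    have h1 : (α : ℂ) + (β : ℂ) = 1 := by exact_mod_cast hαβ
    linear_combination (-(starRingEnd ℂ (e P.a) + starRingEnd ℂ (e P.b))) * h1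
  refine (closure_minimal (convexHull_min ?_ hconv) hclosed) hz
  rintro _ (⟨t, ht, rfl⟩ | ⟨t, ht, rfl⟩)
  · show starRingEnd ℂ (e P.a + e P.b - P.X t) ∈ P.rev.H
    have : starRingEnd ℂ (e P.a + e P.b - P.X t) = P.rev.Y (-t) := by
      have h := P.Y_eq_rev t
      rw [Y, ← conj_e]
      have h2 : P.X t = P.Y t + e t := by rw [Y]; ring
      rw [h2, h]
      simp only [map_sub, map_add, Complex.conj_conj]
      ring
    rw [this]
    exact P.rev.Y_mem_H (P.mem_rev ht)
  · show starRingEnd ℂ (e P.a + e P.b - P.Y t) ∈ P.rev.H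
    rw [Y_eq_rev, sub_sub_cancel, Complex.conj_conj]
    exact P.rev.X_mem_H (P.mem_rev ht)

theorem mem_S_of_f {t : ℝ} (ht : t ∈ Icc P.a P.b) {z : ℂ} (hz : z ∈ P.H) (hf : P.f t z ≤ 0) :
    z ∈ P.S := by
  classical
  have hpi := Real.pi_pos
  suffices h : ∃ i, P.f (P.th i) z ≤ 0 by
    obtain ⟨i, hi⟩ := h
    exact mem_iUnion.2 ⟨i, hz, hi⟩
  by_contra hcon
  push Not at hcon
  -- upper neighbour
  have up : ∀ Q : Prof ι, ∀ t ∈ Icc Q.a Q.b, ∀ z ∈ Q.H, (∀ i, 0 < Q.f (Q.th i) z) →
      (∀ i, Q.th i ≤ t) → 0 < Q.f t z := by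
    intro Q t ht z hz hpos hle
    obtain ⟨i0, hi0⟩ := Q.exists_near_b
    obtain ⟨k, -, hk⟩ := Finset.exists_max_image Finset.univ Q.th ⟨i0, Finset.mem_univ _⟩
    have hk' : ∀ i, Q.th i ≤ Q.th k := fun i => hk i (Finset.mem_univ i)
    have hX : Q.X t = Q.X (Q.th k) := by
      unfold X
      refine Finset.sum_congr rfl fun i _ => ?_
      rw [min_eq_right (hle i), min_eq_right (hk' i)]
    have hδ0 : 0 ≤ t - Q.th k := by linarith [hle k]
    have hδ1 : t - Q.th k < Real.pi / 2 := by linarith [hk' i0, ht.2]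
    have h1 : Q.f t z = Real.cos (t - Q.th k) * Q.f (Q.th k) z -
        Real.sin (t - Q.th k) * dot (z - Q.X (Q.th k)) (e (Q.th k)) := by
      rw [f_eq, f_eq, hX]
      simp only [dot, n_re, n_im, e_re, e_im]
      have e1 : Real.sin t = Real.sin (Q.th k + (t - Q.th k)) := by congr 1; ring
      have e2 : Real.cos t = Real.cos (Q.th k + (t - Q.th k)) := by congr 1; ring
      rw [e1, e2, Real.sin_add, Real.cos_add]
      ring
    have h2 := Q.dot_X_le (t := Q.th k) ⟨Q.ha k, Q.hb k⟩ hz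
    have h3 : 0 < Real.cos (t - Q.th k) := Real.cos_pos_of_mem_Ioo ⟨by linarith, hδ1⟩
    have h4 : 0 ≤ Real.sin (t - Q.th k) :=
      Real.sin_nonneg_of_nonneg_of_le_pi hδ0 (by linarith)
    have h5 := mul_pos h3 (hpos k)
    have h6 := mul_nonneg h4 (neg_nonneg.2 h2)
    rw [h1]
    linarith
  by_cases hA : ∀ i, P.th i ≤ t
  · exact absurd (up P t ht z hz hcon hA) (not_lt.2 hf)
  push Not at hA
  by_cases hB : ∀ i, t < P.th i
  · have hz' : starRingEnd ℂ (e P.a + e P.b - z) ∈ P.rev.H := P.rev_mem_H hz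
    have := up P.rev (-t) (P.mem_rev ht) _ hz' (fun i => by
      have := hcon i
      rw [f_rev] at this
      exact this) (fun i => neg_le_neg (hB i).le)
    rw [← f_rev] at this
    exact absurd this (not_lt.2 hf)
  push Not at hB
  obtain ⟨k0, hk0⟩ := hA
  obtain ⟨j0, hj0⟩ := hB
  obtain ⟨k, hkm, hk⟩ := Finset.exists_min_image (Finset.univ.filter fun i => t < P.th i) P.th
    ⟨k0, by simpa using hk0⟩
  obtain ⟨j, hjm, hj⟩ := Finset.exists_max_image (Finset.univ.filter fun i => P.th i ≤ t) P.th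
    ⟨j0, by simpa using hj0⟩
  simp only [Finset.mem_filter, Finset.mem_univ, true_and] at hkm hk hjm hj
  have hX : ∀ u, P.th j ≤ u → u ≤ P.th k → P.f u z =
      dot (z - ∑ i ∈ Finset.univ.filter (fun i => P.th i ≤ t), P.w i • e (P.th i)) (n u) := by
    intro u h1 h2
    rw [f_eq, dot_sub_left, dot_sub_left, X, dot_sum_left, dot_sum_left, Finset.sum_filter]
    congr 1
    refine Finset.sum_congr rfl fun i _ => ?_
    split_ifs with h
    · rw [min_eq_right ((hj i h).trans h1)]
    · rw [min_eq_left (h2.trans (hk i (not_le.1 h))), dot_smul_left, dot_e_n, sub_self,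
        Real.sin_zero, mul_zero]
  have f1 := hX (P.th j) le_rfl (hjm.trans hkm.le)
  have f2 := hX (P.th k) (hjm.trans hkm.le) le_rfl
  have f3 := hX t hjm hkm.le
  set Q := z - ∑ i ∈ Finset.univ.filter (fun i => P.th i ≤ t), P.w i • e (P.th i)
  have key : Real.sin (P.th k - P.th j) * dot Q (n t) =
      Real.sin (P.th k - t) * dot Q (n (P.th j)) + Real.sin (t - P.th j) * dot Q (n (P.th k)) := by
    simp only [dot, n_re, n_im, Real.sin_sub]
    ring
  have g1 : 0 < Real.sin (P.th k - t) :=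
    Real.sin_pos_of_pos_of_lt_pi (by linarith) (by linarith [P.hb k, ht.1, P.hba])
  have g2 : 0 ≤ Real.sin (t - P.th j) :=
    Real.sin_nonneg_of_nonneg_of_le_pi (by linarith) (by linarith [P.ha j, ht.2, P.hba])
  have g3 : 0 ≤ Real.sin (P.th k - P.th j) :=
    Real.sin_nonneg_of_nonneg_of_le_pi (by linarith) (by linarith [P.ha j, P.hb k, P.hba])
  have g4 := mul_pos g1 (f1 ▸ hcon j)
  have g5 := mul_nonneg g2 (f2 ▸ hcon k).le
  have g6 : Real.sin (P.th k - P.th j) * dot Q (n t) ≤ 0 :=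
    mul_nonpos_of_nonneg_of_nonpos g3 (f3 ▸ hf)
  linarith

/-! ### universality -/

/-- The path of the hinges: first the tails, then the heads. -/
noncomputable def G (u : ℝ) : ℂ := if u ≤ P.b then P.Y u else P.X (u - (P.b - P.a))

theorem G_of_le {u : ℝ} (h : u ≤ P.b) : P.G u = P.Y u := if_pos h

theorem G_of_ge {u : ℝ} (h : P.b ≤ u) : P.G u = P.X (u - (P.b - P.a)) := by
  rcases h.eq_or_lt with rfl | h
  · rw [P.G_of_le le_rfl, P.Y_b, sub_sub_cancel, P.X_a]
  · exact if_neg (not_le.2 h)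

theorem continuous_G : Continuous P.G := by
  refine Continuous.if_le P.continuous_Y
    (P.continuous_X.comp (continuous_id.sub continuous_const)) continuous_id continuous_const ?_
  intro u hu
  have hu : u = P.b := hu
  subst hu
  show P.Y P.b = P.X (P.b - (P.b - P.a))
  rw [P.Y_b, sub_sub_cancel, P.X_a]

theorem G_mem {t τ : ℝ} (ht : t ∈ Icc P.a P.b) (hτ : τ ∈ Icc t (t + (P.b - P.a))) :
    P.G τ ∈ P.H ∩ {z | P.f t z ≤ 0} := by
  rcases le_total τ P.b with h | h
  · rw [P.G_of_le h]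
    exact ⟨P.Y_mem_H ⟨ht.1.trans hτ.1, h⟩, P.f_Y_nonpos ht.1 hτ.1 h⟩
  · rw [P.G_of_ge h]
    have h1 : P.a ≤ τ - (P.b - P.a) := by linarith
    have h2 : τ - (P.b - P.a) ≤ t := by linarith [hτ.2]
    exact ⟨P.X_mem_H ⟨h1, h2.trans ht.2⟩, P.f_X_nonpos h1 h2 ht.2⟩

theorem convex_f (t : ℝ) : Convex ℝ {z | P.f t z ≤ 0} := by
  intro x hx y hy α β hα hβ hαβ
  have hx : P.f t x ≤ 0 := hx
  have hy : P.f t y ≤ 0 := hy
  show P.f t (α • x + β • y) ≤ 0
  have h1 : P.f t (α • x + β • y) = α * P.f t x + β * P.f t y := by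
    have hβ' : β = 1 - α := by linarith
    subst hβ'
    unfold f
    simp only [Complex.sub_re, Complex.sub_im, Complex.add_re, Complex.add_im, Complex.smul_re,
      Complex.smul_im, smul_eq_mul]
    ring
  rw [h1]
  have := mul_nonpos_of_nonneg_of_nonpos hα hx
  have := mul_nonpos_of_nonneg_of_nonpos hβ hy
  linarith

theorem segment_subset {t : ℝ} (ht : t ∈ Icc P.a P.b) {z w : ℂ} (hz : z ∈ P.H ∩ {z | P.f t z ≤ 0})
    (hw : w ∈ P.H ∩ {z | P.f t z ≤ 0}) : segment ℝ z w ⊆ P.S := by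
  have h := ((P.convex_H).inter (P.convex_f t)).segment_subset hz hw
  exact fun x hx => P.mem_S_of_f ht (h hx).1 (h hx).2

theorem universal_S : Universal P.S := by
  have hab := P.hab
  refine universal_of_path (a := P.a) (b := 2 * P.b - P.a) (by linarith) (G := P.G)
    P.continuous_G.continuousOn ?_
  intro s hs
  rcases le_total s P.b with h | h
  · have ht : s ∈ Icc P.a P.b := ⟨hs.1, h⟩
    refine ⟨s + (P.b - P.a), ⟨by linarith [hs.1], by linarith⟩, ?_, ?_⟩
    · rw [P.G_of_le h, P.G_of_ge (by linarith [hs.1]), add_sub_cancel_right, dist_comm,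
        P.dist_X_Y]
    · intro τ hτ
      rw [uIcc_of_le (by linarith)] at hτ
      exact P.segment_subset ht (P.G_mem ht ⟨le_rfl, by linarith⟩) (P.G_mem ht hτ)
  · have ht : s - (P.b - P.a) ∈ Icc P.a P.b := ⟨by linarith, by linarith [hs.2]⟩
    refine ⟨s - (P.b - P.a), ⟨by linarith, by linarith [hs.2]⟩, ?_, ?_⟩
    · rw [P.G_of_ge h, P.G_of_le (by linarith [hs.2]), P.dist_X_Y]
    · intro τ hτ
      rw [uIcc_of_ge (by linarith)] at hτ
      exact P.segment_subset ht (P.G_mem ht ⟨by linarith, by linarith⟩)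
        (P.G_mem ht ⟨hτ.1, by linarith [hτ.2]⟩)

/-! ### the boundary -/

theorem isCase_S_of_ball {Z : ℂ} {r : ℝ} (hr : 0 < r)
    (h : ∀ i, closedBall Z r ⊆ P.H ∩ {z | P.f (P.th i) z ≤ 0}) : IsCase P.S :=
  haveI := P.nonempty_index
  isCase_iUnion hr (fun _ => P.convex_H.inter (P.convex_f _)) h P.isCompact_S

theorem dot_Y_ge {t : ℝ} (ht : t ∈ Icc P.a P.b) {z : ℂ} (hz : z ∈ P.H) :
    0 ≤ dot (z - P.Y t) (e t) := P.dot_Y_nonneg ht hz

/-- If all angles are interior to `[a,b]`, then `S` is a case. -/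
theorem isCase_S (h0 : ∀ i, P.a < P.th i) (h1 : ∀ i, P.th i < P.b) : IsCase P.S := by
  classical
  have hpi := Real.pi_pos
  have hne : Nonempty ι := P.nonempty_index
  obtain ⟨i0, -, hi0⟩ := Finset.exists_min_image Finset.univ P.th Finset.univ_nonempty
  obtain ⟨i1, -, hi1⟩ := Finset.exists_max_image Finset.univ P.th Finset.univ_nonempty
  have hi0' : ∀ i, P.th i0 ≤ P.th i := fun i => hi0 i (Finset.mem_univ i)
  have hi1' : ∀ i, P.th i ≤ P.th i1 := fun i => hi1 i (Finset.mem_univ i)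
  have hX0 : P.X (P.th i0) = e (P.th i0) := by
    unfold X
    have : ∀ i, P.w i • e (min (P.th i0) (P.th i)) = P.w i • e (P.th i0) := fun i => by
      rw [min_eq_left (hi0' i)]
    simp only [this]
    rw [← Finset.sum_smul, P.hsum, one_smul]
  have hX1 : P.X (P.th i1) = e P.a + e P.b := by
    unfold X
    rw [← P.clos]
    exact Finset.sum_congr rfl fun i _ => by rw [min_eq_right (hi1' i)]
  have hcross : 0 < cross (P.X (P.th i0) - P.X P.a) (P.Y (P.th i1) - P.X P.a) := by
    have e1 : P.Y (P.th i1) - P.X P.a = e P.b - e (P.th i1) := by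
      rw [Y, hX1, P.X_a]; ring
    rw [e1, hX0, P.X_a]
    have e2 : cross (e (P.th i0) - e P.a) (e P.b - e (P.th i1)) =
        4 * (Real.sin ((P.th i0 - P.a) / 2) * (Real.sin ((P.b - P.th i1) / 2) *
          Real.sin ((P.b + P.th i1 - P.th i0 - P.a) / 2))) := by
      have e3 : cross (e (P.th i0) - e P.a) (e P.b - e (P.th i1)) =
          Real.sin (P.b - P.th i0) - Real.sin (P.th i1 - P.th i0) - Real.sin (P.b - P.a) +
            Real.sin (P.th i1 - P.a) := by
        simp only [cross, Complex.sub_re, Complex.sub_im, e_re, e_im, Real.sin_sub]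
        ring
      rw [e3]
      set u := (P.th i0 - P.a) / 2 with hu
      set v := (P.b - P.th i1) / 2 with hv
      set w := (P.b + P.th i1 - P.th i0 - P.a) / 2 with hw
      have b1 : P.b - P.th i0 = (w - u) + v := by rw [hu, hv, hw]; ring
      have b2 : P.th i1 - P.th i0 = (w - u) - v := by rw [hu, hv, hw]; ring
      have b3 : P.b - P.a = (w + u) + v := by rw [hu, hv, hw]; ring
      have b4 : P.th i1 - P.a = (w + u) - v := by rw [hu, hv, hw]; ring
      rw [b1, b2, b3, b4]
      simp only [Real.sin_add, Real.sin_sub, Real.cos_add, Real.cos_sub]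
      ring
    rw [e2]
    have s1 : 0 < Real.sin ((P.th i0 - P.a) / 2) :=
      Real.sin_pos_of_pos_of_lt_pi (by linarith [h0 i0]) (by linarith [P.hb i0, P.hba])
    have s2 : 0 < Real.sin ((P.b - P.th i1) / 2) :=
      Real.sin_pos_of_pos_of_lt_pi (by linarith [h1 i1]) (by linarith [P.ha i1, P.hba])
    have s3 : 0 < Real.sin ((P.b + P.th i1 - P.th i0 - P.a) / 2) :=
      Real.sin_pos_of_pos_of_lt_pi (by linarith [h1 i1, h0 i0, hi0' i1, P.hab])
        (by linarith [P.ha i0, P.hb i1, P.hba])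
    positivity
  obtain ⟨Z, r, hr, hball⟩ := exists_ball_of_cross hcross
  have hab := P.hab.le
  refine isCase_iUnion (Z := Z) (r := r) hr (fun i => P.convex_H.inter (P.convex_f _)) ?_
    P.isCompact_S
  intro i
  refine hball.trans (convexHull_min ?_ (P.convex_H.inter (P.convex_f _)))
  rintro z (rfl | rfl | rfl)
  · exact ⟨P.X_mem_H ⟨le_rfl, hab⟩, P.f_C ⟨P.ha i, P.hb i⟩⟩
  · exact ⟨P.X_mem_H ⟨P.ha i0, P.hb i0⟩, P.f_X_nonpos (P.ha i0) (hi0' i) (P.hb i)⟩
  · exact ⟨P.Y_mem_H ⟨P.ha i1, P.hb i1⟩, P.f_Y_nonpos (P.ha i) (hi1' i) (P.hb i1)⟩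

end Prof

end Pool.Agent.Ruler
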