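import Mathlib
import Pool.Agent.Ruler.Basic
import Pool.Agent.Ruler.Defs

/-!
MP_067807_co: a universal set of diameter at most one gives a chord system with the chain property.
-/

open Set

namespace Pool.Agent.Ruler

private lemma norm_ex (t : ℝ) : ‖ex t‖ = 1 := by
  have h : ‖ex t‖ ^ 2 = 1 := by
    rw [← Complex.normSq_eq_norm_sq, Complex.normSq_apply]
    simp only [ex]
    nlinarith [Real.sin_sq_add_cos_sq t]
  have h0 := norm_nonneg (ex t)
  nlinarith

private lemma ex_add_pi (t : ℝ) : ex (t + Real.pi) = - ex t := by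
  apply Complex.ext
  · simp [ex, Real.cos_add_pi]
  · simp [ex, Real.sin_add_pi]

private lemma ex_cont : Continuous ex := by
  have : ex = fun t => ((Real.cos t : ℝ) : ℂ) + ((Real.sin t : ℝ) : ℂ) * Complex.I := by
    funext t
    apply Complex.ext
    · simp [ex, -Complex.ofReal_cos, -Complex.ofReal_sin]
    · simp [ex, -Complex.ofReal_cos, -Complex.ofReal_sin]
  rw [this]
  fun_prop

private lemma univ_unique {K : Set ℂ} (hd : ∀ x ∈ K, ∀ y ∈ K, ‖x - y‖ ≤ 1) {e x y : ℂ}
    (he : ‖e‖ = 1) (hx : x ∈ K) (hxe : x - e ∈ K) (hy : y ∈ K) (hye : y - e ∈ K) : x = y := by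
  have h1 : ‖(x - y) + e‖ ≤ 1 := by
    have := hd x hx (y - e) hye
    rwa [show x - (y - e) = (x - y) + e by ring] at this
  have h2 : ‖(x - y) - e‖ ≤ 1 := by
    have := hd (x - e) hxe y hy
    rwa [show x - e - y = (x - y) - e by ring] at this
  have h3 := parallelogram_law_with_norm ℝ (x - y) e
  have h4 : ‖x - y‖ = 0 := by
    have a1 := norm_nonneg ((x - y) + e)
    have a2 := norm_nonneg ((x - y) - e)
    have a3 := norm_nonneg (x - y)
    nlinarith
  exact sub_eq_zero.mp (norm_eq_zero.mp h4)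

private lemma univ_angle (A : ℝ) {z : ℂ} (hz : ‖z‖ = 1) :
    ∃ θ : ℝ, A ≤ θ ∧ θ < A + Real.pi ∧ (ex θ = z ∨ ex θ = -z) := by
  have hz0 : z ≠ 0 := by
    intro h
    rw [h, norm_zero] at hz
    exact zero_ne_one hz
  have h1 : ex z.arg = z := by
    apply Complex.ext
    · simp only [ex]
      rw [Complex.cos_arg hz0, hz, div_one]
    · simp only [ex]
      rw [Complex.sin_arg, hz, div_one]
  obtain ⟨m, hm, _⟩ := existsUnique_add_zsmul_mem_Ico Real.pi_pos z.arg A
  refine ⟨z.arg + m • Real.pi, hm.1, hm.2, ?_⟩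
  have key : ∀ m : ℤ, ∀ t : ℝ, ex (t + m * Real.pi) = ex t ∨ ex (t + m * Real.pi) = - ex t := by
    intro m t
    rcases Int.even_or_odd m with ⟨r, hr⟩ | ⟨r, hr⟩
    · left
      have : t + (m:ℝ) * Real.pi = t + (r:ℝ) * (2 * Real.pi) := by
        rw [hr]; push_cast; ring
      rw [this]
      apply Complex.ext
      · simp only [ex]; rw [Real.cos_add_int_mul_two_pi]
      · simp only [ex]; rw [Real.sin_add_int_mul_two_pi]
    · right
      have : t + (m:ℝ) * Real.pi = (t + (r:ℝ) * (2 * Real.pi)) + Real.pi := by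
        rw [hr]; push_cast; ring
      rw [this, ex_add_pi]
      congr 1
      apply Complex.ext
      · simp only [ex]; rw [Real.cos_add_int_mul_two_pi]
      · simp only [ex]; rw [Real.sin_add_int_mul_two_pi]
  rw [zsmul_eq_mul]
  have h2 := key m z.arg
  rwa [h1] at h2

theorem exists_chordSys {K : Set ℂ} (hK : IsCompact K) (hd : ∀ x ∈ K, ∀ y ∈ K, ‖x - y‖ ≤ 1)
    (hU : Universal K) :
    ∃ S : ChordSys, S.T.Nonempty ∧ (∀ t ∈ S.T, S.X t ∈ K) ∧ S.Chains := by
  classical
  set T : Set ℝ := {t | ∃ x, x ∈ K ∧ x - ex t ∈ K} with hT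
  set X : ℝ → ℂ := fun t => if h : ∃ x, x ∈ K ∧ x - ex t ∈ K then h.choose else 0 with hX
  have hX1 : ∀ t ∈ T, X t ∈ K ∧ X t - ex t ∈ K := by
    intro t ht
    have ht' : ∃ x, x ∈ K ∧ x - ex t ∈ K := ht
    simp only [hX, dif_pos ht']
    exact ht'.choose_spec
  have hX2 : ∀ t x, x ∈ K → x - ex t ∈ K → X t = x := by
    intro t x hx hx'
    have ht : t ∈ T := ⟨x, hx, hx'⟩
    exact univ_unique hd (norm_ex t) (hX1 t ht).1 (hX1 t ht).2 hx hx'
  have hper : ∀ t, t ∈ T → t + Real.pi ∈ T := by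
    rintro t ⟨x, hx, hx'⟩
    refine ⟨x - ex t, hx', ?_⟩
    rw [ex_add_pi]
    simpa using hx
  have hper2 : ∀ t, t + Real.pi ∈ T → t ∈ T := by
    rintro t ⟨x, hx, hx'⟩
    rw [ex_add_pi] at hx'
    refine ⟨x + ex t, ?_, ?_⟩
    · simpa using hx'
    · simpa using hx
  have hclosed : IsClosed T := by
    have hc : IsCompact ((fun q : ℂ × ℂ => q.1 - q.2) '' (K ×ˢ K)) :=
      (hK.prod hK).image (continuous_fst.sub continuous_snd)
    have : T = ex ⁻¹' ((fun q : ℂ × ℂ => q.1 - q.2) '' (K ×ˢ K)) := by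
      ext t
      constructor
      · rintro ⟨x, hx, hx'⟩
        exact ⟨(x, x - ex t), ⟨hx, hx'⟩, by simp⟩
      · rintro ⟨⟨x, y⟩, ⟨hx, hy⟩, hxy⟩
        refine ⟨x, hx, ?_⟩
        simp only at hxy hx hy
        rw [← hxy]
        simpa using hy
    rw [this]
    exact hc.isClosed.preimage ex_cont
  let S : ChordSys :=
    { T := T
      X := X
      closed := hclosed
      per := fun t => ⟨hper t, hper2 t⟩
      tail := by
        intro t ht
        apply hX2
        · exact (hX1 t ht).2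
        · rw [ex_add_pi]
          simpa using (hX1 t ht).1
      dist_le := fun s hs t ht => hd _ (hX1 s hs).1 _ (hX1 t ht).1 }
  have hP : ∀ A : ℝ, ∀ x y : ℂ, x ∈ K → y ∈ K → dist x y = 1 →
      ∃ θ : ℝ, ∃ σ : Bool, (θ ∈ S.T ∧ A ≤ θ ∧ θ < A + Real.pi) ∧ S.P σ θ = y ∧
        S.P (!σ) θ = x := by
    intro A x y hx hy hxy
    have hz : ‖y - x‖ = 1 := by rw [← dist_eq_norm, dist_comm]; exact hxy
    obtain ⟨θ, h1, h2, h3⟩ := univ_angle A hz
    rcases h3 with h3 | h3
    · have e1 : y - ex θ = x := by rw [h3]; ring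
      have hXy : X θ = y := hX2 θ y hy (by rw [e1]; exact hx)
      refine ⟨θ, true, ⟨⟨y, hy, by rw [e1]; exact hx⟩, h1, h2⟩, ?_, ?_⟩
      · simp only [ChordSys.P, if_true]
        exact hXy
      · have : S.P (!true) θ = X θ - ex θ := by simp [ChordSys.P, S]
        rw [this, hXy, e1]
    · have e1 : x - ex θ = y := by rw [h3]; ring
      have hXy : X θ = x := hX2 θ x hx (by rw [e1]; exact hy)
      refine ⟨θ, false, ⟨⟨x, hx, by rw [e1]; exact hy⟩, h1, h2⟩, ?_, ?_⟩
      · have : S.P false θ = X θ - ex θ := by simp [ChordSys.P, S]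
        rw [this, hXy, e1]
      · have : S.P (!false) θ = X θ := by simp [ChordSys.P, S]
        rw [this, hXy]
  have hCh : S.Chains := by
    intro A n l hl
    set L : List ℝ := List.ofFn (n := 2 * n + 1)
      (fun i => if (i : ℕ) % 2 = 0 then (1:ℝ) else l ((i : ℕ) / 2)) with hL
    have hlen : L.length = 2 * n + 1 := by simp [hL]
    have hget : ∀ i (hi : i < L.length), L[i] = if i % 2 = 0 then (1:ℝ) else l (i / 2) := by
      intro i hi
      rw [List.getElem_of_eq hL hi, List.getElem_ofFn]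
    have hR : UnitRuler L := by
      constructor
      · intro x hx
        obtain ⟨i, hi, rfl⟩ := List.getElem_of_mem hx
        rw [hget i hi]
        split_ifs with h
        · exact ⟨one_pos, le_rfl⟩
        · have : i / 2 < n := by omega
          exact ⟨(hl _ this).1, (hl _ this).2.le⟩
      · have h0 : 0 < L.length := by omega
        have := hget 0 h0
        simp only [Nat.zero_mod, if_true] at this
        rw [← this]
        exact List.getElem_mem h0
    obtain ⟨p, hp⟩ := hU L hR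
    have hpK : ∀ i, i < L.length → p i ∈ K ∧ p (i + 1) ∈ K := by
      intro i hi
      exact ⟨(hp i hi).2 (left_mem_segment ℝ _ _), (hp i hi).2 (right_mem_segment ℝ _ _)⟩
    have hex : ∀ k : ℕ, ∃ θ : ℝ, ∃ σ : Bool, k ≤ n →
        ((θ ∈ S.T ∧ A ≤ θ ∧ θ < A + Real.pi) ∧ S.P σ θ = p (2 * k + 1) ∧
          S.P (!σ) θ = p (2 * k)) := by
      intro k
      by_cases hk : k ≤ n
      · have hi : 2 * k < L.length := by omega
        have h1 := (hp (2 * k) hi).1
        rw [hget (2 * k) hi] at h1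
        simp only [Nat.mul_mod_right, if_true] at h1
        obtain ⟨θ, σ, h⟩ := hP A _ _ (hpK _ hi).1 (hpK _ hi).2 h1
        exact ⟨θ, σ, fun _ => h⟩
      · exact ⟨0, true, fun h => absurd h hk⟩
    choose θ σ hθ using hex
    refine ⟨θ, σ, fun k hk => (hθ k hk).1, ?_⟩
    intro k hk
    rw [(hθ k hk.le).2.1, (hθ (k + 1) hk).2.2]
    have hi : 2 * k + 1 < L.length := by omega
    have h1 := (hp (2 * k + 1) hi).1
    rw [hget (2 * k + 1) hi] at h1
    rw [if_neg (by omega : ¬ (2 * k + 1) % 2 = 0)] at h1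
    rw [show (2 * k + 1) / 2 = k by omega] at h1
    rw [← h1, dist_eq_norm, show 2 * (k + 1) = 2 * k + 1 + 1 by ring]
  refine ⟨S, ?_, fun t ht => (hX1 t ht).1, hCh⟩
  obtain ⟨θ, σ, h, _⟩ := hCh 0 0 (fun _ => 0) (fun k hk => absurd hk (Nat.not_lt_zero k))
  exact ⟨θ 0, (h 0 le_rfl).1⟩

end Pool.Agent.Ruler
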